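import Pool.Agent.Lib_MP_3483a5_an.Base

/-!
# MP_3483a5_an, piece GL

`|G z x| = (4π|z|)^{-d/2} e^{-‖x‖² Re z/(4|z|²)}` (the exponent of the complex power is real).
Integrate with `GaussianFourier.integral_rexp_neg_mul_sq_norm`:
`∫|G z|² = (4π|z|)^{-d} (2π|z|²/Re z)^{d/2} = (8π Re z)^{-d/2}`.
-/

open MeasureTheory Filter Topology Complex SchwartzMap
open scoped FourierTransform LineDeriv Laplacian ENNReal NNReal ComplexConjugate

namespace MP3483
variable {d : ℕ}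

theorem gl_norm (z : ℂ) (x : Sp d) :
    ‖G z x‖ = (4 * Real.pi * ‖z‖) ^ (-(d : ℝ) / 2) *
      Real.exp (-(z.re / (4 * ‖z‖ ^ 2)) * ‖x‖ ^ 2) := by
  unfold G
  rw [norm_mul]
  congr 1
  · have h1 : (-(d : ℂ) / 2) = ((-(d : ℝ) / 2 : ℝ) : ℂ) := by push_cast; ring
    rw [h1, Complex.norm_cpow_real]
    congr 1
    rw [norm_mul, norm_mul]
    simp [abs_of_pos Real.pi_pos]
  · rw [Complex.norm_exp]
    congr 1
    have h2 : ((‖x‖ : ℂ) ^ 2 / (4 * z)) = (((‖x‖ ^ 2 : ℝ) : ℂ) / (4 * z)) := by push_cast; rfl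
    rw [h2, neg_re, Complex.div_re, ofReal_re, ofReal_im]
    have h3 : (4 * z).re = 4 * z.re := by simp
    have h4 : Complex.normSq (4 * z) = 16 * ‖z‖ ^ 2 := by
      rw [Complex.normSq_mul, Complex.normSq_eq_norm_sq z]
      norm_num [Complex.normSq]
    rw [h3, h4, zero_mul, zero_div, add_zero]
    have h5 : ‖x‖ ^ 2 * (4 * z.re) / (16 * ‖z‖ ^ 2) = z.re / (4 * ‖z‖ ^ 2) * ‖x‖ ^ 2 := by
      rcases eq_or_ne ‖z‖ 0 with h | h
      · simp [h]
      · field_simp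
        ring
    rw [h5, neg_mul]

theorem gl_int (b : ℝ) (hb : 0 < b) :
    ∫ x : Sp d, Real.exp (-b * ‖x‖ ^ 2) = (b / Real.pi) ^ (-(d : ℝ) / 2) := by
  rw [GaussianFourier.integral_rexp_neg_mul_sq_norm hb, finrank_euclideanSpace_fin, neg_div,
    Real.rpow_neg (by positivity), ← Real.inv_rpow (by positivity), inv_div]

theorem G_l2 (z : ℂ) (hz : 0 < z.re) :
    ∫ x : Sp d, ‖G z x‖ ^ 2 = (8 * Real.pi * z.re) ^ (-(d : ℝ) / 2) := by
  have hz0 : 0 < ‖z‖ := norm_pos_iff.2 fun h => by rw [h, zero_re] at hz; exact lt_irrefl _ hz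
  have hpi := Real.pi_pos
  have h1 : ∀ x : Sp d, ‖G z x‖ ^ 2 = ((4 * Real.pi * ‖z‖) ^ 2) ^ (-(d : ℝ) / 2) *
      Real.exp (-(z.re / (2 * ‖z‖ ^ 2)) * ‖x‖ ^ 2) := by
    intro x
    rw [gl_norm, mul_pow, ← Real.exp_nat_mul]
    congr 1
    · rw [← Real.rpow_natCast, ← Real.rpow_natCast, ← Real.rpow_mul (by positivity),
        ← Real.rpow_mul (by positivity)]
      congr 1
      ring
    · congr 1
      push_cast
      field_simp
      ring
  simp only [h1]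
  rw [integral_const_mul, gl_int _ (by positivity), ← Real.mul_rpow (by positivity) (by positivity)]
  congr 1
  field_simp
  ring

theorem G_l1 (s : ℝ) (hs : 0 < s) : ∫ x : Sp d, ‖G (s : ℂ) x‖ = 1 := by
  have hpi := Real.pi_pos
  have h1 : ‖(s : ℂ)‖ = s := by rw [Complex.norm_real, Real.norm_of_nonneg hs.le]
  simp only [gl_norm, h1, ofReal_re]
  rw [integral_const_mul, gl_int _ (by positivity), ← Real.mul_rpow (by positivity) (by positivity)]
  have h2 : 4 * Real.pi * s * (s / (4 * s ^ 2) / Real.pi) = 1 := by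
    field_simp
  rw [h2, Real.one_rpow]

theorem G_sup (z : ℂ) (hz : 0 < z.re) (x : Sp d) :
    ‖G z x‖ ≤ (4 * Real.pi * ‖z‖) ^ (-(d : ℝ) / 2) := by
  rw [gl_norm]
  have h1 : Real.exp (-(z.re / (4 * ‖z‖ ^ 2)) * ‖x‖ ^ 2) ≤ 1 := by
    rw [Real.exp_le_one_iff, neg_mul, neg_nonpos]
    positivity
  have h2 : 0 ≤ (4 * Real.pi * ‖z‖) ^ (-(d : ℝ) / 2) := by
    have := Real.pi_pos
    positivity
  exact mul_le_of_le_one_right h2 h1

end MP3483
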