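import Pool.Agent.Lib_MP_3483a5_an.YG
import Pool.Agent.Lib_MP_3483a5_an.GL

/-!
# MP_3483a5_an, piece AI

The heat kernels at time `1/(n+1)` form an approximate identity in `L^p`, `1 ≤ p < ∞`.
Proof.  `hk n` is a nonnegative real function with integral `1` (`G_l1` in `GL`, import it).  By density
(`MemLp.exists_hasCompactSupport_eLpNorm_sub_le`) and `young` (norm `≤ 1`) it is enough to treat `f`
continuous with compact support.  Jensen: `|cv (hk n) f x - f x|^p ≤ ∫ hk n y |f(x-y) - f x|^p dy`, so the `p`-th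
power of the norm is at most `∫ hk n y g(y) dy`, `g(y) = ‖f(·-y) - f‖_p^p`, a bounded function
(`≤ 2^p ‖f‖_p^p`), and `g(y) → 0` as `y → 0` (uniform continuity and compact support), while
`∫_{‖y‖≥r} hk n → 0` for each `r > 0` (scaling: `∫_{‖y‖≥r} G_s ≤ C s/r²`).  Alternatively substitute
`y = √s η`: `∫ G_1(η) g(√s η) dη → 0` by dominated convergence (this is the shortest way).
-/

open MeasureTheory Filter Topology Complex SchwartzMap
open scoped FourierTransform LineDeriv Laplacian ENNReal NNReal ComplexConjugate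

namespace MP3483
variable {d : ℕ}

/-- translations are continuous in `L^p` -/
theorem ai_trans {p : ℝ≥0∞} (hp : 1 ≤ p) (hp' : p ≠ ⊤) {f : Sp d → ℂ} (hf : MemLp f p volume) :
    Continuous (fun y : Sp d => (eLpNorm (fun x => f (x - y) - f x) p volume).toReal) := by
  have : Fact (1 ≤ p) := ⟨hp⟩
  let g : C(Sp d, C(Sp d, Sp d)) :=
    (ContinuousMap.mk (fun a : Sp d × Sp d => a.2 - a.1) (by fun_prop)).curry
  have hg : ∀ y, MeasurePreserving (g y) volume volume := fun y =>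
    measurePreserving_sub_right volume y
  have hc := Continuous.compMeasurePreservingLp (f := fun _ : Sp d => hf.toLp f)
    continuous_const g.continuous hg hp'
  have h1 : Continuous fun y =>
      ‖Lp.compMeasurePreserving (g y) (hg y) (hf.toLp f) - hf.toLp f‖ :=
    (hc.sub continuous_const).norm
  refine h1.congr fun y => ?_
  have e1 : Lp.compMeasurePreserving (g y) (hg y) (hf.toLp f) =
      (hf.comp_measurePreserving (hg y)).toLp (f ∘ g y) := rfl
  rw [e1, ← MemLp.toLp_sub, Lp.norm_toLp]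
  rfl

theorem ai_G {s : ℝ} (hs : 0 < s) (x : Sp d) :
    G (s : ℂ) x = (((4 * Real.pi * s) ^ (-(d : ℝ) / 2) *
      Real.exp (-(‖x‖ ^ 2 / (4 * s))) : ℝ) : ℂ) := by
  unfold G
  rw [ofReal_mul, Complex.ofReal_cpow (by positivity)]
  push_cast
  rfl

theorem ai_Gn {s : ℝ} (hs : 0 < s) (x : Sp d) :
    ‖G (s : ℂ) x‖ = (4 * Real.pi * s) ^ (-(d : ℝ) / 2) * Real.exp (-(‖x‖ ^ 2 / (4 * s))) := by
  rw [ai_G hs, Complex.norm_real, Real.norm_of_nonneg (by positivity)]

theorem ai_G' {s : ℝ} (hs : 0 < s) (x : Sp d) : G (s : ℂ) x = ((‖G (s : ℂ) x‖ : ℝ) : ℂ) := by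
  rw [ai_Gn hs, ai_G hs]

theorem ai_scale {s : ℝ} (hs : 0 < s) (g : Sp d → ℝ) :
    ∫ y : Sp d, ‖G (s : ℂ) y‖ * g y =
      ∫ y : Sp d, ‖G ((1 : ℝ) : ℂ) y‖ * g (Real.sqrt s • y) := by
  have h := Measure.integral_comp_smul_of_nonneg (volume : Measure (Sp d))
    (fun y => ‖G (s : ℂ) y‖ * g y) (Real.sqrt s) (hR := Real.sqrt_nonneg s)
  have hss : Real.sqrt s ^ 2 = s := Real.sq_sqrt hs.le
  have hfin : Module.finrank ℝ (Sp d) = d := by simp
  have hd : (Real.sqrt s ^ d)⁻¹ = s ^ (-(d : ℝ) / 2) := by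
    rw [Real.sqrt_eq_rpow, ← Real.rpow_natCast, ← Real.rpow_mul hs.le, ← Real.rpow_neg hs.le]
    congr 1
    ring
  have hpos : 0 < s ^ (-(d : ℝ) / 2) := Real.rpow_pos_of_pos hs _
  have h2 : ∀ y : Sp d, ‖G (s : ℂ) (Real.sqrt s • y)‖ * g (Real.sqrt s • y) =
      s ^ (-(d : ℝ) / 2) * (‖G ((1 : ℝ) : ℂ) y‖ * g (Real.sqrt s • y)) := by
    intro y
    rw [ai_Gn hs, ai_Gn one_pos, norm_smul, Real.norm_of_nonneg (Real.sqrt_nonneg s), mul_pow, hss,
      mul_one, Real.mul_rpow (by positivity) hs.le]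
    have e : s * ‖y‖ ^ 2 / (4 * s) = ‖y‖ ^ 2 / (4 * 1) := by
      field_simp
    rw [e]
    ring_nf
  rw [hfin, hd, smul_eq_mul] at h
  simp only [h2] at h
  rw [integral_const_mul] at h
  exact (mul_left_cancel₀ hpos.ne' h).symm

theorem ai_lim {g : Sp d → ℝ} (hg : Continuous g) {B : ℝ} (hB : ∀ y, |g y| ≤ B) :
    Tendsto (fun n : ℕ => ∫ y : Sp d, ‖G ((1 / ((n : ℝ) + 1) : ℝ) : ℂ) y‖ * g y) atTop
      (𝓝 (g 0)) := by
  have h1 : ∀ n : ℕ, ∫ y : Sp d, ‖G ((1 / ((n : ℝ) + 1) : ℝ) : ℂ) y‖ * g y =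
      ∫ y : Sp d, ‖G ((1 : ℝ) : ℂ) y‖ * g (Real.sqrt (1 / ((n : ℝ) + 1)) • y) := fun n =>
    ai_scale (by positivity) g
  simp only [h1]
  have h2 : g 0 = ∫ y : Sp d, ‖G ((1 : ℝ) : ℂ) y‖ * g 0 := by
    rw [integral_mul_const, G_l1 1 one_pos, one_mul]
  rw [h2]
  have hG : (fun y : Sp d => G ((1 : ℝ) : ℂ) y) = fun y => hk 0 y := by
    funext y
    rw [hk_apply]
    norm_num
  have hint : Integrable (fun y : Sp d => ‖G ((1 : ℝ) : ℂ) y‖) := by
    have := (hk 0 : 𝓢(Sp d, ℂ)).integrable.norm (μ := volume)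
    simpa only [congrFun hG] using this
  have hm : AEStronglyMeasurable (fun y : Sp d => ‖G ((1 : ℝ) : ℂ) y‖) volume := hint.1
  refine tendsto_integral_of_dominated_convergence (fun y => ‖G ((1 : ℝ) : ℂ) y‖ * B)
    (fun n => hm.mul (hg.comp (continuous_const_smul _)).aestronglyMeasurable)
    (hint.mul_const B) (fun n => Eventually.of_forall fun y => ?_)
    (Eventually.of_forall fun y => ?_)
  · rw [norm_mul, norm_norm]
    exact mul_le_mul_of_nonneg_left (hB _) (norm_nonneg _)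
  · refine Tendsto.const_mul _ ?_
    refine (hg.tendsto 0).comp ?_
    have h3 : Tendsto (fun n : ℕ => Real.sqrt (1 / ((n : ℝ) + 1))) atTop (𝓝 0) := by
      have := (Real.continuous_sqrt.tendsto 0).comp
        (tendsto_one_div_add_atTop_nhds_zero_nat (𝕜 := ℝ))
      rw [Real.sqrt_zero] at this
      exact this
    have h4 := h3.smul_const y
    rw [zero_smul] at h4
    exact h4

theorem ai_conv {p : ℝ≥0∞} (hp : 1 ≤ p) {f : Sp d → ℂ}
    (hf : MemLp f p volume) (n : ℕ) (x : Sp d) :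
    cv (hk n) f x - f x = ∫ y, (f (x - y) - f x) * hk n y := by
  have e1 : cv (hk n) f x = ∫ y, f (x - y) * hk n y := by
    unfold cv
    have := integral_sub_left_eq_self (fun y => f (x - y) * (hk n : 𝓢(Sp d, ℂ)) y) volume x
    simpa only [sub_sub_cancel] using this
  have h1 : ∫ y : Sp d, hk n y = 1 := by
    have hs : (0 : ℝ) < 1 / ((n : ℝ) + 1) := by positivity
    have := G_l1 (d := d) (1 / ((n : ℝ) + 1)) hs
    calc ∫ y : Sp d, hk n y = ∫ y : Sp d, ((‖G (((1 / ((n : ℝ) + 1) : ℝ)) : ℂ) y‖ : ℝ) : ℂ) := by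
          refine integral_congr_ae (Eventually.of_forall fun y => ?_)
          change hk n y = _
          rw [hk_apply]
          exact ai_G' hs y
      _ = ((∫ y : Sp d, ‖G (((1 / ((n : ℝ) + 1) : ℝ)) : ℂ) y‖ : ℝ) : ℂ) := integral_ofReal
      _ = 1 := by rw [this, ofReal_one]
  have e2 : f x = ∫ y : Sp d, f x * hk n y := by
    rw [integral_const_mul, h1, mul_one]
  have hq : Integrable (fun y => f (x - y) * (hk n : 𝓢(Sp d, ℂ)) y) volume := by
    have hfx : MemLp (fun y => f (x - y)) p volume :=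
      hf.comp_measurePreserving (Measure.measurePreserving_sub_left volume x)
    haveI : ENNReal.HolderConjugate p (ENNReal.conjExponent p) :=
      ENNReal.HolderConjugate.conjExponent hp
    exact MemLp.integrable_mul hfx ((hk n : 𝓢(Sp d, ℂ)).memLp (ENNReal.conjExponent p) volume)
  rw [e1]
  conv_lhs => rw [e2]
  rw [← integral_sub hq ((hk n : 𝓢(Sp d, ℂ)).integrable.const_mul (f x))]
  refine integral_congr_ae (Eventually.of_forall fun y => ?_)
  change _ = (f (x - y) - f x) * hk n y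
  ring

theorem ai_bound {p : ℝ≥0∞} (hp : 1 ≤ p) (hp' : p ≠ ⊤) {f : Sp d → ℂ} (hf : MemLp f p volume)
    (hfm : Measurable f) {g : Sp d → ℝ} (hgc : Continuous g) {B : ℝ} (hB : ∀ y, |g y| ≤ B)
    (hg0 : ∀ y, 0 ≤ g y)
    (hg : ∀ y, (eLpNorm (fun x => f (x - y) - f x) p volume) ^ p.toReal = ENNReal.ofReal (g y))
    (n : ℕ) :
    eLpNorm (fun x => cv (hk n) f x - f x) p volume ≤
      (ENNReal.ofReal (∫ y : Sp d, ‖G ((1 / ((n : ℝ) + 1) : ℝ) : ℂ) y‖ * g y)) ^
        (1 / p.toReal) := by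
  have hs : (0 : ℝ) < 1 / ((n : ℝ) + 1) := by positivity
  have hp0 : p ≠ 0 := (one_pos.trans_le hp).ne'
  have hr1 : 1 ≤ p.toReal := by
    rw [← ENNReal.toReal_one]
    exact ENNReal.toReal_mono hp' hp
  have hr0 : 0 < p.toReal := by linarith
  set k : Sp d → ℝ≥0∞ := fun y => ‖(hk n : 𝓢(Sp d, ℂ)) y‖ₑ with hkdef
  have hkm : Measurable k := (hk n : 𝓢(Sp d, ℂ)).continuous.enorm.measurable
  set ν : Measure (Sp d) := volume.withDensity k with hν
  have hkG : ∀ y, k y = ENNReal.ofReal ‖G ((1 / ((n : ℝ) + 1) : ℝ) : ℂ) y‖ := by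
    intro y
    rw [hkdef]
    change ‖(hk n : 𝓢(Sp d, ℂ)) y‖ₑ = _
    rw [hk_apply, ofReal_norm]
  have hGi : Integrable (fun y : Sp d => ‖G ((1 / ((n : ℝ) + 1) : ℝ) : ℂ) y‖) := by
    have := (hk n : 𝓢(Sp d, ℂ)).integrable.norm (μ := volume)
    simpa only [hk_apply] using this
  have hk1 : ∫⁻ y, k y = 1 := by
    simp only [hkG]
    rw [← ofReal_integral_eq_lintegral_ofReal hGi (Eventually.of_forall fun y => norm_nonneg _),
      G_l1 _ hs, ENNReal.ofReal_one]
  have : IsProbabilityMeasure ν := ⟨by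
    rw [hν, withDensity_apply _ MeasurableSet.univ, Measure.restrict_univ, hk1]⟩
  have hFm : Measurable (fun q : Sp d × Sp d => f (q.1 - q.2) - f q.1) :=
    (hfm.comp (measurable_fst.sub measurable_snd)).sub (hfm.comp measurable_fst)
  have key : ∀ x, ‖cv (hk n) f x - f x‖ₑ ^ p.toReal ≤
      ∫⁻ y, ‖f (x - y) - f x‖ₑ ^ p.toReal ∂ν := by
    intro x
    have hFx : Measurable (fun y => f (x - y) - f x) := hFm.comp measurable_prodMk_left
    have h1 : ‖cv (hk n) f x - f x‖ₑ ≤ ∫⁻ y, ‖f (x - y) - f x‖ₑ ∂ν := by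
      rw [ai_conv hp hf, hν, lintegral_withDensity_eq_lintegral_mul _ hkm hFx.enorm]
      refine (enorm_integral_le_lintegral_enorm _).trans (le_of_eq ?_)
      refine lintegral_congr fun y => ?_
      rw [enorm_mul, mul_comm]
      rfl
    have h2 := eLpNorm_le_eLpNorm_of_exponent_le (μ := ν) hp hFx.aestronglyMeasurable
    rw [eLpNorm_one_eq_lintegral_enorm, eLpNorm_eq_lintegral_rpow_enorm_toReal hp0 hp'] at h2
    calc ‖cv (hk n) f x - f x‖ₑ ^ p.toReal
        ≤ ((∫⁻ y, ‖f (x - y) - f x‖ₑ ^ p.toReal ∂ν) ^ (1 / p.toReal)) ^ p.toReal :=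
          ENNReal.rpow_le_rpow (h1.trans h2) hr0.le
      _ = ∫⁻ y, ‖f (x - y) - f x‖ₑ ^ p.toReal ∂ν := by
          rw [← ENNReal.rpow_mul, one_div, inv_mul_cancel₀ hr0.ne', ENNReal.rpow_one]
  rw [eLpNorm_eq_lintegral_rpow_enorm_toReal hp0 hp']
  refine ENNReal.rpow_le_rpow ?_ (by positivity)
  refine (lintegral_mono key).trans (le_of_eq ?_)
  rw [lintegral_lintegral_swap ((hFm.enorm.pow_const _).aemeasurable)]
  have h3 : ∀ y, ∫⁻ x, ‖f (x - y) - f x‖ₑ ^ p.toReal = ENNReal.ofReal (g y) := by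
    intro y
    rw [← hg y, eLpNorm_eq_lintegral_rpow_enorm_toReal hp0 hp', ← ENNReal.rpow_mul, one_div,
      inv_mul_cancel₀ hr0.ne', ENNReal.rpow_one]
  simp only [h3]
  rw [hν, lintegral_withDensity_eq_lintegral_mul _ hkm hgc.measurable.ennreal_ofReal,
    ofReal_integral_eq_lintegral_ofReal]
  · refine lintegral_congr fun y => ?_
    rw [Pi.mul_apply, hkG, ← ENNReal.ofReal_mul (norm_nonneg _)]
  · refine (hGi.mul_const B).mono' (hGi.1.mul hgc.aestronglyMeasurable)
      (Eventually.of_forall fun y => ?_)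
    rw [norm_mul, norm_norm]
    exact mul_le_mul_of_nonneg_left (hB y) (norm_nonneg _)
  · exact Eventually.of_forall fun y => mul_nonneg (norm_nonneg _) (hg0 y)

theorem ai_meas {p : ℝ≥0∞} (hp : 1 ≤ p) (hp' : p ≠ ⊤) {f : Sp d → ℂ} (hf : MemLp f p volume)
    (hfm : Measurable f) :
    Tendsto (fun n => eLpNorm (fun x => cv (hk n) f x - f x) p volume) atTop (𝓝 0) := by
  have hr1 : 1 ≤ p.toReal := by
    rw [← ENNReal.toReal_one]
    exact ENNReal.toReal_mono hp' hp
  have hr0 : 0 < p.toReal := by linarith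
  have hsub : ∀ y, MemLp (fun x => f (x - y)) p volume := fun y =>
    hf.comp_measurePreserving (measurePreserving_sub_right volume y)
  have hfin : ∀ y, eLpNorm (fun x => f (x - y) - f x) p volume ≠ ⊤ := fun y =>
    ((hsub y).sub hf).2.ne
  have heq : ∀ y, eLpNorm (fun x => f (x - y)) p volume = eLpNorm f p volume := fun y =>
    eLpNorm_comp_measurePreserving hf.1 (measurePreserving_sub_right volume y)
  set F : Sp d → ℝ := fun y => (eLpNorm (fun x => f (x - y) - f x) p volume).toReal with hF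
  have hFc : Continuous F := ai_trans hp hp' hf
  have hF0 : ∀ y, 0 ≤ F y := fun y => ENNReal.toReal_nonneg
  set C : ℝ := (eLpNorm f p volume + eLpNorm f p volume).toReal with hC
  have hFC : ∀ y, F y ≤ C := by
    intro y
    refine ENNReal.toReal_mono (ENNReal.add_ne_top.2 ⟨hf.2.ne, hf.2.ne⟩) ?_
    have := eLpNorm_sub_le (hsub y).1 hf.1 hp
    rw [heq y] at this
    exact this
  have hlim := ai_lim (g := fun y => F y ^ p.toReal) (hFc.rpow_const fun _ => Or.inr hr0.le)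
    (B := C ^ p.toReal) (fun y => by
      rw [abs_of_nonneg (Real.rpow_nonneg (hF0 y) _)]
      exact Real.rpow_le_rpow (hF0 y) (hFC y) hr0.le)
  have hb := fun n => ai_bound hp hp' hf hfm (g := fun y => F y ^ p.toReal)
    (hFc.rpow_const fun _ => Or.inr hr0.le) (B := C ^ p.toReal) (fun y => by
      rw [abs_of_nonneg (Real.rpow_nonneg (hF0 y) _)]
      exact Real.rpow_le_rpow (hF0 y) (hFC y) hr0.le)
    (fun y => Real.rpow_nonneg (hF0 y) _) (fun y => by
      rw [← ENNReal.ofReal_rpow_of_nonneg (hF0 y) hr0.le, hF, ENNReal.ofReal_toReal (hfin y)]) n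
  have hFz : F 0 ^ p.toReal = 0 := by
    have : F 0 = 0 := by
      rw [hF]
      simp
    rw [this, Real.zero_rpow hr0.ne']
  have hlim2 : Tendsto (fun n : ℕ => (ENNReal.ofReal
      (∫ y : Sp d, ‖G ((1 / ((n : ℝ) + 1) : ℝ) : ℂ) y‖ * F y ^ p.toReal)) ^ (1 / p.toReal))
      atTop (𝓝 0) := by
    rw [hFz] at hlim
    have h1 := (ENNReal.continuous_ofReal.tendsto 0).comp hlim
    rw [ENNReal.ofReal_zero] at h1
    have h2 := ((ENNReal.continuous_rpow_const (y := 1 / p.toReal)).tendsto 0).comp h1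
    rw [ENNReal.zero_rpow_of_pos (by positivity)] at h2
    exact h2
  exact tendsto_of_tendsto_of_tendsto_of_le_of_le tendsto_const_nhds hlim2
    (fun n => zero_le) hb

theorem approx_id {p : ℝ≥0∞} (hp : 1 ≤ p) (hp' : p ≠ ⊤) {f : Sp d → ℂ} (hf : MemLp f p volume) :
    Tendsto (fun n => eLpNorm (fun x => cv (hk n) f x - f x) p volume) atTop (𝓝 0) := by
  set f' : Sp d → ℂ := hf.1.mk f with hf'
  have hfm : Measurable f' := hf.1.stronglyMeasurable_mk.measurable
  have hae : f =ᵐ[volume] f' := hf.1.ae_eq_mk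
  have hfl : MemLp f' p volume := (memLp_congr_ae hae).1 hf
  have h := ai_meas hp hp' hfl hfm
  have hcv : ∀ n x, cv (hk n) f x = cv (hk n) f' x := by
    intro n x
    unfold cv
    refine integral_congr_ae ?_
    filter_upwards [hae] with y hy
    rw [hy]
  refine h.congr fun n => ?_
  refine eLpNorm_congr_ae ?_
  filter_upwards [hae] with x hx
  rw [hx, hcv]

end MP3483
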