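import Pool.Agent.Lib_MP_3483a5_an.YG
import Pool.Agent.Lib_MP_3483a5_an.AI

/-!
# MP_3483a5_an, piece AIT

Space-time versions on `[0,T] × ℝ^d` with the measure `muT d T`.
Proof.  Measurability: `StronglyMeasurable.integral_prod_right`.  Norms: `lintegral_prod` and `young`,
`approx_id` for the slices `F(t,·)` (in `L^p` for a.e. `t`): `∫_0^T ‖cv φ F(t)‖_p^p dt ≤ ‖φ‖₁^p ∫_0^T ‖F(t)‖_p^p dt`;
for `hk n` dominated convergence in `t`: the integrand tends to `0` and is bounded by `(2‖F(t)‖_p)^p`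
(`‖hk n‖₁ = 1`, `G_l1`).
-/

open MeasureTheory Filter Topology Complex SchwartzMap
open scoped FourierTransform LineDeriv Laplacian ENNReal NNReal ComplexConjugate

namespace MP3483
variable {d : ℕ}

theorem ait_pow {X : Type*} [MeasurableSpace X] {μ : Measure X} {p : ℝ≥0∞} (hp0 : p ≠ 0)
    (hp' : p ≠ ⊤) (f : X → ℂ) :
    eLpNorm f p μ ^ p.toReal = ∫⁻ x, ‖f x‖ₑ ^ p.toReal ∂μ := by
  have hr : p.toReal ≠ 0 := (ENNReal.toReal_pos hp0 hp').ne'
  rw [eLpNorm_eq_lintegral_rpow_enorm_toReal hp0 hp', ← ENNReal.rpow_mul, one_div,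
    inv_mul_cancel₀ hr, ENNReal.rpow_one]

theorem ait_slice {p : ℝ≥0∞} (hp0 : p ≠ 0) (hp' : p ≠ ⊤) {T : ℝ} {F : ℝ × Sp d → ℂ}
    (hm : Measurable F) : eLpNorm F p (muT d T) ^ p.toReal =
      ∫⁻ t in Set.Icc 0 T, eLpNorm (fun x => F (t, x)) p volume ^ p.toReal := by
  rw [ait_pow hp0 hp', muT, lintegral_prod _ (hm.enorm.pow_const _).aemeasurable]
  refine lintegral_congr fun t => ?_
  rw [ait_pow hp0 hp']

theorem ait_slice_meas {p : ℝ≥0∞} (hp0 : p ≠ 0) (hp' : p ≠ ⊤) {F : ℝ × Sp d → ℂ}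
    (hm : Measurable F) :
    Measurable (fun t => eLpNorm (fun x => F (t, x)) p volume ^ p.toReal) := by
  have h1 : (fun t => eLpNorm (fun x => F (t, x)) p volume ^ p.toReal) =
      fun t => ∫⁻ x, ‖F (t, x)‖ₑ ^ p.toReal := by
    funext t
    rw [ait_pow hp0 hp']
  rw [h1]
  exact (hm.enorm.pow_const p.toReal).lintegral_prod_right'

theorem ait_ae {p : ℝ≥0∞} (hp0 : p ≠ 0) (hp' : p ≠ ⊤) {T : ℝ} {F : ℝ × Sp d → ℂ}
    (hm : Measurable F) (hF : MemLp F p (muT d T)) :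
    ∀ᵐ t ∂(volume.restrict (Set.Icc 0 T)), MemLp (fun x => F (t, x)) p volume := by
  have hr : 0 < p.toReal := ENNReal.toReal_pos hp0 hp'
  have h1 := ait_slice (T := T) hp0 hp' hm
  have h2 : ∫⁻ t in Set.Icc 0 T, eLpNorm (fun x => F (t, x)) p volume ^ p.toReal ≠ ⊤ := by
    rw [← h1]
    exact ENNReal.rpow_ne_top_of_nonneg hr.le hF.2.ne
  filter_upwards [ae_lt_top (ait_slice_meas hp0 hp' hm) h2] with t ht
  refine ⟨(hm.comp measurable_prodMk_left).aestronglyMeasurable, ?_⟩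
  by_contra hcon
  have h3 : eLpNorm (fun x => F (t, x)) p volume = ⊤ := not_lt_top_iff.1 hcon
  rw [h3, ENNReal.top_rpow_of_pos hr] at ht
  exact lt_irrefl _ ht

theorem ait_cv_meas {F : ℝ × Sp d → ℂ} (hm : Measurable F) (φ : 𝓢(Sp d, ℂ)) :
    Measurable (fun q : ℝ × Sp d => cv φ (fun y => F (q.1, y)) q.2) := by
  have h1 : Measurable (fun s : (ℝ × Sp d) × Sp d => F (s.1.1, s.2) * φ (s.1.2 - s.2)) := by
    refine (hm.comp ((measurable_fst.comp measurable_fst).prodMk measurable_snd)).mul ?_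
    exact φ.continuous.measurable.comp ((measurable_snd.comp measurable_fst).sub measurable_snd)
  exact (h1.stronglyMeasurable.integral_prod_right (ν := (volume : Measure (Sp d)))).measurable

theorem young_T {p : ℝ≥0∞} (hp : 1 ≤ p) (hp' : p ≠ ⊤) {T : ℝ} {F : ℝ × Sp d → ℂ}
    (hm : Measurable F) (hF : MemLp F p (muT d T)) (φ : 𝓢(Sp d, ℂ)) :
    Measurable (fun q : ℝ × Sp d => cv φ (fun y => F (q.1, y)) q.2) ∧
    MemLp (fun q : ℝ × Sp d => cv φ (fun y => F (q.1, y)) q.2) p (muT d T) := by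
  have hp0 : p ≠ 0 := (one_pos.trans_le hp).ne'
  have hr : 0 < p.toReal := ENNReal.toReal_pos hp0 hp'
  have hcm := ait_cv_meas hm φ
  refine ⟨hcm, hcm.aestronglyMeasurable, ?_⟩
  have hC : eLpNorm φ 1 (volume : Measure (Sp d)) ≠ ⊤ := (φ.memLp 1 volume).2.ne
  have h1 : eLpNorm (fun q : ℝ × Sp d => cv φ (fun y => F (q.1, y)) q.2) p (muT d T) ^ p.toReal ≤
      eLpNorm φ 1 (volume : Measure (Sp d)) ^ p.toReal * eLpNorm F p (muT d T) ^ p.toReal := by
    rw [ait_slice hp0 hp' hcm, ait_slice hp0 hp' hm, ← lintegral_const_mul _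
      (ait_slice_meas hp0 hp' hm)]
    refine lintegral_mono_ae ?_
    filter_upwards [ait_ae hp0 hp' hm hF] with t ht
    rw [← ENNReal.mul_rpow_of_nonneg _ _ hr.le]
    exact ENNReal.rpow_le_rpow (young hp ht φ).2 hr.le
  have h2 : eLpNorm (fun q : ℝ × Sp d => cv φ (fun y => F (q.1, y)) q.2) p (muT d T) ^ p.toReal <
      ⊤ := h1.trans_lt (ENNReal.mul_lt_top
        (ENNReal.rpow_lt_top_of_nonneg hr.le hC) (ENNReal.rpow_lt_top_of_nonneg hr.le hF.2.ne))
  by_contra hcon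
  rw [not_lt_top_iff.1 hcon, ENNReal.top_rpow_of_pos hr] at h2
  exact lt_irrefl _ h2

theorem ait_tend {p : ℝ≥0∞} (hp : 1 ≤ p) (hp' : p ≠ ⊤) {T : ℝ} {F : ℝ × Sp d → ℂ}
    (hm : Measurable F) (hF : MemLp F p (muT d T)) (H : ℕ → ℝ × Sp d → ℂ)
    (hH : ∀ n, Measurable (H n))
    (hb : ∀ n t, MemLp (fun x => F (t, x)) p volume →
      eLpNorm (fun x => H n (t, x)) p volume ≤ 2 * eLpNorm (fun x => F (t, x)) p volume)
    (hl : ∀ t, MemLp (fun x => F (t, x)) p volume →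
      Tendsto (fun n => eLpNorm (fun x => H n (t, x)) p volume) atTop (𝓝 0)) :
    Tendsto (fun n => eLpNorm (H n) p (muT d T)) atTop (𝓝 0) := by
  have hp0 : p ≠ 0 := (one_pos.trans_le hp).ne'
  have hr : 0 < p.toReal := ENNReal.toReal_pos hp0 hp'
  have hlim : Tendsto (fun n : ℕ => ∫⁻ t in Set.Icc 0 T, eLpNorm
      (fun x => H n (t, x)) p volume ^ p.toReal) atTop (𝓝 (∫⁻ _t in Set.Icc (0 : ℝ) T, 0)) := by
    refine tendsto_lintegral_of_dominated_convergence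
      (fun t => (2 * eLpNorm (fun x => F (t, x)) p volume) ^ p.toReal) (fun n => ?_)
      (fun n => ?_) ?_ ?_
    · exact ait_slice_meas hp0 hp' (hH n)
    · filter_upwards [ait_ae hp0 hp' hm hF] with t ht
      exact ENNReal.rpow_le_rpow (hb n t ht) hr.le
    · simp only [ENNReal.mul_rpow_of_nonneg _ _ hr.le]
      rw [lintegral_const_mul _ (ait_slice_meas hp0 hp' hm), ← ait_slice hp0 hp' hm]
      exact (ENNReal.mul_lt_top (ENNReal.rpow_lt_top_of_nonneg hr.le (by norm_num))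
        (ENNReal.rpow_lt_top_of_nonneg hr.le hF.2.ne)).ne
    · filter_upwards [ait_ae hp0 hp' hm hF] with t ht
      have h2 := ((ENNReal.continuous_rpow_const (y := p.toReal)).tendsto 0).comp (hl t ht)
      rw [ENNReal.zero_rpow_of_pos hr] at h2
      exact h2
  rw [lintegral_zero] at hlim
  have h3 := ((ENNReal.continuous_rpow_const (y := 1 / p.toReal)).tendsto 0).comp hlim
  rw [ENNReal.zero_rpow_of_pos (by positivity)] at h3
  refine h3.congr (fun n => ?_)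
  have h4 := ait_slice (T := T) hp0 hp' (hH n)
  simp only [Function.comp]
  rw [← h4, ← ENNReal.rpow_mul, mul_one_div_cancel hr.ne', ENNReal.rpow_one]

theorem ait_hk (n : ℕ) : eLpNorm (hk n : 𝓢(Sp d, ℂ)) 1 (volume : Measure (Sp d)) = 1 := by
  have hs : (0 : ℝ) < 1 / ((n : ℝ) + 1) := by positivity
  have hGi : Integrable (fun y : Sp d => ‖G ((1 / ((n : ℝ) + 1) : ℝ) : ℂ) y‖) := by
    have := (hk n : 𝓢(Sp d, ℂ)).integrable.norm (μ := volume)
    simpa only [hk_apply] using this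
  rw [eLpNorm_one_eq_lintegral_enorm]
  have h1 : ∀ y : Sp d, ‖hk n y‖ₑ = ENNReal.ofReal ‖G ((1 / ((n : ℝ) + 1) : ℝ) : ℂ) y‖ := by
    intro y
    rw [hk_apply, ofReal_norm]
  simp only [h1]
  rw [← ofReal_integral_eq_lintegral_ofReal hGi (Eventually.of_forall fun y => norm_nonneg _),
    G_l1 _ hs, ENNReal.ofReal_one]

theorem ait_two {p : ℝ≥0∞} (hp : 1 ≤ p) {f : Sp d → ℂ} (hf : MemLp f p volume) (n : ℕ) :
    eLpNorm (fun x => cv (hk n) f x - f x) p volume ≤ 2 * eLpNorm f p volume := by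
  have hy := young hp hf (hk n)
  refine (eLpNorm_sub_le hy.1.1 hf.1 hp).trans ?_
  rw [two_mul]
  refine add_le_add ?_ le_rfl
  refine hy.2.trans (le_of_eq ?_)
  rw [ait_hk n, one_mul]

theorem ait_m {F : ℝ × Sp d → ℂ} (hm : Measurable F) (n : ℕ) :
    Measurable (fun q : ℝ × Sp d => cv (hk n) (fun y => F (q.1, y)) q.2 - F q) := by
  have h1 := ait_cv_meas hm (hk n)
  exact Measurable.sub h1 hm

theorem ait_2 {p : ℝ≥0∞} (hp : 1 ≤ p) {F : ℝ × Sp d → ℂ} (n : ℕ) (t : ℝ)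
    (ht : MemLp (fun x => F (t, x)) p volume) :
    eLpNorm (fun x => cv (hk n) (fun y => F (t, y)) x - F (t, x)) p volume ≤
      2 * eLpNorm (fun x => F (t, x)) p volume := ait_two hp ht n

theorem ait_3 {p : ℝ≥0∞} (hp : 1 ≤ p) (hp' : p ≠ ⊤) {F : ℝ × Sp d → ℂ} (t : ℝ)
    (ht : MemLp (fun x => F (t, x)) p volume) :
    Tendsto (fun n => eLpNorm (fun x => cv (hk n) (fun y => F (t, y)) x - F (t, x)) p volume)
      atTop (𝓝 0) := approx_id hp hp' ht

theorem approx_id_T {p : ℝ≥0∞} (hp : 1 ≤ p) (hp' : p ≠ ⊤) {T : ℝ} {F : ℝ × Sp d → ℂ}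
    (hm : Measurable F) (hF : MemLp F p (muT d T)) :
    Tendsto (fun n => eLpNorm (fun q : ℝ × Sp d => cv (hk n) (fun y => F (q.1, y)) q.2 - F q) p
      (muT d T)) atTop (𝓝 0) := by
  exact ait_tend hp hp' hm hF
    (fun n => fun q : ℝ × Sp d => cv (hk n) (fun y => F (q.1, y)) q.2 - F q)
    (fun n => ait_m hm n)
    (fun n t ht => ait_2 hp n t ht) (fun t ht => ait_3 hp hp' t ht)

end MP3483
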