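import Pool.Agent.Lib_MP_3483a5_an.Base0

/-!
# MP_3483a5_an, piece BA

A uniform boundedness (condensation of singularities) argument in `ℓ¹`; pure functional analysis.
Proof.  `X = lp (fun _ : ℕ => ℂ) 1` is complete, hence a Baire space.  For `n, M : ℕ` let
`O n M = {a | ∃ m, M < ‖c n m + ∑' k, a k * b n m k‖}`.  It is open: for fixed `n, m` the map
`a ↦ ∑' k, a k * b n m k` is Lipschitz on `ℓ¹` with constant `B n m`.  It is dense: given `a` and `δ > 0`
choose `m, k` with `‖b n m k‖ ≥ 2(M+1)/δ` and put `a' = a + δ e_k`; the values of the functional at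
`a'` and `a` differ by `δ b n m k`, of norm `≥ 2(M+1)`, so one of `a, a'` is in `O n M`.
By `dense_iInter_of_isOpen` (countable index `ℕ × ℕ`) there is `a` in the open unit ball lying in all
`O n M`.  For real `M` use a natural number above it.
-/

open MeasureTheory Filter Topology Complex SchwartzMap
open scoped FourierTransform LineDeriv Laplacian ENNReal NNReal ComplexConjugate

namespace MP3483
variable {d : ℕ}

theorem BA_summable (a : lp (fun _ : ℕ => ℂ) 1) : Summable (fun k => ‖a k‖) := by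
  have h := (memℓp_gen_iff (p := 1) (by simp)).1 (lp.memℓp a)
  simpa using h

theorem BA_norm (a : lp (fun _ : ℕ => ℂ) 1) : ‖a‖ = ∑' k, ‖a k‖ := by
  rw [lp.norm_eq_tsum_rpow (p := 1) (by simp)]
  simp

theorem BA_summable_mul (a : lp (fun _ : ℕ => ℂ) 1) {b : ℕ → ℂ} {B : ℝ} (hb : ∀ k, ‖b k‖ ≤ B) :
    Summable (fun k => ‖a k * b k‖) := by
  refine Summable.of_nonneg_of_le (fun _ => norm_nonneg _) (fun k => ?_)
    ((BA_summable a).mul_right B)
  rw [norm_mul]
  exact mul_le_mul_of_nonneg_left (hb k) (norm_nonneg _)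

/-- the functional on `ℓ¹` given by a bounded sequence -/
theorem BA_functional (b : ℕ → ℂ) (hb : ∃ B : ℝ, ∀ k, ‖b k‖ ≤ B) :
    ∃ L : lp (fun _ : ℕ => ℂ) 1 →L[ℂ] ℂ, ∀ a, L a = ∑' k, a k * b k := by
  obtain ⟨B, hB⟩ := hb
  have hsum : ∀ a : lp (fun _ : ℕ => ℂ) 1, Summable (fun k => a k * b k) := fun a =>
    (BA_summable_mul a hB).of_norm
  let L0 : lp (fun _ : ℕ => ℂ) 1 →ₗ[ℂ] ℂ :=
    { toFun := fun a => ∑' k, a k * b k
      map_add' := fun x y => by
        rw [← (hsum x).tsum_add (hsum y)]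
        refine tsum_congr fun k => ?_
        rw [lp.coeFn_add, Pi.add_apply, add_mul]
      map_smul' := fun r x => by
        rw [RingHom.id_apply, smul_eq_mul, ← tsum_mul_left]
        refine tsum_congr fun k => ?_
        rw [lp.coeFn_smul, Pi.smul_apply, smul_eq_mul, mul_assoc] }
  refine ⟨L0.mkContinuous B fun a => ?_, fun a => rfl⟩
  show ‖∑' k, a k * b k‖ ≤ B * ‖a‖
  refine (norm_tsum_le_tsum_norm (BA_summable_mul a hB)).trans ?_
  rw [BA_norm, ← tsum_mul_left]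
  refine (BA_summable_mul a hB).tsum_le_tsum (fun k => ?_) ((BA_summable a).mul_left B)
  rw [norm_mul, mul_comm]
  exact mul_le_mul_of_nonneg_right (hB k) (norm_nonneg _)

theorem baire_l1 (c : ℕ → ℕ → ℂ) (b : ℕ → ℕ → ℕ → ℂ) (hb : ∀ n m, ∃ B : ℝ, ∀ k, ‖b n m k‖ ≤ B)
    (hM : ∀ (n : ℕ) (M : ℝ), ∃ m k, M ≤ ‖b n m k‖) :
    ∃ a : ℕ → ℂ, Summable (fun k => ‖a k‖) ∧ ∑' k, ‖a k‖ ≤ 1 ∧
      ∀ (n : ℕ) (M : ℝ), ∃ m, M < ‖c n m + ∑' k, a k * b n m k‖ := by
  choose L hL using fun n m => BA_functional (b n m) (hb n m)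
  have hopen : ∀ q : ℕ × ℕ, IsOpen {a : lp (fun _ : ℕ => ℂ) 1 |
      ∃ m, (q.2 : ℝ) < ‖c q.1 m + L q.1 m a‖} := by
    intro q
    have h1 : {a : lp (fun _ : ℕ => ℂ) 1 | ∃ m, (q.2 : ℝ) < ‖c q.1 m + L q.1 m a‖} =
        ⋃ m, {a : lp (fun _ : ℕ => ℂ) 1 | (q.2 : ℝ) < ‖c q.1 m + L q.1 m a‖} := by
      ext a
      simp
    rw [h1]
    refine isOpen_iUnion fun m => ?_
    exact isOpen_lt continuous_const
      ((continuous_const.add (L q.1 m).continuous).norm)
  have hdense : ∀ q : ℕ × ℕ, Dense {a : lp (fun _ : ℕ => ℂ) 1 |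
      ∃ m, (q.2 : ℝ) < ‖c q.1 m + L q.1 m a‖} := by
    rintro ⟨n, M⟩
    rw [Metric.dense_iff]
    intro a r hr
    obtain ⟨m, k, hmk⟩ := hM n (2 * (M + 1) / (r / 2))
    rw [div_le_iff₀ (by positivity)] at hmk
    by_cases h1 : (M : ℝ) < ‖c n m + L n m a‖
    · exact ⟨a, Metric.mem_ball_self hr, m, h1⟩
    · refine ⟨a + lp.single 1 k (((r / 2 : ℝ)) : ℂ), ?_, m, ?_⟩
      · rw [Metric.mem_ball, dist_eq_norm, add_sub_cancel_left, lp.norm_single (by simp)]
        rw [Complex.norm_real, Real.norm_of_nonneg (by positivity)]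
        linarith
      · show (M : ℝ) < ‖c n m + L n m (a + lp.single 1 k (((r / 2 : ℝ)) : ℂ))‖
        have h2 : L n m (lp.single 1 k (((r / 2 : ℝ)) : ℂ)) = ((r / 2 : ℝ) : ℂ) * b n m k := by
          rw [hL, tsum_eq_single k]
          · rw [lp.single_apply_self]
          · intro k' hk'
            rw [lp.single_apply_ne _ _ _ hk', zero_mul]
        rw [map_add, h2]
        push Not at h1
        have h3 : ‖((r / 2 : ℝ) : ℂ) * b n m k‖ = r / 2 * ‖b n m k‖ := by
          rw [norm_mul, Complex.norm_real, Real.norm_of_nonneg (by positivity)]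
        have h4 : ‖((r / 2 : ℝ) : ℂ) * b n m k‖ ≤
            ‖c n m + (L n m a + ((r / 2 : ℝ) : ℂ) * b n m k)‖ + ‖c n m + L n m a‖ := by
          have h5 : ((r / 2 : ℝ) : ℂ) * b n m k =
              (c n m + (L n m a + ((r / 2 : ℝ) : ℂ) * b n m k)) - (c n m + L n m a) := by ring
          calc _ = ‖(c n m + (L n m a + ((r / 2 : ℝ) : ℂ) * b n m k)) - (c n m + L n m a)‖ := by
                rw [← h5]
            _ ≤ _ := norm_sub_le _ _
        rw [h3] at h4
        nlinarith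
  have hall := dense_iInter_of_isOpen hopen hdense
  obtain ⟨a, ha1, ha2⟩ := hall.exists_mem_open (Metric.isOpen_ball (x := (0 : lp (fun _ : ℕ => ℂ) 1))
    (ε := 1)) ⟨0, Metric.mem_ball_self one_pos⟩
  refine ⟨a, BA_summable a, ?_, fun n M => ?_⟩
  · rw [← BA_norm]
    have := mem_ball_zero_iff.1 ha2
    exact this.le
  · obtain ⟨N, hN⟩ := exists_nat_ge M
    obtain ⟨m, hm⟩ := Set.mem_iInter.1 ha1 (n, N)
    refine ⟨m, ?_⟩
    rw [← hL]
    exact lt_of_le_of_lt hN hm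

end MP3483
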