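import Pool.Agent.Lib_MP_3483a5_an.Base

/-!
# MP_3483a5_an, piece BN

A Schwartz function with very negative energy: take `w = l • gS 1` with `l` large.  With
`A_j = ‖∂_j w_1‖₂`, `R = ‖w_1‖_ρ > 0` for `w_1 = gS 1` (positive function), the norms of `w` are `l A_j`, `l R`, and
`(1/2) ∑ (l A_j + 1)² < (1/ρ) (l R - 1)^ρ` for `l` large, because `ρ > 2` (divide by `l²` or `l^ρ` and use
limits, or explicit estimates: `(l A_j+1)² ≤ l²(A_j+1)²`, `(lR-1)^ρ ≥ (lR/2)^ρ = l² l^{ρ-2} (R/2)^ρ`).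
-/

open MeasureTheory Filter Topology Complex SchwartzMap
open scoped FourierTransform LineDeriv Laplacian ENNReal NNReal ComplexConjugate

namespace MP3483
variable {d : ℕ}

theorem bn_eLpNorm_smul (w : 𝓢(Sp d, ℂ)) {l : ℝ} (hl : 0 ≤ l) (p : ℝ≥0∞) :
    (eLpNorm (l • w : 𝓢(Sp d, ℂ)) p volume).toReal = l * (eLpNorm w p volume).toReal := by
  have h1 : ((l • w : 𝓢(Sp d, ℂ)) : Sp d → ℂ) = l • (w : Sp d → ℂ) := by
    ext x
    rfl
  rw [h1, eLpNorm_const_smul, ENNReal.toReal_mul]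
  congr 1
  rw [toReal_enorm, Real.norm_of_nonneg hl]

theorem bn_pd_smul (w : 𝓢(Sp d, ℂ)) (l : ℝ) (j : Fin d) : pd j (l • w) = l • pd j w := by
  unfold pd
  exact LineDeriv.lineDerivOp_smul (ev j) l w

theorem bn_gS_pos : 0 < (eLpNorm (gS 1 (by simp) : 𝓢(Sp d, ℂ)) (rhoE d) volume).toReal := by
  have hlt := (gS 1 (by simp) : 𝓢(Sp d, ℂ)).eLpNorm_lt_top (rhoE d) volume
  have hrho : rhoE d ≠ 0 := by
    unfold rhoE
    rw [Ne, ENNReal.ofReal_eq_zero, not_le]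
    exact rho_pos d
  refine ENNReal.toReal_pos ?_ hlt.ne
  intro h0
  rw [eLpNorm_eq_zero_iff (gS 1 (by simp) : 𝓢(Sp d, ℂ)).continuous.aestronglyMeasurable hrho] at h0
  have h1 : ((gS 1 (by simp) : 𝓢(Sp d, ℂ)) : Sp d → ℂ) = 0 :=
    (Continuous.ae_eq_iff_eq volume (gS 1 (by simp) : 𝓢(Sp d, ℂ)).continuous
      continuous_zero).1 h0
  have h2 := congrFun h1 0
  rw [gS_apply] at h2
  unfold G at h2
  simp only [Pi.zero_apply, norm_zero, ofReal_zero, mul_eq_zero, Complex.exp_ne_zero,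
    or_false] at h2
  have hne : (4 * (Real.pi : ℂ) * 1) ≠ 0 := by
    simp [Real.pi_ne_zero]
  rw [Complex.cpow_eq_zero_iff] at h2
  exact hne h2.1

theorem bn_num (hd : 1 ≤ d) (A : Fin d → ℝ) (hA : ∀ j, 0 ≤ A j) {R : ℝ} (hR : 0 < R) :
    ∃ l : ℝ, 0 ≤ l ∧ 1 ≤ l * R ∧
      (1 / 2) * ∑ j, (l * A j + 1) ^ 2 < (1 / rho d) * (l * R - 1) ^ rho d := by
  have hd' : (0 : ℝ) < d := by exact_mod_cast hd
  have hrho := rho_pos d
  have h4 : 0 < rho d - 2 := by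
    unfold rho
    have : (0 : ℝ) < 4 / d := by positivity
    linarith
  have hc : 0 < (1 / rho d) * (R / 2) ^ rho d := by positivity
  have ht := (tendsto_rpow_atTop h4).const_mul_atTop hc
  have ev1 := ht.eventually_gt_atTop ((1 / 2) * ∑ j, (A j + 1) ^ 2)
  have ev2 := eventually_ge_atTop (1 : ℝ)
  have ev3 := eventually_ge_atTop (2 / R)
  obtain ⟨l, h1, h2, h3⟩ := (ev1.and (ev2.and ev3)).exists
  have hl0 : 0 < l := by linarith
  have hlR : 2 ≤ l * R := by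
    rw [div_le_iff₀ hR] at h3
    exact h3
  refine ⟨l, hl0.le, by linarith, ?_⟩
  have hs : (1 / 2) * ∑ j, (l * A j + 1) ^ 2 ≤ l ^ 2 * ((1 / 2) * ∑ j, (A j + 1) ^ 2) := by
    have hsum : ∑ j, (l * A j + 1) ^ 2 ≤ l ^ 2 * ∑ j, (A j + 1) ^ 2 := by
      rw [Finset.mul_sum]
      refine Finset.sum_le_sum fun j _ => ?_
      rw [← mul_pow]
      have hj := hA j
      have h0 : 0 ≤ l * A j + 1 := by positivity
      refine pow_le_pow_left₀ h0 ?_ 2
      nlinarith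
    linarith
  have hr : l ^ 2 * ((1 / rho d) * (R / 2) ^ rho d * l ^ (rho d - 2)) ≤
      (1 / rho d) * (l * R - 1) ^ rho d := by
    have e1 : l ^ 2 * l ^ (rho d - 2) = l ^ rho d := by
      rw [← Real.rpow_natCast, ← Real.rpow_add hl0]
      norm_num
    have e2 : l ^ 2 * ((1 / rho d) * (R / 2) ^ rho d * l ^ (rho d - 2)) =
        (1 / rho d) * (l * (R / 2)) ^ rho d := by
      rw [Real.mul_rpow hl0.le (by positivity), ← e1]
      ring
    rw [e2]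
    refine mul_le_mul_of_nonneg_left ?_ (by positivity)
    exact Real.rpow_le_rpow (by positivity) (by linarith) hrho.le
  have hl2 : 0 < l ^ 2 := by positivity
  calc (1 / 2) * ∑ j, (l * A j + 1) ^ 2 ≤ l ^ 2 * ((1 / 2) * ∑ j, (A j + 1) ^ 2) := hs
    _ < l ^ 2 * ((1 / rho d) * (R / 2) ^ rho d * l ^ (rho d - 2)) :=
      mul_lt_mul_of_pos_left h1 hl2
    _ ≤ _ := hr

theorem big_negative (hd : 1 ≤ d) : ∃ w : 𝓢(Sp d, ℂ),
    1 ≤ (eLpNorm w (rhoE d) volume).toReal ∧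
    (1 / 2) * ∑ j, ((eLpNorm (pd j w) 2 volume).toReal + 1) ^ 2 <
      (1 / rho d) * ((eLpNorm w (rhoE d) volume).toReal - 1) ^ rho d := by
  obtain ⟨l, hl, h1, h2⟩ := bn_num hd
    (fun j => (eLpNorm (pd j (gS 1 (by simp) : 𝓢(Sp d, ℂ))) 2 volume).toReal)
    (fun j => ENNReal.toReal_nonneg) (bn_gS_pos (d := d))
  refine ⟨l • (gS 1 (by simp) : 𝓢(Sp d, ℂ)), ?_, ?_⟩
  · rw [bn_eLpNorm_smul _ hl]
    exact h1
  · rw [bn_eLpNorm_smul _ hl]
    simp only [bn_pd_smul, bn_eLpNorm_smul _ hl]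
    exact h2

end MP3483
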