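import Pool.Agent.Lib_MP_3483a5_an.RD

/-!
# MP_3483a5_an, piece NLD

`nl d z = F(|z|²) z` with `F y = y^{2/d}`, `F' y = (2/d) y^{2/d-1}`, `2 y F'(y) = (4/d) F(y)`; use `radial`
with `c = 4/d`; `F(|z|²) = |z|^{4/d}`.
-/

open MeasureTheory Filter Topology Complex SchwartzMap
open scoped FourierTransform LineDeriv Laplacian ENNReal NNReal ComplexConjugate

namespace MP3483
variable {d : ℕ}

theorem nld_pow (z : ℂ) : (‖z‖ ^ 2) ^ ((2 : ℝ) / d) = ‖z‖ ^ ((4 : ℝ) / d) := by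
  rw [← Real.rpow_natCast, ← Real.rpow_mul (norm_nonneg z)]
  congr 1
  push_cast
  ring

theorem nld_eq : nl d = fun z : ℂ => (((‖z‖ ^ 2) ^ ((2 : ℝ) / d) : ℝ) : ℂ) * z := by
  funext z
  rw [nl, nld_pow]

theorem nld_radial (hd : 1 ≤ d) :
    ContDiff ℝ 1 (nl d) ∧ ∀ z : ℂ, ‖fderiv ℝ (nl d) z‖ ≤ (1 + 4 / d) * ‖z‖ ^ ((4 : ℝ) / d) := by
  have hd0 : (0 : ℝ) < d := by exact_mod_cast hd
  have hp : (0 : ℝ) < 2 / d := by positivity
  have h := radial (F := fun y : ℝ => y ^ ((2 : ℝ) / d))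
    (F' := fun y : ℝ => (2 / d) * y ^ ((2 : ℝ) / d - 1))
    (Real.continuous_rpow_const hp.le).continuousOn (Real.zero_rpow hp.ne')
    (fun y hy => Real.rpow_nonneg hy _)
    (fun y hy => Real.hasDerivAt_rpow_const (Or.inl hy.ne'))
    (ContinuousOn.mul continuousOn_const
      (fun y hy => (Real.continuousAt_rpow_const y _ (Or.inl (ne_of_gt hy))).continuousWithinAt))
    (c := 4 / d) (fun y hy => by
      have h1 : 0 ≤ (2 : ℝ) / d * y ^ ((2 : ℝ) / d - 1) := by positivity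
      rw [abs_of_nonneg h1]
      have h2 : y * y ^ ((2 : ℝ) / d - 1) = y ^ ((2 : ℝ) / d) := by
        rw [Real.rpow_sub_one hy.ne']
        field_simp
      refine le_of_eq ?_
      rw [← h2]
      ring)
  obtain ⟨h1, h2, -, -⟩ := h
  rw [nld_eq]
  refine ⟨h1, fun z => ?_⟩
  rw [← nld_pow z]
  exact h2 z

theorem nl_contDiff (hd : 1 ≤ d) : ContDiff ℝ 1 (nl d) := (nld_radial hd).1

theorem nl_fderiv_le (hd : 1 ≤ d) (z : ℂ) :
    ‖fderiv ℝ (nl d) z‖ ≤ (1 + 4 / d) * ‖z‖ ^ ((4 : ℝ) / d) := (nld_radial hd).2 z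

end MP3483
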