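import Pool.Agent.Lib_MP_3483a5_an.GD
import Pool.Agent.Lib_MP_3483a5_an.NLD

/-!
# MP_3483a5_an, piece DU

Duhamel's formula tested with heat kernels, for a bounded solution.
Proof.  For `s > 0`, `t` fixed and `σ ∈ [0,t]` let `ψ_σ = G(s - ic(t-σ))` (Schwartz, `gS`) and
`F(σ) = ∫ u(σ) ψ_σ`.  Claim: `F` is continuous on `[0,t]` and has (right) derivative
`F'(σ) = -I ∫ nl(u σ) ψ_σ` at every `σ ∈ [0,t)`, which is continuous in `σ`; then `F(t) - F(0) = ∫_0^t F'`.
`F(σ+h) - F(σ) = ∫ u(σ+h)(ψ_{σ+h} - ψ_σ) + (∫ u(σ+h)ψ_σ - ∫ u(σ)ψ_σ)`.  By `Solves` the second bracket is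
`∫_σ^{σ+h} (-I c ∫ u(r) lap ψ_σ - I ∫ nl(u r) ψ_σ) dr`, with a continuous integrand (`u` is continuous in
`L²`, and `|nl a - nl b| ≤ (1+4/d) C₀^{4/d}|a-b|` for `|a|,|b| ≤ C₀`, so `nl∘u` is continuous in `L²` too; import
`NLD`), so it is `h(-Ic∫u(σ)lap ψ_σ - I∫nl(u σ)ψ_σ) + o(h)`.  The first is `h · Ic∫ u(σ) lap ψ_σ + o(h)` because
`(ψ_{σ+h} - ψ_σ)/h → Ic lap ψ_σ` in `L²` (`G_hasDerivAt`; domination by Gaussians, or mean value
inequality for the explicit formula `gS_laplacian`) and `u(σ+h) → u(σ)` in `L²`.  The sum gives the claim.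
Continuity of `σ ↦ ∫ nl(u σ)ψ_σ`: both factors are continuous in `L²`.
-/

open MeasureTheory Filter Topology Complex SchwartzMap
open scoped FourierTransform LineDeriv Laplacian ENNReal NNReal ComplexConjugate

namespace MP3483
variable {d : ℕ}

theorem du_norm_G (z : ℂ) (x : Sp d) :
    ‖G z x‖ = (4 * Real.pi * ‖z‖) ^ (-(d : ℝ) / 2) *
      Real.exp (-(‖x‖ ^ 2 * (z.re / (4 * Complex.normSq z)))) := by
  unfold G
  rw [norm_mul]
  congr 1
  · have h1 : (-(d : ℂ) / 2) = ((-(d : ℝ) / 2 : ℝ) : ℂ) := by push_cast; ring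
    rw [h1, Complex.norm_cpow_real, norm_mul, norm_mul, Complex.norm_ofNat, Complex.norm_real,
      Real.norm_of_nonneg Real.pi_pos.le]
  · rw [Complex.norm_exp]
    congr 1
    rw [Complex.neg_re]
    congr 1
    have h2 : ((‖x‖ : ℂ) ^ 2 / (4 * z)) = ((‖x‖ ^ 2 / 4 : ℝ) : ℂ) * z⁻¹ := by
      push_cast
      rw [div_mul_eq_div_div, div_eq_mul_inv _ z]
    rw [h2, Complex.re_ofReal_mul, Complex.inv_re]
    ring

/-- the dominating function for the Laplacian of the kernels -/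
noncomputable def duB (d : ℕ) (s R : ℝ) (x : Sp d) : ℝ :=
  (‖x‖ ^ 2 / (4 * s ^ 2) + d / (2 * s)) * (4 * Real.pi * s) ^ (-(d : ℝ) / 2) *
    Real.exp (-(s / (4 * R ^ 2)) * ‖x‖ ^ 2)

theorem du_gauss {b : ℝ} (hb : 0 < b) :
    Integrable (fun x : Sp d => Real.exp (-b * ‖x‖ ^ 2)) volume := by
  have h := GaussianFourier.integrable_cexp_neg_mul_sq_norm_add (V := Sp d)
    (b := (b : ℂ)) (by rwa [Complex.ofReal_re]) 0 0
  refine h.norm.congr (Eventually.of_forall fun x => ?_)
  have e : cexp (-(b : ℂ) * (‖x‖ : ℂ) ^ 2 + 0 * ((inner ℝ (0 : Sp d) x : ℝ) : ℂ)) =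
      ((Real.exp (-b * ‖x‖ ^ 2) : ℝ) : ℂ) := by
    push_cast
    congr 1
    ring
  simp only
  rw [e, Complex.norm_real, Real.norm_of_nonneg (Real.exp_pos _).le]

theorem duB_integrable {s R : ℝ} (hs : 0 < s) (hR : 0 < R) : Integrable (duB d s R) volume := by
  have hb : 0 < s / (4 * R ^ 2) := by positivity
  have h1 : Integrable (fun x : Sp d => Real.exp (-(s / (4 * R ^ 2)) * ‖x‖ ^ 2)) volume :=
    du_gauss hb
  have h3 : Integrable (fun x : Sp d => ‖x‖ ^ 2 *
      Real.exp (-(s / (4 * R ^ 2)) * ‖x‖ ^ 2)) volume := by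
    have hb2 : 0 < s / (4 * R ^ 2) / 2 := by positivity
    have h4 : Integrable (fun x : Sp d =>
        Real.exp (-(s / (4 * R ^ 2) / 2) * ‖x‖ ^ 2)) volume := du_gauss hb2
    refine (h4.const_mul (1 / (s / (4 * R ^ 2) / 2))).mono' (by fun_prop)
      (Eventually.of_forall fun x => ?_)
    rw [Real.norm_of_nonneg (by positivity)]
    set b := s / (4 * R ^ 2) / 2 with hbdef
    have e1 : s / (4 * R ^ 2) = b + b := by rw [hbdef]; ring
    have e2 : Real.exp (-(s / (4 * R ^ 2)) * ‖x‖ ^ 2) =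
        Real.exp (-(b * ‖x‖ ^ 2)) * Real.exp (-b * ‖x‖ ^ 2) := by
      rw [e1, ← Real.exp_add]; congr 1; ring
    rw [e2, ← mul_assoc]
    refine mul_le_mul_of_nonneg_right ?_ (Real.exp_pos _).le
    have h5 : b * ‖x‖ ^ 2 * Real.exp (-(b * ‖x‖ ^ 2)) ≤ 1 := by
      have h6 : b * ‖x‖ ^ 2 ≤ Real.exp (b * ‖x‖ ^ 2) := by
        linarith [Real.add_one_le_exp (b * ‖x‖ ^ 2)]
      calc b * ‖x‖ ^ 2 * Real.exp (-(b * ‖x‖ ^ 2)) ≤
          Real.exp (b * ‖x‖ ^ 2) * Real.exp (-(b * ‖x‖ ^ 2)) :=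
            mul_le_mul_of_nonneg_right h6 (Real.exp_pos _).le
        _ = 1 := by rw [← Real.exp_add]; simp
    rw [le_div_iff₀ hb2]
    linarith
  have h7 := ((h3.const_mul ((4 * Real.pi * s) ^ (-(d : ℝ) / 2) / (4 * s ^ 2))).add
    (h1.const_mul ((d / (2 * s)) * (4 * Real.pi * s) ^ (-(d : ℝ) / 2))))
  refine h7.congr (Eventually.of_forall fun x => ?_)
  simp only [Pi.add_apply, duB]
  ring

theorem duB_nonneg {s R : ℝ} (hs : 0 < s) (x : Sp d) : 0 ≤ duB d s R x := by
  unfold duB; positivity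

theorem du_lap_bound {s R : ℝ} (hs : 0 < s) (z : ℂ) (hz : z.re = s) (hzR : ‖z‖ ≤ R)
    (hz' : 0 < z.re) (x : Sp d) : ‖lap (gS z hz') x‖ ≤ duB d s R x := by
  have hsz : s ≤ ‖z‖ := by rw [← hz]; exact Complex.re_le_norm z
  have hz0 : 0 < ‖z‖ := hs.trans_le hsz
  have hR : 0 < R := hz0.trans_le hzR
  rw [gS_laplacian, norm_mul, du_norm_G]
  unfold duB
  rw [mul_assoc ((‖x‖ ^ 2 / (4 * s ^ 2) + d / (2 * s)))]
  refine mul_le_mul ?_ (mul_le_mul ?_ ?_ (Real.exp_pos _).le (by positivity)) (by positivity)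
    (by positivity)
  · refine (norm_sub_le _ _).trans (add_le_add ?_ ?_)
    · rw [norm_div, norm_mul, norm_pow, norm_pow, Complex.norm_ofNat, Complex.norm_real,
        Real.norm_of_nonneg (norm_nonneg _)]
      refine div_le_div_of_nonneg_left (by positivity) (by positivity) ?_
      exact mul_le_mul_of_nonneg_left (pow_le_pow_left₀ hs.le hsz 2) (by norm_num)
    · rw [norm_div, norm_mul, Complex.norm_ofNat, Complex.norm_natCast]
      exact div_le_div_of_nonneg_left (by positivity) (by positivity)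
        (mul_le_mul_of_nonneg_left hsz (by norm_num))
  · refine Real.rpow_le_rpow_of_nonpos (by positivity) ?_ ?_
    · exact mul_le_mul_of_nonneg_left hsz (by positivity)
    · have : (0 : ℝ) ≤ d := by positivity
      linarith
  · refine Real.exp_le_exp.2 ?_
    have h1 : s / (4 * R ^ 2) ≤ z.re / (4 * Complex.normSq z) := by
      rw [hz, Complex.normSq_eq_norm_sq]
      refine div_le_div_of_nonneg_left hs.le (by positivity) ?_
      exact mul_le_mul_of_nonneg_left (pow_le_pow_left₀ hz0.le hzR 2) (by norm_num)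
    have h2 := mul_le_mul_of_nonneg_left h1 (sq_nonneg ‖x‖)
    linarith

theorem du_pair {f g : Sp d → ℂ} (hf : MemLp f 2 volume) (hg : MemLp g 2 volume) :
    ‖∫ x, f x * g x‖ ≤ (eLpNorm f 2 volume * eLpNorm g 2 volume).toReal := by
  have hi : Integrable (fun x => f x * g x) volume := hf.integrable_mul hg
  refine (norm_integral_le_integral_norm _).trans ?_
  have h1 : ∫ x, ‖f x * g x‖ = (eLpNorm (fun x => f x * g x) 1 volume).toReal := by
    rw [eLpNorm_one_eq_lintegral_enorm, integral_norm_eq_lintegral_enorm hi.1]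
  rw [h1]
  refine ENNReal.toReal_mono (ENNReal.mul_ne_top hf.2.ne hg.2.ne) ?_
  have h2 : eLpNorm (f • g) 1 volume ≤ eLpNorm f 2 volume * eLpNorm g 2 volume :=
    eLpNorm_smul_le_mul_eLpNorm hg.1 hf.1
  exact h2

theorem du_cont {I : Set ℝ} {v : ℝ → Sp d → ℂ} (hv : ∀ t ∈ I, MemLp (v t) 2 volume)
    (hc : ∀ t ∈ I, Tendsto (fun s => eLpNorm (v s - v t) 2 volume) (𝓝[I] t) (𝓝 0))
    {g : Sp d → ℂ} (hg : MemLp g 2 volume) : ContinuousOn (fun s => ∫ x, v s x * g x) I := by
  intro t ht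
  unfold ContinuousWithinAt
  rw [tendsto_iff_norm_sub_tendsto_zero]
  have h1 : Tendsto (fun s => (eLpNorm (v s - v t) 2 volume * eLpNorm g 2 volume).toReal)
      (𝓝[I] t) (𝓝 0) := by
    have h2 := ENNReal.Tendsto.mul_const (b := eLpNorm g 2 volume) (hc t ht) (Or.inr hg.2.ne)
    rw [zero_mul] at h2
    have h3 := (ENNReal.tendsto_toReal ENNReal.zero_ne_top).comp h2
    simpa [Function.comp_def] using h3
  refine squeeze_zero' (Eventually.of_forall fun s => norm_nonneg _) ?_ h1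
  filter_upwards [self_mem_nhdsWithin] with s hs
  have i1 : Integrable (fun x => v s x * g x) volume := (hv s hs).integrable_mul hg
  have i2 : Integrable (fun x => v t x * g x) volume := (hv t ht).integrable_mul hg
  have h4 : (∫ x, v s x * g x) - ∫ x, v t x * g x = ∫ x, (v s - v t) x * g x := by
    rw [← integral_sub i1 i2]
    refine integral_congr_ae (Eventually.of_forall fun x => ?_)
    simp only [Pi.sub_apply]; ring
  rw [h4]
  exact du_pair ((hv s hs).sub (hv t ht)) hg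

theorem du_nl_lip (hd : 1 ≤ d) {C₀ : ℝ} {a b : ℂ} (ha : ‖a‖ ≤ C₀) (hb : ‖b‖ ≤ C₀) :
    ‖nl d a - nl d b‖ ≤ (1 + 4 / d) * C₀ ^ ((4 : ℝ) / d) * ‖a - b‖ := by
  refine Convex.norm_image_sub_le_of_norm_fderiv_le (𝕜 := ℝ) (s := Metric.closedBall 0 C₀)
    (fun z _ => ((nl_contDiff hd).differentiable one_ne_zero).differentiableAt)
    (fun z hz => ?_) (convex_closedBall 0 C₀) (by simpa using hb) (by simpa using ha)
  refine (nl_fderiv_le hd z).trans ?_
  refine mul_le_mul_of_nonneg_left ?_ (by positivity)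
  exact Real.rpow_le_rpow (norm_nonneg _) (by simpa using hz) (by positivity)

/-- the moving parameter -/
noncomputable def duz (s c t σ : ℝ) : ℂ := (s : ℂ) - c * (t - σ) * Complex.I

theorem duz_re (s c t σ : ℝ) : (duz s c t σ).re = s := by
  unfold duz
  have h : (c : ℂ) * ((t : ℂ) - σ) * Complex.I = ((c * (t - σ) : ℝ) : ℂ) * Complex.I := by
    push_cast; ring
  rw [h, Complex.sub_re, Complex.re_ofReal_mul, Complex.I_re, Complex.ofReal_re]
  ring

theorem duz_norm {s c t σ T : ℝ} (hs : 0 < s) (hc : 0 < c) (ht : t ∈ Set.Icc 0 T)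
    (hσ : σ ∈ Set.Icc 0 T) : ‖duz s c t σ‖ ≤ s + c * T := by
  unfold duz
  have h : (c : ℂ) * ((t : ℂ) - σ) * Complex.I = ((c * (t - σ) : ℝ) : ℂ) * Complex.I := by
    push_cast; ring
  rw [h]
  refine (norm_sub_le _ _).trans ?_
  rw [norm_mul, Complex.norm_I, mul_one, Complex.norm_real, Complex.norm_real,
    Real.norm_of_nonneg hs.le, Real.norm_eq_abs, abs_mul, abs_of_pos hc]
  have h2 : |t - σ| ≤ T := by
    rw [abs_le]
    constructor <;> linarith [ht.1, ht.2, hσ.1, hσ.2]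
  have := mul_le_mul_of_nonneg_left h2 hc.le
  linarith

theorem duz_pos {s c t σ : ℝ} (hs : 0 < s) : 0 < (duz s c t σ).re := by
  rw [duz_re]; exact hs

theorem du_hasDeriv {s c t : ℝ} (hs : 0 < s) (σ : ℝ) (x : Sp d) :
    HasDerivAt (fun σ : ℝ => G (duz s c t σ) x)
      (lap (gS (duz s c t σ) (duz_pos hs)) x * (c * Complex.I)) σ := by
  have h1 := G_hasDerivAt (duz s c t σ) (duz_pos hs) x
  have h2 : HasDerivAt (fun σ : ℝ => duz s c t σ) ((c : ℂ) * Complex.I) σ := by
    have h3 : HasDerivAt (fun σ : ℝ => (σ : ℂ)) 1 σ := Complex.ofRealCLM.hasDerivAt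
    have h4 := ((((h3.const_sub (t : ℂ)).const_mul (c : ℂ)).mul_const Complex.I).const_sub (s : ℂ))
    have h5 : -((c : ℂ) * -1 * Complex.I) = (c : ℂ) * Complex.I := by ring
    rw [h5] at h4
    exact h4
  exact h1.comp σ h2

theorem du_lip {s c t T : ℝ} (hs : 0 < s) (hc : 0 < c) (ht : t ∈ Set.Icc 0 T)
    {σ σ' : ℝ} (hσ : σ ∈ Set.Icc 0 T) (hσ' : σ' ∈ Set.Icc 0 T) (x : Sp d) :
    ‖G (duz s c t σ') x - G (duz s c t σ) x‖ ≤ c * duB d s (s + c * T) x * |σ' - σ| := by
  have h := Convex.norm_image_sub_le_of_norm_hasDerivWithin_le (𝕜 := ℝ)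
    (f := fun σ : ℝ => G (duz s c t σ) x) (s := Set.Icc 0 T) (C := c * duB d s (s + c * T) x)
    (fun r _ => (du_hasDeriv hs r x).hasDerivWithinAt) (fun r hr => ?_) (convex_Icc 0 T) hσ hσ'
  · rwa [Real.norm_eq_abs] at h
  · rw [norm_mul, norm_mul, Complex.norm_I, mul_one, Complex.norm_real,
      Real.norm_of_nonneg hc.le, mul_comm]
    exact mul_le_mul_of_nonneg_left
      (du_lap_bound hs _ (duz_re s c t r) (duz_norm hs hc ht hr) _ x) hc.le

theorem du_memLp {s c t σ : ℝ} (hs : 0 < s) (p : ℝ≥0∞) :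
    MemLp (fun x : Sp d => G (duz s c t σ) x) p volume := by
  have h := (gS (d := d) (duz s c t σ) (duz_pos hs)).memLp p volume
  refine (memLp_congr_ae (Eventually.of_forall fun x => ?_)).1 h
  exact gS_apply _ _ x

theorem du_bdd_mul {v K : Sp d → ℂ} {C : ℝ} (hv : ∀ᵐ x, ‖v x‖ ≤ C) {b : Sp d → ℝ}
    (hK : ∀ x, ‖K x‖ ≤ b x) (hb : Integrable b volume) :
    ‖∫ x, v x * K x‖ ≤ C * ∫ x, b x := by
  rw [← integral_const_mul]
  refine norm_integral_le_of_norm_le (hb.const_mul C) ?_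
  filter_upwards [hv] with x hx
  rw [norm_mul]
  exact mul_le_mul hx (hK x) (norm_nonneg _) ((norm_nonneg _).trans hx)

theorem du_ck {s c t T : ℝ} (hs : 0 < s) (hc : 0 < c) (ht : t ∈ Set.Icc 0 T)
    {v : ℝ → Sp d → ℂ} (hv : ∀ σ ∈ Set.Icc 0 T, MemLp (v σ) 2 volume)
    (hcv : ∀ σ ∈ Set.Icc 0 T,
      Tendsto (fun s => eLpNorm (v s - v σ) 2 volume) (𝓝[Set.Icc 0 T] σ) (𝓝 0))
    {C : ℝ} (hb : ∀ σ ∈ Set.Icc 0 T, ∀ᵐ x, ‖v σ x‖ ≤ C) :
    ContinuousOn (fun σ => ∫ x, v σ x * G (duz s c t σ) x) (Set.Icc 0 T) := by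
  intro σ hσ
  have hT0 : 0 ≤ T := hσ.1.trans hσ.2
  have hR : 0 < s + c * T := by positivity
  have h1 := du_cont hv hcv (du_memLp (d := d) (s := s) (c := c) (t := t) (σ := σ) hs 2) σ hσ
  unfold ContinuousWithinAt at h1 ⊢
  have h2 : Tendsto (fun σ' => ∫ x, v σ' x * (G (duz s c t σ') x - G (duz s c t σ) x))
      (𝓝[Set.Icc 0 T] σ) (𝓝 0) := by
    rw [tendsto_zero_iff_norm_tendsto_zero]
    have h3 : Tendsto (fun σ' : ℝ => C * ((c * ∫ x, duB d s (s + c * T) x) * |σ' - σ|))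
        (𝓝[Set.Icc 0 T] σ) (𝓝 0) := by
      have h4 : Tendsto (fun σ' : ℝ => C * ((c * ∫ x, duB d s (s + c * T) x) * |σ' - σ|))
          (𝓝 σ) (𝓝 (C * ((c * ∫ x, duB d s (s + c * T) x) * |σ - σ|))) := by
        refine Continuous.tendsto ?_ σ
        fun_prop
      simp only [sub_self, abs_zero, mul_zero] at h4
      exact h4.mono_left nhdsWithin_le_nhds
    refine squeeze_zero' (Eventually.of_forall fun _ => norm_nonneg _) ?_ h3
    filter_upwards [self_mem_nhdsWithin] with σ' hσ'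
    have h5 := du_bdd_mul (hb σ' hσ') (K := fun x => G (duz s c t σ') x - G (duz s c t σ) x)
      (fun x => du_lip hs hc ht hσ hσ' x)
      (((duB_integrable hs hR).const_mul c).mul_const |σ' - σ|)
    rwa [integral_mul_const, integral_const_mul] at h5
  have h6 := h1.add h2
  rw [add_zero] at h6
  refine h6.congr' ?_
  filter_upwards [self_mem_nhdsWithin] with σ' hσ'
  have i1 : Integrable (fun x => v σ' x * G (duz s c t σ) x) volume :=
    (hv σ' hσ').integrable_mul (du_memLp hs 2)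
  have i2 : Integrable (fun x => v σ' x * G (duz s c t σ') x) volume :=
    (hv σ' hσ').integrable_mul (du_memLp hs 2)
  have i3 : Integrable (fun x => v σ' x * (G (duz s c t σ') x - G (duz s c t σ) x)) volume := by
    refine (i2.sub i1).congr (Eventually.of_forall fun x => ?_)
    simp only [Pi.sub_apply]; ring
  rw [← integral_add i1 i3]
  refine integral_congr_ae (Eventually.of_forall fun x => ?_)
  ring

/-- the derivative of the part with the moving kernel -/
theorem du_moving {s c t T : ℝ} (hs : 0 < s) (hc : 0 < c) (ht : t ∈ Set.Icc 0 T)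
    {v : ℝ → Sp d → ℂ} (hv : ∀ σ ∈ Set.Icc 0 T, MemLp (v σ) 2 volume)
    (hcv : ∀ σ ∈ Set.Icc 0 T,
      Tendsto (fun s => eLpNorm (v s - v σ) 2 volume) (𝓝[Set.Icc 0 T] σ) (𝓝 0))
    {C : ℝ} (hb : ∀ σ ∈ Set.Icc 0 T, ∀ᵐ x, ‖v σ x‖ ≤ C) {σ : ℝ}
    (hσ : σ ∈ Set.Ioo 0 T) :
    HasDerivAt (fun σ' => ∫ x, v σ' x * (G (duz s c t σ') x - G (duz s c t σ) x))
      (∫ x, v σ x * (lap (gS (duz s c t σ) (duz_pos hs)) x * (c * Complex.I))) σ := by
  have hσI : σ ∈ Set.Icc 0 T := Set.Ioo_subset_Icc_self hσ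
  have hT0 : 0 < T := hσ.1.trans hσ.2
  have hR : 0 < s + c * T := by positivity
  rw [hasDerivAt_iff_tendsto_slope]
  set L : 𝓢(Sp d, ℂ) := lap (gS (duz s c t σ) (duz_pos hs)) with hL
  have hIcc : Set.Icc 0 T ∈ 𝓝 σ := Icc_mem_nhds hσ.1 hσ.2
  have hgoal : Tendsto (fun σ' => (∫ x, v σ' x * (L x * (c * Complex.I))) +
      ∫ x, v σ' x * ((G (duz s c t σ') x - G (duz s c t σ) x) / ((σ' - σ : ℝ) : ℂ) -
        L x * (c * Complex.I))) (𝓝[≠] σ) (𝓝 ((∫ x, v σ x * (L x * (c * Complex.I))) + 0)) := by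
    refine Tendsto.add ?_ ?_
    · have hg : MemLp (fun x => L x * ((c : ℂ) * Complex.I)) 2 volume :=
        (L.memLp 2 volume).mul_const _
      have h1 := (du_cont hv hcv hg).continuousAt hIcc
      exact h1.tendsto.mono_left nhdsWithin_le_nhds
    · rw [tendsto_zero_iff_norm_tendsto_zero]
      have hdom : Tendsto (fun σ' => ∫ x, ‖(G (duz s c t σ') x - G (duz s c t σ) x) /
          ((σ' - σ : ℝ) : ℂ) - L x * (c * Complex.I)‖) (𝓝[≠] σ) (𝓝 (∫ x : Sp d, (0 : ℝ))) := by
        refine tendsto_integral_filter_of_dominated_convergence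
          (fun x => 2 * (c * duB d s (s + c * T) x)) ?_ ?_ ?_ ?_
        · refine Eventually.of_forall fun σ' => ?_
          have m1 := (du_memLp (d := d) (s := s) (c := c) (t := t) (σ := σ') hs 2).1
          have m2 := (du_memLp (d := d) (s := s) (c := c) (t := t) (σ := σ) hs 2).1
          have m3 : AEStronglyMeasurable (fun x => L x * ((c : ℂ) * Complex.I)) volume :=
            (L.continuous.aestronglyMeasurable).mul_const _
          have m4 : AEStronglyMeasurable (fun x => (G (duz s c t σ') x - G (duz s c t σ) x) /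
              ((σ' - σ : ℝ) : ℂ)) (volume : Measure (Sp d)) := by
            simp only [div_eq_mul_inv]
            exact (m1.sub m2).mul_const _
          exact (m4.sub m3).norm
        · have h1 : ∀ᶠ σ' in 𝓝[≠] σ, σ' ∈ Set.Icc 0 T :=
            mem_nhdsWithin_of_mem_nhds hIcc
          filter_upwards [h1, self_mem_nhdsWithin] with σ' h2 h3
          refine Eventually.of_forall fun x => ?_
          rw [norm_norm]
          refine (norm_sub_le _ _).trans ?_
          have h4 : ‖L x * ((c : ℂ) * Complex.I)‖ ≤ c * duB d s (s + c * T) x := by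
            rw [norm_mul, norm_mul, Complex.norm_I, mul_one, Complex.norm_real,
              Real.norm_of_nonneg hc.le, mul_comm]
            exact mul_le_mul_of_nonneg_left
              (du_lap_bound hs _ (duz_re s c t σ) (duz_norm hs hc ht hσI) _ x) hc.le
          have h5 : ‖(G (duz s c t σ') x - G (duz s c t σ) x) / ((σ' - σ : ℝ) : ℂ)‖ ≤
              c * duB d s (s + c * T) x := by
            rw [norm_div, Complex.norm_real, Real.norm_eq_abs]
            have h6 : 0 < |σ' - σ| := abs_pos.2 (sub_ne_zero.2 h3)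
            rw [div_le_iff₀ h6]
            exact du_lip hs hc ht hσI h2 x
          linarith
        · exact ((duB_integrable hs hR).const_mul c).const_mul 2
        · refine Eventually.of_forall fun x => ?_
          have h1 := hasDerivAt_iff_tendsto_slope.1 (du_hasDeriv (c := c) (t := t) hs σ x)
          have h2 : Tendsto (fun σ' => (G (duz s c t σ') x - G (duz s c t σ) x) /
              ((σ' - σ : ℝ) : ℂ)) (𝓝[≠] σ) (𝓝 (L x * (c * Complex.I))) := by
            refine h1.congr fun σ' => ?_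
            rw [slope_def_module, div_eq_inv_mul, ← Complex.ofReal_inv]
            exact Complex.real_smul
          have h3 := (h2.sub_const (L x * (c * Complex.I))).norm
          simpa using h3
      rw [integral_zero] at hdom
      have hdom2 := hdom.const_mul C
      rw [mul_zero] at hdom2
      refine squeeze_zero' (Eventually.of_forall fun _ => norm_nonneg _) ?_ hdom2
      have h1 : ∀ᶠ σ' in 𝓝[≠] σ, σ' ∈ Set.Icc 0 T := mem_nhdsWithin_of_mem_nhds hIcc
      filter_upwards [h1] with σ' h2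
      refine du_bdd_mul (hb σ' h2) (fun x => le_rfl) ?_
      have i1 := (memLp_one_iff_integrable.1 (du_memLp (d := d) (s := s) (c := c) (t := t)
        (σ := σ') hs 1))
      have i2 := (memLp_one_iff_integrable.1 (du_memLp (d := d) (s := s) (c := c) (t := t)
        (σ := σ) hs 1))
      have i3 : Integrable (fun x => L x * ((c : ℂ) * Complex.I)) volume :=
        L.integrable.mul_const _
      exact (((i1.sub i2).div_const _).sub i3).norm
  rw [add_zero] at hgoal
  refine hgoal.congr' ?_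
  have h1 : ∀ᶠ σ' in 𝓝[≠] σ, σ' ∈ Set.Icc 0 T := mem_nhdsWithin_of_mem_nhds hIcc
  filter_upwards [h1, self_mem_nhdsWithin] with σ' h2 h3
  have hne : ((σ' - σ : ℝ) : ℂ) ≠ 0 := by
    exact_mod_cast sub_ne_zero.2 h3
  have hg : MemLp (fun x => L x * ((c : ℂ) * Complex.I)) 2 volume :=
    (L.memLp 2 volume).mul_const _
  have j1 : Integrable (fun x => v σ' x * (L x * ((c : ℂ) * Complex.I))) volume :=
    (hv σ' h2).integrable_mul hg
  have j2 : Integrable (fun x => v σ' x * ((G (duz s c t σ') x - G (duz s c t σ) x) /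
      ((σ' - σ : ℝ) : ℂ))) volume := by
    have j3 : Integrable (fun x => v σ' x * G (duz s c t σ) x) volume :=
      (hv σ' h2).integrable_mul (du_memLp hs 2)
    have j4 : Integrable (fun x => v σ' x * G (duz s c t σ') x) volume :=
      (hv σ' h2).integrable_mul (du_memLp hs 2)
    refine ((j4.sub j3).div_const ((σ' - σ : ℝ) : ℂ)).congr (Eventually.of_forall fun x => ?_)
    simp only [Pi.sub_apply]; ring
  have j5 : Integrable (fun x => v σ' x * ((G (duz s c t σ') x - G (duz s c t σ) x) /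
      ((σ' - σ : ℝ) : ℂ) - L x * (c * Complex.I))) volume := by
    refine (j2.sub j1).congr (Eventually.of_forall fun x => ?_)
    simp only [Pi.sub_apply]; ring
  rw [← integral_add j1 j5, slope_def_module]
  have e1 : ∫ x, v σ x * (G (duz s c t σ) x - G (duz s c t σ) x) = 0 := by simp
  rw [e1, sub_zero]
  have e2 : ((σ' - σ)⁻¹ : ℝ) • (∫ x, v σ' x * (G (duz s c t σ') x - G (duz s c t σ) x)) =
      ∫ x, v σ' x * ((G (duz s c t σ') x - G (duz s c t σ) x) / ((σ' - σ : ℝ) : ℂ)) := by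
    rw [← integral_smul]
    refine integral_congr_ae (Eventually.of_forall fun x => ?_)
    simp only
    rw [Complex.real_smul, Complex.ofReal_inv]
    field_simp
  rw [e2]
  refine integral_congr_ae (Eventually.of_forall fun x => ?_)
  ring

theorem du_nl_cont (d : ℕ) : Continuous (nl d) := by
  unfold nl
  have h : Continuous (fun z : ℂ => ‖z‖ ^ ((4 : ℝ) / d)) :=
    continuous_norm.rpow_const (fun _ => Or.inr (by positivity))
  exact (Complex.continuous_ofReal.comp h).mul continuous_id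

theorem du_nl_zero (d : ℕ) : nl d 0 = 0 := by unfold nl; simp

theorem du_lip_all (d : ℕ) (C : ℝ) : ∃ L : ℝ, 0 ≤ L ∧ ∀ a b : ℂ, ‖a‖ ≤ C → ‖b‖ ≤ C →
    ‖nl d a - nl d b‖ ≤ L * ‖a - b‖ := by
  rcases Nat.eq_zero_or_pos d with h | h
  · subst h
    refine ⟨1, zero_le_one, fun a b _ _ => ?_⟩
    have e : ∀ z : ℂ, nl 0 z = z := by intro z; unfold nl; simp
    rw [e, e, one_mul]
  · rcases le_or_gt 0 C with hC | hC
    · exact ⟨(1 + 4 / d) * C ^ ((4 : ℝ) / d), by positivity, fun a b ha hb =>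
        du_nl_lip h ha hb⟩
    · exact ⟨0, le_rfl, fun a b ha hb => absurd (norm_nonneg a) (not_le.2 (ha.trans_lt hC))⟩

theorem duhamel {c T : ℝ} (hc : 0 < c) (hT : 0 < T) {u : ℝ → Sp d → ℂ}
    {Du : ℝ → Fin d → Sp d → ℂ} (hu : H1Path (Set.Icc 0 T) u Du)
    (hsol : Solves (fun _ => -c) (Set.Icc 0 T) u) {C₀ : ℝ}
    (hb : ∀ t ∈ Set.Icc 0 T, ∀ᵐ x, ‖u t x‖ ≤ C₀) {t : ℝ} (ht : t ∈ Set.Icc 0 T) {s : ℝ}
    (hs : 0 < s) :
    ∫ x, u 0 x * G ((s : ℂ) - c * t * Complex.I) x = (∫ x, u t x * G (s : ℂ) x) +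
      Complex.I * ∫ σ in (0 : ℝ)..t,
        ∫ x, nl d (u σ x) * G ((s : ℂ) - c * (t - σ) * Complex.I) x := by
  classical
  set C : ℝ := max C₀ 0 with hCdef
  have hC : 0 ≤ C := le_max_right _ _
  have hb' : ∀ σ ∈ Set.Icc 0 T, ∀ᵐ x, ‖u σ x‖ ≤ C := fun σ hσ =>
    (hb σ hσ).mono fun x hx => hx.trans (le_max_left _ _)
  obtain ⟨L, hL, hLip⟩ := du_lip_all d C
  have hv : ∀ σ ∈ Set.Icc 0 T, MemLp (u σ) 2 volume := fun σ hσ => (hu.isH1 σ hσ).memLp
  have hn : ∀ σ ∈ Set.Icc 0 T, MemLp (fun x => nl d (u σ x)) 2 volume := by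
    intro σ hσ
    refine (hv σ hσ).of_le_mul (c := L)
      ((du_nl_cont d).comp_aestronglyMeasurable (hv σ hσ).1) ?_
    filter_upwards [hb' σ hσ] with x hx
    have := hLip (u σ x) 0 hx (by simpa using hC)
    rwa [du_nl_zero, sub_zero, sub_zero] at this
  have hnb : ∀ σ ∈ Set.Icc 0 T, ∀ᵐ x, ‖nl d (u σ x)‖ ≤ L * C := by
    intro σ hσ
    filter_upwards [hb' σ hσ] with x hx
    have := hLip (u σ x) 0 hx (by simpa using hC)
    rw [du_nl_zero, sub_zero, sub_zero] at this
    exact this.trans (mul_le_mul_of_nonneg_left hx hL)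
  have hnc : ∀ σ ∈ Set.Icc 0 T, Tendsto (fun s => eLpNorm ((fun x => nl d (u s x)) -
      fun x => nl d (u σ x)) 2 volume) (𝓝[Set.Icc 0 T] σ) (𝓝 0) := by
    intro σ hσ
    have h1 := ENNReal.Tendsto.const_mul (a := ENNReal.ofReal L) (hu.cont σ hσ)
      (Or.inr ENNReal.ofReal_ne_top)
    rw [mul_zero] at h1
    refine tendsto_of_tendsto_of_tendsto_of_le_of_le' tendsto_const_nhds h1
      (Eventually.of_forall fun _ => bot_le) ?_
    filter_upwards [self_mem_nhdsWithin] with σ' hσ'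
    refine eLpNorm_le_mul_eLpNorm_of_ae_le_mul ?_ 2
    filter_upwards [hb' σ hσ, hb' σ' hσ'] with x hx hx'
    exact hLip _ _ hx' hx
  have hFc := du_ck (c := c) hs hc ht hv hu.cont hb'
  have hDc := du_ck (c := c) hs hc ht hn hnc hnb
  have hsubI : Set.Icc 0 t ⊆ Set.Icc 0 T := Set.Icc_subset_Icc_right ht.2
  have hderiv : ∀ σ ∈ Set.Ioo 0 t, HasDerivAt (fun σ => ∫ x, u σ x * G (duz s c t σ) x)
      (-Complex.I * ∫ x, nl d (u σ x) * G (duz s c t σ) x) σ := by
    intro σ hσ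
    have hσT : σ ∈ Set.Ioo 0 T := ⟨hσ.1, hσ.2.trans_le ht.2⟩
    have hσI : σ ∈ Set.Icc 0 T := Set.Ioo_subset_Icc_self hσT
    set ψ : 𝓢(Sp d, ℂ) := gS (duz s c t σ) (duz_pos hs) with hψ
    have hψx : ∀ x, ψ x = G (duz s c t σ) x := fun x => gS_apply _ _ x
    have hIcc : Set.Icc 0 T ∈ 𝓝 σ := Icc_mem_nhds hσT.1 hσT.2
    have hIoo : Set.Ioo 0 T ∈ 𝓝 σ := Ioo_mem_nhds hσT.1 hσT.2
    have hB := du_moving (c := c) hs hc ht hv hu.cont hb' hσT
    -- the fixed kernel
    have hac : ContinuousOn (fun r => Complex.I * ((-c : ℝ) : ℂ) * (∫ x, u r x * lap ψ x) -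
        Complex.I * ∫ x, nl d (u r x) * ψ x) (Set.Icc 0 T) := by
      have c1 := du_cont hv hu.cont ((lap ψ).memLp 2 volume)
      have c2 := du_cont hn hnc (ψ.memLp 2 volume)
      exact (continuousOn_const.mul c1).sub (continuousOn_const.mul c2)
    have hA0 : HasDerivAt (fun σ' => ∫ r in (0 : ℝ)..σ', (Complex.I * ((-c : ℝ) : ℂ) *
        (∫ x, u r x * lap ψ x) - Complex.I * ∫ x, nl d (u r x) * ψ x))
        (Complex.I * ((-c : ℝ) : ℂ) * (∫ x, u σ x * lap ψ x) -
          Complex.I * ∫ x, nl d (u σ x) * ψ x) σ := by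
      refine intervalIntegral.integral_hasDerivAt_right ?_ ?_ ?_
      · refine ContinuousOn.intervalIntegrable ?_
        rw [Set.uIcc_of_le hσI.1]
        exact hac.mono (Set.Icc_subset_Icc_right hσI.2)
      · exact ContinuousOn.stronglyMeasurableAtFilter isOpen_Ioo
          (hac.mono Set.Ioo_subset_Icc_self) σ hσT
      · exact hac.continuousAt hIcc
    have hA : HasDerivAt (fun σ' => ∫ x, u σ' x * ψ x)
        (Complex.I * ((-c : ℝ) : ℂ) * (∫ x, u σ x * lap ψ x) -
          Complex.I * ∫ x, nl d (u σ x) * ψ x) σ := by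
      refine (hA0.const_add (∫ x, u 0 x * ψ x)).congr_of_eventuallyEq ?_
      filter_upwards [hIcc] with σ' hσ'
      exact hsol ψ σ' hσ'
    have hAB := hA.add hB
    have e1 : (Complex.I * ((-c : ℝ) : ℂ) * (∫ x, u σ x * lap ψ x) -
          Complex.I * ∫ x, nl d (u σ x) * ψ x) +
          ∫ x, u σ x * (lap ψ x * (c * Complex.I)) =
        -Complex.I * ∫ x, nl d (u σ x) * G (duz s c t σ) x := by
      have e2 : ∫ x, u σ x * (lap ψ x * (c * Complex.I)) =
          (c * Complex.I) * ∫ x, u σ x * lap ψ x := by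
        rw [← integral_const_mul]
        refine integral_congr_ae (Eventually.of_forall fun x => ?_)
        ring
      rw [e2]
      simp_rw [hψx]
      push_cast
      ring
    rw [e1] at hAB
    refine hAB.congr_of_eventuallyEq ?_
    filter_upwards [hIcc] with σ' hσ'
    have i1 : Integrable (fun x => u σ' x * ψ x) volume :=
      (hv σ' hσ').integrable_mul (ψ.memLp 2 volume)
    have i2 : Integrable (fun x => u σ' x * G (duz s c t σ') x) volume :=
      (hv σ' hσ').integrable_mul (du_memLp hs 2)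
    have i3 : Integrable (fun x => u σ' x * (G (duz s c t σ') x - G (duz s c t σ) x))
        volume := by
      refine (i2.sub i1).congr (Eventually.of_forall fun x => ?_)
      simp only [Pi.sub_apply, hψx]; ring
    simp only [Pi.add_apply]
    rw [← integral_add i1 i3]
    refine integral_congr_ae (Eventually.of_forall fun x => ?_)
    simp only [hψx]
    ring
  have hfund := intervalIntegral.integral_eq_sub_of_hasDeriv_right_of_le ht.1
    (hFc.mono hsubI) (fun σ hσ => (hderiv σ hσ).hasDerivWithinAt)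
    (ContinuousOn.intervalIntegrable (by
      rw [Set.uIcc_of_le ht.1]
      exact (continuousOn_const.mul hDc).mono hsubI))
  have z0 : duz s c t t = (s : ℂ) := by unfold duz; simp
  have z1 : duz s c t 0 = (s : ℂ) - c * t * Complex.I := by unfold duz; simp
  simp only [z0, z1] at hfund
  rw [intervalIntegral.integral_const_mul] at hfund
  have hfund' : Complex.I * ∫ σ in (0 : ℝ)..t, ∫ x, nl d (u σ x) * G (duz s c t σ) x =
      (∫ x, u 0 x * G ((s : ℂ) - c * t * Complex.I) x) - ∫ x, u t x * G (s : ℂ) x := by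
    linear_combination -hfund
  unfold duz at hfund'
  rw [hfund']
  ring

end MP3483
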