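import Pool.Agent.Lib_MP_3483a5_an.Base0

/-!
# MP_3483a5_an, piece UB

`t ↦ eLpNorm (u t) 2` is finite and bounded on the compact interval: by `cont` it is bounded near every
point of `[0,T]` (triangle inequality), then compactness
(`IsCompact.induction_on` or a finite subcover); same for `Du t j`, finitely many `j`.
-/

open MeasureTheory Filter Topology Complex SchwartzMap
open scoped FourierTransform LineDeriv Laplacian ENNReal NNReal ComplexConjugate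

namespace MP3483
variable {d : ℕ}

private theorem unif_bound_aux {T : ℝ} {f : ℝ → Sp d → ℂ}
    (hf : ∀ t ∈ Set.Icc 0 T, MemLp (f t) 2 volume)
    (hc : ∀ t ∈ Set.Icc 0 T,
      Tendsto (fun s => eLpNorm (f s - f t) 2 volume) (𝓝[Set.Icc 0 T] t) (𝓝 0)) :
    ∃ M : ℝ, 0 ≤ M ∧ ∀ t ∈ Set.Icc 0 T, eLpNorm (f t) 2 volume ≤ ENNReal.ofReal M := by
  have hK : IsCompact (Set.Icc (0 : ℝ) T) := isCompact_Icc
  have key : ∃ M : ℝ, 0 ≤ M ∧
      ∀ t ∈ Set.Icc 0 T ∩ Set.Icc 0 T, eLpNorm (f t) 2 volume ≤ ENNReal.ofReal M := by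
    refine hK.induction_on (p := fun s => ∃ M : ℝ, 0 ≤ M ∧
      ∀ t ∈ s ∩ Set.Icc 0 T, eLpNorm (f t) 2 volume ≤ ENNReal.ofReal M) ?_ ?_ ?_ ?_
    · exact ⟨0, le_rfl, by simp⟩
    · rintro s t hst ⟨M, hM, h⟩
      exact ⟨M, hM, fun x hx => h x ⟨hst hx.1, hx.2⟩⟩
    · rintro s t ⟨M, hM, h⟩ ⟨N, hN, h'⟩
      refine ⟨max M N, le_max_of_le_left hM, ?_⟩
      rintro x ⟨hx | hx, hxT⟩
      · exact (h x ⟨hx, hxT⟩).trans (ENNReal.ofReal_le_ofReal (le_max_left _ _))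
      · exact (h' x ⟨hx, hxT⟩).trans (ENNReal.ofReal_le_ofReal (le_max_right _ _))
    · intro t ht
      have h1 : ∀ᶠ s in 𝓝[Set.Icc 0 T] t, eLpNorm (f s - f t) 2 volume ≤ 1 :=
        (hc t ht).eventually (eventually_le_nhds (by simp : (0 : ℝ≥0∞) < 1))
      refine ⟨{s | eLpNorm (f s - f t) 2 volume ≤ 1}, h1,
        1 + (eLpNorm (f t) 2 volume).toReal, by positivity, ?_⟩
      rintro s ⟨hs, hsT⟩
      have h2 : eLpNorm (f s) 2 volume ≤ eLpNorm (f s - f t) 2 volume + eLpNorm (f t) 2 volume := by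
        have h3 := eLpNorm_add_le (p := 2) (((hf s hsT).1).sub (hf t ht).1) (hf t ht).1
          (by norm_num : (1 : ℝ≥0∞) ≤ 2)
        simpa using h3
      refine h2.trans ?_
      rw [ENNReal.ofReal_add zero_le_one ENNReal.toReal_nonneg, ENNReal.ofReal_one,
        ENNReal.ofReal_toReal (hf t ht).2.ne]
      exact add_le_add_left hs _
  obtain ⟨M, hM, h⟩ := key
  exact ⟨M, hM, fun t ht => h t ⟨ht, ht⟩⟩

theorem unif_bound {T : ℝ} (hT : 0 < T) {u : ℝ → Sp d → ℂ}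
    {Du : ℝ → Fin d → Sp d → ℂ} (hu : H1Path (Set.Icc 0 T) u Du) : ∃ M : ℝ, 0 ≤ M ∧
      ∀ t ∈ Set.Icc 0 T, eLpNorm (u t) 2 volume ≤ ENNReal.ofReal M ∧
        ∀ j, eLpNorm (Du t j) 2 volume ≤ ENNReal.ofReal M := by
  obtain ⟨M, hM, h⟩ := unif_bound_aux (f := u) (fun t ht => (hu.isH1 t ht).memLp) hu.cont
  have hD : ∀ j, ∃ N : ℝ, 0 ≤ N ∧
      ∀ t ∈ Set.Icc 0 T, eLpNorm (Du t j) 2 volume ≤ ENNReal.ofReal N := fun j =>
    unif_bound_aux (f := fun t => Du t j) (fun t ht => (hu.isH1 t ht).memLpD j)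
      (fun t ht => hu.contD t ht j)
  choose N hN hN' using hD
  have hsum : ∀ j, N j ≤ ∑ i, N i := fun j =>
    Finset.single_le_sum (fun i _ => hN i) (Finset.mem_univ j)
  have hs0 : 0 ≤ ∑ i, N i := Finset.sum_nonneg fun i _ => hN i
  refine ⟨M + ∑ i, N i, by positivity, fun t ht => ⟨(h t ht).trans
    (ENNReal.ofReal_le_ofReal (by linarith)), fun j => (hN' j t ht).trans
    (ENNReal.ofReal_le_ofReal (by linarith [hsum j]))⟩⟩

end MP3483
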