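import Pool.Agent.Lib_MP_3483a5_an.SB
import Pool.Agent.Lib_MP_3483a5_an.DU
import Pool.Agent.Lib_MP_3483a5_an.UB

/-!
# MP_3483a5_an, piece CB

The main bound for bounded solutions.
Proof.  `unif_bound` gives `M`.  By `duhamel` (`s ∈ (0,1]`, `t ∈ [0,T]`): the left side is at most
`C₀ ∫|G_s| + ∫_0^t |∫ nl(u σ) G(s - ic(t-σ))| dσ ≤ C₀ + C∫_0^t (1 + (c(t-σ))^{-1/2} s^{-kap}) dσ` (`G_l1`, and
`slice_bound` with `τ = c(t-σ) > 0` for `σ < t`), which is at most `C₀ + C(T + 2(T/c)^{1/2} s^{-kap})`, and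
`s^{-kap d} ≥ 1` because `kap d ≥ 0`, `s ≤ 1`.  (`C₀` may be replaced by `max C₀ 0`.)
-/

open MeasureTheory Filter Topology Complex SchwartzMap
open scoped FourierTransform LineDeriv Laplacian ENNReal NNReal ComplexConjugate

namespace MP3483
variable {d : ℕ}

theorem CB_kap_nonneg (hd : 2 ≤ d) : 0 ≤ kap d := by
  unfold kap
  split_ifs with h
  · exact le_rfl
  · have h3 : 3 ≤ d := by omega
    have h4 : (3 : ℝ) ≤ d := by exact_mod_cast h3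
    linarith

theorem CB_first {C₀ : ℝ} {f : Sp d → ℂ} (hf : ∀ᵐ x, ‖f x‖ ≤ C₀) {s : ℝ} (hs : 0 < s) :
    ‖∫ x, f x * G (s : ℂ) x‖ ≤ max C₀ 0 := by
  have hint : Integrable (fun x : Sp d => max C₀ 0 * ‖G (s : ℂ) x‖) := by
    have h1 : Integrable (fun x : Sp d => (gS (d := d) (s : ℂ) (by simpa using hs)) x) :=
      (gS (d := d) (s : ℂ) (by simpa using hs)).integrable
    have h2 : (fun x : Sp d => (gS (d := d) (s : ℂ) (by simpa using hs)) x) = G (s : ℂ) := by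
      funext x
      exact gS_apply _ _ x
    rw [h2] at h1
    exact h1.norm.const_mul _
  have h3 := norm_integral_le_of_norm_le (f := fun x => f x * G (s : ℂ) x) hint (by
    filter_upwards [hf] with x hx
    rw [norm_mul]
    exact mul_le_mul_of_nonneg_right (le_trans hx (le_max_left _ _)) (norm_nonneg _))
  refine le_trans h3 (le_of_eq ?_)
  rw [integral_const_mul, G_l1 s hs, mul_one]

theorem CB_kernel {c t : ℝ} (hc : 0 < c) (ht : 0 ≤ t) :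
    IntervalIntegrable (fun σ : ℝ => (c * (t - σ)) ^ (-(1 / 2) : ℝ)) volume 0 t ∧
    ∫ σ in (0 : ℝ)..t, (c * (t - σ)) ^ (-(1 / 2) : ℝ) =
      c ^ (-(1 / 2) : ℝ) * (2 * t ^ (1 / 2 : ℝ)) := by
  have h0 : IntervalIntegrable (fun x : ℝ => x ^ (-(1 / 2) : ℝ)) volume 0 t :=
    intervalIntegral.intervalIntegrable_rpow' (by norm_num)
  have h1 : IntervalIntegrable (fun x : ℝ => (t - x) ^ (-(1 / 2) : ℝ)) volume 0 t := by
    have := (h0.comp_sub_left t)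
    simpa using this.symm
  have h2 : Set.EqOn (fun σ : ℝ => c ^ (-(1 / 2) : ℝ) * (t - σ) ^ (-(1 / 2) : ℝ))
      (fun σ : ℝ => (c * (t - σ)) ^ (-(1 / 2) : ℝ)) (Set.uIcc 0 t) := by
    intro σ hσ
    rw [Set.uIcc_of_le ht] at hσ
    simp only
    rw [Real.mul_rpow hc.le (by linarith [hσ.2])]
  constructor
  · exact (h1.const_mul (c ^ (-(1 / 2) : ℝ))).congr (fun σ hσ => by
      exact h2 (Set.uIoc_subset_uIcc hσ))
  · rw [← intervalIntegral.integral_congr h2, intervalIntegral.integral_const_mul]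
    congr 1
    have h3 := intervalIntegral.integral_comp_sub_left (fun x : ℝ => x ^ (-(1 / 2) : ℝ)) t
      (a := 0) (b := t)
    rw [h3, sub_self, sub_zero, integral_rpow (Or.inl (by norm_num))]
    have h4 : (-(1 / 2) : ℝ) + 1 = 1 / 2 := by norm_num
    rw [h4, Real.zero_rpow (by norm_num)]
    ring

theorem core_bound (hd : 2 ≤ d) {c T : ℝ} (hc : 0 < c) (hT : 0 < T) {u : ℝ → Sp d → ℂ}
    {Du : ℝ → Fin d → Sp d → ℂ} (hu : H1Path (Set.Icc 0 T) u Du)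
    (hsol : Solves (fun _ => -c) (Set.Icc 0 T) u) {C₀ : ℝ}
    (hb : ∀ t ∈ Set.Icc 0 T, ∀ᵐ x, ‖u t x‖ ≤ C₀) : ∃ C : ℝ, ∀ t ∈ Set.Icc 0 T, ∀ s : ℝ, 0 < s →
      s ≤ 1 → ‖∫ x, u 0 x * G ((s : ℂ) - c * t * Complex.I) x‖ ≤ C * s ^ (-kap d) := by
  obtain ⟨M, hM0, hM⟩ := unif_bound hT hu
  obtain ⟨C1, hC1, h1⟩ := slice_bound hd C₀ M
  refine ⟨max C₀ 0 + C1 * (T + 2 * (c ^ (-(1 / 2) : ℝ) * T ^ (1 / 2 : ℝ))), ?_⟩
  intro t ht s hs hs1
  have hk := CB_kap_nonneg hd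
  have hsk : 1 ≤ s ^ (-kap d) :=
    Real.one_le_rpow_of_pos_of_le_one_of_nonpos hs hs1 (by linarith)
  have hfirst := CB_first (hb t ht) hs
  obtain ⟨hker, hkerv⟩ := CB_kernel hc ht.1
  have hbint : IntervalIntegrable (fun σ : ℝ =>
      C1 * (1 + (c * (t - σ)) ^ (-(1 / 2) : ℝ) * s ^ (-kap d))) volume 0 t :=
    (intervalIntegrable_const.add (hker.mul_const _)).const_mul C1
  have hsecond : ‖∫ σ in (0 : ℝ)..t,
      ∫ x, nl d (u σ x) * G ((s : ℂ) - c * (t - σ) * Complex.I) x‖ ≤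
      ∫ σ in (0 : ℝ)..t, C1 * (1 + (c * (t - σ)) ^ (-(1 / 2) : ℝ) * s ^ (-kap d)) := by
    refine intervalIntegral.norm_integral_le_of_norm_le ht.1 ?_ hbint
    have hne : ∀ᵐ σ : ℝ, σ ≠ t := by
      simp [ae_iff, measure_singleton]
    filter_upwards [hne] with σ hσt hσ
    have hσ1 : σ ∈ Set.Icc 0 T := ⟨hσ.1.le, le_trans hσ.2 ht.2⟩
    have hlt : σ < t := lt_of_le_of_ne hσ.2 hσt
    have hτ : 0 < c * (t - σ) := mul_pos hc (by linarith)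
    have h2 := h1 (u σ) (Du σ) (hu.isH1 σ hσ1) (hb σ hσ1) (hM σ hσ1).1 (hM σ hσ1).2
      (c * (t - σ)) hτ s hs hs1
    push_cast at h2
    exact h2
  have hval : ∫ σ in (0 : ℝ)..t, C1 * (1 + (c * (t - σ)) ^ (-(1 / 2) : ℝ) * s ^ (-kap d)) =
      C1 * (t + c ^ (-(1 / 2) : ℝ) * (2 * t ^ (1 / 2 : ℝ)) * s ^ (-kap d)) := by
    rw [intervalIntegral.integral_const_mul, intervalIntegral.integral_add
      intervalIntegrable_const (hker.mul_const _), intervalIntegral.integral_mul_const, hkerv,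
      intervalIntegral.integral_const]
    simp
  rw [hval] at hsecond
  have htT : t ^ (1 / 2 : ℝ) ≤ T ^ (1 / 2 : ℝ) := Real.rpow_le_rpow ht.1 ht.2 (by norm_num)
  have hct : 0 ≤ c ^ (-(1 / 2) : ℝ) := (Real.rpow_pos_of_pos hc _).le
  have hT12 : 0 ≤ T ^ (1 / 2 : ℝ) := (Real.rpow_pos_of_pos hT _).le
  have hmain : C1 * (t + c ^ (-(1 / 2) : ℝ) * (2 * t ^ (1 / 2 : ℝ)) * s ^ (-kap d)) ≤
      C1 * (T + 2 * (c ^ (-(1 / 2) : ℝ) * T ^ (1 / 2 : ℝ))) * s ^ (-kap d) := by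
    rw [mul_assoc C1 (T + 2 * (c ^ (-(1 / 2) : ℝ) * T ^ (1 / 2 : ℝ))) (s ^ (-kap d))]
    refine mul_le_mul_of_nonneg_left ?_ hC1
    have h3 : t ≤ T * s ^ (-kap d) := by nlinarith [ht.2]
    have h4 : c ^ (-(1 / 2) : ℝ) * (2 * t ^ (1 / 2 : ℝ)) * s ^ (-kap d) ≤
        2 * (c ^ (-(1 / 2) : ℝ) * T ^ (1 / 2 : ℝ)) * s ^ (-kap d) := by
      refine mul_le_mul_of_nonneg_right ?_ (by linarith)
      nlinarith
    linarith
  have hC00 : (0 : ℝ) ≤ max C₀ 0 := le_max_right _ _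
  calc ‖∫ x, u 0 x * G ((s : ℂ) - c * t * Complex.I) x‖
      = ‖(∫ x, u t x * G (s : ℂ) x) + Complex.I * ∫ σ in (0 : ℝ)..t,
        ∫ x, nl d (u σ x) * G ((s : ℂ) - c * (t - σ) * Complex.I) x‖ := by
          rw [duhamel hc hT hu hsol hb ht hs]
    _ ≤ ‖∫ x, u t x * G (s : ℂ) x‖ + ‖∫ σ in (0 : ℝ)..t,
        ∫ x, nl d (u σ x) * G ((s : ℂ) - c * (t - σ) * Complex.I) x‖ := by
          refine le_trans (norm_add_le _ _) (le_of_eq ?_)
          rw [norm_mul, Complex.norm_I, one_mul]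
    _ ≤ max C₀ 0 + C1 * (T + 2 * (c ^ (-(1 / 2) : ℝ) * T ^ (1 / 2 : ℝ))) * s ^ (-kap d) :=
          add_le_add hfirst (le_trans hsecond hmain)
    _ ≤ (max C₀ 0 + C1 * (T + 2 * (c ^ (-(1 / 2) : ℝ) * T ^ (1 / 2 : ℝ)))) * s ^ (-kap d) := by
          rw [add_mul]
          have : max C₀ 0 ≤ max C₀ 0 * s ^ (-kap d) := by nlinarith
          linarith

end MP3483
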