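import Pool.Agent.Lib_MP_3483a5_an.Base

/-!
# MP_3483a5_an, piece GF

(1) `𝓕 G_z (ξ) = e^{-4π² z ‖ξ‖²}`: `fourier_gaussian_innerProductSpace` with `b = 1/(4z)` gives
`(π/b)^{d/2} e^{-π²‖ξ‖²/b}`, and `(4πz)^{-d/2} (4πz)^{d/2} = 1`.
(2) `∫ G_z G_w = (4πz)^{-d/2} (4πw)^{-d/2} (π/b)^{d/2}`, `b = (z+w)/(4zw) = 1/(4z) + 1/(4w)`, `Re b > 0`
(`GaussianFourier.integral_cexp_neg_mul_sq_norm`); take norms (real exponents, no branch problem):
`(4π|z+w|)^{-d/2}`.  (3) for `d = 2` the powers are `(4πz)^{-1}` and everything is exact.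
-/

open MeasureTheory Filter Topology Complex SchwartzMap
open scoped FourierTransform LineDeriv Laplacian ENNReal NNReal ComplexConjugate

namespace MP3483
variable {d : ℕ}

private theorem gf_ne {z : ℂ} (hz : 0 < z.re) : z ≠ 0 := by
  intro h
  rw [h, Complex.zero_re] at hz
  exact lt_irrefl _ hz

private theorem gf_inv_re {z : ℂ} (hz : 0 < z.re) : 0 < (1 / (4 * z)).re := by
  have h4 : (4 * z).re = 4 * z.re := by simp
  rw [one_div, Complex.inv_re, h4]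
  have h5 : 0 < Complex.normSq (4 * z) := by
    rw [Complex.normSq_pos]
    exact mul_ne_zero (by norm_num) (gf_ne hz)
  positivity

private theorem gf_pi_ne {z : ℂ} (hz : 0 < z.re) : (4 * (Real.pi : ℂ) * z) ≠ 0 :=
  mul_ne_zero (mul_ne_zero (by norm_num) (Complex.ofReal_ne_zero.2 Real.pi_ne_zero)) (gf_ne hz)

theorem fourier_gS (z : ℂ) (hz : 0 < z.re) (ξ : Sp d) :
    (𝓕 (gS z hz) : 𝓢(Sp d, ℂ)) ξ = cexp (-(4 * (Real.pi : ℂ) ^ 2 * z * (‖ξ‖ : ℂ) ^ 2)) := by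
  have hz0 := gf_ne hz
  have hpi : (Real.pi : ℂ) ≠ 0 := Complex.ofReal_ne_zero.2 Real.pi_ne_zero
  have h1 : (gS z hz : Sp d → ℂ) = fun x => (4 * (Real.pi : ℂ) * z) ^ (-(d : ℂ) / 2) *
      cexp (-(1 / (4 * z)) * (‖x‖ : ℂ) ^ 2) := by
    funext x
    rw [gS_apply, G]
    congr 2
    ring
  have h2 := fourier_gaussian_innerProductSpace (V := Sp d) (gf_inv_re hz) ξ
  rw [SchwartzMap.fourier_coe, h1]
  have h3 : 𝓕 (fun x : Sp d => (4 * (Real.pi : ℂ) * z) ^ (-(d : ℂ) / 2) *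
      cexp (-(1 / (4 * z)) * (‖x‖ : ℂ) ^ 2)) ξ =
      (4 * (Real.pi : ℂ) * z) ^ (-(d : ℂ) / 2) *
        𝓕 (fun x : Sp d => cexp (-(1 / (4 * z)) * (‖x‖ : ℂ) ^ 2)) ξ := by
    rw [Real.fourier_eq', Real.fourier_eq', ← integral_const_mul]
    refine integral_congr_ae (Eventually.of_forall fun x => ?_)
    simp only [smul_eq_mul]
    ring
  rw [h3, h2, finrank_euclideanSpace_fin]
  have h4 : (Real.pi : ℂ) / (1 / (4 * z)) = 4 * (Real.pi : ℂ) * z := by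
    field_simp
  have h5 : -(Real.pi : ℂ) ^ 2 * (‖ξ‖ : ℂ) ^ 2 / (1 / (4 * z)) =
      -(4 * (Real.pi : ℂ) ^ 2 * z * (‖ξ‖ : ℂ) ^ 2) := by
    field_simp
  rw [h4, h5, ← mul_assoc, neg_div, Complex.cpow_neg, inv_mul_cancel₀, one_mul]
  rw [Ne, Complex.cpow_eq_zero_iff]
  exact fun h => gf_pi_ne hz h.1

private theorem gf_pair (z w : ℂ) (hz : 0 < z.re) (hw : 0 < w.re) :
    ∫ x : Sp d, G z x * G w x = (4 * (Real.pi : ℂ) * z) ^ (-(d : ℂ) / 2) *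
      (4 * (Real.pi : ℂ) * w) ^ (-(d : ℂ) / 2) *
      ((4 * (Real.pi : ℂ) * z) * (4 * (Real.pi : ℂ) * w) / (4 * (Real.pi : ℂ) * (z + w))) ^
        ((d : ℂ) / 2) := by
  have hz0 := gf_ne hz
  have hw0 := gf_ne hw
  have hzw : 0 < (z + w).re := by rw [Complex.add_re]; linarith
  have hzw0 := gf_ne hzw
  have hpi : (Real.pi : ℂ) ≠ 0 := Complex.ofReal_ne_zero.2 Real.pi_ne_zero
  have hb : 0 < (1 / (4 * z) + 1 / (4 * w)).re := by
    rw [Complex.add_re]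
    exact add_pos (gf_inv_re hz) (gf_inv_re hw)
  have h1 := GaussianFourier.integral_cexp_neg_mul_sq_norm (V := Sp d) hb
  have h2 : ∀ x : Sp d, G z x * G w x = (4 * (Real.pi : ℂ) * z) ^ (-(d : ℂ) / 2) *
      (4 * (Real.pi : ℂ) * w) ^ (-(d : ℂ) / 2) *
      cexp (-(1 / (4 * z) + 1 / (4 * w)) * (‖x‖ : ℂ) ^ 2) := by
    intro x
    rw [G, G, mul_mul_mul_comm, ← Complex.exp_add]
    congr 2
    ring
  have h3 : (Real.pi : ℂ) / (1 / (4 * z) + 1 / (4 * w)) =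
      (4 * (Real.pi : ℂ) * z) * (4 * (Real.pi : ℂ) * w) / (4 * (Real.pi : ℂ) * (z + w)) := by
    have h4 : 1 / (4 * z) + 1 / (4 * w) = (z + w) / (4 * z * w) := by
      field_simp
      ring
    rw [h4]
    field_simp
  rw [integral_congr_ae (Eventually.of_forall h2), integral_const_mul, h1,
    finrank_euclideanSpace_fin, h3]

theorem G_pair_norm (z w : ℂ) (hz : 0 < z.re) (hw : 0 < w.re) :
    ‖∫ x : Sp d, G z x * G w x‖ = (4 * Real.pi * ‖z + w‖) ^ (-(d : ℝ) / 2) := by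
  have hzw : 0 < (z + w).re := by rw [Complex.add_re]; linarith
  have e1 : (-(d : ℂ) / 2) = ((-(d : ℝ) / 2 : ℝ) : ℂ) := by push_cast; rfl
  have e2 : ((d : ℂ) / 2) = (((d : ℝ) / 2 : ℝ) : ℂ) := by push_cast; rfl
  rw [gf_pair z w hz hw, norm_mul, norm_mul, e1, e2, Complex.norm_cpow_real,
    Complex.norm_cpow_real, Complex.norm_cpow_real, norm_div, norm_mul (4 * (Real.pi : ℂ) * z)]
  have h1 : ‖4 * (Real.pi : ℂ) * (z + w)‖ = 4 * Real.pi * ‖z + w‖ := by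
    rw [norm_mul, norm_mul, Complex.norm_real, Real.norm_of_nonneg Real.pi_pos.le]
    norm_num
  have ha : 0 < ‖4 * (Real.pi : ℂ) * z‖ := norm_pos_iff.2 (gf_pi_ne hz)
  have hb : 0 < ‖4 * (Real.pi : ℂ) * w‖ := norm_pos_iff.2 (gf_pi_ne hw)
  have hc : 0 < ‖4 * (Real.pi : ℂ) * (z + w)‖ := norm_pos_iff.2 (gf_pi_ne hzw)
  rw [← h1, Real.div_rpow (by positivity) hc.le, Real.mul_rpow ha.le hb.le, neg_div,
    Real.rpow_neg ha.le, Real.rpow_neg hb.le, Real.rpow_neg hc.le]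
  have ha' := (Real.rpow_pos_of_pos ha ((d : ℝ) / 2)).ne'
  have hb' := (Real.rpow_pos_of_pos hb ((d : ℝ) / 2)).ne'
  have hc' := (Real.rpow_pos_of_pos hc ((d : ℝ) / 2)).ne'
  field_simp

theorem G_pair_two (z w : ℂ) (hz : 0 < z.re) (hw : 0 < w.re) :
    ∫ x : Sp 2, G z x * G w x = 1 / (4 * (Real.pi : ℂ) * (z + w)) := by
  have hzw : 0 < (z + w).re := by rw [Complex.add_re]; linarith
  have hz0 := gf_ne hz
  have hw0 := gf_ne hw
  have hzw0 := gf_ne hzw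
  have hpi : (Real.pi : ℂ) ≠ 0 := Complex.ofReal_ne_zero.2 Real.pi_ne_zero
  have e1 : (-((2 : ℕ) : ℂ) / 2) = -1 := by norm_num
  have e2 : (((2 : ℕ) : ℂ) / 2) = 1 := by norm_num
  rw [gf_pair z w hz hw, e1, e2, Complex.cpow_neg_one, Complex.cpow_neg_one, Complex.cpow_one]
  field_simp

end MP3483
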