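import Pool.Agent.Lib_MP_3483a5_an.GQ
import Pool.Agent.Lib_MP_3483a5_an.GL
import Pool.Agent.Lib_MP_3483a5_an.GF

/-!
# MP_3483a5_an, piece K3

`KeyProp d`, `d ≥ 3`, `kap d = (2d-5)/8`.
Proof.  For `a ∈ (0,1]` let `z = A • gS(a + iτ)`, `A = c a^{d/4+1/2}`, `c = c(d,τ) > 0` small.
Sup norm: `A (4π|a+iτ|)^{-d/2} ≤ c (4πτ)^{-d/2} ≤ 1` (`G_sup`).  `∫|z|² = A² (8πa)^{-d/2} = c² a (8π)^{-d/2} ≤ 1`
(`G_l2`).  `∫|∂_j z|² ≤ A² C a^{-(2+d)/2} = c² C ≤ 1` (`gS_partial_norm` with `q = 2`; the power of `|z|`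
is `0`).  Pairing with `s = a`: `G_pair_norm` (`z+w = 2a`) gives
`s^{kap d} |∫ z G(s-iτ)| = a^{kap} A (8πa)^{-d/2} = c (8π)^{-d/2} a^{-1/8}`, which is `≥ M` for `a` small.
-/

open MeasureTheory Filter Topology Complex SchwartzMap
open scoped FourierTransform LineDeriv Laplacian ENNReal NNReal ComplexConjugate

namespace MP3483
variable {d : ℕ}

theorem k3_pd_smul (c : ℂ) (j : Fin d) (ψ : 𝓢(Sp d, ℂ)) (x : Sp d) :
    pd j (c • ψ) x = c * pd j ψ x := by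
  have h : pd j (c • ψ) = c • pd j ψ := by
    unfold pd
    exact LineDeriv.lineDerivOp_smul _ _ _
  rw [h]
  rfl

theorem key_three (hd : 3 ≤ d) : KeyProp d := by
  intro τ hτ M
  obtain ⟨C, hC0, hC⟩ := gS_partial_norm (d := d) 2 (by norm_num)
  have hpi := Real.pi_pos
  have hd2 : d ≠ 2 := by omega
  -- the constant
  obtain ⟨c, hc0, hc1, hc2, hc3⟩ : ∃ c : ℝ, 0 < c ∧ c ≤ 1 ∧
      c * (4 * Real.pi * τ) ^ (-(d : ℝ) / 2) ≤ 1 ∧ c ^ 2 * C ≤ 1 := by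
    have h0 : 0 < (4 * Real.pi * τ) ^ (-(d : ℝ) / 2) := by positivity
    refine ⟨min 1 (min ((4 * Real.pi * τ) ^ (-(d : ℝ) / 2))⁻¹ (C + 1)⁻¹), ?_, min_le_left _ _, ?_, ?_⟩
    · refine lt_min one_pos (lt_min (by positivity) (by positivity))
    · have h1 : min 1 (min ((4 * Real.pi * τ) ^ (-(d : ℝ) / 2))⁻¹ (C + 1)⁻¹) ≤
          ((4 * Real.pi * τ) ^ (-(d : ℝ) / 2))⁻¹ := (min_le_right _ _).trans (min_le_left _ _)
      calc _ ≤ ((4 * Real.pi * τ) ^ (-(d : ℝ) / 2))⁻¹ * (4 * Real.pi * τ) ^ (-(d : ℝ) / 2) :=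
            mul_le_mul_of_nonneg_right h1 h0.le
        _ = 1 := inv_mul_cancel₀ h0.ne'
    · have h1 : min 1 (min ((4 * Real.pi * τ) ^ (-(d : ℝ) / 2))⁻¹ (C + 1)⁻¹) ≤ (C + 1)⁻¹ :=
        (min_le_right _ _).trans (min_le_right _ _)
      have h2 : 0 ≤ min 1 (min ((4 * Real.pi * τ) ^ (-(d : ℝ) / 2))⁻¹ (C + 1)⁻¹) :=
        le_min zero_le_one (le_min (by positivity) (by positivity))
      calc _ ≤ ((C + 1)⁻¹) ^ 2 * C := mul_le_mul_of_nonneg_right (pow_le_pow_left₀ h2 h1 2) hC0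
        _ = C / (C + 1) ^ 2 := by rw [inv_pow]; ring
        _ ≤ 1 := by
          rw [div_le_one (by positivity)]
          nlinarith
  -- the parameter
  set K : ℝ := c * (8 * Real.pi) ^ (-(d : ℝ) / 2) with hK
  have hK0 : 0 < K := by positivity
  obtain ⟨a, ha0, ha1, haM⟩ : ∃ a : ℝ, 0 < a ∧ a ≤ 1 ∧ M ≤ K * a ^ (-(1 : ℝ) / 8) := by
    refine ⟨min 1 ((K / (|M| + 1)) ^ (8 : ℝ)), lt_min one_pos (by positivity), min_le_left _ _, ?_⟩
    set a : ℝ := min 1 ((K / (|M| + 1)) ^ (8 : ℝ)) with ha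
    have ha0 : 0 < a := lt_min one_pos (by positivity)
    have h1 : a ^ ((1 : ℝ) / 8) ≤ K / (|M| + 1) := by
      have h2 := Real.rpow_le_rpow ha0.le (min_le_right 1 ((K / (|M| + 1)) ^ (8 : ℝ)))
        (by norm_num : (0 : ℝ) ≤ 1 / 8)
      rw [← Real.rpow_mul (by positivity)] at h2
      norm_num at h2
      norm_num
      exact h2
    have h3 : a ^ (-(1 : ℝ) / 8) = (a ^ ((1 : ℝ) / 8))⁻¹ := by
      rw [neg_div, Real.rpow_neg ha0.le]
    have h4 : 0 < a ^ ((1 : ℝ) / 8) := by positivity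
    rw [h3, ← div_eq_mul_inv, le_div_iff₀ h4]
    rw [le_div_iff₀ (by positivity)] at h1
    calc M * a ^ ((1 : ℝ) / 8) ≤ (|M| + 1) * a ^ ((1 : ℝ) / 8) :=
          mul_le_mul_of_nonneg_right ((le_abs_self M).trans (by linarith)) h4.le
      _ ≤ K := by linarith
  -- the test function
  set A : ℝ := c * a ^ ((d : ℝ) / 4 + 1 / 2) with hA
  have hA0 : 0 < A := by positivity
  have hz : 0 < ((a : ℂ) + τ * Complex.I).re := by simpa using ha0
  have hw : 0 < ((a : ℂ) - τ * Complex.I).re := by simpa using ha0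
  set z₀ : ℂ := (a : ℂ) + τ * Complex.I with hz₀
  have hre : z₀.re = a := by simp [hz₀]
  have him : z₀.im = τ := by simp [hz₀]
  have hnA : ‖((A : ℝ) : ℂ)‖ = A := by rw [norm_real, Real.norm_of_nonneg hA0.le]
  have hapow : a ^ ((d : ℝ) / 4 + 1 / 2) ≤ 1 := Real.rpow_le_one ha0.le ha1 (by positivity)
  have hA2 : A ^ 2 = c ^ 2 * a ^ ((d : ℝ) / 2 + 1) := by
    rw [hA, mul_pow, ← Real.rpow_natCast (a ^ _) 2, ← Real.rpow_mul ha0.le]
    congr 2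
    push_cast
    ring
  have hτn : τ ≤ ‖z₀‖ := by
    have := Complex.abs_im_le_norm z₀
    rw [him, abs_of_pos hτ] at this
    exact this
  refine ⟨((A : ℝ) : ℂ) • gS z₀ hz, ?_, ?_, ?_, a, ha0, ha1, ?_⟩
  · intro x
    rw [_root_.smul_apply, gS_apply, smul_eq_mul, norm_mul, hnA]
    have h1 := G_sup z₀ hz x
    have h2 : (4 * Real.pi * ‖z₀‖) ^ (-(d : ℝ) / 2) ≤ (4 * Real.pi * τ) ^ (-(d : ℝ) / 2) := by
      refine Real.rpow_le_rpow_of_nonpos (by positivity) ?_ ?_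
      · exact mul_le_mul_of_nonneg_left hτn (by positivity)
      · have : (0 : ℝ) ≤ d := Nat.cast_nonneg d
        linarith
    have h3 : A ≤ c := by
      rw [hA]
      exact mul_le_of_le_one_right hc0.le hapow
    calc A * ‖G z₀ x‖ ≤ c * (4 * Real.pi * τ) ^ (-(d : ℝ) / 2) :=
          mul_le_mul h3 (h1.trans h2) (norm_nonneg _) hc0.le
      _ ≤ 1 := hc2
  · have h1 : ∀ x : Sp d, ‖(((A : ℝ) : ℂ) • gS z₀ hz) x‖ ^ 2 = A ^ 2 * ‖G z₀ x‖ ^ 2 := by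
      intro x
      rw [_root_.smul_apply, gS_apply, smul_eq_mul, norm_mul, hnA, mul_pow]
    simp only [h1]
    rw [integral_const_mul, G_l2 z₀ hz, hre, hA2]
    have h2 : (8 * Real.pi * a) ^ (-(d : ℝ) / 2) ≤ a ^ (-(d : ℝ) / 2) := by
      refine Real.rpow_le_rpow_of_nonpos ha0 ?_ ?_
      · have : 3 < Real.pi := Real.pi_gt_three
        nlinarith
      · have : (0 : ℝ) ≤ d := Nat.cast_nonneg d
        linarith
    have h3 : a ^ ((d : ℝ) / 2 + 1) * a ^ (-(d : ℝ) / 2) = a := by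
      rw [← Real.rpow_add ha0]
      have : (d : ℝ) / 2 + 1 + -(d : ℝ) / 2 = 1 := by ring
      rw [this, Real.rpow_one]
    calc c ^ 2 * a ^ ((d : ℝ) / 2 + 1) * (8 * Real.pi * a) ^ (-(d : ℝ) / 2)
        ≤ c ^ 2 * a ^ ((d : ℝ) / 2 + 1) * a ^ (-(d : ℝ) / 2) :=
          mul_le_mul_of_nonneg_left h2 (by positivity)
      _ = c ^ 2 * a := by rw [mul_assoc, h3]
      _ ≤ 1 := by nlinarith
  · intro j
    have h1 : ∀ x : Sp d, ‖pd j (((A : ℝ) : ℂ) • gS z₀ hz) x‖ ^ 2 =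
        A ^ 2 * ‖pd j (gS z₀ hz) x‖ ^ (2 : ℝ) := by
      intro x
      rw [k3_pd_smul, norm_mul, hnA, mul_pow, Real.rpow_two]
    simp only [h1]
    rw [integral_const_mul, hA2]
    have h2 := hC z₀ hz j
    have h3 : (d : ℝ) - d * 2 / 2 = 0 := by ring
    rw [h3, Real.rpow_zero, mul_one, hre] at h2
    have h4 : a ^ ((d : ℝ) / 2 + 1) * a ^ (-((2 : ℝ) + d) / 2) = 1 := by
      rw [← Real.rpow_add ha0]
      have : (d : ℝ) / 2 + 1 + -(2 + (d : ℝ)) / 2 = 0 := by ring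
      rw [this, Real.rpow_zero]
    calc c ^ 2 * a ^ ((d : ℝ) / 2 + 1) * ∫ x : Sp d, ‖pd j (gS z₀ hz) x‖ ^ (2 : ℝ)
        ≤ c ^ 2 * a ^ ((d : ℝ) / 2 + 1) * (C * a ^ (-((2 : ℝ) + d) / 2)) :=
          mul_le_mul_of_nonneg_left h2 (by positivity)
      _ = c ^ 2 * C * (a ^ ((d : ℝ) / 2 + 1) * a ^ (-((2 : ℝ) + d) / 2)) := by ring
      _ ≤ 1 := by rw [h4, mul_one]; exact hc3
  · have h1 : ∀ x : Sp d, (((A : ℝ) : ℂ) • gS z₀ hz) x * G ((a : ℂ) - τ * Complex.I) x =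
        ((A : ℝ) : ℂ) * (G z₀ x * G ((a : ℂ) - τ * Complex.I) x) := by
      intro x
      rw [_root_.smul_apply, gS_apply, smul_eq_mul, mul_assoc]
    simp only [h1]
    rw [integral_const_mul, norm_mul, hnA, G_pair_norm z₀ _ hz hw]
    have h2 : z₀ + ((a : ℂ) - τ * Complex.I) = ((2 * a : ℝ) : ℂ) := by
      rw [hz₀]
      push_cast
      ring
    rw [h2, norm_real, Real.norm_of_nonneg (by positivity)]
    have h3 : 4 * Real.pi * (2 * a) = 8 * Real.pi * a := by ring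
    rw [h3, Real.mul_rpow (by positivity) ha0.le]
    have h4 : kap d = (2 * (d : ℝ) - 5) / 8 := by
      unfold kap
      rw [if_neg hd2]
    have h5 : a ^ kap d * (a ^ ((d : ℝ) / 4 + 1 / 2) * a ^ (-(d : ℝ) / 2)) = a ^ (-(1 : ℝ) / 8) := by
      rw [← Real.rpow_add ha0, ← Real.rpow_add ha0, h4]
      congr 1
      ring
    calc M ≤ K * a ^ (-(1 : ℝ) / 8) := haM
      _ = a ^ kap d * (A * ((8 * Real.pi) ^ (-(d : ℝ) / 2) * a ^ (-(d : ℝ) / 2))) := by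
        rw [← h5, hK, hA]
        ring

end MP3483
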