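import Pool.Agent.Lib_MP_3483a5_an.SMB

/-!
# MP_3483a5_an, piece SMA

Same series, now with `∫|∂_j z_k|² ≤ 1`; the first, third... items are in `sums_b`.
Proof.  `Du j := pd j w + S j` where `S j` is (a representative of) the sum in `Lp ℂ 2` of
`a k • (pd j (z k)).toLp 2`, an absolutely convergent series in a complete space (the norms are
`≤ |a k|`); so `eLpNorm (Du j) 2 ≤ eLpNorm (pd j w) 2 + 1`.  Weak derivative: for a Schwartz function
`ψ`, `g ↦ ∫ g ψ` is continuous and linear on `L²`, hence `∫ S_j ψ = ∑ a k ∫ (pd j (z k)) ψ =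
-∑ a k ∫ z k (pd j ψ)` (`SchwartzMap.integral_mul_lineDerivOp_right_eq_neg_left`), and the last sum is
given by the pairing formula of `sums_b` with `g = pd j ψ`.
-/

open MeasureTheory Filter Topology Complex SchwartzMap
open scoped FourierTransform LineDeriv Laplacian ENNReal NNReal ComplexConjugate

namespace MP3483
variable {d : ℕ}

theorem sma_inner (ψ : 𝓢(Sp d, ℂ)) : ∃ v : Lp ℂ 2 (volume : Measure (Sp d)),
    ∀ h : Lp ℂ 2 (volume : Measure (Sp d)), inner ℂ v h = ∫ x, h x * ψ x := by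
  have hψc : MemLp (star (ψ : Sp d → ℂ)) 2 volume := (ψ.memLp 2 volume).star
  refine ⟨hψc.toLp _, fun h => ?_⟩
  rw [L2.inner_def]
  refine integral_congr_ae ?_
  filter_upwards [hψc.coeFn_toLp] with x hx
  rw [hx]
  simp [RCLike.inner_apply]

theorem sma_pair (ψ : 𝓢(Sp d, ℂ)) (f : ℕ → 𝓢(Sp d, ℂ)) (a : ℕ → ℂ)
    (hs : Summable (fun k => a k • ((f k).toLp 2 volume : Lp ℂ 2 (volume : Measure (Sp d))))) :
    ∫ x, (∑' k, a k • ((f k).toLp 2 volume : Lp ℂ 2 (volume : Measure (Sp d)))) x * ψ x =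
      ∑' k, a k * ∫ x, f k x * ψ x := by
  obtain ⟨v, hv⟩ := sma_inner ψ
  have hk : ∀ k, inner ℂ v ((f k).toLp 2 volume : Lp ℂ 2 (volume : Measure (Sp d))) =
      ∫ x, f k x * ψ x := by
    intro k
    rw [hv]
    refine integral_congr_ae ?_
    filter_upwards [(f k).coeFn_toLp 2 volume] with x hx
    rw [hx]
  have h1 : inner ℂ v (∑' k, a k • ((f k).toLp 2 volume : Lp ℂ 2 (volume : Measure (Sp d)))) =
      ∑' k, inner ℂ v (a k • ((f k).toLp 2 volume : Lp ℂ 2 (volume : Measure (Sp d)))) :=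
    (innerSL ℂ v).map_tsum hs
  rw [← hv, h1]
  refine tsum_congr (fun k => ?_)
  rw [inner_smul_right, hk]

theorem sma_norm (f : 𝓢(Sp d, ℂ)) (hf : ∫ x, ‖f x‖ ^ 2 ≤ 1) :
    ‖(f.toLp 2 volume : Lp ℂ 2 (volume : Measure (Sp d)))‖ ≤ 1 := by
  rw [SchwartzMap.norm_toLp]
  have h := int_sq_eq (f.memLp 2 volume)
  rw [h] at hf
  have h0 : 0 ≤ (eLpNorm f 2 (volume : Measure (Sp d))).toReal := ENNReal.toReal_nonneg
  nlinarith

theorem sums (w : 𝓢(Sp d, ℂ)) (z : ℕ → 𝓢(Sp d, ℂ)) (hz1 : ∀ k x, ‖z k x‖ ≤ 1)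
    (hz2 : ∀ k, ∫ x, ‖z k x‖ ^ 2 ≤ 1) (hz3 : ∀ k j, ∫ x, ‖pd j (z k) x‖ ^ 2 ≤ 1)
    (a : ℕ → ℂ) (ha : Summable (fun k => ‖a k‖)) (ha1 : ∑' k, ‖a k‖ ≤ 1) :
    ∃ Du : Fin d → Sp d → ℂ, IsH1 (fun x => w x + ∑' k, a k * z k x) Du ∧
      Continuous (fun x => w x + ∑' k, a k * z k x) ∧
      (∃ B : ℝ, ∀ x, ‖w x + ∑' k, a k * z k x‖ ≤ B) ∧
      (∀ j, eLpNorm (Du j) 2 volume ≤ eLpNorm (pd j w) 2 volume + 1) ∧
      (eLpNorm w (rhoE d) volume ≤
        eLpNorm (fun x => w x + ∑' k, a k * z k x) (rhoE d) volume + 1) ∧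
      ∀ g : 𝓢(Sp d, ℂ), ∫ x, (w x + ∑' k, a k * z k x) * g x =
        (∫ x, w x * g x) + ∑' k, a k * ∫ x, z k x * g x := by
  obtain ⟨hb1, hb2, hb3, hb4, hb5⟩ := sums_b w z hz1 hz2 a ha ha1
  have hsum : ∀ j : Fin d, Summable (fun k => a k •
      ((pd j (z k)).toLp 2 volume : Lp ℂ 2 (volume : Measure (Sp d)))) := by
    intro j
    refine Summable.of_norm_bounded ha (fun k => ?_)
    rw [norm_smul]
    have h1 := sma_norm (pd j (z k)) (hz3 k j)
    have h2 := norm_nonneg (a k)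
    nlinarith
  have hnorm : ∀ j : Fin d, ‖∑' k, a k •
      ((pd j (z k)).toLp 2 volume : Lp ℂ 2 (volume : Measure (Sp d)))‖ ≤ 1 := by
    intro j
    have hle : ∀ k, ‖a k • ((pd j (z k)).toLp 2 volume : Lp ℂ 2 (volume : Measure (Sp d)))‖ ≤
        ‖a k‖ := by
      intro k
      rw [norm_smul]
      have h1 := sma_norm (pd j (z k)) (hz3 k j)
      have h2 := norm_nonneg (a k)
      nlinarith
    have hsn : Summable (fun k => ‖a k •
        ((pd j (z k)).toLp 2 volume : Lp ℂ 2 (volume : Measure (Sp d)))‖) :=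
      Summable.of_nonneg_of_le (fun k => norm_nonneg _) hle ha
    exact (norm_tsum_le_tsum_norm hsn).trans ((hsn.tsum_le_tsum hle ha).trans ha1)
  let S : Fin d → Lp ℂ 2 (volume : Measure (Sp d)) := fun j => ∑' k, a k •
      ((pd j (z k)).toLp 2 volume : Lp ℂ 2 (volume : Measure (Sp d)))
  refine ⟨fun j x => pd j w x + S j x, ⟨hb1, ?_, ?_⟩, hb2, hb3, ?_, hb4, hb5⟩
  · intro j
    exact ((pd j w).memLp 2 volume).add (Lp.memLp (S j))
  · intro j ψ
    have i1 : Integrable (fun x => pd j w x * ψ x) volume :=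
      ((pd j w).memLp 2 volume).integrable_mul (ψ.memLp 2 volume)
    have i2 : Integrable (fun x => S j x * ψ x) volume :=
      (Lp.memLp (S j)).integrable_mul (ψ.memLp 2 volume)
    have h1 : ∫ x, (pd j w x + S j x) * ψ x = (∫ x, pd j w x * ψ x) + ∫ x, S j x * ψ x := by
      rw [← integral_add i1 i2]
      refine integral_congr_ae (Eventually.of_forall (fun x => ?_))
      simp only
      ring
    have hib : ∀ f : 𝓢(Sp d, ℂ), ∫ x, pd j f x * ψ x = - ∫ x, f x * pd j ψ x := by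
      intro f
      have h := SchwartzMap.integral_mul_lineDerivOp_right_eq_neg_left
        (μ := (volume : Measure (Sp d))) f ψ (ev j)
      unfold pd
      rw [h, neg_neg]
    have h2 : ∫ x, S j x * ψ x = ∑' k, a k * ∫ x, pd j (z k) x * ψ x :=
      sma_pair ψ (fun k => pd j (z k)) a (hsum j)
    have h3 : ∑' k, a k * ∫ x, pd j (z k) x * ψ x = - ∑' k, a k * ∫ x, z k x * pd j ψ x := by
      rw [← tsum_neg]
      refine tsum_congr (fun k => ?_)
      rw [hib, mul_neg]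
    rw [h1, h2, h3, hib, hb5 (pd j ψ)]
    ring
  · intro j
    refine (eLpNorm_add_le ((pd j w).memLp 2 volume).1 (Lp.memLp (S j)).1 (by norm_num)).trans ?_
    refine add_le_add le_rfl ?_
    have h1 : eLpNorm (S j) 2 (volume : Measure (Sp d)) = ENNReal.ofReal ‖S j‖ := by
      rw [Lp.norm_def, ENNReal.ofReal_toReal (Lp.eLpNorm_ne_top _)]
    rw [h1, ← ENNReal.ofReal_one]
    exact ENNReal.ofReal_le_ofReal (hnorm j)

end MP3483
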