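import Pool.Agent.Lib_MP_3483a5_an.K2
import Pool.Agent.Lib_MP_3483a5_an.K3
import Pool.Agent.Lib_MP_3483a5_an.BA
import Pool.Agent.Lib_MP_3483a5_an.SMA
import Pool.Agent.Lib_MP_3483a5_an.BN
import Pool.Agent.Lib_MP_3483a5_an.CB

/-!
# MP_3483a5_an: construction of the datum and the contradiction for bounded solutions (assembly)
-/

open MeasureTheory Filter Topology Complex SchwartzMap
open scoped FourierTransform LineDeriv Laplacian ENNReal NNReal ComplexConjugate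

namespace MP3483
variable {d : ℕ}

theorem key_prop (hd : 2 ≤ d) : KeyProp d := by
  rcases Nat.eq_or_lt_of_le hd with h | h
  · subst h; exact key_two
  · exact key_three h

theorem exists_bad (hd : 2 ≤ d) : ∃ (u₀ : Sp d → ℂ) (Du₀ : Fin d → Sp d → ℂ), IsH1 u₀ Du₀ ∧
    Continuous u₀ ∧ (∃ B : ℝ, ∀ x, ‖u₀ x‖ ≤ B) ∧ En u₀ Du₀ < 0 ∧
    ∀ τ₀ : ℝ, 0 < τ₀ → ∀ C : ℝ, ∃ τ s : ℝ, 0 < τ ∧ τ ≤ τ₀ ∧ 0 < s ∧ s ≤ 1 ∧
      C < s ^ kap d * ‖∫ x, u₀ x * G ((s : ℂ) - τ * Complex.I) x‖ := by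
  classical
  have hd1 : 1 ≤ d := by omega
  obtain ⟨w, hw1, hw2⟩ := big_negative hd1
  have hτ : ∀ n : ℕ, (0 : ℝ) < 1 / ((n : ℝ) + 1) := fun n => by positivity
  have hkey := fun (n M : ℕ) => key_prop hd (1 / ((n : ℝ) + 1)) (hτ n) (M : ℝ)
  choose Z hZ1 hZ2 hZ3 S hS0 hS1 hS2 using hkey
  let z : ℕ → 𝓢(Sp d, ℂ) := fun k => Z (Nat.unpair k).1 (Nat.unpair k).2
  let g : ℕ → ℕ → 𝓢(Sp d, ℂ) := fun n m =>
    gS ((S n m : ℂ) - ((1 / ((n : ℝ) + 1) : ℝ) : ℂ) * Complex.I) (by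
      have : ((S n m : ℂ) - ((1 / ((n : ℝ) + 1) : ℝ) : ℂ) * Complex.I).re = S n m := by
        rw [sub_re, mul_re]; simp
      rw [this]; exact hS0 n m)
  have hg : ∀ n m x, g n m x = G ((S n m : ℂ) - ((1 / ((n : ℝ) + 1) : ℝ) : ℂ) * Complex.I) x :=
    fun n m x => gS_apply _ _ x
  let wt : ℕ → ℕ → ℂ := fun n m => ((S n m ^ kap d : ℝ) : ℂ)
  let c : ℕ → ℕ → ℂ := fun n m => wt n m * ∫ x, w x * g n m x
  let b : ℕ → ℕ → ℕ → ℂ := fun n m k => wt n m * ∫ x, z k x * g n m x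
  have hb : ∀ n m, ∃ B : ℝ, ∀ k, ‖b n m k‖ ≤ B := by
    intro n m
    refine ⟨‖wt n m‖ * ∫ x, ‖g n m x‖, fun k => ?_⟩
    simp only [b, norm_mul]
    refine mul_le_mul_of_nonneg_left ?_ (norm_nonneg _)
    refine (norm_integral_le_integral_norm _).trans ?_
    refine integral_mono_of_nonneg (Eventually.of_forall fun x => norm_nonneg _)
      (g n m).integrable.norm (Eventually.of_forall fun x => ?_)
    simp only [norm_mul]
    calc ‖z k x‖ * ‖g n m x‖ ≤ 1 * ‖g n m x‖ := by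
          refine mul_le_mul_of_nonneg_right ?_ (norm_nonneg _)
          exact hZ1 _ _ x
      _ = ‖g n m x‖ := one_mul _
  have hM : ∀ (n : ℕ) (M : ℝ), ∃ m k, M ≤ ‖b n m k‖ := by
    intro n M
    obtain ⟨m, hm⟩ := exists_nat_ge M
    refine ⟨m, Nat.pair n m, hm.trans ?_⟩
    have h1 := hS2 n m
    simp only [b, z, wt, Nat.unpair_pair, norm_mul]
    rw [Complex.norm_real, Real.norm_of_nonneg (Real.rpow_nonneg (hS0 n m).le _)]
    simpa only [hg] using h1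
  obtain ⟨a, ha, ha1, ha2⟩ := baire_l1 c b hb hM
  obtain ⟨Du, hu1, hu2, hu3, hu4, hu5, hu6⟩ := sums w z (fun k x => hZ1 _ _ x) (fun k => hZ2 _ _)
    (fun k j => hZ3 _ _ j) a ha ha1
  refine ⟨_, Du, hu1, hu2, hu3, ?_, ?_⟩
  · obtain ⟨B, hB⟩ := hu3
    have hur : MemLp (fun x => w x + ∑' k, a k * z k x) (ENNReal.ofReal (rho d)) volume :=
      memLp_rho_of_bdd hu1.memLp (Eventually.of_forall hB) (rho_ge_two d)
    have h1 : ∀ j, ∫ x, ‖Du j x‖ ^ 2 ≤ ((eLpNorm (pd j w) 2 volume).toReal + 1) ^ 2 := by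
      intro j
      rw [int_sq_eq (hu1.memLpD j)]
      have hfin : eLpNorm (pd j w) 2 volume ≠ ⊤ := ((pd j w).memLp 2 volume).2.ne
      refine pow_le_pow_left₀ ENNReal.toReal_nonneg ?_ 2
      have := ENNReal.toReal_mono (ENNReal.add_ne_top.2 ⟨hfin, ENNReal.one_ne_top⟩) (hu4 j)
      rwa [ENNReal.toReal_add hfin ENNReal.one_ne_top, ENNReal.toReal_one] at this
    have h2 : ((eLpNorm w (rhoE d) volume).toReal - 1) ^ rho d ≤
        ∫ x, ‖w x + ∑' k, a k * z k x‖ ^ rho d := by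
      rw [int_rpow_eq (rho_pos d) hur]
      refine Real.rpow_le_rpow (by linarith) ?_ (rho_pos d).le
      have hfin : eLpNorm (fun x => w x + ∑' k, a k * z k x) (rhoE d) volume ≠ ⊤ := hur.2.ne
      have := ENNReal.toReal_mono (ENNReal.add_ne_top.2 ⟨hfin, ENNReal.one_ne_top⟩) hu5
      rw [ENNReal.toReal_add hfin ENNReal.one_ne_top, ENNReal.toReal_one] at this
      unfold rhoE at this ⊢
      linarith
    have h3 : (1 / 2 : ℝ) * (∑ j, ∫ x, ‖Du j x‖ ^ 2) ≤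
        (1 / 2) * ∑ j, ((eLpNorm (pd j w) 2 volume).toReal + 1) ^ 2 :=
      mul_le_mul_of_nonneg_left (Finset.sum_le_sum fun j _ => h1 j) (by norm_num)
    have h4 : (1 / rho d) * ((eLpNorm w (rhoE d) volume).toReal - 1) ^ rho d ≤
        (1 / rho d) * ∫ x, ‖w x + ∑' k, a k * z k x‖ ^ rho d :=
      mul_le_mul_of_nonneg_left h2 (by have := rho_pos d; positivity)
    unfold En
    linarith
  · intro τ₀ hτ₀ C
    obtain ⟨n, hn⟩ := exists_nat_one_div_lt hτ₀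
    obtain ⟨m, hm⟩ := ha2 n C
    refine ⟨1 / ((n : ℝ) + 1), S n m, hτ n, hn.le, hS0 n m, hS1 n m, hm.trans_le ?_⟩
    have h6 := hu6 (g n m)
    simp only [hg] at h6
    rw [h6]
    have h7 : c n m + ∑' k, a k * b n m k = wt n m * ((∫ x, w x * g n m x) +
        ∑' k, a k * ∫ x, z k x * g n m x) := by
      simp only [c, b]
      rw [mul_add, ← tsum_mul_left]
      congr 1
      exact tsum_congr fun k => by ring
    rw [h7, norm_mul]
    simp only [wt, hg]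
    rw [Complex.norm_real, Real.norm_of_nonneg (Real.rpow_nonneg (hS0 n m).le _)]

theorem no_bounded {u₀ : Sp d → ℂ} (hd : 2 ≤ d)
    (hbad : ∀ τ₀ : ℝ, 0 < τ₀ → ∀ C : ℝ, ∃ τ s : ℝ, 0 < τ ∧ τ ≤ τ₀ ∧ 0 < s ∧ s ≤ 1 ∧
      C < s ^ kap d * ‖∫ x, u₀ x * G ((s : ℂ) - τ * Complex.I) x‖)
    {c T : ℝ} (hc : 0 < c) (hT : 0 < T) {u : ℝ → Sp d → ℂ}
    {Du : ℝ → Fin d → Sp d → ℂ} (hu : H1Path (Set.Icc 0 T) u Du)
    (hsol : Solves (fun _ => -c) (Set.Icc 0 T) u) (h0 : u 0 =ᵐ[volume] u₀) {C₀ : ℝ}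
    (hb : ∀ t ∈ Set.Icc 0 T, ∀ᵐ x, ‖u t x‖ ≤ C₀) : False := by
  obtain ⟨C, hC⟩ := core_bound hd hc hT hu hsol hb
  obtain ⟨τ, s, hτ, hτ1, hs, hs1, h⟩ := hbad (c * T) (by positivity) C
  have h1 := hC (τ / c) ⟨by positivity, by rwa [div_le_iff₀ hc, mul_comm]⟩ s hs hs1
  have h2 : (c : ℂ) * ((τ / c : ℝ) : ℂ) = τ := by
    rw [← ofReal_mul, mul_div_cancel₀ _ hc.ne']
  rw [h2] at h1
  have h3 : ∫ x, u 0 x * G ((s : ℂ) - τ * Complex.I) x =
      ∫ x, u₀ x * G ((s : ℂ) - τ * Complex.I) x := by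
    refine integral_congr_ae ?_
    filter_upwards [h0] with x hx
    rw [hx]
  rw [h3] at h1
  have h4 : s ^ kap d * ‖∫ x, u₀ x * G ((s : ℂ) - τ * Complex.I) x‖ ≤
      s ^ kap d * (C * s ^ (-kap d)) :=
    mul_le_mul_of_nonneg_left h1 (Real.rpow_nonneg hs.le _)
  have h5 : s ^ kap d * (C * s ^ (-kap d)) = C := by
    rw [mul_left_comm, ← Real.rpow_add hs]; simp
  linarith

end MP3483
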