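import Pool.Agent.Lib_MP_3483a5_an.Base0

/-!
# MP_3483a5_an, piece FW

`𝓕(∂_j f) = 2πi ξ_j 𝓕f` a.e. for `f, ∂_j f ∈ L²` (weak derivative).
Proof.  For `h ∈ L²` and `θ` Schwartz, `∫ (𝓕h) θ = ∫ h 𝓕θ` (`Lp.fourier_toTemperedDistribution_eq` evaluated
at `θ`, or Plancherel).  So `∫ 𝓕(g)θ = ∫ g 𝓕θ = -∫ f ∂_j(𝓕θ) = -∫ f 𝓕(-2πiξ_jθ) = ∫ (𝓕f) 2πiξ_jθ`
(`SchwartzMap.lineDerivOp_fourier_eq`).  Both sides are locally integrable functions with the same
integrals against all Schwartz (in particular all smooth compactly supported) functions, so they agree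
a.e. (`ae_eq_of_integral_contDiff_smul_eq`).
-/

open MeasureTheory Filter Topology Complex SchwartzMap
open scoped FourierTransform LineDeriv Laplacian ENNReal NNReal ComplexConjugate

namespace MP3483
variable {d : ℕ}

/-- the Fourier transform of an `L²` function, tested with a Schwartz function -/
theorem fw_test {f : Sp d → ℂ} (hf : MemLp f 2 volume) (θ : 𝓢(Sp d, ℂ)) :
    ∫ ξ, θ ξ * ((𝓕 (hf.toLp f) : Lp ℂ 2 (volume : Measure (Sp d))) : Sp d → ℂ) ξ =
      ∫ x, f x * (𝓕 θ : 𝓢(Sp d, ℂ)) x := by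
  have h1 := DFunLike.congr_fun (Lp.fourier_toTemperedDistribution_eq (hf.toLp f)) θ
  rw [TemperedDistribution.fourier_apply, Lp.toTemperedDistribution_apply,
    Lp.toTemperedDistribution_apply] at h1
  simp only [smul_eq_mul] at h1
  rw [← h1]
  refine integral_congr_ae ?_
  filter_upwards [hf.coeFn_toLp] with x hx
  rw [hx, mul_comm]

theorem fw_locInt {f : Sp d → ℂ} (hf : MemLp f 2 volume) {c : Sp d → ℂ} (hc : Continuous c) :
    LocallyIntegrable (fun x => c x * f x) volume := by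
  have h1 : LocallyIntegrable f volume := hf.locallyIntegrable (by norm_num)
  rw [MeasureTheory.locallyIntegrable_iff] at h1 ⊢
  intro K hK
  exact (h1 K hK).continuousOn_mul hc.continuousOn hK

theorem fourier_weak {j : Fin d} {f g : Sp d → ℂ} (hf : MemLp f 2 volume) (hg : MemLp g 2 volume)
    (h : WeakPartial j f g) :
    ((𝓕 (hg.toLp g) : Lp ℂ 2 (volume : Measure (Sp d))) : Sp d → ℂ) =ᵐ[volume]
      fun ξ => 2 * (Real.pi : ℂ) * Complex.I * (ξ j : ℂ) *
        ((𝓕 (hf.toLp f) : Lp ℂ 2 (volume : Measure (Sp d))) : Sp d → ℂ) ξ := by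
  have hcont : Continuous (fun ξ : Sp d => 2 * (Real.pi : ℂ) * Complex.I * (ξ j : ℂ)) := by
    fun_prop
  refine ae_eq_of_integral_contDiff_smul_eq ((Lp.memLp _).locallyIntegrable (by norm_num))
    (fw_locInt (Lp.memLp _) hcont) ?_
  intro θ hθ1 hθ2
  have hg₁ : HasCompactSupport (Complex.ofRealCLM ∘ θ) := hθ2.comp_left rfl
  have hg₂ : ContDiff ℝ (⊤ : ℕ∞) (Complex.ofRealCLM ∘ θ) := by fun_prop
  set T : 𝓢(Sp d, ℂ) := hg₁.toSchwartzMap hg₂ with hT
  have hTx : ∀ x, T x = (θ x : ℂ) := fun x => rfl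
  have htg : (fun x : Sp d => (inner ℝ x (ev j) : ℝ)).HasTemperateGrowth := by fun_prop
  have hin : ∀ x : Sp d, (inner ℝ x (ev j) : ℝ) = x j := by
    intro x
    rw [ev, EuclideanSpace.inner_single_right]
    simp
  have e1 : ∫ ξ, θ ξ • ((𝓕 (hg.toLp g) : Lp ℂ 2 (volume : Measure (Sp d))) : Sp d → ℂ) ξ =
      - ∫ x, f x * pd j (𝓕 T) x := by
    rw [← h (𝓕 T), ← fw_test hg T]
    refine integral_congr_ae (Eventually.of_forall fun x => ?_)
    simp [hTx]
  have e2 : (pd j (𝓕 T) : 𝓢(Sp d, ℂ)) =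
      𝓕 (-(2 * Real.pi * Complex.I) • SchwartzMap.smulLeftCLM ℂ (fun x : Sp d => (inner ℝ x (ev j) : ℝ)) T) := by
    exact SchwartzMap.lineDerivOp_fourier_eq T (ev j)
  rw [e1, e2, ← fw_test hf, ← integral_neg]
  refine integral_congr_ae (Eventually.of_forall fun x => ?_)
  have e3 : (-(2 * Real.pi * Complex.I) •
      SchwartzMap.smulLeftCLM ℂ (fun x : Sp d => (inner ℝ x (ev j) : ℝ)) T) x =
      -(2 * Real.pi * Complex.I) * ((x j : ℂ) * (θ x : ℂ)) := by
    rw [_root_.smul_apply, SchwartzMap.smulLeftCLM_apply_apply htg, hin, hTx]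
    simp
  simp only [e3, Complex.real_smul]
  ring

end MP3483
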