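import Pool.Agent.Lib_MP_3483a5_an.FW

/-!
# MP_3483a5_an, piece HD

Schwartz functions are dense in `H¹`.
Proof.  Let `F = (1+‖ξ‖²)^{1/2} 𝓕f`; it is in `L²` because `𝓕f` and `ξ_j 𝓕f = (2πi)^{-1} 𝓕(Df j)` are
(`fourier_weak`).  Choose a Schwartz function `χ` with `‖F - χ‖₂ ≤ η/(2π)` (`SchwartzMap.denseRange_toLpCLM`)
and let `φ = 𝓕⁻¹((1+‖ξ‖²)^{-1/2} χ)` (multiplication by the function `(1+‖ξ‖²)^{-1/2}` of temperate growth: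
`SchwartzMap.smulLeftCLM`).  Plancherel (`Lp.norm_fourier_eq`, `SchwartzMap.toLp_fourier_eq`):
`‖f-φ‖₂ = ‖(1+‖ξ‖²)^{-1/2}(F-χ)‖₂ ≤ ‖F-χ‖₂` and `‖Df j - ∂_jφ‖₂ = ‖2πξ_j(1+‖ξ‖²)^{-1/2}(F-χ)‖₂ ≤ 2π‖F-χ‖₂`.
-/

open MeasureTheory Filter Topology Complex SchwartzMap
open scoped FourierTransform LineDeriv Laplacian ENNReal NNReal ComplexConjugate

namespace MP3483
variable {d : ℕ}

/-- Plancherel for the difference of an `L²` function and a Schwartz function -/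
theorem hd_plancherel {f : Sp d → ℂ} (hf : MemLp f 2 volume) (φ : 𝓢(Sp d, ℂ)) :
    eLpNorm (fun x => f x - φ x) 2 volume =
      eLpNorm (fun ξ => ((𝓕 (hf.toLp f) : Lp ℂ 2 (volume : Measure (Sp d))) : Sp d → ℂ) ξ -
        (𝓕 φ : 𝓢(Sp d, ℂ)) ξ) 2 volume := by
  have h1 : ‖hf.toLp f - φ.toLp 2 volume‖ₑ = eLpNorm (fun x => f x - φ x) 2 volume := by
    rw [Lp.enorm_def]
    refine eLpNorm_congr_ae ?_
    filter_upwards [Lp.coeFn_sub (hf.toLp f) (φ.toLp 2 volume), hf.coeFn_toLp,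
      φ.coeFn_toLp 2 volume] with x h1 h2 h3
    rw [h1, Pi.sub_apply, h2, h3]
  have h2 : ‖𝓕 (hf.toLp f) - (𝓕 φ : 𝓢(Sp d, ℂ)).toLp 2 volume‖ₑ =
      eLpNorm (fun ξ => ((𝓕 (hf.toLp f) : Lp ℂ 2 (volume : Measure (Sp d))) : Sp d → ℂ) ξ -
        (𝓕 φ : 𝓢(Sp d, ℂ)) ξ) 2 volume := by
    rw [Lp.enorm_def]
    refine eLpNorm_congr_ae ?_
    filter_upwards [Lp.coeFn_sub (𝓕 (hf.toLp f)) ((𝓕 φ : 𝓢(Sp d, ℂ)).toLp 2 volume),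
      (𝓕 φ : 𝓢(Sp d, ℂ)).coeFn_toLp 2 volume] with x h1 h3
    rw [h1, Pi.sub_apply, h3]
  rw [← h1, ← h2, ← SchwartzMap.toLp_fourier_eq]
  have h3 : 𝓕 (hf.toLp f) - 𝓕 (φ.toLp 2 volume) = 𝓕 (hf.toLp f - φ.toLp 2 volume) :=
    ((Lp.fourierTransformₗᵢ (Sp d) ℂ).map_sub (hf.toLp f) (φ.toLp 2 volume)).symm
  rw [h3, enorm_eq_iff_norm_eq, Lp.norm_fourier_eq]

/-- `(1 + ‖ξ‖²)^{1/2} 𝓕f` is in `L²` for `f ∈ H¹` -/
theorem hd_memLp {f : Sp d → ℂ} {Df : Fin d → Sp d → ℂ} (h : IsH1 f Df) :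
    MemLp (fun ξ => (((1 + ‖ξ‖ ^ 2) ^ (1 / 2 : ℝ) : ℝ) : ℂ) *
      ((𝓕 (h.memLp.toLp f) : Lp ℂ 2 (volume : Measure (Sp d))) : Sp d → ℂ) ξ) 2 volume := by
  set F : Sp d → ℂ := ((𝓕 (h.memLp.toLp f) : Lp ℂ 2 (volume : Measure (Sp d))) : Sp d → ℂ) with hF
  have hFm : MemLp F 2 volume := Lp.memLp _
  have hc : Continuous (fun ξ : Sp d => (((1 + ‖ξ‖ ^ 2) ^ (1 / 2 : ℝ) : ℝ) : ℂ)) := by
    refine Complex.continuous_ofReal.comp ?_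
    refine Continuous.rpow_const (by fun_prop) fun x => Or.inr (by norm_num)
  have hms : AEStronglyMeasurable (fun ξ => (((1 + ‖ξ‖ ^ 2) ^ (1 / 2 : ℝ) : ℝ) : ℂ) * F ξ) volume :=
    hc.aestronglyMeasurable.mul hFm.1
  rw [memLp_two_iff_integrable_sq_norm hms]
  have hj : ∀ j, MemLp (fun ξ : Sp d => 2 * (Real.pi : ℂ) * Complex.I * (ξ j : ℂ) * F ξ) 2 volume := by
    intro j
    exact (memLp_congr_ae (fourier_weak h.memLp (h.memLpD j) (h.weak j))).1 (Lp.memLp _)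
  have hj2 : ∀ j, Integrable (fun ξ : Sp d => (ξ j) ^ 2 * ‖F ξ‖ ^ 2) volume := by
    intro j
    have h1 := ((memLp_two_iff_integrable_sq_norm (hj j).1).1 (hj j)).const_mul
      ((2 * Real.pi) ^ 2)⁻¹
    refine h1.congr (Eventually.of_forall fun ξ => ?_)
    simp only [norm_mul, Complex.norm_real, Complex.norm_I, Complex.norm_ofNat, Real.norm_eq_abs,
      abs_of_pos Real.pi_pos, mul_pow, sq_abs]
    field_simp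
  have h0 : Integrable (fun ξ : Sp d => ‖F ξ‖ ^ 2) volume :=
    (memLp_two_iff_integrable_sq_norm hFm.1).1 hFm
  have h2 : Integrable (fun ξ : Sp d => ‖F ξ‖ ^ 2 + ∑ j, (ξ j) ^ 2 * ‖F ξ‖ ^ 2) volume :=
    h0.add (integrable_finsetSum _ fun j _ => hj2 j)
  refine h2.congr (Eventually.of_forall fun ξ => ?_)
  have h3 : ‖(((1 + ‖ξ‖ ^ 2) ^ (1 / 2 : ℝ) : ℝ) : ℂ)‖ ^ 2 = 1 + ‖ξ‖ ^ 2 := by
    rw [Complex.norm_real, Real.norm_eq_abs, sq_abs, ← Real.sqrt_eq_rpow, Real.sq_sqrt (by positivity)]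
  have h4 : ‖ξ‖ ^ 2 = ∑ j, (ξ j) ^ 2 := by
    rw [EuclideanSpace.norm_sq_eq]
    exact Finset.sum_congr rfl fun j _ => by rw [Real.norm_eq_abs, sq_abs]
  show ‖F ξ‖ ^ 2 + ∑ j, (ξ j) ^ 2 * ‖F ξ‖ ^ 2 = ‖(((1 + ‖ξ‖ ^ 2) ^ (1 / 2 : ℝ) : ℝ) : ℂ) * F ξ‖ ^ 2
  rw [norm_mul, mul_pow, h3, h4, ← Finset.sum_mul]
  ring

theorem h1_dense {f : Sp d → ℂ} {Df : Fin d → Sp d → ℂ} (h : IsH1 f Df) {η : ℝ} (hη : 0 < η) :
    ∃ φ : 𝓢(Sp d, ℂ), eLpNorm (fun x => f x - φ x) 2 volume ≤ ENNReal.ofReal η ∧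
      ∀ j, eLpNorm (fun x => Df j x - pd j φ x) 2 volume ≤ ENNReal.ofReal η := by
  have hpi : 1 ≤ 2 * Real.pi := by
    have := Real.pi_gt_three
    linarith
  have hpi0 : 0 < 2 * Real.pi := by linarith
  obtain ⟨g, hg1, hg2, hg3⟩ := MemLp.exist_eLpNorm_sub_le (by norm_num) (by norm_num) (hd_memLp h)
    (show 0 < η / (2 * Real.pi) by positivity)
  set χ : 𝓢(Sp d, ℂ) := hg1.toSchwartzMap hg2 with hχ
  have hχx : ∀ x, χ x = g x := fun x => rfl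
  set F : Sp d → ℂ := ((𝓕 (h.memLp.toLp f) : Lp ℂ 2 (volume : Measure (Sp d))) : Sp d → ℂ) with hF
  -- multiplication with `(1 + ‖ξ‖²)^{-1/2}`
  have htg : (fun x : Sp d => (1 + ‖x‖ ^ 2) ^ (-(1 / 2) : ℝ)).HasTemperateGrowth :=
    Function.hasTemperateGrowth_one_add_norm_sq_rpow (H := Sp d) _
  set ψ : 𝓢(Sp d, ℂ) := SchwartzMap.smulLeftCLM ℂ (fun x : Sp d => (1 + ‖x‖ ^ 2) ^ (-(1 / 2) : ℝ)) χ
    with hψ
  have hψx : ∀ x, ψ x = (((1 + ‖x‖ ^ 2) ^ (-(1 / 2) : ℝ) : ℝ) : ℂ) * g x := by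
    intro x
    rw [hψ, SchwartzMap.smulLeftCLM_apply_apply htg, hχx]
    simp
  set φ : 𝓢(Sp d, ℂ) := 𝓕⁻ ψ with hφ
  have hφψ : (𝓕 φ : 𝓢(Sp d, ℂ)) = ψ := by
    rw [hφ]
    exact FourierTransform.fourier_fourierInv_eq ψ
  -- the pointwise identity
  have hw : ∀ x : Sp d, (((1 + ‖x‖ ^ 2) ^ (-(1 / 2) : ℝ) : ℝ) : ℂ) *
      (((1 + ‖x‖ ^ 2) ^ (1 / 2 : ℝ) : ℝ) : ℂ) = 1 := by
    intro x
    rw [← Complex.ofReal_mul, ← Real.rpow_add (by positivity)]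
    norm_num
  have hdiff : ∀ x : Sp d, F x - ψ x = (((1 + ‖x‖ ^ 2) ^ (-(1 / 2) : ℝ) : ℝ) : ℂ) *
      ((((1 + ‖x‖ ^ 2) ^ (1 / 2 : ℝ) : ℝ) : ℂ) * F x - g x) := by
    intro x
    rw [mul_sub, ← mul_assoc, hw, one_mul, hψx]
  have ha0 : ∀ x : Sp d, 0 ≤ (1 + ‖x‖ ^ 2) ^ (-(1 / 2) : ℝ) := fun x => by positivity
  have ha1 : ∀ x : Sp d, (1 + ‖x‖ ^ 2) ^ (-(1 / 2) : ℝ) ≤ 1 := fun x =>
    Real.rpow_le_one_of_one_le_of_nonpos (by nlinarith [norm_nonneg x]) (by norm_num)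
  have ha2 : ∀ (j : Fin d) (x : Sp d), |x j| * (1 + ‖x‖ ^ 2) ^ (-(1 / 2) : ℝ) ≤ 1 := by
    intro j x
    have h1 : |x j| ≤ ‖x‖ := by
      have := PiLp.norm_apply_le x j
      rwa [Real.norm_eq_abs] at this
    have h2 : ‖x‖ ≤ (1 + ‖x‖ ^ 2) ^ (1 / 2 : ℝ) := by
      rw [← Real.sqrt_eq_rpow]
      exact Real.le_sqrt_of_sq_le (by linarith)
    have h3 : (1 + ‖x‖ ^ 2) ^ (1 / 2 : ℝ) * (1 + ‖x‖ ^ 2) ^ (-(1 / 2) : ℝ) = 1 := by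
      rw [← Real.rpow_add (by positivity)]
      norm_num
    calc |x j| * (1 + ‖x‖ ^ 2) ^ (-(1 / 2) : ℝ)
        ≤ (1 + ‖x‖ ^ 2) ^ (1 / 2 : ℝ) * (1 + ‖x‖ ^ 2) ^ (-(1 / 2) : ℝ) :=
          mul_le_mul_of_nonneg_right (h1.trans h2) (ha0 x)
      _ = 1 := h3
  refine ⟨φ, ?_, fun j => ?_⟩
  · rw [hd_plancherel h.memLp, hφψ]
    refine (eLpNorm_mono (g := fun x => (((1 + ‖x‖ ^ 2) ^ (1 / 2 : ℝ) : ℝ) : ℂ) * F x - g x)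
      fun x => ?_).trans (hg3.trans (ENNReal.ofReal_le_ofReal ?_))
    · show ‖F x - ψ x‖ ≤ _
      rw [hdiff, norm_mul, Complex.norm_real, Real.norm_of_nonneg (ha0 x)]
      exact mul_le_of_le_one_left (norm_nonneg _) (ha1 x)
    · exact div_le_self hη.le hpi
  · rw [hd_plancherel (h.memLpD j)]
    have hae := fourier_weak h.memLp (h.memLpD j) (h.weak j)
    have htg2 : (fun x : Sp d => (inner ℝ x (ev j) : ℝ)).HasTemperateGrowth := by fun_prop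
    have hin : ∀ x : Sp d, (inner ℝ x (ev j) : ℝ) = x j := by
      intro x
      rw [ev, EuclideanSpace.inner_single_right]
      simp
    have hpd : ∀ x, (𝓕 (pd j φ) : 𝓢(Sp d, ℂ)) x =
        2 * (Real.pi : ℂ) * Complex.I * (x j : ℂ) * ψ x := by
      intro x
      have e1 : (𝓕 (pd j φ) : 𝓢(Sp d, ℂ)) = (2 * Real.pi * Complex.I) •
          SchwartzMap.smulLeftCLM ℂ (fun x : Sp d => (inner ℝ x (ev j) : ℝ)) (𝓕 φ) :=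
        SchwartzMap.fourier_lineDerivOp_eq φ (ev j)
      rw [e1, _root_.smul_apply, SchwartzMap.smulLeftCLM_apply_apply htg2, hin, hφψ]
      simp only [Complex.real_smul, smul_eq_mul]
      ring
    have h5 : eLpNorm (fun ξ => ((𝓕 ((h.memLpD j).toLp (Df j)) : Lp ℂ 2 (volume : Measure (Sp d))) : Sp d → ℂ) ξ -
        (𝓕 (pd j φ) : 𝓢(Sp d, ℂ)) ξ) 2 volume ≤ ENNReal.ofReal (2 * Real.pi) *
        eLpNorm ((fun x => (((1 + ‖x‖ ^ 2) ^ (1 / 2 : ℝ) : ℝ) : ℂ) * F x) - g) 2 volume := by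
      refine eLpNorm_le_mul_eLpNorm_of_ae_le_mul ?_ 2
      filter_upwards [hae] with x hx
      rw [hx, hpd x, ← mul_sub, ← hF, hdiff x]
      simp only [norm_mul, Complex.norm_real, Complex.norm_I, Complex.norm_ofNat, Real.norm_eq_abs,
        abs_of_pos Real.pi_pos, mul_one, Pi.sub_apply]
      rw [abs_of_nonneg (ha0 x)]
      have h6 := mul_le_mul_of_nonneg_right (ha2 j x)
        (norm_nonneg ((((1 + ‖x‖ ^ 2) ^ (1 / 2 : ℝ) : ℝ) : ℂ) * F x - g x))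
      rw [one_mul] at h6
      calc 2 * Real.pi * |x j| * ((1 + ‖x‖ ^ 2) ^ (-(1 / 2) : ℝ) *
            ‖(((1 + ‖x‖ ^ 2) ^ (1 / 2 : ℝ) : ℝ) : ℂ) * F x - g x‖)
          = 2 * Real.pi * (|x j| * (1 + ‖x‖ ^ 2) ^ (-(1 / 2) : ℝ) *
            ‖(((1 + ‖x‖ ^ 2) ^ (1 / 2 : ℝ) : ℝ) : ℂ) * F x - g x‖) := by ring
        _ ≤ 2 * Real.pi * ‖(((1 + ‖x‖ ^ 2) ^ (1 / 2 : ℝ) : ℝ) : ℂ) * F x - g x‖ :=
          mul_le_mul_of_nonneg_left h6 hpi0.le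
    refine h5.trans ?_
    calc ENNReal.ofReal (2 * Real.pi) *
          eLpNorm ((fun x => (((1 + ‖x‖ ^ 2) ^ (1 / 2 : ℝ) : ℝ) : ℂ) * F x) - g) 2 volume
        ≤ ENNReal.ofReal (2 * Real.pi) * ENNReal.ofReal (η / (2 * Real.pi)) :=
          mul_le_mul_right hg3 _
      _ = ENNReal.ofReal η := by
          rw [← ENNReal.ofReal_mul hpi0.le, mul_div_cancel₀ _ hpi0.ne']

end MP3483
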