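import Pool.Agent.Lib_MP_3483a5_an.GN
import Pool.Agent.Lib_MP_3483a5_an.HD

/-!
# MP_3483a5_an, piece SO

`H¹ ⊂ L^ρ`, `ρ = 2+4/d`.
Proof.  For Schwartz functions `gagliardo` gives `‖φ‖_ρ ≤ C' (‖φ‖₂ + ∑_j‖∂_jφ‖₂)`: with `a = ‖φ‖₂`,
`b² = ∑‖∂_jφ‖₂²`, `‖φ‖_ρ^ρ ≤ C a^{4/d} b² ≤ C max(a,b)^ρ`.  General `f`: choose Schwartz `φ_n → f` in `H¹`
(`h1_dense`, `η = 1/(n+1)`); `(φ_n)` is Cauchy in `L^ρ` by the inequality applied to differences; its limit
agrees with `f` a.e. (a subsequence converges a.e. both ways).  Or use Fatou: a subsequence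
`φ_n → f` a.e., so `eLpNorm f ρ ≤ liminf eLpNorm φ_n ρ` (`eLpNorm_lim_le_liminf_eLpNorm` or
`Lp.eLpNorm_lim_le_liminf_eLpNorm`), and `‖φ_n‖₂ ≤ ‖f‖₂ + 1/n`, ... .
-/

open MeasureTheory Filter Topology Complex SchwartzMap
open scoped FourierTransform LineDeriv Laplacian ENNReal NNReal ComplexConjugate

namespace MP3483
variable {d : ℕ}

/-- The scalar inequality. -/
theorem so_scalar (hd : 1 ≤ d) {C a N : ℝ} {b : Fin d → ℝ} (hC0 : 0 ≤ C) (ha0 : 0 ≤ a)
    (hb0 : ∀ j, 0 ≤ b j) (hN : 0 ≤ N)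
    (h1 : N ^ rho d ≤ C * (a ^ 2) ^ ((2 : ℝ) / d) * ∑ j, b j ^ 2) :
    N ≤ C ^ (1 / rho d) * (a + ∑ j, b j) := by
  have hd0 : (0 : ℝ) < d := by exact_mod_cast hd
  have hρ : 0 < rho d := rho_pos d
  have hbs : 0 ≤ ∑ j, b j := Finset.sum_nonneg fun j _ => hb0 j
  obtain ⟨S, hS⟩ : ∃ S, S = a + ∑ j, b j := ⟨_, rfl⟩
  have hS0 : 0 ≤ S := by rw [hS]; positivity
  have h3 : ∑ j, b j ^ 2 ≤ S ^ 2 := by
    calc ∑ j, b j ^ 2 ≤ ∑ j, b j * (∑ i, b i) := by
          refine Finset.sum_le_sum fun j _ => ?_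
          rw [sq]
          exact mul_le_mul_of_nonneg_left (Finset.single_le_sum (fun i _ => hb0 i) (Finset.mem_univ j))
            (hb0 j)
      _ = (∑ j, b j) ^ 2 := by rw [← Finset.sum_mul, sq]
      _ ≤ S ^ 2 := pow_le_pow_left₀ hbs (by linarith) 2
  have h4 : ((a ^ 2) ^ ((2 : ℝ) / d)) ≤ S ^ ((4 : ℝ) / d) := by
    rw [← Real.rpow_natCast a 2, ← Real.rpow_mul ha0]
    have : ((2 : ℕ) : ℝ) * (2 / d) = 4 / d := by push_cast; ring
    rw [this]
    exact Real.rpow_le_rpow ha0 (by linarith) (by positivity)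
  have h5 : N ^ rho d ≤ C * S ^ rho d := by
    refine h1.trans ?_
    calc C * (a ^ 2) ^ ((2 : ℝ) / d) * ∑ j, b j ^ 2 ≤ C * S ^ ((4 : ℝ) / d) * S ^ 2 := by gcongr
      _ = C * S ^ rho d := by
          rw [mul_assoc]
          congr 1
          rcases hS0.eq_or_lt with h | h
          · rw [← h, Real.zero_rpow hρ.ne']; ring
          · rw [← Real.rpow_natCast S 2, ← Real.rpow_add h]
            congr 1; unfold rho; push_cast; ring
  have h7 : (C ^ (1 / rho d) * S) ^ rho d = C * S ^ rho d := by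
    rw [Real.mul_rpow (by positivity) hS0, ← Real.rpow_mul hC0, one_div, inv_mul_cancel₀ hρ.ne',
      Real.rpow_one]
  rw [← h7] at h5
  rw [← hS]
  exact (Real.rpow_le_rpow_iff hN (by positivity) hρ).1 h5

theorem so_schwartz (hd : 1 ≤ d) : ∃ C : ℝ≥0, ∀ φ : 𝓢(Sp d, ℂ),
    eLpNorm φ (rhoE d) volume ≤ C * (eLpNorm φ 2 volume + ∑ j, eLpNorm (pd j φ) 2 volume) := by
  obtain ⟨C, hC0, hC⟩ := gagliardo hd
  refine ⟨(C ^ (1 / rho d)).toNNReal, fun φ => ?_⟩
  have hφ2 : MemLp φ 2 volume := φ.memLp 2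
  have hφρ : MemLp φ (rhoE d) volume := φ.memLp _
  have hpj : ∀ j, eLpNorm (pd j φ) 2 volume ≠ ⊤ := fun j =>
    ((pd j φ).memLp 2 : MemLp (pd j φ) 2 volume).eLpNorm_ne_top
  have h1 := hC φ
  rw [int_rpow_eq (rho_pos d) hφρ, int_sq_eq hφ2] at h1
  have h2 : ∀ j, ∫ x, ‖pd j φ x‖ ^ 2 = (eLpNorm (pd j φ) 2 volume).toReal ^ 2 :=
    fun j => int_sq_eq ((pd j φ).memLp 2)
  simp only [h2] at h1
  have h6 := so_scalar hd hC0 ENNReal.toReal_nonneg (fun j => ENNReal.toReal_nonneg)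
    ENNReal.toReal_nonneg h1
  have h9 : ((C ^ (1 / rho d)).toNNReal : ℝ≥0∞) = ENNReal.ofReal (C ^ (1 / rho d)) := rfl
  have h10 : 0 ≤ C ^ (1 / rho d) := Real.rpow_nonneg hC0 _
  have h8 : eLpNorm φ 2 volume + ∑ j, eLpNorm (pd j φ) 2 volume =
      ENNReal.ofReal ((eLpNorm φ 2 volume).toReal + ∑ j, (eLpNorm (pd j φ) 2 volume).toReal) := by
    rw [ENNReal.ofReal_add ENNReal.toReal_nonneg
      (Finset.sum_nonneg fun j _ => ENNReal.toReal_nonneg),
      ENNReal.ofReal_sum_of_nonneg fun j _ => ENNReal.toReal_nonneg,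
      ENNReal.ofReal_toReal hφ2.eLpNorm_ne_top]
    congr 1
    exact Finset.sum_congr rfl fun j _ => (ENNReal.ofReal_toReal (hpj j)).symm
  rw [h8, h9, ← ENNReal.ofReal_mul h10, ← ENNReal.ofReal_toReal hφρ.eLpNorm_ne_top]
  exact ENNReal.ofReal_le_ofReal h6

theorem sobolev (hd : 1 ≤ d) : ∃ C : ℝ≥0, ∀ (f : Sp d → ℂ) (Df : Fin d → Sp d → ℂ), IsH1 f Df →
    MemLp f (rhoE d) volume ∧ eLpNorm f (rhoE d) volume ≤
      C * (eLpNorm f 2 volume + ∑ j, eLpNorm (Df j) 2 volume) := by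
  obtain ⟨C, hC⟩ := so_schwartz hd
  refine ⟨C, fun f Df h => ?_⟩
  set B : ℝ≥0∞ := C * (eLpNorm f 2 volume + ∑ j, eLpNorm (Df j) 2 volume) with hB
  have hBfin : B ≠ ⊤ := by
    refine ENNReal.mul_ne_top ENNReal.coe_ne_top (ENNReal.add_ne_top.2 ⟨h.memLp.eLpNorm_ne_top, ?_⟩)
    exact ENNReal.sum_ne_top.2 fun j _ => (h.memLpD j).eLpNorm_ne_top
  have hη : ∀ n : ℕ, (0 : ℝ) < 1 / ((n : ℝ) + 1) := fun n => by positivity
  choose φ hφ1 hφ2 using fun n : ℕ => h1_dense h (hη n)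
  have hle : ∀ n, eLpNorm (φ n) (rhoE d) volume ≤
      B + C * ((d + 1) * ENNReal.ofReal (1 / ((n : ℝ) + 1))) := by
    intro n
    refine (hC (φ n)).trans ?_
    rw [hB, ← mul_add]
    refine mul_le_mul' le_rfl ?_
    have h1 : eLpNorm (φ n) 2 volume ≤ eLpNorm f 2 volume + ENNReal.ofReal (1 / ((n : ℝ) + 1)) := by
      have h2 : (φ n : Sp d → ℂ) = f - (fun x => f x - φ n x) := by ext x; simp
      calc eLpNorm (φ n) 2 volume = eLpNorm (f - (fun x => f x - φ n x)) 2 volume := by rw [← h2]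
        _ ≤ eLpNorm f 2 volume + eLpNorm (fun x => f x - φ n x) 2 volume :=
            eLpNorm_sub_le h.memLp.1 (h.memLp.1.sub (φ n).continuous.aestronglyMeasurable)
              (by norm_num)
        _ ≤ _ := by gcongr; exact hφ1 n
    have h3 : ∀ j, eLpNorm (pd j (φ n)) 2 volume ≤
        eLpNorm (Df j) 2 volume + ENNReal.ofReal (1 / ((n : ℝ) + 1)) := by
      intro j
      have h2 : (pd j (φ n) : Sp d → ℂ) = Df j - (fun x => Df j x - pd j (φ n) x) := by ext x; simp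
      calc eLpNorm (pd j (φ n)) 2 volume = eLpNorm (Df j - (fun x => Df j x - pd j (φ n) x)) 2 volume := by
            rw [← h2]
        _ ≤ eLpNorm (Df j) 2 volume + eLpNorm (fun x => Df j x - pd j (φ n) x) 2 volume :=
            eLpNorm_sub_le (h.memLpD j).1
              ((h.memLpD j).1.sub (pd j (φ n)).continuous.aestronglyMeasurable) (by norm_num)
        _ ≤ _ := by gcongr; exact hφ2 n j
    calc eLpNorm (φ n) 2 volume + ∑ j, eLpNorm (pd j (φ n)) 2 volume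
        ≤ (eLpNorm f 2 volume + ENNReal.ofReal (1 / ((n : ℝ) + 1))) +
          ∑ j, (eLpNorm (Df j) 2 volume + ENNReal.ofReal (1 / ((n : ℝ) + 1))) := by
          exact add_le_add h1 (Finset.sum_le_sum fun j _ => h3 j)
      _ = _ := by
          rw [Finset.sum_add_distrib, Finset.sum_const, Finset.card_univ, Fintype.card_fin,
            nsmul_eq_mul]
          ring
  have h0 : Tendsto (fun n : ℕ => ENNReal.ofReal (1 / ((n : ℝ) + 1))) atTop (𝓝 0) := by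
    have := ENNReal.tendsto_ofReal (tendsto_one_div_add_atTop_nhds_zero_nat (𝕜 := ℝ))
    simpa using this
  have hLp : Tendsto (fun n => eLpNorm ((φ n : Sp d → ℂ) - f) 2 volume) atTop (𝓝 0) := by
    refine tendsto_of_tendsto_of_tendsto_of_le_of_le tendsto_const_nhds h0 (fun n => bot_le)
      fun n => ?_
    have h1 : eLpNorm ((φ n : Sp d → ℂ) - f) 2 volume = eLpNorm (fun x => f x - φ n x) 2 volume := by
      rw [← eLpNorm_neg]
      congr 1; ext x; simp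
    simp only
    rw [h1]
    exact hφ1 n
  have hmeas := tendstoInMeasure_of_tendsto_eLpNorm (p := 2) (by norm_num)
    (fun n => (φ n).continuous.aestronglyMeasurable) h.memLp.1 hLp
  obtain ⟨ns, hns, hae⟩ := hmeas.exists_seq_tendsto_ae
  have hfatou : eLpNorm f (rhoE d) volume ≤ liminf (fun n => eLpNorm (φ (ns n)) (rhoE d) volume) atTop :=
    Lp.eLpNorm_lim_le_liminf_eLpNorm (fun n => (φ (ns n)).continuous.aestronglyMeasurable) f hae
  have hlim : Tendsto (fun n : ℕ => B + C * ((d + 1) * ENNReal.ofReal (1 / ((ns n : ℝ) + 1)))) atTop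
      (𝓝 (B + C * ((d + 1) * 0))) := by
    have h1 : Tendsto (fun n : ℕ => ENNReal.ofReal (1 / ((ns n : ℝ) + 1))) atTop (𝓝 0) :=
      h0.comp hns.tendsto_atTop
    refine tendsto_const_nhds.add (ENNReal.Tendsto.const_mul (ENNReal.Tendsto.const_mul h1 ?_) ?_)
    · right
      exact ENNReal.add_ne_top.2 ⟨ENNReal.natCast_ne_top d, ENNReal.one_ne_top⟩
    · right; exact ENNReal.coe_ne_top
  have hfin : eLpNorm f (rhoE d) volume ≤ B := by
    calc eLpNorm f (rhoE d) volume ≤ _ := hfatou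
      _ ≤ liminf (fun n : ℕ => B + C * ((d + 1) * ENNReal.ofReal (1 / ((ns n : ℝ) + 1)))) atTop :=
          liminf_le_liminf (Filter.Eventually.of_forall fun n => hle (ns n))
      _ = B + C * ((d + 1) * 0) := hlim.liminf_eq
      _ = B := by simp
  exact ⟨⟨h.memLp.1, hfin.trans_lt hBfin.lt_top⟩, hfin⟩

end MP3483
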