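import Pool.Agent.Lib_MP_3483a5_an.DI
import Pool.Agent.Lib_MP_3483a5_an.HD
import Pool.Agent.Lib_MP_3483a5_an.FW
import Pool.Agent.Lib_MP_3483a5_an.SO

/-!
# MP_3483a5_an, piece FR

Free `H¹` solutions tend to zero in `L^ρ`.
Proof.  Let `η > 0`, `φ` Schwartz with `‖f-φ‖₂, ‖Df j-∂_jφ‖₂ ≤ η` (`h1_dense`), and for `t > 0` let `v = v_t` be the
Schwartz function of `dispersive`.  `w t - v_t` is in `H¹` with gradient `Dw t j - pd j v_t`; on the Fourier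
side `𝓕(w t - v_t) = e^{4π²it‖ξ‖²}(𝓕f - 𝓕φ)` and by `fourier_weak` (for `w t` and for `f`; for the Schwartz
functions it is `SchwartzMap.fourier_lineDerivOp_eq`) `𝓕(Dw t j - ∂_jv_t) = e^{4π²it‖ξ‖²} 𝓕(Df j - ∂_jφ)`, so
by Plancherel the `L²` norms are `‖f-φ‖₂` and `‖Df j-∂_jφ‖₂`.  `sobolev`: `‖w t - v_t‖_ρ ≤ C(d+1)η`.
And `‖v_t‖_ρ^ρ ≤ (sup|v_t|)^{ρ-2}‖v_t‖₂² = (sup|v_t|)^{ρ-2} ‖φ‖₂² → 0` as `t → ∞` by `dispersive`.
-/

open MeasureTheory Filter Topology Complex SchwartzMap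
open scoped FourierTransform LineDeriv Laplacian ENNReal NNReal ComplexConjugate

namespace MP3483
variable {d : ℕ}

theorem fr_norm_eq (A B : Lp ℂ 2 (volume : Measure (Sp d)))
    (h : ∀ᵐ ξ, ‖((𝓕 A : Lp ℂ 2 (volume : Measure (Sp d))) : Sp d → ℂ) ξ‖ =
      ‖((𝓕 B : Lp ℂ 2 (volume : Measure (Sp d))) : Sp d → ℂ) ξ‖) :
    eLpNorm A 2 volume = eLpNorm B 2 volume := by
  have h1 : ‖A‖ = ‖B‖ := by
    rw [← Lp.norm_fourier_eq A, ← Lp.norm_fourier_eq B, Lp.norm_def, Lp.norm_def,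
      eLpNorm_congr_norm_ae h]
  rw [Lp.norm_def, Lp.norm_def] at h1
  exact (ENNReal.toReal_eq_toReal_iff' (Lp.eLpNorm_ne_top _) (Lp.eLpNorm_ne_top _)).1 h1

theorem fr_plancherel {a b : Sp d → ℂ} (ha : MemLp a 2 volume) (hb : MemLp b 2 volume)
    {φa φb : 𝓢(Sp d, ℂ)} {m : Sp d → ℂ} (hm : ∀ ξ, ‖m ξ‖ = 1)
    (h1 : ((𝓕 (ha.toLp a) : Lp ℂ 2 (volume : Measure (Sp d))) : Sp d → ℂ) =ᵐ[volume]
      fun ξ => m ξ * ((𝓕 (hb.toLp b) : Lp ℂ 2 (volume : Measure (Sp d))) : Sp d → ℂ) ξ)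
    (h2 : ∀ ξ, (𝓕 φa : 𝓢(Sp d, ℂ)) ξ = m ξ * (𝓕 φb : 𝓢(Sp d, ℂ)) ξ) :
    eLpNorm (fun x => a x - φa x) 2 volume = eLpNorm (fun x => b x - φb x) 2 volume := by
  have key : ∀ {c : Sp d → ℂ} (hc : MemLp c 2 volume) (φ : 𝓢(Sp d, ℂ)),
      eLpNorm (fun x => c x - φ x) 2 volume =
        eLpNorm (hc.toLp c - φ.toLp 2 volume : Lp ℂ 2 (volume : Measure (Sp d))) 2 volume := by
    intro c hc φ
    refine eLpNorm_congr_ae ?_
    filter_upwards [Lp.coeFn_sub (hc.toLp c) (φ.toLp 2 volume), hc.coeFn_toLp,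
      φ.coeFn_toLp 2 volume] with x hx1 hx2 hx3
    rw [hx1, Pi.sub_apply, hx2, hx3]
  have hF : ∀ {c : Sp d → ℂ} (hc : MemLp c 2 volume) (φ : 𝓢(Sp d, ℂ)),
      ((𝓕 (hc.toLp c - φ.toLp 2 volume : Lp ℂ 2 (volume : Measure (Sp d))) :
        Lp ℂ 2 (volume : Measure (Sp d))) : Sp d → ℂ) =ᵐ[volume]
      fun ξ => ((𝓕 (hc.toLp c) : Lp ℂ 2 (volume : Measure (Sp d))) : Sp d → ℂ) ξ -
        (𝓕 φ : 𝓢(Sp d, ℂ)) ξ := by
    intro c hc φ
    have h3 : (𝓕 (hc.toLp c - φ.toLp 2 volume : Lp ℂ 2 (volume : Measure (Sp d))) :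
        Lp ℂ 2 (volume : Measure (Sp d))) = 𝓕 (hc.toLp c) - (𝓕 φ : 𝓢(Sp d, ℂ)).toLp 2 volume := by
      rw [← SchwartzMap.toLp_fourier_eq]
      exact (Lp.fourierTransformₗᵢ (Sp d) ℂ).map_sub _ _
    rw [h3]
    filter_upwards [Lp.coeFn_sub (𝓕 (hc.toLp c) : Lp ℂ 2 (volume : Measure (Sp d)))
      ((𝓕 φ : 𝓢(Sp d, ℂ)).toLp 2 volume), (𝓕 φ : 𝓢(Sp d, ℂ)).coeFn_toLp 2 volume] with x hx1 hx2
    rw [hx1, Pi.sub_apply, hx2]
  rw [key ha φa, key hb φb]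
  refine fr_norm_eq _ _ ?_
  filter_upwards [hF ha φa, hF hb φb, h1] with ξ hξ1 hξ2 hξ3
  rw [hξ1, hξ2, hξ3, h2, ← mul_sub, norm_mul, hm, one_mul]

theorem fr_schwartz_weak (j : Fin d) (v : 𝓢(Sp d, ℂ)) : WeakPartial j v (pd j v) := by
  intro ψ
  have h := SchwartzMap.integral_mul_lineDerivOp_right_eq_neg_left (μ := volume) v ψ (ev j)
  unfold pd
  rw [h, neg_neg]

theorem fr_int_mul {f : Sp d → ℂ} (hf : MemLp f 2 volume) (ψ : 𝓢(Sp d, ℂ)) :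
    Integrable (fun x => f x * ψ x) volume :=
  hf.integrable_mul (SchwartzMap.memLp ψ 2 volume)

theorem fr_weak_sub {j : Fin d} {f g : Sp d → ℂ} (hf : MemLp f 2 volume) (hg : MemLp g 2 volume)
    (h : WeakPartial j f g) (v : 𝓢(Sp d, ℂ)) :
    WeakPartial j (fun x => f x - v x) (fun x => g x - pd j v x) := by
  intro ψ
  have h1 := h ψ
  have h2 := fr_schwartz_weak j v ψ
  have e1 : ∫ x, (g x - pd j v x) * ψ x = (∫ x, g x * ψ x) - ∫ x, pd j v x * ψ x := by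
    rw [← integral_sub (fr_int_mul hg ψ) (fr_int_mul (SchwartzMap.memLp (pd j v) 2 volume) ψ)]
    congr 1
    funext x
    ring
  have e2 : ∫ x, (f x - v x) * pd j ψ x = (∫ x, f x * pd j ψ x) - ∫ x, v x * pd j ψ x := by
    rw [← integral_sub (fr_int_mul hf (pd j ψ))
      (fr_int_mul (SchwartzMap.memLp v 2 volume) (pd j ψ))]
    congr 1
    funext x
    ring
  rw [e1, e2, h1, h2]
  ring

theorem fr_fourier_pd (j : Fin d) (v : 𝓢(Sp d, ℂ)) (ξ : Sp d) :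
    (𝓕 (pd j v) : 𝓢(Sp d, ℂ)) ξ =
      2 * (Real.pi : ℂ) * Complex.I * (ξ j : ℂ) * (𝓕 v : 𝓢(Sp d, ℂ)) ξ := by
  have hg : (fun x : Sp d => (inner ℝ x (ev j) : ℝ)).HasTemperateGrowth := by fun_prop
  have h := SchwartzMap.fourier_lineDerivOp_eq v (ev j)
  unfold pd
  rw [h, smul_apply, SchwartzMap.smulLeftCLM_apply_apply hg]
  have hin : (inner ℝ ξ (ev j) : ℝ) = ξ j := by
    unfold ev
    rw [EuclideanSpace.inner_single_right]
    simp
  rw [hin, smul_eq_mul, Complex.real_smul]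
  ring

theorem fr_interp {v : Sp d → ℂ} {B : ℝ} (hB : ∀ x, ‖v x‖ ≤ B) :
    eLpNorm v (rhoE d) volume ≤
      (ENNReal.ofReal B ^ (rho d - 2) * (eLpNorm v 2 volume) ^ (2 : ℝ)) ^ (1 / rho d) := by
  have hρ := rho_pos d
  have hρ2 := rho_ge_two d
  have h0 : rhoE d ≠ 0 := by
    unfold rhoE
    simpa using hρ
  have ht : rhoE d ≠ ∞ := ENNReal.ofReal_ne_top
  have htr : (rhoE d).toReal = rho d := ENNReal.toReal_ofReal hρ.le
  rw [eLpNorm_eq_lintegral_rpow_enorm_toReal h0 ht, htr,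
    eLpNorm_eq_lintegral_rpow_enorm_toReal two_ne_zero ENNReal.ofNat_ne_top]
  refine ENNReal.rpow_le_rpow ?_ (by positivity)
  rw [← ENNReal.rpow_mul]
  have h2 : (ENNReal.toReal 2) = 2 := by norm_num
  rw [h2]
  norm_num
  rw [← lintegral_const_mul' _ _ (ENNReal.rpow_ne_top_of_nonneg (by linarith)
    ENNReal.ofReal_ne_top)]
  refine lintegral_mono fun x => ?_
  have h3 : ‖v x‖ₑ ^ rho d = ‖v x‖ₑ ^ (rho d - 2) * ‖v x‖ₑ ^ (2 : ℝ) := by
    rw [← ENNReal.rpow_add_of_nonneg _ _ (by linarith) (by norm_num)]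
    congr 1
    ring
  have h4 : ‖v x‖ₑ ≤ ENNReal.ofReal B := by
    rw [← ofReal_norm]
    exact ENNReal.ofReal_le_ofReal (hB x)
  show ‖v x‖ₑ ^ rho d ≤ ENNReal.ofReal B ^ (rho d - 2) * _
  rw [h3]
  gcongr
  norm_num

theorem free_decay (hd : 1 ≤ d) {f : Sp d → ℂ} {Df : Fin d → Sp d → ℂ} (h : IsH1 f Df)
    {w : ℝ → Sp d → ℂ} {Dw : ℝ → Fin d → Sp d → ℂ}
    (hw : ∀ t : ℝ, 0 ≤ t → IsH1 (w t) (Dw t) ∧ FreeEv (-t) f (w t)) :
    Tendsto (fun t => eLpNorm (w t) (rhoE d) volume) atTop (𝓝 0) := by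
  obtain ⟨C, hC⟩ := sobolev (d := d) hd
  have hρ := rho_pos d
  have hd0 : (0 : ℝ) < d := by exact_mod_cast hd
  have hρ2 : 0 < rho d - 2 := by
    unfold rho
    have : (0 : ℝ) < 4 / d := by positivity
    linarith
  rw [ENNReal.tendsto_nhds_zero]
  intro ε hε
  have hε2 : 0 < ε / 2 := ENNReal.half_pos hε.ne'
  -- choice of `η`
  have hlim : Tendsto (fun η : ℝ => (C : ℝ≥0∞) * (((d : ℝ≥0∞) + 1) * ENNReal.ofReal η))
      (𝓝[>] 0) (𝓝 0) := by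
    have h1 : Tendsto (fun η : ℝ => ENNReal.ofReal η) (𝓝[>] 0) (𝓝 0) := by
      have := ENNReal.continuous_ofReal.tendsto (0 : ℝ)
      rw [ENNReal.ofReal_zero] at this
      exact this.mono_left nhdsWithin_le_nhds
    have h2 := ENNReal.Tendsto.const_mul (a := (d : ℝ≥0∞) + 1) h1
      (Or.inr (by simp))
    have h3 := ENNReal.Tendsto.const_mul (a := (C : ℝ≥0∞)) h2 (Or.inr ENNReal.coe_ne_top)
    simpa using h3
  obtain ⟨η, hη, hη0⟩ := ((ENNReal.tendsto_nhds_zero.1 hlim (ε / 2) hε2).and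
    self_mem_nhdsWithin).exists
  have hη0' : 0 < η := hη0
  obtain ⟨φ, hφ1, hφ2⟩ := h1_dense h hη0'
  -- the sup bound tends to zero
  have hBlim : Tendsto (fun t : ℝ => (ENNReal.ofReal
      ((4 * Real.pi * t) ^ (-(d : ℝ) / 2) * ∫ y, ‖φ y‖) ^ (rho d - 2) *
        (eLpNorm φ 2 volume) ^ (2 : ℝ)) ^ (1 / rho d)) atTop (𝓝 0) := by
    have h1 : Tendsto (fun t : ℝ => (4 * Real.pi * t) ^ (-(d : ℝ) / 2) * ∫ y, ‖φ y‖) atTop
        (𝓝 0) := by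
      have h2 : Tendsto (fun t : ℝ => (4 * Real.pi * t) ^ (-((d : ℝ) / 2))) atTop (𝓝 0) :=
        (tendsto_rpow_neg_atTop (by positivity)).comp
          (Tendsto.const_mul_atTop (by positivity) tendsto_id)
      have h3 := h2.mul_const (∫ y, ‖φ y‖)
      rw [zero_mul] at h3
      simpa only [neg_div] using h3
    have h2 : Tendsto (fun t : ℝ => ENNReal.ofReal
        ((4 * Real.pi * t) ^ (-(d : ℝ) / 2) * ∫ y, ‖φ y‖)) atTop (𝓝 0) := by
      have := (ENNReal.continuous_ofReal.tendsto (0 : ℝ)).comp h1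
      rwa [ENNReal.ofReal_zero] at this
    have h3 := (ENNReal.continuous_rpow_const (y := rho d - 2)).tendsto 0 |>.comp h2
    rw [ENNReal.zero_rpow_of_pos hρ2] at h3
    have h4 := ENNReal.Tendsto.mul_const (b := (eLpNorm φ 2 volume) ^ (2 : ℝ)) h3
      (Or.inr (ENNReal.rpow_ne_top_of_nonneg (by norm_num)
        (SchwartzMap.memLp φ 2 volume).eLpNorm_ne_top))
    rw [zero_mul] at h4
    have h5 := (ENNReal.continuous_rpow_const (y := 1 / rho d)).tendsto 0 |>.comp h4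
    rw [ENNReal.zero_rpow_of_pos (by positivity)] at h5
    exact h5
  filter_upwards [ENNReal.tendsto_nhds_zero.1 hBlim (ε / 2) hε2, eventually_gt_atTop (0 : ℝ)]
    with t ht1 ht0
  obtain ⟨v, hv1, hv2⟩ := dispersive φ ht0
  obtain ⟨hwH, hf2, hw2, hfree⟩ := hw t ht0.le
  set m : Sp d → ℂ := fun ξ =>
    cexp (4 * (Real.pi : ℂ) ^ 2 * t * (‖ξ‖ : ℂ) ^ 2 * Complex.I) with hm
  have hm1 : ∀ ξ, ‖m ξ‖ = 1 := by
    intro ξ
    have : m ξ = cexp (((4 * Real.pi ^ 2 * t * ‖ξ‖ ^ 2 : ℝ) : ℂ) * Complex.I) := by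
      rw [hm]
      push_cast
      rfl
    rw [this, Complex.norm_exp_ofReal_mul_I]
  have hfree' : ((𝓕 (hw2.toLp (w t)) : Lp ℂ 2 (volume : Measure (Sp d))) : Sp d → ℂ)
      =ᵐ[volume] fun ξ => m ξ *
        ((𝓕 (hf2.toLp f) : Lp ℂ 2 (volume : Measure (Sp d))) : Sp d → ℂ) ξ := by
    filter_upwards [hfree] with ξ hξ
    rw [hξ, hm]
    congr 2
    push_cast
    ring
  have hn0 : eLpNorm (fun x => w t x - v x) 2 volume = eLpNorm (fun x => f x - φ x) 2 volume :=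
    fr_plancherel hw2 hf2 hm1 hfree' hv1
  have hnj : ∀ j, eLpNorm (fun x => Dw t j x - pd j v x) 2 volume =
      eLpNorm (fun x => Df j x - pd j φ x) 2 volume := by
    intro j
    refine fr_plancherel (hwH.memLpD j) (h.memLpD j) hm1 ?_ ?_
    · filter_upwards [fourier_weak hw2 (hwH.memLpD j) (hwH.weak j),
        fourier_weak hf2 (h.memLpD j) (h.weak j), hfree'] with ξ hξ1 hξ2 hξ3
      rw [hξ1, hξ2, hξ3]
      ring
    · intro ξ
      rw [fr_fourier_pd, fr_fourier_pd, hv1]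
      ring
  have hvn : eLpNorm v 2 volume = eLpNorm φ 2 volume := by
    have e : ∀ ψ : 𝓢(Sp d, ℂ), eLpNorm ψ 2 volume =
        eLpNorm (ψ.toLp 2 volume : Lp ℂ 2 (volume : Measure (Sp d))) 2 volume := fun ψ =>
      (eLpNorm_congr_ae (ψ.coeFn_toLp 2 volume)).symm
    rw [e v, e φ]
    refine fr_norm_eq _ _ ?_
    rw [SchwartzMap.toLp_fourier_eq, SchwartzMap.toLp_fourier_eq]
    filter_upwards [(𝓕 v : 𝓢(Sp d, ℂ)).coeFn_toLp 2 volume,
      (𝓕 φ : 𝓢(Sp d, ℂ)).coeFn_toLp 2 volume] with ξ hξ1 hξ2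
    rw [hξ1, hξ2, hv1, norm_mul]
    rw [show ‖cexp (4 * (Real.pi : ℂ) ^ 2 * t * (‖ξ‖ : ℂ) ^ 2 * Complex.I)‖ = 1 from hm1 ξ,
      one_mul]
  have hH : IsH1 (fun x => w t x - v x) (fun j x => Dw t j x - pd j v x) :=
    ⟨hw2.sub (SchwartzMap.memLp v 2 volume),
      fun j => (hwH.memLpD j).sub (SchwartzMap.memLp (pd j v) 2 volume),
      fun j => fr_weak_sub hw2 (hwH.memLpD j) (hwH.weak j) v⟩
  obtain ⟨hS1, hS2⟩ := hC _ _ hH
  have hdiff : eLpNorm (fun x => w t x - v x) (rhoE d) volume ≤ ε / 2 := by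
    refine hS2.trans (le_trans ?_ hη)
    gcongr
    rw [hn0, Finset.sum_congr rfl fun j _ => hnj j]
    calc eLpNorm (fun x => f x - φ x) 2 volume +
          ∑ j, eLpNorm (fun x => Df j x - pd j φ x) 2 volume
        ≤ ENNReal.ofReal η + ∑ _j : Fin d, ENNReal.ofReal η :=
          add_le_add hφ1 (Finset.sum_le_sum fun j _ => hφ2 j)
      _ = ((d : ℝ≥0∞) + 1) * ENNReal.ofReal η := by
          rw [Finset.sum_const, Finset.card_univ, Fintype.card_fin, nsmul_eq_mul]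
          ring
  have hvρ : eLpNorm v (rhoE d) volume ≤ ε / 2 := by
    refine le_trans (fr_interp hv2) ?_
    rw [hvn]
    exact ht1
  have h1ρ : 1 ≤ rhoE d := by
    unfold rhoE
    rw [ENNReal.one_le_ofReal]
    linarith [rho_ge_two d]
  calc eLpNorm (w t) (rhoE d) volume
      = eLpNorm ((fun x => w t x - v x) + (v : Sp d → ℂ)) (rhoE d) volume := by
        congr 1
        funext x
        simp
    _ ≤ eLpNorm (fun x => w t x - v x) (rhoE d) volume + eLpNorm v (rhoE d) volume :=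
        eLpNorm_add_le hS1.1 v.continuous.aestronglyMeasurable h1ρ
    _ ≤ ε / 2 + ε / 2 := add_le_add hdiff hvρ
    _ = ε := ENNReal.add_halves ε

end MP3483
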