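import Pool.Agent.Lib_MP_3483a5_an.Base0

/-!
# MP_3483a5_an, piece WU

Uniqueness of the weak derivative: `∫(g-g')ψ = 0` for all Schwartz functions `ψ`, in particular all
smooth compactly supported ones (`HasCompactSupport.toSchwartzMap` or similar), so `g = g'` a.e. by
`ae_eq_of_integral_contDiff_smul_eq` (`L²` functions are locally integrable).
-/

open MeasureTheory Filter Topology Complex SchwartzMap
open scoped FourierTransform LineDeriv Laplacian ENNReal NNReal ComplexConjugate

namespace MP3483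
variable {d : ℕ}

theorem weak_unique {j : Fin d} {f f' g g' : Sp d → ℂ} (hg : MemLp g 2 volume)
    (hg' : MemLp g' 2 volume) (hff : f =ᵐ[volume] f') (h : WeakPartial j f g)
    (h' : WeakPartial j f' g') : g =ᵐ[volume] g' := by
  have hψ : ∀ ψ : 𝓢(Sp d, ℂ), ∫ x, g x * ψ x = ∫ x, g' x * ψ x := by
    intro ψ
    rw [h ψ, h' ψ]
    congr 1
    refine integral_congr_ae ?_
    filter_upwards [hff] with x hx
    rw [hx]
  refine ae_eq_of_integral_contDiff_smul_eq (hg.locallyIntegrable (by norm_num))
    (hg'.locallyIntegrable (by norm_num)) ?_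
  intro φ hφ hsupp
  have h1 : ContDiff ℝ ((⊤ : ℕ∞) : WithTop ℕ∞) (fun x => (φ x : ℂ)) := Complex.ofRealCLM.contDiff.comp hφ
  have h2 : HasCompactSupport (fun x => (φ x : ℂ)) :=
    hsupp.comp_left (g := fun r : ℝ => (r : ℂ)) Complex.ofReal_zero
  have h3 := hψ (h2.toSchwartzMap h1)
  have h4 : ∀ x, (h2.toSchwartzMap h1) x = (φ x : ℂ) := fun x => rfl
  have h5 : ∀ u : Sp d → ℂ, ∫ x, φ x • u x = ∫ x, u x * (h2.toSchwartzMap h1) x := by
    intro u
    refine integral_congr_ae (Eventually.of_forall fun x => ?_)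
    beta_reduce
    rw [h4, Complex.real_smul, mul_comm]
  rw [h5, h5, h3]

end MP3483
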