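import Pool.Agent.Lib_MP_3483a5_an.EC
import Pool.Agent.Lib_MP_3483a5_an.FR
import Pool.Agent.Lib_MP_3483a5_an.SO
import Pool.Agent.Lib_MP_3483a5_an.WU

/-!
# MP_3483a5_an: negative energy excludes scattering (assembly)
-/

open MeasureTheory Filter Topology Complex SchwartzMap
open scoped FourierTransform LineDeriv Laplacian ENNReal NNReal ComplexConjugate

namespace MP3483
variable {d : ℕ}

theorem IsH1.sub {f g : Sp d → ℂ} {Df Dg : Fin d → Sp d → ℂ} (hf : IsH1 f Df) (hg : IsH1 g Dg) :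
    IsH1 (f - g) (Df - Dg) where
  memLp := hf.memLp.sub hg.memLp
  memLpD := fun j => (hf.memLpD j).sub (hg.memLpD j)
  weak := by
    intro j ψ
    have h1 := hf.weak j ψ
    have h2 := hg.weak j ψ
    have i1 : Integrable (fun x => f x * pd j ψ x) :=
      hf.memLp.integrable_mul ((pd j ψ).memLp 2 volume)
    have i2 : Integrable (fun x => g x * pd j ψ x) :=
      hg.memLp.integrable_mul ((pd j ψ).memLp 2 volume)
    have i3 : Integrable (fun x => Df j x * ψ x) :=
      (hf.memLpD j).integrable_mul (ψ.memLp 2 volume)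
    have i4 : Integrable (fun x => Dg j x * ψ x) :=
      (hg.memLpD j).integrable_mul (ψ.memLp 2 volume)
    have e1 : ∫ x, (Df - Dg) j x * ψ x = (∫ x, Df j x * ψ x) - ∫ x, Dg j x * ψ x := by
      rw [← integral_sub i3 i4]
      refine integral_congr_ae (Eventually.of_forall fun x => ?_)
      simp only [Pi.sub_apply]; ring
    have e2 : ∫ x, (f - g) x * pd j ψ x = (∫ x, f x * pd j ψ x) - ∫ x, g x * pd j ψ x := by
      rw [← integral_sub i1 i2]
      refine integral_congr_ae (Eventually.of_forall fun x => ?_)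
      simp only [Pi.sub_apply]; ring
    rw [e1, e2, h1, h2]; ring

theorem En_congr {f f' : Sp d → ℂ} {Df Df' : Fin d → Sp d → ℂ} (h : f =ᵐ[volume] f')
    (hD : ∀ j, Df j =ᵐ[volume] Df' j) : En f Df = En f' Df' := by
  unfold En
  congr 1
  · congr 1
    refine Finset.sum_congr rfl fun j _ => integral_congr_ae ?_
    filter_upwards [hD j] with x hx
    rw [hx]
  · congr 1
    refine integral_congr_ae ?_
    filter_upwards [h] with x hx
    rw [hx]

theorem En_lower {f : Sp d → ℂ} {Df : Fin d → Sp d → ℂ} (h : MemLp f (rhoE d) volume) :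
    -((1 / rho d) * (eLpNorm f (rhoE d) volume).toReal ^ rho d) ≤ En f Df := by
  have h1 : ∫ x, ‖f x‖ ^ rho d = (eLpNorm f (rhoE d) volume).toReal ^ rho d :=
    int_rpow_eq (rho_pos d) h
  have h2 : 0 ≤ ∑ j, ∫ x, ‖Df j x‖ ^ 2 :=
    Finset.sum_nonneg fun j _ => integral_nonneg fun x => by positivity
  unfold En
  rw [h1]
  linarith

theorem not_scatters (hd : 1 ≤ d) {u₀ : Sp d → ℂ} {Du₀ : Fin d → Sp d → ℂ} (h₀ : IsH1 u₀ Du₀)
    (hE : En u₀ Du₀ < 0) : ¬ Scatters u₀ := by
  rintro ⟨u, Du, hu, hS, hsol, hu0, f, Df, w, Dw, hf, hw, hlim, hlimD⟩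
  obtain ⟨C, hC⟩ := sobolev hd
  have hD0 : ∀ j, Du 0 j =ᵐ[volume] Du₀ j := fun j =>
    weak_unique ((hu.isH1 0 (Set.mem_Ici.2 le_rfl)).memLpD j) (h₀.memLpD j) hu0
      ((hu.isH1 0 (Set.mem_Ici.2 le_rfl)).weak j) (h₀.weak j)
  have hE0 : En (u 0) (Du 0) = En u₀ Du₀ := En_congr hu0 hD0
  have hcons : ∀ t : ℝ, 0 < t → En (u t) (Du t) = En u₀ Du₀ := fun t ht => by
    rw [energy_conservation hd hu hS hsol ht, hE0]
  have hfree := free_decay hd hf hw
  have hdiff : Tendsto (fun t => eLpNorm (u t - w t) (rhoE d) volume) atTop (𝓝 0) := by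
    have h1 : Tendsto (fun t => (C : ℝ≥0∞) * (eLpNorm (u t - w t) 2 volume +
        ∑ j, eLpNorm (Du t j - Dw t j) 2 volume)) atTop (𝓝 0) := by
      have h2 : Tendsto (fun t => eLpNorm (u t - w t) 2 volume +
          ∑ j, eLpNorm (Du t j - Dw t j) 2 volume) atTop (𝓝 (0 + ∑ j : Fin d, 0)) :=
        hlim.add (tendsto_finsetSum _ fun j _ => hlimD j)
      have h3 := ENNReal.Tendsto.const_mul (a := (C : ℝ≥0∞)) h2 (Or.inr ENNReal.coe_ne_top)
      simpa using h3
    refine tendsto_of_tendsto_of_tendsto_of_le_of_le' tendsto_const_nhds h1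
      (Eventually.of_forall fun t => bot_le) ?_
    filter_upwards [eventually_ge_atTop 0] with t ht
    exact (hC _ _ ((hu.isH1 t ht).sub (hw t ht).1)).2
  have hsum : Tendsto (fun t => eLpNorm (u t) (rhoE d) volume) atTop (𝓝 0) := by
    have h1 : Tendsto (fun t => eLpNorm (u t - w t) (rhoE d) volume +
        eLpNorm (w t) (rhoE d) volume) atTop (𝓝 0) := by
      simpa using hdiff.add hfree
    have hone : 1 ≤ rhoE d := by
      unfold rhoE
      rw [← ENNReal.ofReal_one]
      exact ENNReal.ofReal_le_ofReal (by linarith [rho_ge_two d])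
    refine tendsto_of_tendsto_of_tendsto_of_le_of_le' tendsto_const_nhds h1
      (Eventually.of_forall fun t => bot_le) ?_
    filter_upwards [eventually_ge_atTop 0] with t ht
    have h2 := eLpNorm_add_le ((hu.isH1 t ht).memLp.1.sub (hw t ht).1.memLp.1)
      (hw t ht).1.memLp.1 hone
    rwa [sub_add_cancel] at h2
  have hreal : Tendsto (fun t => (1 / rho d) * (eLpNorm (u t) (rhoE d) volume).toReal ^ rho d)
      atTop (𝓝 0) := by
    have h1 : Tendsto (fun t => (eLpNorm (u t) (rhoE d) volume).toReal) atTop (𝓝 0) := by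
      have := (ENNReal.tendsto_toReal ENNReal.zero_ne_top).comp hsum
      simpa [Function.comp_def] using this
    have h2 := (h1.rpow_const (Or.inr (rho_pos d).le)).const_mul (1 / rho d)
    simpa [Real.zero_rpow (rho_pos d).ne'] using h2
  have hev := (hreal.eventually (gt_mem_nhds (show (0 : ℝ) < -En u₀ Du₀ by linarith))).and
    (eventually_gt_atTop (0 : ℝ))
  obtain ⟨t, ht1, ht2⟩ := hev.exists
  have h3 := En_lower (Df := Du t) (hC _ _ (hu.isH1 t ht2.le)).1
  rw [hcons t ht2] at h3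
  linarith

theorem gam_first {γp γm ts t0 t : ℝ} (hts : 0 < ts) (ht0 : ts < t0) (ht : 0 < t) (ht' : t ≤ ts) :
    gam γp γm ts t0 t = -γm := by
  have h0 : 0 < t0 := hts.trans ht0
  have h1 : ⌈t / t0⌉ = 1 := by
    rw [Int.ceil_eq_iff]
    constructor
    · simp; positivity
    · simp only [Int.cast_one]
      rw [div_le_one h0]; linarith
  unfold gam
  rw [h1]
  simp [ht']

theorem Solves.restrict {γ γ' : ℝ → ℝ} {I J : Set ℝ} {u : ℝ → Sp d → ℂ} (h : Solves γ I u)
    (hJ : J ⊆ I) (hγ : ∀ t ∈ J, ∀ s, 0 < s → s ≤ t → γ s = γ' s) (hJ0 : ∀ t ∈ J, 0 ≤ t) :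
    Solves γ' J u := by
  intro ψ t ht
  rw [h ψ t (hJ ht)]
  congr 1
  rw [intervalIntegral.integral_of_le (hJ0 t ht), intervalIntegral.integral_of_le (hJ0 t ht)]
  refine setIntegral_congr_fun measurableSet_Ioc fun s hs => ?_
  rw [hγ t ht s hs.1 hs.2]

theorem H1Path.mono {I J : Set ℝ} {u : ℝ → Sp d → ℂ} {Du : ℝ → Fin d → Sp d → ℂ}
    (h : H1Path I u Du) (hJ : J ⊆ I) : H1Path J u Du where
  meas := h.meas
  measD := h.measD
  isH1 := fun t ht => h.isH1 t (hJ ht)
  cont := fun t ht => (h.cont t (hJ ht)).mono_left (nhdsWithin_mono _ hJ)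
  contD := fun t ht j => (h.contD t (hJ ht) j).mono_left (nhdsWithin_mono _ hJ)

end MP3483
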