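import Pool.Agent.Lib_MP_3483a5_an.AsmA
import Pool.Agent.Lib_MP_3483a5_an.AsmB

/-!
# MP_3483a5_an: density of the data for which no dispersion map works
-/

open MeasureTheory Filter Topology Complex SchwartzMap
open scoped FourierTransform LineDeriv Laplacian ENNReal NNReal ComplexConjugate

namespace MP3483
variable {d : ℕ}

/-- the evolution of `u₀` under the free equation is too singular at arbitrarily small times -/
def BadDatum (d : ℕ) (u₀ : Sp d → ℂ) : Prop :=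
  ∀ τ₀ : ℝ, 0 < τ₀ → ∀ C : ℝ, ∃ τ s : ℝ, 0 < τ ∧ τ ≤ τ₀ ∧ 0 < s ∧ s ≤ 1 ∧
      C < s ^ kap d * ‖∫ x, u₀ x * G ((s : ℂ) - τ * Complex.I) x‖

theorem IsH1.add {f g : Sp d → ℂ} {Df Dg : Fin d → Sp d → ℂ} (hf : IsH1 f Df) (hg : IsH1 g Dg) :
    IsH1 (f + g) (Df + Dg) where
  memLp := hf.memLp.add hg.memLp
  memLpD := fun j => (hf.memLpD j).add (hg.memLpD j)
  weak := by
    intro j ψ
    have h1 := hf.weak j ψ
    have h2 := hg.weak j ψ
    have i1 : Integrable (fun x => f x * pd j ψ x) :=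
      hf.memLp.integrable_mul ((pd j ψ).memLp 2 volume)
    have i2 : Integrable (fun x => g x * pd j ψ x) :=
      hg.memLp.integrable_mul ((pd j ψ).memLp 2 volume)
    have i3 : Integrable (fun x => Df j x * ψ x) :=
      (hf.memLpD j).integrable_mul (ψ.memLp 2 volume)
    have i4 : Integrable (fun x => Dg j x * ψ x) :=
      (hg.memLpD j).integrable_mul (ψ.memLp 2 volume)
    have e1 : ∫ x, (Df + Dg) j x * ψ x = (∫ x, Df j x * ψ x) + ∫ x, Dg j x * ψ x := by
      rw [← integral_add i3 i4]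
      refine integral_congr_ae (Eventually.of_forall fun x => ?_)
      simp only [Pi.add_apply]; ring
    have e2 : ∫ x, (f + g) x * pd j ψ x = (∫ x, f x * pd j ψ x) + ∫ x, g x * pd j ψ x := by
      rw [← integral_add i1 i2]
      refine integral_congr_ae (Eventually.of_forall fun x => ?_)
      simp only [Pi.add_apply]; ring
    rw [e1, e2, h1, h2]; ring

theorem IsH1.const_smul {f : Sp d → ℂ} {Df : Fin d → Sp d → ℂ} (hf : IsH1 f Df) (c : ℂ) :
    IsH1 (c • f) (fun j => c • Df j) where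
  memLp := hf.memLp.const_smul c
  memLpD := fun j => (hf.memLpD j).const_smul c
  weak := by
    intro j ψ
    have h1 := hf.weak j ψ
    have e1 : ∫ x, (c • Df j) x * ψ x = c * ∫ x, Df j x * ψ x := by
      rw [← integral_const_mul]
      refine integral_congr_ae (Eventually.of_forall fun x => ?_)
      simp only [Pi.smul_apply, smul_eq_mul]; ring
    have e2 : ∫ x, (c • f) x * pd j ψ x = c * ∫ x, f x * pd j ψ x := by
      rw [← integral_const_mul]
      refine integral_congr_ae (Eventually.of_forall fun x => ?_)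
      simp only [Pi.smul_apply, smul_eq_mul]; ring
    rw [e1, e2, h1]; ring

theorem bad_near (hd : 2 ≤ d) {u₁ : Sp d → ℂ} (hu₁ : MemLp u₁ 2 volume) {ε : ℝ} (hε : 0 < ε) :
    ∃ (v : Sp d → ℂ) (Dv : Fin d → Sp d → ℂ), IsH1 v Dv ∧ Continuous v ∧ (∀ x, ‖v x‖ ≤ ε) ∧
      eLpNorm v 2 volume ≤ ENNReal.ofReal ε ∧
      (∀ j, eLpNorm (Dv j) 2 volume ≤ ENNReal.ofReal ε) ∧ BadDatum d (u₁ + v) := by
  classical
  have hτ : ∀ n : ℕ, (0 : ℝ) < 1 / ((n : ℝ) + 1) := fun n => by positivity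
  have hkey := fun (n M : ℕ) => key_prop hd (1 / ((n : ℝ) + 1)) (hτ n) (M : ℝ)
  choose Z hZ1 hZ2 hZ3 S hS0 hS1 hS2 using hkey
  let z : ℕ → 𝓢(Sp d, ℂ) := fun k => Z (Nat.unpair k).1 (Nat.unpair k).2
  let g : ℕ → ℕ → 𝓢(Sp d, ℂ) := fun n m =>
    gS ((S n m : ℂ) - ((1 / ((n : ℝ) + 1) : ℝ) : ℂ) * Complex.I) (by
      have : ((S n m : ℂ) - ((1 / ((n : ℝ) + 1) : ℝ) : ℂ) * Complex.I).re = S n m := by
        rw [sub_re, mul_re]; simp
      rw [this]; exact hS0 n m)
  have hg : ∀ n m x, g n m x = G ((S n m : ℂ) - ((1 / ((n : ℝ) + 1) : ℝ) : ℂ) * Complex.I) x :=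
    fun n m x => gS_apply _ _ x
  let wt : ℕ → ℕ → ℂ := fun n m => ((S n m ^ kap d : ℝ) : ℂ)
  let c : ℕ → ℕ → ℂ := fun n m => wt n m * ∫ x, u₁ x * g n m x
  let b : ℕ → ℕ → ℕ → ℂ := fun n m k => wt n m * ((ε : ℂ) * ∫ x, z k x * g n m x)
  have hb : ∀ n m, ∃ B : ℝ, ∀ k, ‖b n m k‖ ≤ B := by
    intro n m
    refine ⟨‖wt n m‖ * (ε * ∫ x, ‖g n m x‖), fun k => ?_⟩
    simp only [b, norm_mul, Complex.norm_real, Real.norm_of_nonneg hε.le]
    refine mul_le_mul_of_nonneg_left ?_ (norm_nonneg _)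
    refine mul_le_mul_of_nonneg_left ?_ hε.le
    refine (norm_integral_le_integral_norm _).trans ?_
    refine integral_mono_of_nonneg (Eventually.of_forall fun x => norm_nonneg _)
      (g n m).integrable.norm (Eventually.of_forall fun x => ?_)
    simp only [norm_mul]
    calc ‖z k x‖ * ‖g n m x‖ ≤ 1 * ‖g n m x‖ := by
          refine mul_le_mul_of_nonneg_right ?_ (norm_nonneg _)
          exact hZ1 _ _ x
      _ = ‖g n m x‖ := one_mul _
  have hM : ∀ (n : ℕ) (M : ℝ), ∃ m k, M ≤ ‖b n m k‖ := by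
    intro n M
    obtain ⟨m, hm⟩ := exists_nat_ge (M / ε)
    refine ⟨m, Nat.pair n m, ?_⟩
    have h1 := hS2 n m
    simp only [b, z, wt, Nat.unpair_pair, norm_mul]
    rw [Complex.norm_real, Complex.norm_real, Real.norm_of_nonneg hε.le,
      Real.norm_of_nonneg (Real.rpow_nonneg (hS0 n m).le _)]
    have h2 : (m : ℝ) ≤ S n m ^ kap d * ‖∫ x, Z n m x * g n m x‖ := by
      simpa only [hg] using h1
    have h3 : M ≤ ε * m := by
      rw [div_le_iff₀ hε] at hm; linarith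
    have h4 := mul_le_mul_of_nonneg_left h2 hε.le
    calc M ≤ ε * m := h3
      _ ≤ ε * (S n m ^ kap d * ‖∫ x, Z n m x * g n m x‖) := h4
      _ = S n m ^ kap d * (ε * ‖∫ x, Z n m x * g n m x‖) := by ring
  obtain ⟨a, ha, ha1, ha2⟩ := baire_l1 c b hb hM
  obtain ⟨Dv, hv1, hv2, hv3, hv4, hv5, hv6⟩ := sums (0 : 𝓢(Sp d, ℂ)) z (fun k x => hZ1 _ _ x)
    (fun k => hZ2 _ _) (fun k j => hZ3 _ _ j) a ha ha1
  have hpd0 : ∀ j : Fin d, pd j (0 : 𝓢(Sp d, ℂ)) = 0 := by
    intro j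
    unfold pd
    exact LineDeriv.lineDerivOp_zero _
  have hε' : ‖(ε : ℂ)‖ = ε := by rw [Complex.norm_real, Real.norm_of_nonneg hε.le]
  have hεe : ‖(ε : ℂ)‖ₑ = ENNReal.ofReal ε := by rw [← ofReal_norm, hε']
  refine ⟨(ε : ℂ) • (fun x => (0 : 𝓢(Sp d, ℂ)) x + ∑' k, a k * z k x),
    fun j => (ε : ℂ) • Dv j, hv1.const_smul _, hv2.const_smul _, ?_, ?_, ?_, ?_⟩
  · intro x
    have h1 := smb_norm_le z (fun k x => hZ1 _ _ x) a ha ha1 x
    simp only [Pi.smul_apply, smul_eq_mul, norm_mul, hε', zero_apply, zero_add]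
    calc ε * ‖∑' k, a k * z k x‖ ≤ ε * 1 := mul_le_mul_of_nonneg_left h1 hε.le
      _ = ε := mul_one _
  · rw [eLpNorm_const_smul, hεe]
    have h1 := smb_eLpNorm z (fun k x => hZ1 _ _ x) (fun k => hZ2 _ _) a ha ha1 (p := 2) le_rfl
    rw [show ENNReal.ofReal 2 = 2 by norm_num] at h1
    have h2 : (fun x => (0 : 𝓢(Sp d, ℂ)) x + ∑' k, a k * z k x) =
        fun x => ∑' k, a k * z k x := by
      funext x; simp
    rw [h2]
    exact mul_le_of_le_one_right' h1
  · intro j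
    rw [eLpNorm_const_smul, hεe]
    have h1 := hv4 j
    rw [hpd0 j] at h1
    have h2 : eLpNorm ((0 : 𝓢(Sp d, ℂ)) : Sp d → ℂ) 2 volume = 0 := by
      have : ((0 : 𝓢(Sp d, ℂ)) : Sp d → ℂ) = 0 := by funext x; simp
      rw [this, eLpNorm_zero]
    rw [h2, zero_add] at h1
    exact mul_le_of_le_one_right' h1
  · intro τ₀ hτ₀ C
    obtain ⟨n, hn⟩ := exists_nat_one_div_lt hτ₀
    obtain ⟨m, hm⟩ := ha2 n C
    refine ⟨1 / ((n : ℝ) + 1), S n m, hτ n, hn.le, hS0 n m, hS1 n m, hm.trans_le ?_⟩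
    have h6 := hv6 (g n m)
    have h7 : ∫ x, (u₁ + (ε : ℂ) • fun x => (0 : 𝓢(Sp d, ℂ)) x + ∑' k, a k * z k x) x *
        g n m x = (∫ x, u₁ x * g n m x) + (ε : ℂ) * ∑' k, a k * ∫ x, z k x * g n m x := by
      have i1 : Integrable (fun x => u₁ x * g n m x) volume :=
        hu₁.integrable_mul ((g n m).memLp 2 volume)
      have i2 : Integrable (fun x => ((0 : 𝓢(Sp d, ℂ)) x + ∑' k, a k * z k x) * g n m x)
          volume := hv1.memLp.integrable_mul ((g n m).memLp 2 volume)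
      have h8 : ∫ x, (0 : 𝓢(Sp d, ℂ)) x * g n m x = 0 := by simp
      rw [h8, zero_add] at h6
      rw [← h6, ← integral_const_mul, ← integral_add i1 (i2.const_mul _)]
      refine integral_congr_ae (Eventually.of_forall fun x => ?_)
      simp only [Pi.add_apply, Pi.smul_apply, smul_eq_mul]
      ring
    simp only [hg] at h7
    rw [h7]
    have h9 : c n m + ∑' k, a k * b n m k = wt n m * ((∫ x, u₁ x * g n m x) +
        (ε : ℂ) * ∑' k, a k * ∫ x, z k x * g n m x) := by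
      simp only [c, b]
      rw [mul_add, ← tsum_mul_left, ← tsum_mul_left]
      congr 1
      exact tsum_congr fun k => by ring
    rw [h9, norm_mul]
    simp only [wt, hg]
    rw [Complex.norm_real, Real.norm_of_nonneg (Real.rpow_nonneg (hS0 n m).le _)]

end MP3483
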