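import Pool.Agent.Lib_MP_3483a5_an.AsmD

/-!
# MP_3483a5_an: data close to one of negative energy, and the final form of the theorem
-/

open MeasureTheory Filter Topology Complex SchwartzMap
open scoped FourierTransform LineDeriv Laplacian ENNReal NNReal ComplexConjugate

namespace MP3483
variable {d : ℕ}

theorem eLpNorm_rho_le {v : Sp d → ℂ} (hv : MemLp v 2 volume) {ε : ℝ} (hε : 0 < ε)
    (h1 : ∀ x, ‖v x‖ ≤ ε) (h2 : eLpNorm v 2 volume ≤ ENNReal.ofReal ε) :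
    (eLpNorm v (rhoE d) volume).toReal ≤ ε := by
  have hρ := rho_pos d
  have hmem : MemLp v (ENNReal.ofReal (rho d)) volume :=
    memLp_rho_of_bdd hv (Eventually.of_forall h1) (rho_ge_two d)
  have e1 := int_rpow_eq hρ hmem
  have e2 := int_sq_eq hv
  have h3 : (eLpNorm v 2 volume).toReal ≤ ε := by
    have := ENNReal.toReal_mono ENNReal.ofReal_ne_top h2
    rwa [ENNReal.toReal_ofReal hε.le] at this
  have h4 : ∫ x, ‖v x‖ ^ 2 ≤ ε ^ 2 := by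
    rw [e2]; exact pow_le_pow_left₀ ENNReal.toReal_nonneg h3 2
  have h5 : ∫ x, ‖v x‖ ^ rho d ≤ ε ^ rho d := by
    have h6 : ∫ x, ‖v x‖ ^ rho d ≤ ∫ x, ε ^ (rho d - 2) * ‖v x‖ ^ 2 := by
      refine integral_mono_of_nonneg
        (Eventually.of_forall fun x => Real.rpow_nonneg (norm_nonneg _) _)
        (((memLp_two_iff_integrable_sq_norm hv.1).1 hv).const_mul _)
        (Eventually.of_forall fun x => ?_)
      rcases eq_or_ne (v x) 0 with h | h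
      · simp only [h, norm_zero]
        rw [Real.zero_rpow hρ.ne']; simp
      · have hpos : 0 < ‖v x‖ := norm_pos_iff.2 h
        have h3 : ‖v x‖ ^ rho d = ‖v x‖ ^ (rho d - 2) * ‖v x‖ ^ 2 := by
          rw [← Real.rpow_natCast, ← Real.rpow_add hpos]; norm_num
        simp only
        rw [h3]
        exact mul_le_mul_of_nonneg_right
          (Real.rpow_le_rpow hpos.le (h1 x) (by linarith [rho_ge_two d])) (by positivity)
    rw [integral_const_mul] at h6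
    have h7 : ε ^ (rho d - 2) * ∫ x, ‖v x‖ ^ 2 ≤ ε ^ (rho d - 2) * ε ^ 2 :=
      mul_le_mul_of_nonneg_left h4 (Real.rpow_nonneg hε.le _)
    have h8 : ε ^ (rho d - 2) * ε ^ 2 = ε ^ rho d := by
      rw [← Real.rpow_natCast, ← Real.rpow_add hε]; norm_num
    linarith
  rw [e1] at h5
  exact (Real.rpow_le_rpow_iff ENNReal.toReal_nonneg hε.le hρ).1 h5

theorem En_near {u₁ : Sp d → ℂ} {Du₁ : Fin d → Sp d → ℂ} (h₁ : IsH1 u₁ Du₁) {B : ℝ}
    (hB : ∀ x, ‖u₁ x‖ ≤ B) (hE : En u₁ Du₁ < 0) : ∃ ε₀ : ℝ, 0 < ε₀ ∧ ∀ ε : ℝ, 0 < ε → ε ≤ ε₀ →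
    ∀ (v : Sp d → ℂ) (Dv : Fin d → Sp d → ℂ), IsH1 v Dv → (∀ x, ‖v x‖ ≤ ε) →
      eLpNorm v 2 volume ≤ ENNReal.ofReal ε → (∀ j, eLpNorm (Dv j) 2 volume ≤ ENNReal.ofReal ε) →
      En (u₁ + v) (Du₁ + Dv) < 0 := by
  have hρ := rho_pos d
  have hmem : MemLp u₁ (ENNReal.ofReal (rho d)) volume :=
    memLp_rho_of_bdd h₁.memLp (Eventually.of_forall hB) (rho_ge_two d)
  set A : Fin d → ℝ := fun j => (eLpNorm (Du₁ j) 2 volume).toReal with hA
  set R : ℝ := (eLpNorm u₁ (rhoE d) volume).toReal with hR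
  have hR0 : 0 ≤ R := ENNReal.toReal_nonneg
  set F : ℝ → ℝ := fun ε => (1 / 2) * (∑ j, (A j + ε) ^ 2) -
    (1 / rho d) * (max (R - ε) 0) ^ rho d with hF
  have hFc : Continuous F := by
    have h1 : Continuous (fun ε : ℝ => (max (R - ε) 0) ^ rho d) :=
      ((continuous_const.sub continuous_id).max continuous_const).rpow_const
        (fun _ => Or.inr hρ.le)
    have h2 : Continuous (fun ε : ℝ => ∑ j, (A j + ε) ^ 2) := by fun_prop
    exact (continuous_const.mul h2).sub (continuous_const.mul h1)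
  have hF0 : F 0 = En u₁ Du₁ := by
    simp only [hF, En, add_zero, sub_zero, max_eq_left hR0]
    have e1 : ∀ j, ∫ x, ‖Du₁ j x‖ ^ 2 = A j ^ 2 := fun j => int_sq_eq (h₁.memLpD j)
    have e2 : ∫ x, ‖u₁ x‖ ^ rho d = R ^ rho d := int_rpow_eq hρ hmem
    simp_rw [e1]
    rw [e2]
  have hev : ∀ᶠ ε in 𝓝 (0 : ℝ), F ε < 0 :=
    hFc.continuousAt.eventually (gt_mem_nhds (by rw [hF0]; exact hE))
  obtain ⟨δ, hδ, hδ2⟩ := Metric.eventually_nhds_iff.1 hev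
  refine ⟨δ / 2, by linarith, fun ε hε hε2 v Dv hv hv1 hv2 hv3 => ?_⟩
  have hFε : F ε < 0 := by
    refine hδ2 ?_
    rw [Real.dist_eq, sub_zero, abs_of_pos hε]
    linarith
  refine lt_of_le_of_lt ?_ hFε
  have hsum : IsH1 (u₁ + v) (Du₁ + Dv) := h₁.add hv
  have hsmem : MemLp (u₁ + v) (ENNReal.ofReal (rho d)) volume :=
    memLp_rho_of_bdd hsum.memLp (B := B + ε) (Eventually.of_forall fun x =>
      (norm_add_le _ _).trans (add_le_add (hB x) (hv1 x))) (rho_ge_two d)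
  have hvmem : MemLp v (ENNReal.ofReal (rho d)) volume :=
    memLp_rho_of_bdd hv.memLp (Eventually.of_forall hv1) (rho_ge_two d)
  have g1 : ∀ j, ∫ x, ‖(Du₁ + Dv) j x‖ ^ 2 ≤ (A j + ε) ^ 2 := by
    intro j
    rw [int_sq_eq (hsum.memLpD j)]
    refine pow_le_pow_left₀ ENNReal.toReal_nonneg ?_ 2
    have h3 := eLpNorm_add_le (h₁.memLpD j).1 (hv.memLpD j).1 one_le_two
    have h4 := ENNReal.toReal_mono (ENNReal.add_ne_top.2 ⟨(h₁.memLpD j).2.ne,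
      (hv.memLpD j).2.ne⟩) h3
    rw [ENNReal.toReal_add (h₁.memLpD j).2.ne (hv.memLpD j).2.ne] at h4
    have h5 := ENNReal.toReal_mono ENNReal.ofReal_ne_top (hv3 j)
    rw [ENNReal.toReal_ofReal hε.le] at h5
    exact h4.trans (by simp only [hA]; linarith)
  have g2 : (max (R - ε) 0) ^ rho d ≤ ∫ x, ‖(u₁ + v) x‖ ^ rho d := by
    rw [int_rpow_eq hρ hsmem]
    refine Real.rpow_le_rpow (le_max_right _ _) ?_ hρ.le
    refine max_le ?_ ENNReal.toReal_nonneg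
    have hone : (1 : ℝ≥0∞) ≤ ENNReal.ofReal (rho d) := by
      rw [← ENNReal.ofReal_one]
      exact ENNReal.ofReal_le_ofReal (by linarith [rho_ge_two d])
    have h3 := eLpNorm_sub_le hsmem.1 hvmem.1 hone
    rw [add_sub_cancel_right] at h3
    have h4 := ENNReal.toReal_mono (ENNReal.add_ne_top.2 ⟨hsmem.2.ne, hvmem.2.ne⟩) h3
    rw [ENNReal.toReal_add hsmem.2.ne hvmem.2.ne] at h4
    have h5 := eLpNorm_rho_le hv.memLp hε hv1 hv2
    unfold rhoE at h5 hR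
    rw [hR]
    linarith
  have g3 : (1 / 2 : ℝ) * (∑ j, ∫ x, ‖(Du₁ + Dv) j x‖ ^ 2) ≤
      (1 / 2) * ∑ j, (A j + ε) ^ 2 :=
    mul_le_mul_of_nonneg_left (Finset.sum_le_sum fun j _ => g1 j) (by norm_num)
  have g4 : (1 / rho d) * (max (R - ε) 0) ^ rho d ≤ (1 / rho d) * ∫ x, ‖(u₁ + v) x‖ ^ rho d :=
    mul_le_mul_of_nonneg_left g2 (by positivity)
  unfold En
  simp only [hF]
  linarith

theorem never_of_bad (hd : 2 ≤ d) {u₀ : Sp d → ℂ} (h5 : BadDatum d u₀) : NeverManageable u₀ := by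
  have key : ∀ γp γm ts t0 : ℝ, 0 < γp → 0 < γm → 0 < ts → ts < t0 →
      ∀ T : ℝ, 0 < T → ∀ (u : ℝ → Sp d → ℂ) (Du : ℝ → Fin d → Sp d → ℂ),
        H1Path (Set.Ico 0 T) u Du → Solves (gam γp γm ts t0) (Set.Ico 0 T) u →
        u 0 =ᵐ[volume] u₀ → ∀ C : ℝ, ∃ t ∈ Set.Ico 0 T, ENNReal.ofReal C <
          eLpNorm (u t) ⊤ volume := by
    intro γp γm ts t0 hγp hγm hts ht0 T hT u Du hu hsol hu0 C
    by_contra hcon
    push Not at hcon
    set S := min ts (T / 2) with hSdef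
    have hS0 : 0 < S := lt_min hts (by linarith)
    have hST : S < T := (min_le_right _ _).trans_lt (by linarith)
    have hsub : Set.Icc 0 S ⊆ Set.Ico 0 T := fun t ht => ⟨ht.1, ht.2.trans_lt hST⟩
    refine no_bounded hd h5 hγm hS0 (hu.mono hsub)
      (hsol.restrict hsub (fun t ht s hs hst => ?_) (fun t ht => ht.1)) hu0 (C₀ := max C 0) ?_
    · exact gam_first hts ht0 hs (hst.trans (ht.2.trans (min_le_left _ _)))
    · intro t ht
      have h6 := hcon t (hsub ht)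
      rw [eLpNorm_exponent_top] at h6
      filter_upwards [ae_le_eLpNormEssSup (f := u t) (μ := volume)] with x hx
      have h7 : ‖u t x‖ₑ ≤ ENNReal.ofReal (max C 0) :=
        hx.trans (h6.trans (ENNReal.ofReal_le_ofReal (le_max_left _ _)))
      rwa [← ofReal_norm, ENNReal.ofReal_le_ofReal_iff (le_max_right _ _)] at h7
  intro γp γm ts t0 hγp hγm hts ht0
  refine ⟨?_, key γp γm ts t0 hγp hγm hts ht0⟩
  rintro ⟨u, Du, hu, hsol, hu0, c, C, hc, hb⟩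
  obtain ⟨t, ht, hlt⟩ := key γp γm ts t0 hγp hγm hts ht0 1 one_pos u Du
    (hu.mono fun t ht => ht.1) (hsol.restrict (fun t ht => ht.1) (fun _ _ _ _ _ => rfl)
      (fun t ht => ht.1)) hu0 C
  exact absurd (hb t ht.1).2 (not_le.2 hlt)

theorem dense_never (hd : 2 ≤ d) :
    (∃ (u₁ : Sp d → ℂ) (Du₁ : Fin d → Sp d → ℂ), IsH1 u₁ Du₁ ∧ Continuous u₁ ∧
      (∃ B : ℝ, ∀ x, ‖u₁ x‖ ≤ B) ∧ En u₁ Du₁ < 0) ∧
    ∀ (u₁ : Sp d → ℂ) (Du₁ : Fin d → Sp d → ℂ), IsH1 u₁ Du₁ → (∃ B : ℝ, ∀ x, ‖u₁ x‖ ≤ B) →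
      En u₁ Du₁ < 0 → ∀ ε : ℝ, 0 < ε →
      ∃ (u₀ : Sp d → ℂ) (Du₀ : Fin d → Sp d → ℂ), IsH1 u₀ Du₀ ∧ Continuous (u₀ - u₁) ∧
        (∀ x, ‖u₀ x - u₁ x‖ ≤ ε) ∧ eLpNorm (u₀ - u₁) 2 volume ≤ ENNReal.ofReal ε ∧
        (∀ j, eLpNorm (Du₀ j - Du₁ j) 2 volume ≤ ENNReal.ofReal ε) ∧
        ¬ Scatters u₀ ∧ NeverManageable u₀ := by
  refine ⟨?_, ?_⟩
  · obtain ⟨u₀, Du₀, h1, h2, h3, h4, -⟩ := exists_bad hd
    exact ⟨u₀, Du₀, h1, h2, h3, h4⟩
  · intro u₁ Du₁ h₁ hB hE ε hε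
    obtain ⟨B, hB⟩ := hB
    obtain ⟨ε₀, hε₀, hnear⟩ := En_near h₁ hB hE
    set η := min ε ε₀ with hη
    have hη0 : 0 < η := lt_min hε hε₀
    have hηε : ENNReal.ofReal η ≤ ENNReal.ofReal ε := ENNReal.ofReal_le_ofReal (min_le_left _ _)
    obtain ⟨v, Dv, hv, hvc, hv1, hv2, hv3, hbad⟩ := bad_near hd h₁.memLp hη0
    have e1 : u₁ + v - u₁ = v := by rw [add_sub_cancel_left]
    refine ⟨u₁ + v, Du₁ + Dv, h₁.add hv, by rw [e1]; exact hvc, ?_, by rw [e1]; exact hv2.trans hηε,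
      ?_, not_scatters (by omega) (h₁.add hv) (hnear η hη0 (min_le_right _ _) v Dv hv hv1 hv2 hv3),
      never_of_bad hd hbad⟩
    · intro x
      simp only [Pi.add_apply, add_sub_cancel_left]
      exact (hv1 x).trans (min_le_left _ _)
    · intro j
      have e2 : (Du₁ + Dv) j - Du₁ j = Dv j := by
        rw [Pi.add_apply, add_sub_cancel_left]
      rw [e2]
      exact (hv3 j).trans hηε

end MP3483
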