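import Mathlib

/-!
# MP_3483a5_an: dispersion managed NLS, the definitions used in the statement

`Sp d` is `ℝ^d`.  All functions are complex valued.
-/

open MeasureTheory Filter Topology Complex SchwartzMap
open scoped FourierTransform LineDeriv Laplacian ENNReal NNReal

namespace DMNLS

/-- the Euclidean space `ℝ^d` -/
abbrev Sp (d : ℕ) := EuclideanSpace ℝ (Fin d)

/-- the Schwartz space `𝓢(ℝ^d)` -/
abbrev Sch (d : ℕ) := 𝓢(Sp d, ℂ)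

/-- the exponent `2 + 4/d` -/
noncomputable def rho (d : ℕ) : ℝ := 2 + 4 / d

/-- the mass critical nonlinearity `|z|^{4/d} z` -/
noncomputable def nl (d : ℕ) (z : ℂ) : ℂ := ((‖z‖ ^ ((4 : ℝ) / d) : ℝ) : ℂ) * z

variable {d : ℕ}

/-- the pairing `∫ f ψ` of a function with a Schwartz function -/
noncomputable def pair (f : Sp d → ℂ) (ψ : Sch d) : ℂ := ∫ x, f x * ψ x

/-- the `j`-th partial derivative of a Schwartz function -/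
noncomputable def pd (j : Fin d) (ψ : Sch d) : Sch d := ∂_{EuclideanSpace.single j (1 : ℝ)} ψ

/-- the Laplacian of a Schwartz function -/
noncomputable def lap (ψ : Sch d) : Sch d := Δ ψ

/-- `f ∈ L²(ℝ^d)` -/
def L2 (f : Sp d → ℂ) : Prop := MemLp f 2 volume

/-- the norm of `f` in `L²(ℝ^d)` -/
noncomputable def nrm2 (f : Sp d → ℂ) : ℝ≥0∞ := eLpNorm f 2 volume

/-- the norm of `f` in `L^∞(ℝ^d)` -/
noncomputable def nrmInf (f : Sp d → ℂ) : ℝ≥0∞ := eLpNorm f ⊤ volume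

/-- `f` and `g` are equal almost everywhere -/
def AeEq (f g : Sp d → ℂ) : Prop := f =ᵐ[volume] g

/-- `f ∈ H¹(ℝ^d)` with weak gradient `Df` -/
def IsH1 (f : Sp d → ℂ) (Df : Fin d → Sp d → ℂ) : Prop :=
  L2 f ∧ (∀ j, L2 (Df j)) ∧ ∀ j, ∀ ψ : Sch d, pair (Df j) ψ = - pair f (pd j ψ)

/-- `u` is continuous from `I` to `L²(ℝ^d)` and jointly measurable -/
def ContL2 (I : Set ℝ) (u : ℝ → Sp d → ℂ) : Prop :=
  Measurable (fun p : ℝ × Sp d => u p.1 p.2) ∧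
  ∀ t ∈ I, Tendsto (fun s => nrm2 (u s - u t)) (𝓝[I] t) (𝓝 0)

/-- `u ∈ C(I; H¹(ℝ^d))` with gradient `Du` -/
def H1Path (I : Set ℝ) (u : ℝ → Sp d → ℂ) (Du : ℝ → Fin d → Sp d → ℂ) : Prop :=
  (∀ t ∈ I, IsH1 (u t) (Du t)) ∧ ContL2 I u ∧ ∀ j, ContL2 I (fun t => Du t j)

/-- `i ∂_t u + γ(t) Δ u = |u|^{4/d} u` on `I` in the sense of distributions -/
def Solves (γ : ℝ → ℝ) (I : Set ℝ) (u : ℝ → Sp d → ℂ) : Prop :=
  ∀ ψ : Sch d, ∀ t ∈ I, pair (u t) ψ = pair (u 0) ψ +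
    ∫ s in (0 : ℝ)..t, (Complex.I * (γ s : ℂ) * pair (u s) (lap ψ) -
      Complex.I * pair (fun x => nl d (u s x)) ψ)

/-- `v ∈ L^ρ([0,T] × ℝ^d)`, `ρ = 2 + 4/d` -/
def InLrho (T : ℝ) (v : ℝ → Sp d → ℂ) : Prop :=
  MemLp (fun p : ℝ × Sp d => v p.1 p.2) (ENNReal.ofReal (rho d))
    ((volume.restrict (Set.Icc 0 T)).prod volume)

/-- `u ∈ L^ρ_loc([0,∞); W^{1,ρ}(ℝ^d))`, `ρ = 2 + 4/d` -/
def Strich (u : ℝ → Sp d → ℂ) (Du : ℝ → Fin d → Sp d → ℂ) : Prop :=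
  ∀ T : ℝ, 0 < T → InLrho T u ∧ ∀ j, InLrho T (fun t => Du t j)

/-- the Fourier transform `∫ e^{-2π i x·ξ} φ(x) dx` of a Schwartz function -/
noncomputable def ft (φ : Sch d) (ξ : Sp d) : ℂ := 𝓕 (fun x => φ x) ξ

/-- the Fourier multiplier `e^{-4π² i s |ξ|²}` of `e^{i s Δ}` -/
noncomputable def symb (s : ℝ) (ξ : Sp d) : ℂ :=
  cexp (-(4 * (Real.pi : ℂ) ^ 2 * s * (‖ξ‖ : ℂ) ^ 2 * Complex.I))

/-- `χ = e^{i s Δ} φ` for Schwartz functions -/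
def FreeEvS (s : ℝ) (φ χ : Sch d) : Prop := ∀ ξ, ft χ ξ = symb s ξ * ft φ ξ

/-- `g = e^{i s Δ} f` in `L²(ℝ^d)`, that is, `∫ g φ = ∫ f (e^{i s Δ} φ)` for Schwartz functions -/
def FreeEv (s : ℝ) (f g : Sp d → ℂ) : Prop :=
  L2 f ∧ L2 g ∧ ∀ φ χ : Sch d, FreeEvS s φ χ → pair g φ = pair f χ

/-- `u(t)` is asymptotic in `H¹` as `t → ∞` to the free evolution `e^{-i t Δ} f` of some
`f ∈ H¹` -/
def AsymFree (u : ℝ → Sp d → ℂ) (Du : ℝ → Fin d → Sp d → ℂ) : Prop :=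
  ∃ (f : Sp d → ℂ) (Df : Fin d → Sp d → ℂ) (w : ℝ → Sp d → ℂ) (Dw : ℝ → Fin d → Sp d → ℂ),
    IsH1 f Df ∧ (∀ t : ℝ, 0 ≤ t → IsH1 (w t) (Dw t) ∧ FreeEv (-t) f (w t)) ∧
    Tendsto (fun t => nrm2 (u t - w t)) atTop (𝓝 0) ∧
    ∀ j, Tendsto (fun t => nrm2 (Du t j - Dw t j)) atTop (𝓝 0)

/-- the focusing equation `i ∂_t u - Δ u = |u|^{4/d} u` has a global `H¹` solution with initial
value `u₀` which scatters in `H¹` as `t → ∞` -/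
def Scatters (u₀ : Sp d → ℂ) : Prop :=
  ∃ (u : ℝ → Sp d → ℂ) (Du : ℝ → Fin d → Sp d → ℂ),
    H1Path (Set.Ici 0) u Du ∧ Strich u Du ∧ Solves (fun _ => -1) (Set.Ici 0) u ∧
    AeEq (u 0) u₀ ∧ AsymFree u Du

/-- the `t₀`-periodic dispersion map: `-γ₋` on `(0, t⋆]` and `γ₊` on `(t⋆, t₀]` -/
noncomputable def gam (γp γm ts t0 : ℝ) (t : ℝ) : ℝ :=
  if t - t0 * (⌈t / t0⌉ - 1) ≤ ts then -γm else γp

/-- the dispersion managed equation with dispersion map `γ` and initial value `u₀` has a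
dispersion-manageable solution -/
def Manageable (γ : ℝ → ℝ) (u₀ : Sp d → ℂ) : Prop :=
  ∃ (u : ℝ → Sp d → ℂ) (Du : ℝ → Fin d → Sp d → ℂ),
    H1Path (Set.Ici 0) u Du ∧ Solves γ (Set.Ici 0) u ∧ AeEq (u 0) u₀ ∧
    ∃ c C : ℝ, 0 < c ∧ ∀ t : ℝ, 0 ≤ t →
      ENNReal.ofReal c ≤ nrmInf (u t) ∧ nrmInf (u t) ≤ ENNReal.ofReal C

/-- every `H¹` solution with dispersion map `γ` and initial value `u₀`, on any interval `[0,T)`,
has an unbounded supremum norm there -/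
def NoBoundedSol (γ : ℝ → ℝ) (u₀ : Sp d → ℂ) : Prop :=
  ∀ T : ℝ, 0 < T → ∀ (u : ℝ → Sp d → ℂ) (Du : ℝ → Fin d → Sp d → ℂ),
    H1Path (Set.Ico 0 T) u Du → Solves γ (Set.Ico 0 T) u → AeEq (u 0) u₀ →
    ∀ C : ℝ, ∃ t ∈ Set.Ico 0 T, ENNReal.ofReal C < nrmInf (u t)

/-- no dispersion map makes the datum `u₀` manageable -/
def NeverManageable (u₀ : Sp d → ℂ) : Prop :=
  ∀ γp γm ts t0 : ℝ, 0 < γp → 0 < γm → 0 < ts → ts < t0 →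
    ¬ Manageable (gam γp γm ts t0) u₀ ∧ NoBoundedSol (gam γp γm ts t0) u₀

/-- the energy `(1/2) ∫ |∇f|² - (1/ρ) ∫ |f|^ρ`, `ρ = 2 + 4/d`, of the focusing equation -/
noncomputable def En (f : Sp d → ℂ) (Df : Fin d → Sp d → ℂ) : ℝ :=
  (1 / 2) * (∑ j, ∫ x, ‖Df j x‖ ^ 2) - (1 / rho d) * ∫ x, ‖f x‖ ^ rho d

/-- `f` is a bounded function in `H¹` with gradient `Df` and negative energy -/
def NegEn (f : Sp d → ℂ) (Df : Fin d → Sp d → ℂ) : Prop :=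
  IsH1 f Df ∧ (∃ B : ℝ, ∀ x, ‖f x‖ ≤ B) ∧ En f Df < 0

/-- `f` and `g` are `ε`-close in `L²`, in the `L²` norms of the partial derivatives, and
uniformly, and `f - g` is continuous -/
def Close (ε : ℝ) (f g : Sp d → ℂ) (Df Dg : Fin d → Sp d → ℂ) : Prop :=
  Continuous (f - g) ∧ (∀ x, ‖f x - g x‖ ≤ ε) ∧ nrm2 (f - g) ≤ ENNReal.ofReal ε ∧
    ∀ j, nrm2 (Df j - Dg j) ≤ ENNReal.ofReal ε

end DMNLS
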