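import Pool.Agent.Lib_MP_3483a5_an.AsmE
import Pool.Agent.Lib_MP_3483a5_an.Stm

/-!
# MP_3483a5_an: from the working definitions to the definitions of the statement
-/

open MeasureTheory Filter Topology Complex SchwartzMap
open scoped FourierTransform LineDeriv Laplacian ENNReal NNReal ComplexConjugate

namespace DMNLS
variable {d : ℕ}

theorem isH1_iff {f : Sp d → ℂ} {Df : Fin d → Sp d → ℂ} : IsH1 f Df ↔ MP3483.IsH1 f Df :=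
  ⟨fun h => ⟨h.1, h.2.1, h.2.2⟩, fun h => ⟨h.memLp, h.memLpD, h.weak⟩⟩

theorem h1Path_iff {I : Set ℝ} {u : ℝ → Sp d → ℂ} {Du : ℝ → Fin d → Sp d → ℂ} :
    H1Path I u Du ↔ MP3483.H1Path I u Du :=
  ⟨fun h => ⟨h.2.1.1, fun j => (h.2.2 j).1, fun t ht => isH1_iff.1 (h.1 t ht), h.2.1.2,
    fun t ht j => (h.2.2 j).2 t ht⟩,
   fun h => ⟨fun t ht => isH1_iff.2 (h.isH1 t ht), ⟨h.meas, h.cont⟩,
    fun j => ⟨h.measD j, fun t ht => h.contD t ht j⟩⟩⟩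

theorem solves_iff {γ : ℝ → ℝ} {I : Set ℝ} {u : ℝ → Sp d → ℂ} :
    Solves γ I u ↔ MP3483.Solves γ I u := Iff.rfl

theorem strich_iff {u : ℝ → Sp d → ℂ} {Du : ℝ → Fin d → Sp d → ℂ} :
    Strich u Du ↔ MP3483.Strich u Du := Iff.rfl

theorem ft_eq (φ : Sch d) (ξ : Sp d) : ft φ ξ = (𝓕 φ : 𝓢(Sp d, ℂ)) ξ := by
  rw [SchwartzMap.fourier_coe]; rfl

theorem ff_eq (T : 𝓢(Sp d, ℂ)) (ξ : Sp d) : (𝓕 (𝓕 T : 𝓢(Sp d, ℂ)) : 𝓢(Sp d, ℂ)) ξ = T (-ξ) := by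
  have h1 : (𝓕⁻ (𝓕 T : 𝓢(Sp d, ℂ)) : 𝓢(Sp d, ℂ)) = T := by simp
  have h2 : (𝓕⁻ (𝓕 T : 𝓢(Sp d, ℂ)) : 𝓢(Sp d, ℂ)) (-ξ) = T (-ξ) := by rw [h1]
  rw [← h2, SchwartzMap.fourierInv_coe, SchwartzMap.fourier_coe (𝓕 T),
    Real.fourierInv_eq_fourier_neg, neg_neg]

theorem symb_neg (s : ℝ) (ξ : Sp d) : symb s (-ξ) = symb s ξ := by
  unfold symb; rw [norm_neg]

theorem symb_contDiff (s : ℝ) : ContDiff ℝ (⊤ : ℕ∞) (symb s : Sp d → ℂ) := by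
  have h1 : ContDiff ℝ (⊤ : ℕ∞) (fun ξ : Sp d => ‖ξ‖ ^ 2) := contDiff_norm_sq ℝ
  have h2 : (symb s : Sp d → ℂ) = fun ξ : Sp d =>
      cexp (-(4 * (Real.pi : ℂ) ^ 2 * s * ((Complex.ofRealCLM (‖ξ‖ ^ 2) : ℂ)) * Complex.I)) := by
    funext ξ
    unfold symb
    simp
  rw [h2]
  fun_prop

theorem freeEv_old {s : ℝ} {f g : Sp d → ℂ} (h : FreeEv s f g) : MP3483.FreeEv s f g := by
  obtain ⟨hf, hg, hdual⟩ := h
  refine ⟨hf, hg, ?_⟩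
  have hsc : Continuous (symb s : Sp d → ℂ) := (symb_contDiff s).continuous
  refine ae_eq_of_integral_contDiff_smul_eq ((Lp.memLp _).locallyIntegrable (by norm_num))
    (MP3483.fw_locInt (Lp.memLp _) hsc) ?_
  intro θ hθ1 hθ2
  have hg₁ : HasCompactSupport (Complex.ofRealCLM ∘ θ) := hθ2.comp_left rfl
  have hg₂ : ContDiff ℝ (⊤ : ℕ∞) (Complex.ofRealCLM ∘ θ) := by fun_prop
  set T : 𝓢(Sp d, ℂ) := hg₁.toSchwartzMap hg₂ with hT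
  have hTx : ∀ x, T x = (θ x : ℂ) := fun x => rfl
  have hk₁ : HasCompactSupport (fun x : Sp d => symb s x * (θ x : ℂ)) := hg₁.mul_left
  have hk₂ : ContDiff ℝ (⊤ : ℕ∞) (fun x : Sp d => symb s x * (θ x : ℂ)) :=
    (symb_contDiff s).mul hg₂
  set K : 𝓢(Sp d, ℂ) := hk₁.toSchwartzMap hk₂ with hK
  have hKx : ∀ x, K x = symb s x * (θ x : ℂ) := fun x => rfl
  have hfree : FreeEvS s (𝓕 T) (𝓕 K) := by
    intro ξ
    rw [ft_eq, ft_eq, ff_eq, ff_eq, hKx, hTx, symb_neg]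
  have h1 := hdual _ _ hfree
  unfold pair at h1
  have e1 : ∫ ξ, θ ξ • ((𝓕 (hg.toLp g) : Lp ℂ 2 (volume : Measure (Sp d))) : Sp d → ℂ) ξ =
      ∫ x, g x * (𝓕 T : 𝓢(Sp d, ℂ)) x := by
    rw [← MP3483.fw_test hg T]
    refine integral_congr_ae (Eventually.of_forall fun x => ?_)
    simp [hTx]
  rw [e1, h1, ← MP3483.fw_test hf]
  refine integral_congr_ae (Eventually.of_forall fun x => ?_)
  simp only [hKx, Complex.real_smul, symb]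
  ring

theorem scatters_old {u₀ : Sp d → ℂ} (h : Scatters u₀) : MP3483.Scatters u₀ := by
  obtain ⟨u, Du, hu, hS, hsol, hu0, f, Df, w, Dw, hf, hw, hlim, hlimD⟩ := h
  exact ⟨u, Du, h1Path_iff.1 hu, hS, hsol, hu0, f, Df, w, Dw, isH1_iff.1 hf,
    fun t ht => ⟨isH1_iff.1 (hw t ht).1, freeEv_old (hw t ht).2⟩, hlim, hlimD⟩

theorem manageable_old {γ : ℝ → ℝ} {u₀ : Sp d → ℂ} (h : Manageable γ u₀) :
    MP3483.Manageable γ u₀ := by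
  obtain ⟨u, Du, hu, hsol, hu0, hb⟩ := h
  exact ⟨u, Du, h1Path_iff.1 hu, hsol, hu0, hb⟩

theorem never_new {u₀ : Sp d → ℂ} (h : MP3483.NeverManageable u₀) : NeverManageable u₀ := by
  intro γp γm ts t0 hγp hγm hts ht0
  obtain ⟨h1, h2⟩ := h γp γm ts t0 hγp hγm hts ht0
  refine ⟨fun hm => h1 (manageable_old hm), ?_⟩
  intro T hT u Du hu hsol hu0 C
  exact h2 T hT u Du (h1Path_iff.1 hu) hsol hu0 C

theorem main (hd : 2 ≤ d) :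
    (∃ (u₁ : Sp d → ℂ) (Du₁ : Fin d → Sp d → ℂ), NegEn u₁ Du₁) ∧
    ∀ (u₁ : Sp d → ℂ) (Du₁ : Fin d → Sp d → ℂ), NegEn u₁ Du₁ → ∀ ε : ℝ, 0 < ε →
      ∃ (u₀ : Sp d → ℂ) (Du₀ : Fin d → Sp d → ℂ), IsH1 u₀ Du₀ ∧ Close ε u₀ u₁ Du₀ Du₁ ∧
        ¬ Scatters u₀ ∧ NeverManageable u₀ := by
  obtain ⟨⟨u₁, Du₁, h1, -, h3, h4⟩, hdense⟩ := MP3483.dense_never hd
  refine ⟨⟨u₁, Du₁, isH1_iff.2 h1, h3, h4⟩, ?_⟩
  intro v Dv hv ε hε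
  obtain ⟨u₀, Du₀, g1, g2, g3, g4, g5, g6, g7⟩ :=
    hdense v Dv (isH1_iff.1 hv.1) hv.2.1 hv.2.2 ε hε
  exact ⟨u₀, Du₀, isH1_iff.2 g1, ⟨g2, g3, g4, g5⟩, fun hs => g6 (scatters_old hs), never_new g7⟩

end DMNLS
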