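import Pool.Agent.Lib_MP_3483a5_an.GS

/-!
# MP_3483a5_an: the heat kernel as a Schwartz function (definitions only, no sorry here)
-/

open MeasureTheory Filter Topology Complex SchwartzMap
open scoped FourierTransform LineDeriv Laplacian ENNReal NNReal ComplexConjugate

namespace MP3483
variable {d : ℕ}

/-- the complex heat kernel as a Schwartz function -/
noncomputable def gS (z : ℂ) (hz : 0 < z.re) : 𝓢(Sp d, ℂ) := Classical.choose (gauss_schwartz z hz)

theorem gS_apply (z : ℂ) (hz : 0 < z.re) (x : Sp d) : gS z hz x = G z x :=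
  Classical.choose_spec (gauss_schwartz z hz) x

/-- the real heat kernel at time `1/(n+1)` -/
noncomputable def hk (n : ℕ) : 𝓢(Sp d, ℂ) :=
  gS ((1 / ((n : ℝ) + 1) : ℝ) : ℂ) (by rw [ofReal_re]; positivity)

theorem hk_apply (n : ℕ) (x : Sp d) : hk n x = G (((1 / ((n : ℝ) + 1) : ℝ)) : ℂ) x :=
  gS_apply _ _ x

end MP3483
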