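import Pool.Agent.Lib_MP_3483a5_an.Defs

/-!
# MP_3483a5_an: auxiliary definitions and small lemmas (complete, no sorry)
-/

open MeasureTheory Filter Topology Complex SchwartzMap
open scoped FourierTransform LineDeriv Laplacian ENNReal NNReal ComplexConjugate

namespace MP3483
variable {d : ℕ}

/-- the complex heat kernel, `e^{zΔ}δ₀` -/
noncomputable def G (z : ℂ) (x : Sp d) : ℂ :=
  (4 * (Real.pi : ℂ) * z) ^ (-(d : ℂ) / 2) * cexp (-((‖x‖ : ℂ) ^ 2 / (4 * z)))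

/-- convolution with a Schwartz function -/
noncomputable def cv (φ : 𝓢(Sp d, ℂ)) (f : Sp d → ℂ) (x : Sp d) : ℂ := ∫ y, f y * φ (x - y)

/-- the exponent of the singularity -/
noncomputable def kap (d : ℕ) : ℝ := if d = 2 then 0 else (2 * (d : ℝ) - 5) / 8

/-- Lebesgue measure on `[0,T] × ℝ^d` -/
noncomputable def muT (d : ℕ) (T : ℝ) : Measure (ℝ × Sp d) :=
  (volume.restrict (Set.Icc 0 T)).prod volume

/-- the profile `(y/(1+y/K))^{2/d}` of the truncated nonlinearity -/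
noncomputable def mK (d : ℕ) (K : ℝ) (y : ℝ) : ℝ := (y / (1 + y / K)) ^ ((2 : ℝ) / d)

/-- the truncated nonlinearity `m_K(|z|²) z` -/
noncomputable def nlK (d : ℕ) (K : ℝ) (z : ℂ) : ℂ := ((mK d K (‖z‖ ^ 2) : ℝ) : ℂ) * z

/-- the primitive of the truncated nonlinearity -/
noncomputable def GK (d : ℕ) (K : ℝ) (z : ℂ) : ℝ := (1 / 2) * ∫ y in (0 : ℝ)..‖z‖ ^ 2, mK d K y

/-- test functions and times for the uniform boundedness argument -/
def KeyProp (d : ℕ) : Prop := ∀ (τ : ℝ), 0 < τ → ∀ M : ℝ, ∃ z : 𝓢(Sp d, ℂ), (∀ x, ‖z x‖ ≤ 1) ∧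
    ∫ x, ‖z x‖ ^ 2 ≤ 1 ∧ (∀ j, ∫ x, ‖pd j z x‖ ^ 2 ≤ 1) ∧
    ∃ s : ℝ, 0 < s ∧ s ≤ 1 ∧ M ≤ s ^ kap d * ‖∫ x, z x * G ((s : ℂ) - τ * Complex.I) x‖

theorem int_rpow_eq {X : Type*} [MeasurableSpace X] {μ : Measure X} {p : ℝ} (hp : 0 < p)
    {f : X → ℂ} (hf : MemLp f (ENNReal.ofReal p) μ) :
    ∫ x, ‖f x‖ ^ p ∂μ = (eLpNorm f (ENNReal.ofReal p) μ).toReal ^ p := by
  rw [hf.eLpNorm_eq_integral_rpow_norm (by simpa using hp) ENNReal.ofReal_ne_top,
    ENNReal.toReal_ofReal hp.le]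
  have h0 : 0 ≤ ∫ x, ‖f x‖ ^ p ∂μ := integral_nonneg fun x => Real.rpow_nonneg (norm_nonneg _) _
  rw [ENNReal.toReal_ofReal (Real.rpow_nonneg h0 _), ← Real.rpow_mul h0, inv_mul_cancel₀ hp.ne',
    Real.rpow_one]

theorem int_sq_eq {X : Type*} [MeasurableSpace X] {μ : Measure X}
    {f : X → ℂ} (hf : MemLp f 2 μ) :
    ∫ x, ‖f x‖ ^ 2 ∂μ = (eLpNorm f 2 μ).toReal ^ 2 := by
  have h2 : ENNReal.ofReal 2 = 2 := by norm_num
  have h := int_rpow_eq (p := 2) (by norm_num) (μ := μ) (f := f) (by rwa [h2])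
  rw [h2] at h
  simpa using h

theorem rho_pos (d : ℕ) : 0 < rho d := by unfold rho; positivity

theorem rho_ge_two (d : ℕ) : 2 ≤ rho d := by
  unfold rho
  have : (0 : ℝ) ≤ 4 / d := by positivity
  linarith

theorem memLp_rho_of_bdd {X : Type*} [MeasurableSpace X] {μ : Measure X} {f : X → ℂ}
    (hf : MemLp f 2 μ) {B : ℝ} (hB : ∀ᵐ x ∂μ, ‖f x‖ ≤ B) {p : ℝ} (hp : 2 ≤ p) :
    MemLp f (ENNReal.ofReal p) μ := by
  have hp0 : 0 < p := by linarith
  have h1 := (integrable_norm_rpow_iff hf.1 (p := ENNReal.ofReal p) (by simpa using hp0)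
    ENNReal.ofReal_ne_top)
  rw [← h1, ENNReal.toReal_ofReal hp0.le]
  have h2 : Integrable (fun x => ‖f x‖ ^ 2) μ := (memLp_two_iff_integrable_sq_norm hf.1).1 hf
  refine (h2.const_mul (B ^ (p - 2))).mono' ?_ ?_
  · exact (hf.1.norm.aemeasurable.pow_const _).aestronglyMeasurable
  · filter_upwards [hB] with x hx
    rw [Real.norm_of_nonneg (Real.rpow_nonneg (norm_nonneg _) _)]
    rcases eq_or_ne (f x) 0 with h | h
    · rw [h, norm_zero, Real.zero_rpow hp0.ne']; simp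
    · have hpos : 0 < ‖f x‖ := norm_pos_iff.2 h
      have h3 : ‖f x‖ ^ p = ‖f x‖ ^ (p - 2) * ‖f x‖ ^ 2 := by
        rw [← Real.rpow_natCast, ← Real.rpow_add hpos]; norm_num
      rw [h3]
      exact mul_le_mul_of_nonneg_right
        (Real.rpow_le_rpow hpos.le hx (by linarith)) (by positivity)

end MP3483
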