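import Pool.Agent.Lib_MP_3483a5_an.NLD

/-!
# MP_3483a5_an, piece NH

`‖nl f - nl g‖_{ρ'} ≤ (1+4/d) (‖f‖_ρ + ‖g‖_ρ)^{4/d} ‖f - g‖_ρ`, `ρ' = ρ/(ρ-1)` and `ρ - 1 = 1 + 4/d`
(`rhoC d = ofReal (rho d/(1+4/d))`).
Proof.  Mean value inequality on the segment (`Convex.norm_image_sub_le_of_norm_fderiv_le`) and
`nl_fderiv_le`: `|nl a - nl b| ≤ (1+4/d)(|a|+|b|)^{4/d}|a-b|`.  Hölder with `1/ρ' = (4/d)/ρ + 1/ρ`
(`eLpNorm_le_eLpNorm_mul_eLpNorm...` or directly `ENNReal.lintegral_mul_le_Lp_mul_Lq`), and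
`‖(|f|+|g|)^{4/d}‖_{ρ/(4/d)} = ‖|f|+|g|‖_ρ^{4/d} ≤ (‖f‖_ρ+‖g‖_ρ)^{4/d}`.  Membership: `|nl f| = |f|^{1+4/d}`.
-/

open MeasureTheory Filter Topology Complex SchwartzMap
open scoped FourierTransform LineDeriv Laplacian ENNReal NNReal ComplexConjugate

namespace MP3483
variable {d : ℕ}

theorem nh_pointwise (hd : 1 ≤ d) (a b : ℂ) :
    ‖nl d a - nl d b‖ ≤ (1 + 4 / d) * (‖a‖ + ‖b‖) ^ ((4 : ℝ) / d) * ‖a - b‖ := by
  have hd0 : (0 : ℝ) < d := by exact_mod_cast hd
  have hal : (0 : ℝ) < 4 / d := by positivity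
  refine Convex.norm_image_sub_le_of_norm_fderiv_le (𝕜 := ℝ) (f := nl d)
    (s := Metric.closedBall (0 : ℂ) (‖a‖ + ‖b‖)) ?_ ?_ (convex_closedBall _ _) ?_ ?_
  · intro z _
    exact ((nl_contDiff hd).differentiable (by norm_num)) z
  · intro z hz
    rw [mem_closedBall_zero_iff] at hz
    refine (nl_fderiv_le hd z).trans ?_
    gcongr
  · rw [mem_closedBall_zero_iff]
    linarith [norm_nonneg a]
  · rw [mem_closedBall_zero_iff]
    linarith [norm_nonneg b]

theorem nh_norm_nl (hd : 1 ≤ d) (z : ℂ) : ‖nl d z‖ = ‖z‖ ^ (1 + (4 : ℝ) / d) := by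
  have hd0 : (0 : ℝ) < d := by exact_mod_cast hd
  have hal : (0 : ℝ) < 4 / d := by positivity
  rw [nl, norm_mul, Complex.norm_real, Real.norm_of_nonneg (by positivity)]
  rcases eq_or_ne ‖z‖ 0 with h | h
  · rw [h, Real.zero_rpow (by positivity), Real.zero_rpow (by positivity)]
    simp
  · rw [Real.rpow_add (lt_of_le_of_ne (norm_nonneg z) (Ne.symm h)), Real.rpow_one]
    ring

theorem nh_rhoC (hd : 1 ≤ d) : rhoC d = rhoE d / ENNReal.ofReal (1 + 4 / d) := by
  have hd0 : (0 : ℝ) < d := by exact_mod_cast hd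
  have hal : (0 : ℝ) < 4 / d := by positivity
  rw [rhoC, rhoE, ENNReal.ofReal_div_of_pos (by positivity)]

theorem nh_holder (hd : 1 ≤ d) :
    ENNReal.HolderTriple (ENNReal.ofReal (rho d / (4 / d))) (rhoE d) (rhoC d) := by
  have hd0 : (0 : ℝ) < d := by exact_mod_cast hd
  have hal : (0 : ℝ) < 4 / d := by positivity
  have hr := rho_pos d
  constructor
  rw [rhoE, rhoC, ← ENNReal.ofReal_inv_of_pos (by positivity), ← ENNReal.ofReal_inv_of_pos hr,
    ← ENNReal.ofReal_inv_of_pos (by positivity), ← ENNReal.ofReal_add (by positivity) (by positivity)]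
  congr 1
  field_simp
  ring

theorem nl_holder (hd : 1 ≤ d) {X : Type*} [MeasurableSpace X] {μ : Measure X} {f g : X → ℂ}
    (hf : MemLp f (rhoE d) μ) (hg : MemLp g (rhoE d) μ) :
    MemLp (fun x => nl d (f x)) (rhoC d) μ ∧
    eLpNorm (fun x => nl d (f x) - nl d (g x)) (rhoC d) μ ≤
      ENNReal.ofReal (1 + 4 / d) * (eLpNorm f (rhoE d) μ + eLpNorm g (rhoE d) μ) ^ ((4 : ℝ) / d) *
        eLpNorm (fun x => f x - g x) (rhoE d) μ := by
  have hd0 : (0 : ℝ) < d := by exact_mod_cast hd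
  have hal : (0 : ℝ) < 4 / d := by positivity
  have hcont : Continuous (nl d) := (nl_contDiff hd).continuous
  constructor
  · have h1 := hf.norm_rpow_div (ENNReal.ofReal (1 + 4 / d))
    rw [← nh_rhoC hd, ENNReal.toReal_ofReal (by positivity)] at h1
    refine (memLp_norm_iff (hcont.comp_aestronglyMeasurable hf.1)).1 ?_
    refine h1.congr_norm ?_ ?_
    · exact (hcont.comp_aestronglyMeasurable hf.1).norm
    · refine Filter.Eventually.of_forall fun x => ?_
      simp [nh_norm_nl hd]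
  · have hφm : AEStronglyMeasurable (fun x => (‖f x‖ + ‖g x‖) ^ ((4 : ℝ) / d)) μ :=
      ((hf.1.norm.add hg.1.norm).aemeasurable.pow_const _).aestronglyMeasurable
    have hψm : AEStronglyMeasurable (fun x => ‖f x - g x‖) μ := (hf.1.sub hg.1).norm
    have := nh_holder hd
    have h1 : eLpNorm (fun x => nl d (f x) - nl d (g x)) (rhoC d) μ ≤
        eLpNorm ((1 + (4 : ℝ) / d) • ((fun x => (‖f x‖ + ‖g x‖) ^ ((4 : ℝ) / d)) •
          (fun x => ‖f x - g x‖))) (rhoC d) μ := by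
      refine eLpNorm_mono fun x => ?_
      refine (nh_pointwise hd (f x) (g x)).trans (le_trans (le_of_eq ?_) (le_abs_self _))
      simp only [Pi.smul_apply, Pi.mul_apply, smul_eq_mul]
      ring
    refine h1.trans ?_
    rw [eLpNorm_const_smul]
    have h2 := eLpNorm_smul_le_mul_eLpNorm (p := ENNReal.ofReal (rho d / (4 / d)))
      (q := rhoE d) (r := rhoC d) hψm hφm
    have h3 : eLpNorm (fun x => (‖f x‖ + ‖g x‖) ^ ((4 : ℝ) / d))
        (ENNReal.ofReal (rho d / (4 / d))) μ ≤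
        (eLpNorm f (rhoE d) μ + eLpNorm g (rhoE d) μ) ^ ((4 : ℝ) / d) := by
      have h4 : (fun x => (‖f x‖ + ‖g x‖) ^ ((4 : ℝ) / d)) =
          fun x => ‖(fun x => ‖f x‖ + ‖g x‖) x‖ ^ ((4 : ℝ) / d) := by
        funext x
        simp only
        rw [Real.norm_of_nonneg (by positivity)]
      rw [h4, eLpNorm_norm_rpow _ hal, ← ENNReal.ofReal_mul (by have := rho_pos d; positivity),
        div_mul_cancel₀ _ hal.ne']
      refine ENNReal.rpow_le_rpow ?_ hal.le
      have h5 := eLpNorm_add_le (p := rhoE d) hf.1.norm hg.1.norm (by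
        rw [rhoE]
        rw [ENNReal.one_le_ofReal]
        linarith [rho_ge_two d])
      have e1 : eLpNorm (fun x => ‖f x‖) (rhoE d) μ = eLpNorm f (rhoE d) μ := eLpNorm_norm f
      have e2 : eLpNorm (fun x => ‖g x‖) (rhoE d) μ = eLpNorm g (rhoE d) μ := eLpNorm_norm g
      rw [e1, e2] at h5
      exact h5
    have h6 : eLpNorm (fun x => ‖f x - g x‖) (rhoE d) μ =
        eLpNorm (fun x => f x - g x) (rhoE d) μ := eLpNorm_norm (fun x => f x - g x)
    rw [h6] at h2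
    have h7 : ‖(1 + (4 : ℝ) / d)‖ₑ = ENNReal.ofReal (1 + 4 / d) := by
      rw [Real.enorm_eq_ofReal (by positivity)]
    rw [h7, mul_assoc]
    gcongr
    exact h2.trans (by gcongr)

end MP3483
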