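import Pool.Agent.Lib_MP_3483a5_an.SO
import Pool.Agent.Lib_MP_3483a5_an.NH

/-!
# MP_3483a5_an, piece CR

Continuity of `t ↦ ∫ u(t)φ` and `t ↦ ∫ nl(u(t))φ` for `u ∈ C([0,∞);H¹)`.
Proof.  `sobolev` (for `u s - u t`, which is in `H¹` with gradient `Du s - Du t`) gives
`‖u s - u t‖_ρ → 0` as `s → t` in `[0,∞)`; then `nl_holder` gives `‖nl(u s) - nl(u t)‖_{ρ'} → 0`; Hölder against
`φ ∈ L^ρ`.  (The first one directly from the `L²` continuity.)
-/

open MeasureTheory Filter Topology Complex SchwartzMap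
open scoped FourierTransform LineDeriv Laplacian ENNReal NNReal ComplexConjugate

namespace MP3483
variable {d : ℕ}

theorem cr_tendsto {p q : ℝ≥0∞} (hpq : ENNReal.HolderTriple p q 1) {F : ℝ → Sp d → ℂ}
    (hF : ∀ s, 0 ≤ s → MemLp (F s) p volume) {φ : Sp d → ℂ} (hφ : MemLp φ q volume) {t : ℝ}
    (ht : 0 ≤ t)
    (hlim : Tendsto (fun s => eLpNorm (fun x => F s x - F t x) p volume) (𝓝[Set.Ici 0] t) (𝓝 0)) :
    Tendsto (fun s => ∫ x, F s x * φ x) (𝓝[Set.Ici 0] t) (𝓝 (∫ x, F t x * φ x)) := by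
  rw [tendsto_iff_edist_tendsto_0]
  have h1 := ENNReal.Tendsto.mul_const (b := eLpNorm φ q volume) hlim
    (Or.inr hφ.eLpNorm_ne_top)
  rw [zero_mul] at h1
  refine tendsto_of_tendsto_of_tendsto_of_le_of_le' tendsto_const_nhds h1
    (Eventually.of_forall fun _ => zero_le) ?_
  filter_upwards [self_mem_nhdsWithin] with s hs
  have hint : ∀ r, 0 ≤ r → Integrable (fun x => F r x * φ x) volume := by
    intro r hr
    rw [← memLp_one_iff_integrable]
    exact hφ.smul (hF r hr)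
  rw [edist_eq_enorm_sub, ← integral_sub (hint s hs) (hint t ht)]
  refine (enorm_integral_le_lintegral_enorm _).trans ?_
  rw [← eLpNorm_one_eq_lintegral_enorm]
  have h2 : (fun x => F s x * φ x - F t x * φ x) = (fun x => F s x - F t x) • φ := by
    funext x
    simp [sub_mul]
  rw [h2]
  exact eLpNorm_smul_le_mul_eLpNorm hφ.1 ((hF s hs).sub (hF t ht)).1

theorem cr_holder (hd : 1 ≤ d) : ENNReal.HolderTriple (rhoC d) (rhoE d) 1 := by
  have hd0 : (0 : ℝ) < d := by exact_mod_cast hd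
  have h4 : (0 : ℝ) < 4 / d := by positivity
  have h : (rho d / (1 + 4 / d)).HolderConjugate (rho d) := by
    rw [Real.holderConjugate_iff]
    unfold rho
    refine ⟨?_, ?_⟩
    · rw [lt_div_iff₀ (by linarith)]
      linarith
    · field_simp
      ring
  exact h.ennrealOfReal

theorem cr_weak_sub {j : Fin d} {f g f' g' : Sp d → ℂ} (hf : MemLp f 2 volume)
    (hg : MemLp g 2 volume) (hf' : MemLp f' 2 volume) (hg' : MemLp g' 2 volume)
    (h : WeakPartial j f g) (h' : WeakPartial j f' g') :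
    WeakPartial j (fun x => f x - f' x) (fun x => g x - g' x) := by
  intro ψ
  have hint : ∀ {a : Sp d → ℂ} (_ : MemLp a 2 volume) (χ : 𝓢(Sp d, ℂ)),
      Integrable (fun x => a x * χ x) volume := fun ha χ =>
    ha.integrable_mul (SchwartzMap.memLp χ 2 volume)
  have e1 : ∫ x, (g x - g' x) * ψ x = (∫ x, g x * ψ x) - ∫ x, g' x * ψ x := by
    rw [← integral_sub (hint hg ψ) (hint hg' ψ)]
    congr 1
    funext x
    ring
  have e2 : ∫ x, (f x - f' x) * pd j ψ x = (∫ x, f x * pd j ψ x) - ∫ x, f' x * pd j ψ x := by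
    rw [← integral_sub (hint hf (pd j ψ)) (hint hf' (pd j ψ))]
    congr 1
    funext x
    ring
  rw [e1, e2, h ψ, h' ψ]
  ring

theorem cr_rho_tendsto (hd : 1 ≤ d) {u : ℝ → Sp d → ℂ} {Du : ℝ → Fin d → Sp d → ℂ}
    (hu : H1Path (Set.Ici 0) u Du) {t : ℝ} (ht : 0 ≤ t) :
    Tendsto (fun s => eLpNorm (fun x => u s x - u t x) (rhoE d) volume) (𝓝[Set.Ici 0] t)
      (𝓝 0) := by
  obtain ⟨C, hC⟩ := sobolev (d := d) hd
  have h1 : Tendsto (fun s => (C : ℝ≥0∞) * (eLpNorm (u s - u t) 2 volume +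
      ∑ j, eLpNorm (Du s j - Du t j) 2 volume)) (𝓝[Set.Ici 0] t) (𝓝 0) := by
    have h2 : Tendsto (fun s => eLpNorm (u s - u t) 2 volume +
        ∑ j, eLpNorm (Du s j - Du t j) 2 volume) (𝓝[Set.Ici 0] t) (𝓝 (0 + ∑ _j : Fin d, 0)) :=
      (hu.cont t ht).add (tendsto_finsetSum _ fun j _ => hu.contD t ht j)
    have h3 := ENNReal.Tendsto.const_mul (a := (C : ℝ≥0∞)) h2 (Or.inr ENNReal.coe_ne_top)
    simpa using h3
  refine tendsto_of_tendsto_of_tendsto_of_le_of_le' tendsto_const_nhds h1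
    (Eventually.of_forall fun _ => zero_le) ?_
  filter_upwards [self_mem_nhdsWithin] with s hs
  have hs1 := hu.isH1 s hs
  have ht1 := hu.isH1 t ht
  exact (hC _ _ ⟨hs1.memLp.sub ht1.memLp, fun j => (hs1.memLpD j).sub (ht1.memLpD j),
    fun j => cr_weak_sub hs1.memLp (hs1.memLpD j) ht1.memLp (ht1.memLpD j) (hs1.weak j)
      (ht1.weak j)⟩).2

theorem cont_rho (hd : 1 ≤ d) {u : ℝ → Sp d → ℂ} {Du : ℝ → Fin d → Sp d → ℂ}
    (hu : H1Path (Set.Ici 0) u Du) :
    (∀ t, 0 ≤ t → MemLp (u t) (rhoE d) volume) ∧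
    (∀ φ : 𝓢(Sp d, ℂ), ContinuousOn (fun s => ∫ x, u s x * φ x) (Set.Ici 0)) ∧
    ∀ φ : 𝓢(Sp d, ℂ), ContinuousOn (fun s => ∫ x, nl d (u s x) * φ x) (Set.Ici 0) := by
  obtain ⟨C, hC⟩ := sobolev (d := d) hd
  have hd0 : (0 : ℝ) < d := by exact_mod_cast hd
  have hmem : ∀ t, 0 ≤ t → MemLp (u t) (rhoE d) volume := fun t ht =>
    (hC _ _ (hu.isH1 t ht)).1
  refine ⟨hmem, fun φ t ht => ?_, fun φ t ht => ?_⟩
  · exact cr_tendsto (p := 2) (q := 2) inferInstance (fun s hs => (hu.isH1 s hs).memLp)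
      (SchwartzMap.memLp φ 2 volume) ht (hu.cont t ht)
  · have h1ρ : 1 ≤ rhoE d := by
      unfold rhoE
      rw [ENNReal.one_le_ofReal]
      linarith [rho_ge_two d]
    have ht' : (0 : ℝ) ≤ t := ht
    refine cr_tendsto (cr_holder hd) (F := fun s x => nl d (u s x))
      (fun s hs => (nl_holder hd (hmem s hs) (hmem s hs)).1)
      (SchwartzMap.memLp φ (rhoE d) volume) ht' ?_
    have hlim := cr_rho_tendsto hd hu ht'
    set K : ℝ≥0∞ := ENNReal.ofReal (1 + 4 / d) *
      (1 + 2 * eLpNorm (u t) (rhoE d) volume) ^ ((4 : ℝ) / d) with hK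
    have hKt : K ≠ ∞ := by
      refine ENNReal.mul_ne_top ENNReal.ofReal_ne_top
        (ENNReal.rpow_ne_top_of_nonneg (by positivity) ?_)
      exact ENNReal.add_ne_top.2 ⟨ENNReal.one_ne_top,
        ENNReal.mul_ne_top ENNReal.ofNat_ne_top (hmem t ht').eLpNorm_ne_top⟩
    have h1 := ENNReal.Tendsto.const_mul (a := K) hlim (Or.inr hKt)
    rw [mul_zero] at h1
    refine tendsto_of_tendsto_of_tendsto_of_le_of_le' tendsto_const_nhds h1
      (Eventually.of_forall fun _ => zero_le) ?_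
    filter_upwards [self_mem_nhdsWithin,
      ENNReal.tendsto_nhds_zero.1 hlim 1 one_pos] with s hs hs1
    refine (nl_holder hd (hmem s hs) (hmem t ht')).2.trans ?_
    rw [hK]
    have h2 : eLpNorm (u s) (rhoE d) volume ≤ 1 + eLpNorm (u t) (rhoE d) volume := by
      calc eLpNorm (u s) (rhoE d) volume
          = eLpNorm ((fun x => u s x - u t x) + u t) (rhoE d) volume := by
            congr 1
            funext x
            simp
        _ ≤ eLpNorm (fun x => u s x - u t x) (rhoE d) volume +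
            eLpNorm (u t) (rhoE d) volume :=
            eLpNorm_add_le ((hmem s hs).sub (hmem t ht')).1 (hmem t ht').1 h1ρ
        _ ≤ _ := by gcongr
    have h3 : eLpNorm (u s) (rhoE d) volume + eLpNorm (u t) (rhoE d) volume ≤
        1 + 2 * eLpNorm (u t) (rhoE d) volume := by
      calc eLpNorm (u s) (rhoE d) volume + eLpNorm (u t) (rhoE d) volume
          ≤ (1 + eLpNorm (u t) (rhoE d) volume) + eLpNorm (u t) (rhoE d) volume := by gcongr
        _ = 1 + 2 * eLpNorm (u t) (rhoE d) volume := by ring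
    exact mul_le_mul' (mul_le_mul' le_rfl (ENNReal.rpow_le_rpow h3 (by positivity))) le_rfl

end MP3483
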