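import Pool.Agent.Lib_MP_3483a5_an.Base

/-!
# MP_3483a5_an, piece CVA

Convolution with a Schwartz function.
(1) derivative under the integral sign (`hasDerivAt_integral_of_dominated_loc_of_deriv_le` applied to
`t ↦ ∫ f y * φ(x + t e_j - y)`, domination: for `|t| ≤ 1`,
`|∂_jφ(x + t e_j - y)| ≤ C (1+‖x-y‖)^{-(d+1)}`-type bound times `|f y|`, integrable because `f ∈ L^p` and the
bound is in `L^{p'}` for every `p'`).  (2) continuity by dominated convergence in the same way,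
boundedness by Hölder: `|cv φ f x| ≤ ‖f‖_p ‖φ‖_{p'}` (translation invariance).
(3) apply `WeakPartial` to `ψ y = φ(x - y)` (a Schwartz function, e.g. `shiftS` in
`Pool.Agent.Lib_MP_6db0a9_an.Defs`, or `compSubConstCLM` with a reflection), `pd j ψ y = -(pd j φ)(x-y)`.
-/

open MeasureTheory Filter Topology Complex SchwartzMap
open scoped FourierTransform LineDeriv Laplacian ENNReal NNReal ComplexConjugate

namespace MP3483
variable {d : ℕ}

/-- the weight `(1 + ‖x‖) ^ (-k)` -/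
noncomputable def cvaW (k : ℕ) (x : Sp d) : ℝ := (1 + ‖x‖) ^ (-(k : ℝ))

theorem cvaW_eq (k : ℕ) (x : Sp d) : cvaW k x = ((1 + ‖x‖) ^ k)⁻¹ := by
  unfold cvaW
  rw [Real.rpow_neg (by positivity), Real.rpow_natCast]

theorem cvaW_nonneg (k : ℕ) (x : Sp d) : 0 ≤ cvaW k x := by
  rw [cvaW_eq]; positivity

theorem cva_dom (k : ℕ) (φ : 𝓢(Sp d, ℂ)) : ∃ C : ℝ, 0 ≤ C ∧ ∀ x, ‖φ x‖ ≤ C * cvaW k x := by
  refine ⟨2 ^ k * ((Finset.Iic (k, 0)).sup (schwartzSeminormFamily ℝ (Sp d) ℂ)) φ,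
    by positivity, fun x => ?_⟩
  have h := one_add_le_sup_seminorm_apply (𝕜 := ℝ) (m := (k, 0)) (le_refl k) (le_refl 0) φ x
  rw [norm_iteratedFDeriv_zero] at h
  rw [cvaW_eq, ← div_eq_mul_inv, le_div_iff₀ (by positivity), mul_comm]
  exact h

theorem cva_shift (k : ℕ) (x h : Sp d) (hh : ‖h‖ ≤ 1) : cvaW k (x + h) ≤ 2 ^ k * cvaW k x := by
  have h1 : 1 + ‖x‖ ≤ 2 * (1 + ‖x + h‖) := by
    have h2 : ‖x‖ ≤ ‖x + h‖ + ‖h‖ := by
      have := norm_sub_le (x + h) h
      rwa [add_sub_cancel_right] at this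
    have h3 : 0 ≤ ‖x + h‖ := norm_nonneg _
    linarith
  rw [cvaW_eq, cvaW_eq, ← div_eq_mul_inv, le_div_iff₀ (by positivity), inv_mul_le_iff₀ (by positivity),
    ← mul_pow, mul_comm (1 + ‖x + h‖) 2]
  exact pow_le_pow_left₀ (by positivity) h1 k

theorem cva_hol {p : ℝ≥0∞} (hp : 1 ≤ p) {f : Sp d → ℂ} (hf : MemLp f p volume) :
    ∃ k : ℕ, (∀ x, Integrable (fun y => ‖f y‖ * cvaW k (x - y)) volume) ∧
      ∃ C : ℝ, ∀ x, ∫ y, ‖f y‖ * cvaW k (x - y) ≤ C := by
  have hpq : p.HolderConjugate (ENNReal.conjExponent p) := .conjExponent hp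
  set q := ENNReal.conjExponent p
  have hqp : q.HolderConjugate p := hpq.symm
  have hT : (volume : Measure (Sp d)).HasTemperateGrowth := inferInstance
  obtain ⟨k, hk⟩ := hT.exists_eLpNorm_lt_top q
  have hcont : Continuous (cvaW k : Sp d → ℝ) := by
    have : (cvaW k : Sp d → ℝ) = fun x => ((1 + ‖x‖) ^ k)⁻¹ := funext fun x => cvaW_eq k x
    rw [this]
    refine Continuous.inv₀ ((continuous_const.add continuous_norm).pow k) fun x => ?_
    have : 0 < 1 + ‖x‖ := by positivity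
    exact pow_ne_zero _ this.ne'
  have hW : MemLp (cvaW k : Sp d → ℝ) q volume := ⟨hcont.aestronglyMeasurable, hk⟩
  have hmp : ∀ x : Sp d, MeasurePreserving (fun y => x - y) (volume : Measure (Sp d)) volume :=
    fun x => volume.measurePreserving_sub_left x
  have hWx : ∀ x : Sp d, MemLp (fun y => cvaW k (x - y)) q volume := fun x =>
    hW.comp_measurePreserving (hmp x)
  have hfn : MemLp (fun y => ‖f y‖) p volume := hf.norm
  have hint : ∀ x, Integrable (fun y => ‖f y‖ * cvaW k (x - y)) volume := fun x =>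
    MemLp.integrable_mul hfn (hWx x)
  refine ⟨k, hint, (eLpNorm (fun y => ‖f y‖) p volume *
    eLpNorm (cvaW k : Sp d → ℝ) q volume).toReal, fun x => ?_⟩
  have h1 : eLpNorm (fun y => ‖f y‖ * cvaW k (x - y)) 1 volume ≤
      eLpNorm (fun y => ‖f y‖) p volume * eLpNorm (cvaW k : Sp d → ℝ) q volume := by
    have h2 := eLpNorm_smul_le_mul_eLpNorm (p := p) (q := q) (r := 1) (hWx x).1 hfn.1
    have h3 := eLpNorm_comp_measurePreserving (p := q) hW.1 (hmp x)
    have h5 : (fun y => cvaW k (x - y)) = (cvaW k : Sp d → ℝ) ∘ (fun y => x - y) := rfl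
    rw [h5, h3] at h2
    exact h2
  have h4 : ∫ y, ‖f y‖ * cvaW k (x - y) =
      (eLpNorm (fun y => ‖f y‖ * cvaW k (x - y)) 1 volume).toReal := by
    rw [integral_eq_lintegral_of_nonneg_ae
      (Eventually.of_forall fun y => mul_nonneg (norm_nonneg _) (cvaW_nonneg k _))
      (hint x).aestronglyMeasurable, eLpNorm_one_eq_lintegral_enorm]
    congr 1
    refine lintegral_congr fun y => ?_
    rw [Real.enorm_of_nonneg (mul_nonneg (norm_nonneg _) (cvaW_nonneg k _))]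
  rw [h4]
  refine ENNReal.toReal_mono ?_ h1
  exact ENNReal.mul_ne_top hfn.2.ne hW.2.ne

theorem cva_bound {p : ℝ≥0∞} (hp : 1 ≤ p) {f : Sp d → ℂ} (hf : MemLp f p volume)
    (φ : 𝓢(Sp d, ℂ)) : ∃ (k : ℕ) (C : ℝ), 0 ≤ C ∧
      (∀ x, Integrable (fun y => ‖f y‖ * cvaW k (x - y)) volume) ∧
      (∃ C' : ℝ, ∀ x, ∫ y, ‖f y‖ * cvaW k (x - y) ≤ C') ∧
      (∀ x y, ‖f y * φ (x - y)‖ ≤ C * (‖f y‖ * cvaW k (x - y))) ∧
      (∀ x h y, ‖h‖ ≤ 1 → ‖f y * φ (x + h - y)‖ ≤ C * 2 ^ k * (‖f y‖ * cvaW k (x - y))) := by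
  obtain ⟨k, h1, h2⟩ := cva_hol hp hf
  obtain ⟨C, hC, hφ⟩ := cva_dom k φ
  refine ⟨k, C, hC, h1, h2, fun x y => ?_, fun x h y hh => ?_⟩
  · rw [norm_mul]
    calc ‖f y‖ * ‖φ (x - y)‖ ≤ ‖f y‖ * (C * cvaW k (x - y)) :=
          mul_le_mul_of_nonneg_left (hφ _) (norm_nonneg _)
      _ = _ := by ring
  · rw [norm_mul]
    have e : x + h - y = (x - y) + h := by abel
    calc ‖f y‖ * ‖φ (x + h - y)‖ ≤ ‖f y‖ * (C * cvaW k ((x - y) + h)) := by
          rw [e]
          exact mul_le_mul_of_nonneg_left (hφ _) (norm_nonneg _)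
      _ ≤ ‖f y‖ * (C * (2 ^ k * cvaW k (x - y))) := by
          refine mul_le_mul_of_nonneg_left ?_ (norm_nonneg _)
          exact mul_le_mul_of_nonneg_left (cva_shift k (x - y) h hh) hC
      _ = _ := by ring

theorem cva_meas {p : ℝ≥0∞} {f : Sp d → ℂ} (hf : MemLp f p volume)
    (φ : 𝓢(Sp d, ℂ)) (x : Sp d) : AEStronglyMeasurable (fun y => f y * φ (x - y)) volume :=
  hf.1.mul (φ.continuous.comp (continuous_const.sub continuous_id)).aestronglyMeasurable

theorem cva_int {p : ℝ≥0∞} (hp : 1 ≤ p) {f : Sp d → ℂ} (hf : MemLp f p volume)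
    (φ : 𝓢(Sp d, ℂ)) (x : Sp d) : Integrable (fun y => f y * φ (x - y)) volume := by
  obtain ⟨k, C, -, h1, -, h3, -⟩ := cva_bound hp hf φ
  exact ((h1 x).const_mul C).mono' (cva_meas hf φ x) (Eventually.of_forall fun y => h3 x y)

theorem cva_ev_norm (j : Fin d) : ‖(ev j : Sp d)‖ = 1 := by
  unfold ev
  simp

theorem cv_hasLineDerivAt {p : ℝ≥0∞} (hp : 1 ≤ p) {f : Sp d → ℂ} (hf : MemLp f p volume)
    (φ : 𝓢(Sp d, ℂ)) (j : Fin d) (x : Sp d) :
    HasLineDerivAt ℝ (cv φ f) (cv (pd j φ) f x) x (ev j) := by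
  obtain ⟨k, C, hC, h1, -, -, h4⟩ := cva_bound hp hf (pd j φ)
  unfold HasLineDerivAt
  have key := hasDerivAt_integral_of_dominated_loc_of_deriv_le (μ := (volume : Measure (Sp d)))
    (F := fun (t : ℝ) y => f y * φ (x + t • ev j - y))
    (F' := fun (t : ℝ) y => f y * pd j φ (x + t • ev j - y)) (x₀ := (0 : ℝ))
    (bound := fun y => C * 2 ^ k * (‖f y‖ * cvaW k (x - y))) (s := Metric.ball 0 1)
    (Metric.ball_mem_nhds 0 one_pos)
    (Eventually.of_forall fun t => cva_meas hf φ (x + t • ev j))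
    (cva_int hp hf φ _) (cva_meas hf (pd j φ) _)
    (Eventually.of_forall fun y t ht => ?_) ((h1 x).const_mul _)
    (Eventually.of_forall fun y t _ => ?_)
  · have h5 := key.2
    simp only [zero_smul, add_zero] at h5
    exact h5
  · refine h4 x (t • ev j) y ?_
    rw [norm_smul, cva_ev_norm, mul_one]
    rw [mem_ball_zero_iff] at ht
    exact ht.le
  · have h6 : HasDerivAt (fun t : ℝ => x + t • ev j - y) (ev j) t := by
      have := ((hasDerivAt_id t).smul_const (ev j : Sp d)).const_add x |>.sub_const y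
      simpa using this
    have h7 : HasFDerivAt φ (fderiv ℝ φ (x + t • ev j - y)) (x + t • ev j - y) :=
      φ.differentiableAt.hasFDerivAt
    have h8 := h7.comp_hasDerivAt t h6
    exact h8.const_mul (f y)

theorem cv_bdd {p : ℝ≥0∞} (hp : 1 ≤ p) {f : Sp d → ℂ} (hf : MemLp f p volume)
    (φ : 𝓢(Sp d, ℂ)) : Continuous (cv φ f) ∧ ∃ C : ℝ, ∀ x, ‖cv φ f x‖ ≤ C := by
  obtain ⟨k, C, hC, h1, ⟨C', h2⟩, h3, h4⟩ := cva_bound hp hf φ
  constructor
  · rw [continuous_iff_continuousAt]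
    intro x₀
    refine continuousAt_of_dominated (bound := fun y => C * 2 ^ k * (‖f y‖ * cvaW k (x₀ - y)))
      (Eventually.of_forall fun x => cva_meas hf φ x) ?_ ((h1 x₀).const_mul _)
      (Eventually.of_forall fun y => ?_)
    · filter_upwards [Metric.ball_mem_nhds x₀ one_pos] with x hx
      refine Eventually.of_forall fun y => ?_
      have hx' : ‖x - x₀‖ ≤ 1 := by
        rw [← dist_eq_norm]
        exact (Metric.mem_ball.1 hx).le
      have := h4 x₀ (x - x₀) y hx'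
      rwa [add_sub_cancel] at this
    · exact (continuous_const.mul (φ.continuous.comp
        (continuous_id.sub continuous_const))).continuousAt
  · refine ⟨C * C', fun x => ?_⟩
    calc ‖cv φ f x‖ ≤ ∫ y, C * (‖f y‖ * cvaW k (x - y)) := by
          unfold cv
          exact norm_integral_le_of_norm_le ((h1 x).const_mul C)
            (Eventually.of_forall fun y => h3 x y)
      _ = C * ∫ y, ‖f y‖ * cvaW k (x - y) := integral_const_mul _ _
      _ ≤ C * C' := mul_le_mul_of_nonneg_left (h2 x) hC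

theorem cv_partial_eq {p q : ℝ≥0∞} (hp : 1 ≤ p) (hq : 1 ≤ q) {f g : Sp d → ℂ}
    (hf : MemLp f p volume) (hg : MemLp g q volume) {j : Fin d} (h : WeakPartial j f g)
    (φ : 𝓢(Sp d, ℂ)) (x : Sp d) : cv (pd j φ) f x = cv φ g x := by
  set ψ : 𝓢(Sp d, ℂ) := (compSubConstCLM ℂ x).comp
    (compCLMOfContinuousLinearEquiv ℂ (ContinuousLinearEquiv.neg ℝ (M := Sp d))) φ with hψ
  have hψa : ∀ y, ψ y = φ (x - y) := fun y => by
    change φ (-(y - x)) = φ (x - y)
    rw [neg_sub]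
  have hψd : ∀ y, pd j ψ y = -(pd j φ (x - y)) := by
    intro y
    have e1 : (ψ : Sp d → ℂ) = fun y => φ (x - y) := funext hψa
    change fderiv ℝ ψ y (ev j) = -(fderiv ℝ φ (x - y) (ev j))
    rw [e1]
    have h7 : HasFDerivAt φ (fderiv ℝ φ (x - y)) (x - y) := φ.differentiableAt.hasFDerivAt
    have h8 : HasFDerivAt (fun y : Sp d => x - y) (-(ContinuousLinearMap.id ℝ (Sp d))) y :=
      (hasFDerivAt_id y).const_sub x
    have h9 := h7.comp y h8
    have h10 : fderiv ℝ (fun y => φ (x - y)) y =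
        (fderiv ℝ φ (x - y)).comp (-(ContinuousLinearMap.id ℝ (Sp d))) := h9.fderiv
    rw [h10]
    simp
  have h1 := h ψ
  unfold cv
  simp only [hψa, hψd] at h1
  rw [h1, ← integral_neg]
  refine integral_congr_ae (Eventually.of_forall fun y => ?_)
  change f y * pd j φ (x - y) = -(f y * -(pd j φ (x - y)))
  ring

end MP3483
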