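import Pool.Agent.Lib_MP_3483a5_an.Base
import Pool.Agent.Lib_MP_3483a5_an.GF
import Pool.Agent.Lib_MP_3483a5_an.GL

/-!
# MP_3483a5_an, piece DI

Dispersive estimate for Schwartz functions; `v = e^{-itΔ}φ`.
Proof.  `v := 𝓕⁻¹(m · 𝓕φ)`, `m ξ = exp(4π²it‖ξ‖²)` (a function of temperate growth, use
`SchwartzMap.smulLeftCLM` / `SchwartzMap.fourierMultiplierCLM`, `Function.HasTemperateGrowth`).
For `x` fixed, `v x = ∫ e^{2πi⟨x,ξ⟩} m(ξ) 𝓕φ(ξ) dξ = lim_{s→0+} ∫ e^{2πi⟨x,ξ⟩} e^{-4π²(s-it)‖ξ‖²} 𝓕φ(ξ) dξ`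
(dominated convergence) and for `z = s - it`, `s > 0`,
`∫ e^{2πi⟨x,ξ⟩} 𝓕(G_z)(ξ) 𝓕φ(ξ) dξ = ∫ G_z(x-y) φ(y) dy` (`SchwartzMap.integral_fourier_mul_eq` and `fourier_gS`,
or the convolution theorem), bounded by `(4π|z|)^{-d/2} ∫|φ| ≤ (4πt)^{-d/2}∫|φ|` (`G_sup` in `GL`).
-/

open MeasureTheory Filter Topology Complex SchwartzMap
open scoped FourierTransform LineDeriv Laplacian ENNReal NNReal ComplexConjugate

namespace MP3483
variable {d : ℕ}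

private theorem di_iter (a : ℂ) (n : ℕ) :
    iteratedDeriv n (fun s : ℝ => cexp (a * s)) = fun s : ℝ => a ^ n * cexp (a * s) := by
  induction n with
  | zero =>
    funext s
    simp
  | succ n ih =>
    rw [iteratedDeriv_succ, ih]
    funext s
    have h1 : HasDerivAt (fun s : ℝ => a * (s : ℂ)) (a * 1) s :=
      (Complex.ofRealCLM.hasDerivAt (x := s)).const_mul a
    have h2 : HasDerivAt (fun s : ℝ => a ^ n * cexp (a * s)) (a ^ n * (cexp (a * s) * (a * 1))) s :=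
      (h1.cexp).const_mul (a ^ n)
    rw [h2.deriv]
    ring

private theorem di_growth (c : ℝ) :
    Function.HasTemperateGrowth (fun s : ℝ => cexp ((c : ℂ) * Complex.I * s)) := by
  refine ⟨?_, fun n => ⟨0, |c| ^ n, fun s => ?_⟩⟩
  · exact Complex.contDiff_exp.comp (contDiff_const.mul Complex.ofRealCLM.contDiff)
  · rw [norm_iteratedFDeriv_eq_norm_iteratedDeriv, di_iter, norm_mul, norm_pow, norm_mul,
      Complex.norm_I, Complex.norm_real, mul_one, pow_zero, mul_one, Real.norm_eq_abs]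
    have h1 : (c : ℂ) * Complex.I * (s : ℂ) = ((c * s : ℝ) : ℂ) * Complex.I := by
      push_cast
      ring
    rw [h1, Complex.norm_exp_ofReal_mul_I, mul_one]

private theorem di_mult (t : ℝ) :
    Function.HasTemperateGrowth
      (fun ξ : Sp d => cexp (4 * (Real.pi : ℂ) ^ 2 * t * (‖ξ‖ : ℂ) ^ 2 * Complex.I)) := by
  have h1 := (di_growth (4 * Real.pi ^ 2 * t)).comp (Function.hasTemperateGrowth_norm_sq (Sp d))
  have h2 : (fun ξ : Sp d => cexp (4 * (Real.pi : ℂ) ^ 2 * t * (‖ξ‖ : ℂ) ^ 2 * Complex.I)) =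
      (fun s : ℝ => cexp (((4 * Real.pi ^ 2 * t : ℝ) : ℂ) * Complex.I * s)) ∘
        (fun x : Sp d => ‖x‖ ^ 2) := by
    funext ξ
    simp only [Function.comp]
    congr 1
    push_cast
    ring
  rw [h2]
  exact h1

theorem dispersive (φ : 𝓢(Sp d, ℂ)) {t : ℝ} (ht : 0 < t) : ∃ v : 𝓢(Sp d, ℂ),
    (∀ ξ, (𝓕 v : 𝓢(Sp d, ℂ)) ξ = cexp (4 * (Real.pi : ℂ) ^ 2 * t * (‖ξ‖ : ℂ) ^ 2 * Complex.I) *
      (𝓕 φ : 𝓢(Sp d, ℂ)) ξ) ∧
    ∀ x, ‖v x‖ ≤ (4 * Real.pi * t) ^ (-(d : ℝ) / 2) * ∫ y, ‖φ y‖ := by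
  obtain ⟨m, hm⟩ : ∃ m : Sp d → ℂ, ∀ ξ, m ξ =
      cexp (4 * (Real.pi : ℂ) ^ 2 * t * (‖ξ‖ : ℂ) ^ 2 * Complex.I) := ⟨_, fun _ => rfl⟩
  have hmg : Function.HasTemperateGrowth m := by
    have h1 : m = fun ξ : Sp d => cexp (4 * (Real.pi : ℂ) ^ 2 * t * (‖ξ‖ : ℂ) ^ 2 * Complex.I) :=
      funext hm
    rw [h1]
    exact di_mult t
  obtain ⟨v, hv⟩ : ∃ v : 𝓢(Sp d, ℂ), v = 𝓕⁻ (SchwartzMap.smulLeftCLM ℂ m (𝓕 φ)) := ⟨_, rfl⟩
  have hFv : ∀ ξ, (𝓕 v : 𝓢(Sp d, ℂ)) ξ = m ξ * (𝓕 φ : 𝓢(Sp d, ℂ)) ξ := by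
    intro ξ
    rw [hv, FourierTransform.fourier_fourierInv_eq, SchwartzMap.smulLeftCLM_apply_apply hmg,
      smul_eq_mul]
  refine ⟨v, fun ξ => by rw [hFv, hm], fun x => ?_⟩
  -- the approximations
  obtain ⟨z, hz⟩ : ∃ z : ℕ → ℂ, ∀ n, z n = ((1 / ((n : ℝ) + 1) : ℝ) : ℂ) - t * Complex.I :=
    ⟨_, fun _ => rfl⟩
  have hre : ∀ n, (z n).re = 1 / ((n : ℝ) + 1) := by
    intro n
    rw [hz, Complex.sub_re, Complex.ofReal_re, Complex.re_ofReal_mul, Complex.I_re, mul_zero,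
      sub_zero]
  have him : ∀ n, (z n).im = -t := by
    intro n
    rw [hz, Complex.sub_im, Complex.ofReal_im, Complex.im_ofReal_mul, Complex.I_im, mul_one,
      zero_sub]
  have hre0 : ∀ n, 0 < (z n).re := by
    intro n
    rw [hre]
    positivity
  have hzt : ∀ n, t ≤ ‖z n‖ := by
    intro n
    have h1 := Complex.abs_im_le_norm (z n)
    rw [him, abs_neg, abs_of_pos ht] at h1
    exact h1
  obtain ⟨w, hw⟩ : ∃ w : ℕ → 𝓢(Sp d, ℂ), ∀ n, w n =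
      SchwartzMap.convolution (ContinuousLinearMap.mul ℂ ℂ) (gS (z n) (hre0 n)) φ :=
    ⟨_, fun _ => rfl⟩
  have hFw : ∀ n ξ, (𝓕 (w n) : 𝓢(Sp d, ℂ)) ξ =
      cexp (-(4 * (Real.pi : ℂ) ^ 2 * z n * (‖ξ‖ : ℂ) ^ 2)) * (𝓕 φ : 𝓢(Sp d, ℂ)) ξ := by
    intro n ξ
    rw [hw, SchwartzMap.fourier_convolution, SchwartzMap.pairing_apply_apply,
      ContinuousLinearMap.mul_apply', fourier_gS]
  have hinv : ∀ u : 𝓢(Sp d, ℂ), u x =
      ∫ ξ, cexp (((2 * Real.pi * inner ℝ ξ x : ℝ) : ℂ) * Complex.I) • (𝓕 u : 𝓢(Sp d, ℂ)) ξ := by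
    intro u
    have h1 : u = 𝓕⁻ (𝓕 u) := (FourierTransform.fourierInv_fourier_eq u).symm
    have h2 : u x = (𝓕⁻ (𝓕 u : 𝓢(Sp d, ℂ)) : 𝓢(Sp d, ℂ)) x := by rw [← h1]
    rw [h2, SchwartzMap.fourierInv_coe, Real.fourierInv_eq']
  have hbound : ∀ n, ‖w n x‖ ≤ (4 * Real.pi * t) ^ (-(d : ℝ) / 2) * ∫ y, ‖φ y‖ := by
    intro n
    rw [hw, SchwartzMap.convolution_apply, MeasureTheory.convolution_def]
    have hint : Integrable (fun y : Sp d => (4 * Real.pi * t) ^ (-(d : ℝ) / 2) * ‖φ (x - y)‖) :=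
      ((SchwartzMap.integrable φ).norm.comp_sub_left x).const_mul _
    have h3 : ‖∫ y, (ContinuousLinearMap.mul ℂ ℂ) ((gS (z n) (hre0 n) : 𝓢(Sp d, ℂ)) y) (φ (x - y))‖ ≤
        ∫ y : Sp d, (4 * Real.pi * t) ^ (-(d : ℝ) / 2) * ‖φ (x - y)‖ := by
      refine norm_integral_le_of_norm_le hint (Eventually.of_forall fun y => ?_)
      rw [ContinuousLinearMap.mul_apply', norm_mul, gS_apply]
      refine mul_le_mul_of_nonneg_right ?_ (norm_nonneg _)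
      refine (G_sup (z n) (hre0 n) y).trans ?_
      refine Real.rpow_le_rpow_of_nonpos (by positivity) ?_ ?_
      · exact mul_le_mul_of_nonneg_left (hzt n) (by positivity)
      · have : (0 : ℝ) ≤ d := Nat.cast_nonneg d
        linarith
    rw [integral_const_mul, integral_sub_left_eq_self (fun y => ‖φ y‖) volume x] at h3
    exact h3
  have hlim : Tendsto (fun n => w n x) atTop (𝓝 (v x)) := by
    rw [hinv v]
    have h1 : ∀ n, w n x = ∫ ξ, cexp (((2 * Real.pi * inner ℝ ξ x : ℝ) : ℂ) * Complex.I) •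
        (𝓕 (w n) : 𝓢(Sp d, ℂ)) ξ := fun n => hinv (w n)
    rw [show (fun n => w n x) = fun n => ∫ ξ, cexp (((2 * Real.pi * inner ℝ ξ x : ℝ) : ℂ) *
      Complex.I) • (𝓕 (w n) : 𝓢(Sp d, ℂ)) ξ from funext h1]
    refine tendsto_integral_of_dominated_convergence (fun ξ => ‖(𝓕 φ : 𝓢(Sp d, ℂ)) ξ‖)
      (fun n => ?_) (SchwartzMap.integrable (𝓕 φ : 𝓢(Sp d, ℂ))).norm
      (fun n => Eventually.of_forall fun ξ => ?_) (Eventually.of_forall fun ξ => ?_)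
    · have h2 : Continuous (fun ξ : Sp d => cexp (((2 * Real.pi * inner ℝ ξ x : ℝ) : ℂ) *
          Complex.I) • (𝓕 (w n) : 𝓢(Sp d, ℂ)) ξ) := by
        refine Continuous.fun_smul ?_ (𝓕 (w n) : 𝓢(Sp d, ℂ)).continuous
        refine Complex.continuous_exp.comp ((Complex.continuous_ofReal.comp ?_).mul
          continuous_const)
        exact continuous_const.mul (continuous_id.inner continuous_const)
      exact h2.aestronglyMeasurable
    · rw [norm_smul, Complex.norm_exp_ofReal_mul_I, one_mul, hFw, norm_mul]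
      have h2 : ‖cexp (-(4 * (Real.pi : ℂ) ^ 2 * z n * (‖ξ‖ : ℂ) ^ 2))‖ ≤ 1 := by
        rw [Complex.norm_exp]
        have h3 : (-(4 * (Real.pi : ℂ) ^ 2 * z n * (‖ξ‖ : ℂ) ^ 2)).re =
            -(4 * Real.pi ^ 2 * (z n).re * ‖ξ‖ ^ 2) := by
          have h4 : -(4 * (Real.pi : ℂ) ^ 2 * z n * (‖ξ‖ : ℂ) ^ 2) =
              ((-(4 * Real.pi ^ 2 * ‖ξ‖ ^ 2) : ℝ) : ℂ) * z n := by
            push_cast
            ring
          rw [h4, Complex.re_ofReal_mul]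
          ring
        rw [h3]
        refine Real.exp_le_one_iff.2 ?_
        have h5 := (hre0 n).le
        have h6 : 0 ≤ 4 * Real.pi ^ 2 * (z n).re * ‖ξ‖ ^ 2 := by positivity
        linarith
      calc ‖cexp (-(4 * (Real.pi : ℂ) ^ 2 * z n * (‖ξ‖ : ℂ) ^ 2))‖ * ‖(𝓕 φ : 𝓢(Sp d, ℂ)) ξ‖
          ≤ 1 * ‖(𝓕 φ : 𝓢(Sp d, ℂ)) ξ‖ := mul_le_mul_of_nonneg_right h2 (norm_nonneg _)
        _ = _ := one_mul _
    · refine Tendsto.const_smul ?_ _
      rw [hFv, hm]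
      simp only [hFw]
      refine Tendsto.mul_const _ ?_
      refine (Complex.continuous_exp.tendsto _).comp ?_
      have h2 : Tendsto z atTop (𝓝 ((0 : ℂ) - t * Complex.I)) := by
        rw [show z = fun n : ℕ => ((1 / ((n : ℝ) + 1) : ℝ) : ℂ) - t * Complex.I from funext hz]
        refine Tendsto.sub_const ?_ _
        have h3 := tendsto_one_div_add_atTop_nhds_zero_nat (𝕜 := ℝ)
        have h4 := (Complex.continuous_ofReal.tendsto 0).comp h3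
        rw [Complex.ofReal_zero] at h4
        exact h4
      have h3 : 4 * (Real.pi : ℂ) ^ 2 * t * (‖ξ‖ : ℂ) ^ 2 * Complex.I =
          -(4 * (Real.pi : ℂ) ^ 2 * ((0 : ℂ) - t * Complex.I) * (‖ξ‖ : ℂ) ^ 2) := by ring
      rw [h3]
      exact ((h2.const_mul _).mul_const _).neg
  exact le_of_tendsto hlim.norm (Eventually.of_forall hbound)

end MP3483
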