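import Pool.Agent.Lib_MP_3483a5_an.NC
import Pool.Agent.Lib_MP_3483a5_an.NLD

/-!
# MP_3483a5_an, piece DN

`D nl(f)[g] ∈ L^{ρ'}` if `f, g ∈ L^ρ`: `nemytskii` with `p = rho d`, constant sequences and
`T = fderiv ℝ (nl d)` (continuous by `nl_contDiff`, bound `nl_fderiv_le`, `rho d - 2 = 4/d`,
`rho d - 1 = 1 + 4/d`).
-/

open MeasureTheory Filter Topology Complex SchwartzMap
open scoped FourierTransform LineDeriv Laplacian ENNReal NNReal ComplexConjugate

namespace MP3483
variable {d : ℕ}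

theorem dn_memLp (hd : 1 ≤ d) {X : Type*} [MeasurableSpace X] {μ : Measure X} {f g : X → ℂ}
    (hf : MemLp f (rhoE d) μ) (hg : MemLp g (rhoE d) μ) :
    MemLp (fun x => fderiv ℝ (nl d) (f x) (g x)) (rhoC d) μ := by
  have hd0 : (0 : ℝ) < d := by exact_mod_cast hd
  have hp : 2 < rho d := by
    unfold rho
    have : (0 : ℝ) < 4 / d := by positivity
    linarith
  have hz : ∀ h : X → ℂ, Tendsto (fun _ : ℕ => eLpNorm (fun x => h x - h x)
      (ENNReal.ofReal (rho d)) μ) atTop (𝓝 0) := by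
    intro h
    simp
  have h1 := (nemytskii (μ := μ) hp (T := fderiv ℝ (nl d))
    ((nl_contDiff hd).continuous_fderiv one_ne_zero) (C := 1 + 4 / d) (fun z => by
      have e : rho d - 2 = 4 / d := by unfold rho; ring
      rw [e]
      exact nl_fderiv_le hd z) (f := fun _ => f) (g := fun _ => g) (f' := f) (g' := g)
    (fun _ => hf) (fun _ => hg) hf hg (hz f) (hz g)).2.1
  have e : rho d - 1 = 1 + 4 / d := by unfold rho; ring
  rw [e] at h1
  exact h1

end MP3483
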