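import Mathlib

/-!
# MP_3483a5_an: dispersion managed NLS, definitions

`Sp d` is `ℝ^d`.  All functions are complex valued.
-/

open MeasureTheory Filter Topology Complex SchwartzMap
open scoped FourierTransform LineDeriv Laplacian ENNReal NNReal

namespace MP3483

/-- the Euclidean space `ℝ^d` -/
abbrev Sp (d : ℕ) := EuclideanSpace ℝ (Fin d)

/-- the exponent `4/d` -/
noncomputable def al (d : ℕ) : ℝ := 4 / d

/-- the exponent `2 + 4/d` -/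
noncomputable def rho (d : ℕ) : ℝ := 2 + 4 / d

/-- the exponent `2 + 4/d`, as an extended nonnegative real number -/
noncomputable def rhoE (d : ℕ) : ℝ≥0∞ := ENNReal.ofReal (rho d)

/-- the conjugate exponent of `2 + 4/d` -/
noncomputable def rhoC (d : ℕ) : ℝ≥0∞ := ENNReal.ofReal (rho d / (1 + 4 / d))

/-- the mass critical nonlinearity `|z|^{4/d} z` -/
noncomputable def nl (d : ℕ) (z : ℂ) : ℂ := ((‖z‖ ^ ((4 : ℝ) / d) : ℝ) : ℂ) * z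

variable {d : ℕ}

/-- the `j`-th unit vector -/
noncomputable def ev (j : Fin d) : Sp d := EuclideanSpace.single j (1 : ℝ)

/-- the `j`-th partial derivative of a Schwartz function -/
noncomputable def pd (j : Fin d) (ψ : 𝓢(Sp d, ℂ)) : 𝓢(Sp d, ℂ) := ∂_{ev j} ψ

/-- the Laplacian of a Schwartz function -/
noncomputable def lap (ψ : 𝓢(Sp d, ℂ)) : 𝓢(Sp d, ℂ) := Δ ψ

/-- `g` is the weak partial derivative of `f` in the direction of the `j`-th unit vector -/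
def WeakPartial (j : Fin d) (f g : Sp d → ℂ) : Prop :=
  ∀ ψ : 𝓢(Sp d, ℂ), ∫ x, g x * ψ x = - ∫ x, f x * pd j ψ x

/-- `f ∈ H¹(ℝ^d)` with weak gradient `Df` -/
structure IsH1 (f : Sp d → ℂ) (Df : Fin d → Sp d → ℂ) : Prop where
  memLp : MemLp f 2 volume
  memLpD : ∀ j, MemLp (Df j) 2 volume
  weak : ∀ j, WeakPartial j f (Df j)

/-- `u ∈ C(I; H¹(ℝ^d))` with gradient `Du` -/
structure H1Path (I : Set ℝ) (u : ℝ → Sp d → ℂ) (Du : ℝ → Fin d → Sp d → ℂ) : Prop where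
  meas : Measurable (fun p : ℝ × Sp d => u p.1 p.2)
  measD : ∀ j, Measurable (fun p : ℝ × Sp d => Du p.1 j p.2)
  isH1 : ∀ t ∈ I, IsH1 (u t) (Du t)
  cont : ∀ t ∈ I, Tendsto (fun s => eLpNorm (u s - u t) 2 volume) (𝓝[I] t) (𝓝 0)
  contD : ∀ t ∈ I, ∀ j, Tendsto (fun s => eLpNorm (Du s j - Du t j) 2 volume) (𝓝[I] t) (𝓝 0)

/-- `i ∂_t u + γ(t) Δ u = |u|^{4/d} u` on `I` in the sense of distributions -/
def Solves (γ : ℝ → ℝ) (I : Set ℝ) (u : ℝ → Sp d → ℂ) : Prop :=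
  ∀ ψ : 𝓢(Sp d, ℂ), ∀ t ∈ I, ∫ x, u t x * ψ x = (∫ x, u 0 x * ψ x) +
    ∫ s in (0 : ℝ)..t, (Complex.I * (γ s : ℂ) * (∫ x, u s x * lap ψ x) -
      Complex.I * ∫ x, nl d (u s x) * ψ x)

/-- `u ∈ L^ρ_loc([0,∞); W^{1,ρ}(ℝ^d))`, `ρ = 2 + 4/d` -/
def Strich (u : ℝ → Sp d → ℂ) (Du : ℝ → Fin d → Sp d → ℂ) : Prop :=
  ∀ T : ℝ, 0 < T → MemLp (fun p : ℝ × Sp d => u p.1 p.2) (rhoE d)
      ((volume.restrict (Set.Icc 0 T)).prod volume) ∧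
    ∀ j, MemLp (fun p : ℝ × Sp d => Du p.1 j p.2) (rhoE d)
      ((volume.restrict (Set.Icc 0 T)).prod volume)

/-- `g = e^{i s Δ} f` in `L²(ℝ^d)` -/
def FreeEv (s : ℝ) (f g : Sp d → ℂ) : Prop :=
  ∃ (hf : MemLp f 2 volume) (hg : MemLp g 2 volume),
    ((𝓕 (hg.toLp g) : Lp ℂ 2 (volume : Measure (Sp d))) : Sp d → ℂ) =ᵐ[volume]
      fun ξ => cexp (-(4 * (Real.pi : ℂ) ^ 2 * s * (‖ξ‖ : ℂ) ^ 2 * Complex.I)) *
        ((𝓕 (hf.toLp f) : Lp ℂ 2 (volume : Measure (Sp d))) : Sp d → ℂ) ξ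

/-- the focusing equation `i ∂_t u - Δ u = |u|^{4/d} u` has a global `H¹` solution with initial
value `u₀` which scatters in `H¹` as `t → ∞` -/
def Scatters (u₀ : Sp d → ℂ) : Prop :=
  ∃ (u : ℝ → Sp d → ℂ) (Du : ℝ → Fin d → Sp d → ℂ),
    H1Path (Set.Ici 0) u Du ∧ Strich u Du ∧ Solves (fun _ => -1) (Set.Ici 0) u ∧
    u 0 =ᵐ[volume] u₀ ∧
    ∃ (f : Sp d → ℂ) (Df : Fin d → Sp d → ℂ) (w : ℝ → Sp d → ℂ) (Dw : ℝ → Fin d → Sp d → ℂ),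
      IsH1 f Df ∧ (∀ t : ℝ, 0 ≤ t → IsH1 (w t) (Dw t) ∧ FreeEv (-t) f (w t)) ∧
      Tendsto (fun t => eLpNorm (u t - w t) 2 volume) atTop (𝓝 0) ∧
      ∀ j, Tendsto (fun t => eLpNorm (Du t j - Dw t j) 2 volume) atTop (𝓝 0)

/-- the `t₀`-periodic dispersion map: `-γ₋` on `(0, t⋆]` and `γ₊` on `(t⋆, t₀]` -/
noncomputable def gam (γp γm ts t0 : ℝ) (t : ℝ) : ℝ :=
  if t - t0 * (⌈t / t0⌉ - 1) ≤ ts then -γm else γp

/-- the dispersion managed equation with dispersion map `γ` and initial value `u₀` has a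
dispersion-manageable solution -/
def Manageable (γ : ℝ → ℝ) (u₀ : Sp d → ℂ) : Prop :=
  ∃ (u : ℝ → Sp d → ℂ) (Du : ℝ → Fin d → Sp d → ℂ),
    H1Path (Set.Ici 0) u Du ∧ Solves γ (Set.Ici 0) u ∧ u 0 =ᵐ[volume] u₀ ∧
    ∃ c C : ℝ, 0 < c ∧ ∀ t : ℝ, 0 ≤ t →
      ENNReal.ofReal c ≤ eLpNorm (u t) ⊤ volume ∧ eLpNorm (u t) ⊤ volume ≤ ENNReal.ofReal C

/-- the energy `(1/2) ∫ |∇f|² - (1/ρ) ∫ |f|^ρ`, `ρ = 2 + 4/d`, of the focusing equation -/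
noncomputable def En (f : Sp d → ℂ) (Df : Fin d → Sp d → ℂ) : ℝ :=
  (1 / 2) * (∑ j, ∫ x, ‖Df j x‖ ^ 2) - (1 / rho d) * ∫ x, ‖f x‖ ^ rho d

/-- no dispersion map makes the datum `u₀` manageable; more precisely every `H¹` solution has an
unbounded supremum norm on every time interval `[0,T)` -/
def NeverManageable (u₀ : Sp d → ℂ) : Prop :=
  ∀ γp γm ts t0 : ℝ, 0 < γp → 0 < γm → 0 < ts → ts < t0 →
    ¬ Manageable (gam γp γm ts t0) u₀ ∧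
    ∀ T : ℝ, 0 < T → ∀ (u : ℝ → Sp d → ℂ) (Du : ℝ → Fin d → Sp d → ℂ),
      H1Path (Set.Ico 0 T) u Du → Solves (gam γp γm ts t0) (Set.Ico 0 T) u →
      u 0 =ᵐ[volume] u₀ → ∀ C : ℝ, ∃ t ∈ Set.Ico 0 T, ENNReal.ofReal C <
        eLpNorm (u t) ⊤ volume

end MP3483
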