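import Pool.Agent.Lib_MP_3483a5_an.Base0

/-!
# MP_3483a5_an, piece FB

Fundamental theorem of calculus in time plus Fubini.
Proof.  For every `x` the function `t ↦ y t x` is continuous on `[0,T]` with derivative `y' t x` inside
(the integrand is continuous), so `t ↦ Φ(y t x)` has derivative `Φ'(y t x)(y' t x)`, continuous, and
`Φ(y T x) - Φ(y 0 x) = ∫_0^T Φ'(y s x)(y' s x) ds` (`intervalIntegral.integral_eq_sub_of_hasDeriv_right` or
similar).  Integrate in `x`: `integral_prod_symm` / `integral_integral_swap` with `hint`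
(`muT d T = (volume.restrict (Icc 0 T)).prod volume`).
-/

open MeasureTheory Filter Topology Complex SchwartzMap
open scoped FourierTransform LineDeriv Laplacian ENNReal NNReal ComplexConjugate

namespace MP3483
variable {d : ℕ}

theorem fb_one {T : ℝ} (hT : 0 < T) (y y' : ℝ → ℂ) (Φ : ℂ → ℝ) (Φ' : ℂ → ℂ →L[ℝ] ℝ)
    (hΦ : ∀ z, HasFDerivAt Φ (Φ' z) z) (hΦc : Continuous Φ')
    (hy : ∀ t ∈ Set.Icc 0 T, y t = y 0 + ∫ s in (0 : ℝ)..t, y' s)
    (hy' : ContinuousOn y' (Set.Icc 0 T)) :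
    Φ (y T) - Φ (y 0) = ∫ s in Set.Icc 0 T, Φ' (y s) (y' s) := by
  have hint : IntegrableOn y' (Set.Icc 0 T) := hy'.integrableOn_Icc
  have hyc : ContinuousOn y (Set.Icc 0 T) := by
    have h1 : ContinuousOn (fun t => y 0 + ∫ s in (0 : ℝ)..t, y' s) (Set.Icc 0 T) := by
      have h2 := intervalIntegral.continuousOn_primitive_interval (μ := volume) (f := y')
        (a := (0 : ℝ)) (b := T) (by rwa [Set.uIcc_of_le hT.le])
      rw [Set.uIcc_of_le hT.le] at h2
      exact continuousOn_const.add h2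
    exact h1.congr hy
  have hder : ∀ t ∈ Set.Ioo 0 T, HasDerivAt (fun t => Φ (y t)) (Φ' (y t) (y' t)) t := by
    intro t ht
    have hyd : HasDerivAt y (y' t) t := by
      have h1 : HasDerivAt (fun t => ∫ s in (0 : ℝ)..t, y' s) (y' t) t := by
        refine intervalIntegral.integral_hasDerivAt_right ?_ ?_ ?_
        · refine (hint.mono_set ?_).intervalIntegrable
          rw [Set.uIcc_of_le ht.1.le]
          exact Set.Icc_subset_Icc_right ht.2.le
        · exact (hy'.mono Set.Ioo_subset_Icc_self).stronglyMeasurableAtFilter isOpen_Ioo t ht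
        · exact (hy'.mono Set.Ioo_subset_Icc_self).continuousAt (isOpen_Ioo.mem_nhds ht)
      refine (h1.const_add (y 0)).congr_of_eventuallyEq ?_
      filter_upwards [isOpen_Ioo.mem_nhds ht] with s hs using hy s ⟨hs.1.le, hs.2.le⟩
    exact (hΦ (y t)).comp_hasDerivAt t hyd
  have hΦcont : Continuous Φ :=
    continuous_iff_continuousAt.2 fun z => (hΦ z).continuousAt
  have hgc : ContinuousOn (fun s => Φ' (y s) (y' s)) (Set.Icc 0 T) :=
    (hΦc.comp_continuousOn hyc).clm_apply hy'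
  have h := intervalIntegral.integral_eq_sub_of_hasDerivAt_of_le hT.le
    (hΦcont.comp_continuousOn hyc) hder (by
      refine ContinuousOn.intervalIntegrable ?_
      rwa [Set.uIcc_of_le hT.le])
  rw [integral_Icc_eq_integral_Ioc, ← intervalIntegral.integral_of_le hT.le, h]
  rfl

theorem fub {T : ℝ} (hT : 0 < T) (y y' : ℝ → Sp d → ℂ) (Φ : ℂ → ℝ) (Φ' : ℂ → ℂ →L[ℝ] ℝ)
    (hΦ : ∀ z, HasFDerivAt Φ (Φ' z) z) (hΦc : Continuous Φ')
    (hy : ∀ x, ∀ t ∈ Set.Icc 0 T, y t x = y 0 x + ∫ s in (0 : ℝ)..t, y' s x)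
    (hy' : ∀ x, ContinuousOn (fun s => y' s x) (Set.Icc 0 T))
    (hint : Integrable (fun q : ℝ × Sp d => Φ' (y q.1 q.2) (y' q.1 q.2)) (muT d T))
    (h0 : Integrable (fun x => Φ (y 0 x)) volume) (h1 : Integrable (fun x => Φ (y T x)) volume) :
    (∫ x, Φ (y T x)) - ∫ x, Φ (y 0 x) =
      ∫ q : ℝ × Sp d, Φ' (y q.1 q.2) (y' q.1 q.2) ∂(muT d T) := by
  have e : ∫ q : ℝ × Sp d, Φ' (y q.1 q.2) (y' q.1 q.2) ∂(muT d T) =
      ∫ x, ∫ s in Set.Icc 0 T, Φ' (y s x) (y' s x) :=
    integral_prod_symm _ hint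
  rw [e, ← integral_sub h1 h0]
  refine integral_congr_ae (Eventually.of_forall fun x => ?_)
  exact fb_one hT (fun t => y t x) (fun t => y' t x) Φ Φ' hΦ hΦc (hy x) (hy' x)

end MP3483
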