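import Pool.Agent.Lib_MP_3483a5_an.Base

/-!
# MP_3483a5_an, piece YG

Young's inequality `‖f * φ‖_p ≤ ‖φ‖₁ ‖f‖_p`, `1 ≤ p ≤ ∞`.
Proof for `p < ∞`: `|cv φ f x|^p ≤ (∫|f y||φ(x-y)| dy)^p ≤ ‖φ‖₁^{p-1} ∫|f y|^p |φ(x-y)| dy` (Hölder/Jensen) and
Tonelli; all in `ℝ≥0∞` (`lintegral`).  `p = ∞`: direct.  Measurability of `cv φ f`: it is a parameter
integral of a jointly measurable function (`AEStronglyMeasurable.integral_prod_right'` after replacing
`f` by a measurable representative; `cv` does not change), or continuity from `CVA`.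
-/

open MeasureTheory Filter Topology Complex SchwartzMap
open scoped FourierTransform LineDeriv Laplacian ENNReal NNReal ComplexConjugate

namespace MP3483
variable {d : ℕ}

theorem yg_jensen {α : Type*} [MeasurableSpace α] (μ : Measure α) {q : ℝ} (hq : 1 ≤ q)
    {F K : α → ℝ≥0∞} (hF : AEMeasurable F μ) (hK : AEMeasurable K μ) :
    (∫⁻ x, K x * F x ∂μ) ^ q ≤ (∫⁻ x, K x ∂μ) ^ (q - 1) * ∫⁻ x, K x * F x ^ q ∂μ := by
  rcases eq_or_lt_of_le hq with h1 | h1
  · subst h1
    simp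
  · have hq0 : 0 < q := by linarith
    have hpq : q.HolderConjugate (Real.conjExponent q) := Real.HolderConjugate.conjExponent h1
    have hF' : AEMeasurable F (μ.withDensity K) :=
      hF.mono_ac (withDensity_absolutelyContinuous μ K)
    have h := ENNReal.lintegral_mul_le_Lp_mul_Lq (μ.withDensity K) hpq hF'
      (aemeasurable_const (b := (1 : ℝ≥0∞)))
    simp only [Pi.mul_apply, mul_one, ENNReal.one_rpow, lintegral_one] at h
    rw [withDensity_apply _ MeasurableSet.univ, Measure.restrict_univ,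
      lintegral_withDensity_eq_lintegral_mul₀ hK hF,
      lintegral_withDensity_eq_lintegral_mul₀ hK (hF.pow_const q)] at h
    simp only [Pi.mul_apply] at h
    calc (∫⁻ x, K x * F x ∂μ) ^ q
        ≤ ((∫⁻ x, K x * F x ^ q ∂μ) ^ (1 / q) *
            (∫⁻ x, K x ∂μ) ^ (1 / Real.conjExponent q)) ^ q := ENNReal.rpow_le_rpow h hq0.le
      _ = (∫⁻ x, K x ∂μ) ^ (q - 1) * ∫⁻ x, K x * F x ^ q ∂μ := by
        rw [ENNReal.mul_rpow_of_nonneg _ _ hq0.le, ← ENNReal.rpow_mul, ← ENNReal.rpow_mul]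
        have e1 : 1 / q * q = 1 := by field_simp
        have e2 : 1 / Real.conjExponent q * q = q - 1 := by
          unfold Real.conjExponent
          have : q - 1 ≠ 0 := by linarith
          field_simp
        rw [e1, e2, ENNReal.rpow_one, mul_comm]

theorem yg_enorm_le (f : Sp d → ℂ) (φ : 𝓢(Sp d, ℂ)) (x : Sp d) :
    ‖cv φ f x‖ₑ ≤ ∫⁻ y, ‖φ (x - y)‖ₑ * ‖f y‖ₑ := by
  unfold cv
  refine (enorm_integral_le_lintegral_enorm _).trans (le_of_eq ?_)
  refine lintegral_congr fun y => ?_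
  rw [enorm_mul, mul_comm]

theorem yg_trans (φ : 𝓢(Sp d, ℂ)) (x : Sp d) :
    ∫⁻ y, ‖φ (x - y)‖ₑ = eLpNorm φ 1 volume := by
  rw [eLpNorm_one_eq_lintegral_enorm]
  exact lintegral_sub_left_eq_self (fun z => ‖φ z‖ₑ) x

theorem yg_trans' (φ : 𝓢(Sp d, ℂ)) (y : Sp d) :
    ∫⁻ x, ‖φ (x - y)‖ₑ = eLpNorm φ 1 volume := by
  rw [eLpNorm_one_eq_lintegral_enorm]
  exact lintegral_sub_right_eq_self (fun z => ‖φ z‖ₑ) y

theorem yg_meas_prod (φ : 𝓢(Sp d, ℂ)) : Measurable fun z : Sp d × Sp d => φ (z.1 - z.2) :=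
  φ.continuous.measurable.comp (measurable_fst.sub measurable_snd)

theorem yg_stronglyMeasurable {f : Sp d → ℂ} (hf : StronglyMeasurable f) (φ : 𝓢(Sp d, ℂ)) :
    StronglyMeasurable (cv φ f) := by
  have h : StronglyMeasurable fun z : Sp d × Sp d => f z.2 * φ (z.1 - z.2) :=
    (hf.comp_measurable measurable_snd).mul (yg_meas_prod φ).stronglyMeasurable
  exact h.integral_prod_right'

theorem yg_bound {p : ℝ≥0∞} (hp : 1 ≤ p) {f : Sp d → ℂ} (hf : StronglyMeasurable f)
    (φ : 𝓢(Sp d, ℂ)) :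
    eLpNorm (cv φ f) p volume ≤ eLpNorm φ 1 volume * eLpNorm f p volume := by
  rcases eq_or_ne p ⊤ with rfl | hpt
  · rw [eLpNorm_exponent_top, eLpNorm_exponent_top]
    refine eLpNormEssSup_le_of_ae_enorm_bound (Filter.Eventually.of_forall fun x => ?_)
    refine (yg_enorm_le f φ x).trans ?_
    have h1 : ∫⁻ y, ‖φ (x - y)‖ₑ * ‖f y‖ₑ ≤ ∫⁻ y, ‖φ (x - y)‖ₑ * eLpNormEssSup f volume := by
      refine lintegral_mono_ae ?_
      filter_upwards [enorm_ae_le_eLpNormEssSup f volume] with y hy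
      gcongr
    refine h1.trans ?_
    have hm : Measurable fun y : Sp d => ‖φ (x - y)‖ₑ :=
      (φ.continuous.measurable.comp (measurable_const.sub measurable_id)).enorm
    rw [lintegral_mul_const _ hm, yg_trans]
  · have hp0 : p ≠ 0 := by
      intro h
      rw [h] at hp
      simp at hp
    have hq : 1 ≤ p.toReal := by
      rw [← ENNReal.toReal_one]
      exact ENNReal.toReal_mono hpt hp
    set q := p.toReal with hqdef
    have hq0 : 0 < q := by linarith
    set A := eLpNorm φ 1 volume with hA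
    have hmφ : Measurable fun z : Sp d × Sp d => ‖φ (z.1 - z.2)‖ₑ := (yg_meas_prod φ).enorm
    have hmF : Measurable fun z : Sp d × Sp d => ‖f z.2‖ₑ ^ q :=
      ((hf.measurable.comp measurable_snd).enorm).pow_const q
    have key : ∫⁻ x, ‖cv φ f x‖ₑ ^ q ≤ A ^ q * ∫⁻ y, ‖f y‖ₑ ^ q := by
      calc ∫⁻ x, ‖cv φ f x‖ₑ ^ q
          ≤ ∫⁻ x, A ^ (q - 1) * ∫⁻ y, ‖φ (x - y)‖ₑ * ‖f y‖ₑ ^ q := by
            refine lintegral_mono fun x => ?_
            refine (ENNReal.rpow_le_rpow (yg_enorm_le f φ x) hq0.le).trans ?_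
            have hm : Measurable fun y : Sp d => ‖φ (x - y)‖ₑ :=
              (φ.continuous.measurable.comp (measurable_const.sub measurable_id)).enorm
            have := yg_jensen (volume : Measure (Sp d)) hq (F := fun y => ‖f y‖ₑ)
              (K := fun y => ‖φ (x - y)‖ₑ) hf.measurable.enorm.aemeasurable hm.aemeasurable
            rw [yg_trans] at this
            exact this
        _ = A ^ (q - 1) * ∫⁻ x, ∫⁻ y, ‖φ (x - y)‖ₑ * ‖f y‖ₑ ^ q := by
            rw [lintegral_const_mul]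
            exact (hmφ.mul hmF).lintegral_prod_right'
        _ = A ^ (q - 1) * ∫⁻ y, ∫⁻ x, ‖φ (x - y)‖ₑ * ‖f y‖ₑ ^ q := by
            rw [lintegral_lintegral_swap (hmφ.mul hmF).aemeasurable]
        _ = A ^ (q - 1) * ∫⁻ y, A * ‖f y‖ₑ ^ q := by
            congr 1
            refine lintegral_congr fun y => ?_
            have hm : Measurable fun x : Sp d => ‖φ (x - y)‖ₑ :=
              (φ.continuous.measurable.comp (measurable_id.sub measurable_const)).enorm
            rw [lintegral_mul_const _ hm, yg_trans']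
        _ = A ^ q * ∫⁻ y, ‖f y‖ₑ ^ q := by
            rw [lintegral_const_mul _ (hf.measurable.enorm.pow_const q), ← mul_assoc]
            congr 1
            have : A ^ (q - 1) * A = A ^ (q - 1) * A ^ (1 : ℝ) := by rw [ENNReal.rpow_one]
            rw [this, ← ENNReal.rpow_add_of_nonneg _ _ (by linarith) (by norm_num)]
            congr 1
            ring
    rw [eLpNorm_eq_lintegral_rpow_enorm_toReal hp0 hpt, eLpNorm_eq_lintegral_rpow_enorm_toReal hp0 hpt,
      ← hqdef]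
    calc (∫⁻ x, ‖cv φ f x‖ₑ ^ q) ^ (1 / q) ≤ (A ^ q * ∫⁻ y, ‖f y‖ₑ ^ q) ^ (1 / q) :=
          ENNReal.rpow_le_rpow key (by positivity)
      _ = A * (∫⁻ y, ‖f y‖ₑ ^ q) ^ (1 / q) := by
          rw [ENNReal.mul_rpow_of_nonneg _ _ (by positivity), ← ENNReal.rpow_mul]
          have e1 : q * (1 / q) = 1 := by field_simp
          rw [e1, ENNReal.rpow_one]

theorem young {p : ℝ≥0∞} (hp : 1 ≤ p) {f : Sp d → ℂ} (hf : MemLp f p volume)
    (φ : 𝓢(Sp d, ℂ)) : MemLp (cv φ f) p volume ∧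
      eLpNorm (cv φ f) p volume ≤ eLpNorm φ 1 volume * eLpNorm f p volume := by
  obtain ⟨f', hf', hff⟩ := hf.1
  have hcv : cv φ f = cv φ f' := by
    funext x
    unfold cv
    refine integral_congr_ae ?_
    filter_upwards [hff] with y hy
    rw [hy]
  have hb : eLpNorm (cv φ f) p volume ≤ eLpNorm φ 1 volume * eLpNorm f p volume := by
    rw [hcv, eLpNorm_congr_ae hff]
    exact yg_bound hp hf' φ
  refine ⟨⟨?_, ?_⟩, hb⟩
  · rw [hcv]
    exact (yg_stronglyMeasurable hf' φ).aestronglyMeasurable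
  · exact hb.trans_lt (ENNReal.mul_lt_top (φ.eLpNorm_lt_top 1 volume) hf.2)

end MP3483
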