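import Pool.Agent.Lib_MP_3483a5_an.CVA
import Pool.Agent.Lib_MP_3483a5_an.YG

/-!
# MP_3483a5_an, piece IB

Integration by parts `∫ conj(N(F)) ΔF = -∑_k ∫ conj(∂_k(N∘F)) ∂_kF` for `F = cv φ f`, `f ∈ L²`.
Proof.  `lap φ = ∑_k pd k (pd k φ)` (`SchwartzMap.laplacian_eq_sum` with `EuclideanSpace.basisFun`), so
`cv (lap φ) f = ∑_k cv (pd k (pd k φ)) f`.  For each `k` use
`integral_bilinear_hasLineDerivAt_right_eq_neg_left_of_integrable` with the functions `conj (N (F x))`
(line derivative `conj (fderiv ℝ N (F x) (cv (pd k φ) f x))`) and `cv (pd k φ) f` (line derivative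
`cv (pd k (pd k φ)) f x`), `CVA`.  Integrability: `|N z| ≤ C|z|` (mean value inequality, `N 0 = 0`) and all
convolutions are in `L²` (`young`).
-/

open MeasureTheory Filter Topology Complex SchwartzMap
open scoped FourierTransform LineDeriv Laplacian ENNReal NNReal ComplexConjugate

namespace MP3483
variable {d : ℕ}

theorem ib_integrable {f : Sp d → ℂ} (hf : MemLp f 2 volume) (ψ : 𝓢(Sp d, ℂ)) (x : Sp d) :
    Integrable (fun y => f y * ψ (x - y)) volume := by
  have h1 : MemLp (fun y => ψ (x - y)) 2 volume :=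
    (SchwartzMap.memLp ψ 2 volume).comp_measurePreserving (Measure.measurePreserving_sub_left volume x)
  exact hf.integrable_mul h1

theorem ib_lap (φ : 𝓢(Sp d, ℂ)) : lap φ = ∑ k, pd k (pd k φ) := by
  unfold lap
  rw [SchwartzMap.laplacian_eq_sum (EuclideanSpace.basisFun (Fin d) ℝ)]
  refine Finset.sum_congr rfl fun k _ => ?_
  rw [EuclideanSpace.basisFun_apply]
  rfl

theorem ib_cv_lap {f : Sp d → ℂ} (hf : MemLp f 2 volume) (φ : 𝓢(Sp d, ℂ)) (x : Sp d) :
    cv (lap φ) f x = ∑ k, cv (pd k (pd k φ)) f x := by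
  unfold cv
  rw [← integral_finsetSum _ fun k _ => ib_integrable hf _ x, ib_lap]
  congr 1
  funext y
  rw [sum_apply, Finset.mul_sum]

theorem ibp {f : Sp d → ℂ} (hf : MemLp f 2 volume) {N : ℂ → ℂ} (hN : ContDiff ℝ 1 N)
    (hN0 : N 0 = 0) {C : ℝ} (hC : ∀ z, ‖fderiv ℝ N z‖ ≤ C) (φ : 𝓢(Sp d, ℂ)) :
    ∫ x, conj (N (cv φ f x)) * cv (lap φ) f x =
      - ∑ k, ∫ x, conj (fderiv ℝ N (cv φ f x) (cv (pd k φ) f x)) * cv (pd k φ) f x := by
  have h12 : (1 : ℝ≥0∞) ≤ 2 := by norm_num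
  have hcont : ∀ ψ : 𝓢(Sp d, ℂ), Continuous (cv ψ f) := fun ψ => (cv_bdd h12 hf ψ).1
  have hL2 : ∀ ψ : 𝓢(Sp d, ℂ), MemLp (cv ψ f) 2 volume := fun ψ => (young h12 hf ψ).1
  have hNb : ∀ z, ‖N z‖ ≤ C * ‖z‖ := by
    intro z
    have h := (convex_univ (𝕜 := ℝ) (E := ℂ)).norm_image_sub_le_of_norm_fderiv_le (𝕜 := ℝ) (f := N)
      (fun w _ => (hN.differentiable one_ne_zero).differentiableAt) (fun w _ => hC w)
      (Set.mem_univ 0) (Set.mem_univ z)
    rwa [hN0, sub_zero, sub_zero] at h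
  have hNL2 : MemLp (fun x => conj (N (cv φ f x))) 2 volume := by
    refine (hL2 φ).of_le_mul (c := C) ?_ ?_
    · exact (Complex.continuous_conj.comp (hN.continuous.comp (hcont φ))).aestronglyMeasurable
    · refine Eventually.of_forall fun x => ?_
      rw [RCLike.norm_conj]
      exact hNb _
  have hD : ∀ k, MemLp (fun x => conj (fderiv ℝ N (cv φ f x) (cv (pd k φ) f x))) 2 volume := by
    intro k
    refine (hL2 (pd k φ)).of_le_mul (c := C) ?_ ?_
    · exact (Complex.continuous_conj.comp (((hN.continuous_fderiv one_ne_zero).comp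
        (hcont φ)).clm_apply (hcont (pd k φ)))).aestronglyMeasurable
    · refine Eventually.of_forall fun x => ?_
      rw [RCLike.norm_conj]
      exact (ContinuousLinearMap.le_opNorm _ _).trans
        (mul_le_mul_of_nonneg_right (hC _) (norm_nonneg _))
  have hk : ∀ k, ∫ x, conj (N (cv φ f x)) * cv (pd k (pd k φ)) f x =
      - ∫ x, conj (fderiv ℝ N (cv φ f x) (cv (pd k φ) f x)) * cv (pd k φ) f x := by
    intro k
    refine integral_bilinear_hasLineDerivAt_right_eq_neg_left_of_integrable (v := ev k)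
      (B := ContinuousLinearMap.mul ℝ ℂ) ?_ ?_ ?_ ?_ ?_
    · exact (hD k).integrable_mul (hL2 (pd k φ))
    · exact hNL2.integrable_mul (hL2 (pd k (pd k φ)))
    · exact hNL2.integrable_mul (hL2 (pd k φ))
    · intro x _
      have h1 : HasDerivAt (fun t : ℝ => cv φ f (x + t • ev k)) (cv (pd k φ) f x) 0 :=
        cv_hasLineDerivAt h12 hf φ k x
      have h2 : HasFDerivAt N (fderiv ℝ N (cv φ f x)) (cv φ f (x + (0 : ℝ) • ev k)) := by
        rw [zero_smul, add_zero]
        exact (hN.differentiable one_ne_zero).differentiableAt.hasFDerivAt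
      have h3 := h2.comp_hasDerivAt (0 : ℝ) h1
      exact (Complex.conjCLE : ℂ →L[ℝ] ℂ).hasFDerivAt.comp_hasDerivAt (0 : ℝ) h3
    · intro x _
      exact cv_hasLineDerivAt h12 hf (pd k φ) k x
  calc ∫ x, conj (N (cv φ f x)) * cv (lap φ) f x
      = ∫ x, ∑ k, conj (N (cv φ f x)) * cv (pd k (pd k φ)) f x := by
        congr 1
        funext x
        rw [ib_cv_lap hf, Finset.mul_sum]
    _ = ∑ k, ∫ x, conj (N (cv φ f x)) * cv (pd k (pd k φ)) f x :=
        integral_finsetSum _ fun k _ => hNL2.integrable_mul (hL2 (pd k (pd k φ)))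
    _ = _ := by
        rw [Finset.sum_congr rfl fun k _ => hk k, Finset.sum_neg_distrib]

end MP3483
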