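import Pool.Agent.Lib_MP_3483a5_an.UB

/-!
# MP_3483a5_an, piece M2

(1) `lintegral_prod` and `unif_bound` (restrict the path to `Icc 0 T`): the squared norm is at most `T M²`.
(2) Fubini: `Integrable (‖u‖^ρ)` on the product gives a.e. slice integrable (`Integrable.prod_right_ae`),
and measurability of slices (`AEStronglyMeasurable.prodMk_left` a.e.).
-/

open MeasureTheory Filter Topology Complex SchwartzMap
open scoped FourierTransform LineDeriv Laplacian ENNReal NNReal ComplexConjugate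

namespace MP3483
variable {d : ℕ}

private theorem H1Path.mono_aux {I J : Set ℝ} (hIJ : I ⊆ J) {u : ℝ → Sp d → ℂ}
    {Du : ℝ → Fin d → Sp d → ℂ} (hu : H1Path J u Du) : H1Path I u Du where
  meas := hu.meas
  measD := hu.measD
  isH1 := fun t ht => hu.isH1 t (hIJ ht)
  cont := fun t ht => (hu.cont t (hIJ ht)).mono_left (nhdsWithin_mono t hIJ)
  contD := fun t ht j => (hu.contD t (hIJ ht) j).mono_left (nhdsWithin_mono t hIJ)

theorem memLp_two_T {u : ℝ → Sp d → ℂ} {Du : ℝ → Fin d → Sp d → ℂ}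
    (hu : H1Path (Set.Ici 0) u Du) {T : ℝ} (hT : 0 < T) :
    MemLp (fun q : ℝ × Sp d => u q.1 q.2) 2 (muT d T) := by
  obtain ⟨M, hM, h⟩ := unif_bound hT
    (H1Path.mono_aux (I := Set.Icc 0 T) (J := Set.Ici 0) Set.Icc_subset_Ici_self hu)
  refine ⟨hu.meas.aestronglyMeasurable, ?_⟩
  rw [eLpNorm_lt_top_iff_lintegral_rpow_enorm_lt_top (by norm_num) (by norm_num)]
  have hmeas : Measurable fun q : ℝ × Sp d => ‖u q.1 q.2‖ₑ ^ (2 : ℝ≥0∞).toReal :=
    hu.meas.enorm.pow_const _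
  unfold muT
  rw [lintegral_prod _ hmeas.aemeasurable]
  have hb : ∀ t ∈ Set.Icc 0 T,
      ∫⁻ x, ‖u t x‖ₑ ^ (2 : ℝ≥0∞).toReal ≤ ENNReal.ofReal M ^ (2 : ℝ≥0∞).toReal := by
    intro t ht
    have h1 := (h t ht).1
    rw [eLpNorm_eq_lintegral_rpow_enorm_toReal (by norm_num) (by norm_num)] at h1
    have h2 := ENNReal.rpow_le_rpow h1 (z := (2 : ℝ≥0∞).toReal) (by norm_num)
    rwa [← ENNReal.rpow_mul, one_div, inv_mul_cancel₀ (by norm_num), ENNReal.rpow_one] at h2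
  calc ∫⁻ t in Set.Icc 0 T, ∫⁻ x, ‖u t x‖ₑ ^ (2 : ℝ≥0∞).toReal
      ≤ ∫⁻ _ in Set.Icc 0 T, ENNReal.ofReal M ^ (2 : ℝ≥0∞).toReal :=
        setLIntegral_mono' measurableSet_Icc hb
    _ = ENNReal.ofReal M ^ (2 : ℝ≥0∞).toReal * volume (Set.Icc (0 : ℝ) T) := by
        rw [setLIntegral_const]
    _ < ⊤ := by
        refine ENNReal.mul_lt_top (ENNReal.rpow_lt_top_of_nonneg (by norm_num)
          ENNReal.ofReal_ne_top) ?_
        rw [Real.volume_Icc]; exact ENNReal.ofReal_lt_top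

private theorem slices_aux {T : ℝ} {f : ℝ → Sp d → ℂ}
    (hf : MemLp (fun p : ℝ × Sp d => f p.1 p.2) (rhoE d)
      ((volume.restrict (Set.Icc 0 T)).prod volume)) :
    ∀ᵐ s ∂(volume.restrict (Set.Icc (0 : ℝ) T)), MemLp (f s) (rhoE d) volume := by
  have hr0 : rhoE d ≠ 0 := by
    unfold rhoE
    rw [Ne, ENNReal.ofReal_eq_zero, not_le]
    exact rho_pos d
  have hrt : rhoE d ≠ ⊤ := ENNReal.ofReal_ne_top
  have h1 := (integrable_norm_rpow_iff hf.1 hr0 hrt).2 hf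
  have h2 := h1.prod_right_ae
  have h3 := hf.1.prodMk_left
  filter_upwards [h2, h3] with s hs hs'
  exact (integrable_norm_rpow_iff hs' hr0 hrt).1 hs

theorem strich_slices {u : ℝ → Sp d → ℂ} {Du : ℝ → Fin d → Sp d → ℂ} (hS : Strich u Du)
    {T : ℝ} (hT : 0 < T) : ∀ᵐ s ∂(volume.restrict (Set.Icc (0 : ℝ) T)),
      MemLp (u s) (rhoE d) volume ∧ ∀ j, MemLp (Du s j) (rhoE d) volume := by
  obtain ⟨h1, h2⟩ := hS T hT
  have h3 : ∀ᵐ s ∂(volume.restrict (Set.Icc (0 : ℝ) T)),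
      ∀ j, MemLp (Du s j) (rhoE d) volume := by
    rw [ae_all_iff]
    intro j
    exact slices_aux (f := fun s => Du s j) (h2 j)
  filter_upwards [slices_aux h1, h3] with s hs hs'
  exact ⟨hs, hs'⟩

end MP3483
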