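import Pool.Agent.Lib_MP_3483a5_an.WC
import Pool.Agent.Lib_MP_3483a5_an.AI
import Pool.Agent.Lib_MP_3483a5_an.NH
import Pool.Agent.Lib_MP_3483a5_an.DN

/-!
# MP_3483a5_an, piece NWR

Chain rule `∂_j (nl f) = D nl(f)[∂_j f]` for `f, ∂_j f ∈ L^ρ`.
Proof.  `f_n = cv (hk n) f → f`, `g_n = cv (hk n) g → g` in `L^ρ` (`approx_id`, `young`), so `nl f_n → nl f` in
`L^{ρ'}` (`nl_holder`; the norms of `f_n` are bounded) and `D nl(f_n)[g_n] → D nl(f)[g]` in `L^{ρ'}`
(`nemytskii` with `T = fderiv ℝ (nl d)`, `p = rho d`).  Pass to the limit in `weak_comp_cv` (the Schwartz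
functions `ψ`, `pd j ψ` are in `L^ρ`, Hölder).
-/

open MeasureTheory Filter Topology Complex SchwartzMap
open scoped FourierTransform LineDeriv Laplacian ENNReal NNReal ComplexConjugate

namespace MP3483
variable {d : ℕ}

theorem nwr_conj (hd : 1 ≤ d) : ENNReal.HolderConjugate (rhoC d) (rhoE d) := by
  have hd0 : (0 : ℝ) < d := by exact_mod_cast hd
  have h1 : (0 : ℝ) < 4 / d := by positivity
  have h2 : Real.HolderConjugate (rho d / (1 + 4 / d)) (rho d) := by
    rw [Real.holderConjugate_iff]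
    unfold rho
    refine ⟨?_, ?_⟩
    · rw [lt_div_iff₀ (by positivity)]
      linarith
    · rw [inv_div, ← one_div, ← add_div]
      rw [div_eq_one_iff_eq (by positivity)]
      ring
  exact h2.ennrealOfReal

theorem nwr_lim {q p : ℝ≥0∞} [ENNReal.HolderConjugate q p] {u : ℕ → Sp d → ℂ} {v φ : Sp d → ℂ}
    (hu : ∀ n, MemLp (u n) q volume) (hv : MemLp v q volume)
    (h : Tendsto (fun n => eLpNorm (fun x => u n x - v x) q volume) atTop (𝓝 0))
    (hφ : MemLp φ p volume) :
    Tendsto (fun n => ∫ x, u n x * φ x) atTop (𝓝 (∫ x, v x * φ x)) := by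
  rw [tendsto_iff_edist_tendsto_0]
  have hle : ∀ n, edist (∫ x, u n x * φ x) (∫ x, v x * φ x) ≤
      eLpNorm (fun x => u n x - v x) q volume * eLpNorm φ p volume := by
    intro n
    have hi : Integrable (fun x => u n x * φ x) volume := (hu n).integrable_mul hφ
    have hi' : Integrable (fun x => v x * φ x) volume := hv.integrable_mul hφ
    rw [edist_eq_enorm_sub, ← integral_sub hi hi']
    refine (enorm_integral_le_lintegral_enorm _).trans ?_
    rw [← eLpNorm_one_eq_lintegral_enorm]
    have h3 := eLpNorm_smul_le_mul_eLpNorm (r := 1) hφ.1 ((hu n).sub hv).1 (p := q) (q := p)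
    refine le_trans (le_of_eq ?_) h3
    congr 1
    funext x
    change u n x * φ x - v x * φ x = (u n x - v x) * φ x
    ring
  have hlim : Tendsto (fun n => eLpNorm (fun x => u n x - v x) q volume * eLpNorm φ p volume)
      atTop (𝓝 0) := by
    have := ENNReal.Tendsto.mul_const h (b := eLpNorm φ p volume) (Or.inr hφ.2.ne)
    rwa [zero_mul] at this
  exact tendsto_of_tendsto_of_tendsto_of_le_of_le tendsto_const_nhds hlim (fun n => zero_le) hle

theorem nl_weak_rho (hd : 1 ≤ d) {j : Fin d} {f g : Sp d → ℂ} (hf : MemLp f (rhoE d) volume)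
    (hg : MemLp g (rhoE d) volume) (h : WeakPartial j f g) :
    WeakPartial j (fun x => nl d (f x)) (fun x => fderiv ℝ (nl d) (f x) (g x)) := by
  intro ψ
  have hd0 : (0 : ℝ) < d := by exact_mod_cast hd
  have hrho : rhoE d = ENNReal.ofReal (rho d) := rfl
  have hrho1 : rho d - 1 = 1 + 4 / d := by unfold rho; ring
  have hrho2 : rho d - 2 = 4 / d := by unfold rho; ring
  have hrhoC : rhoC d = ENNReal.ofReal (rho d / (rho d - 1)) := by rw [hrho1]; rfl
  have hp : 1 ≤ rhoE d := by
    rw [hrho, ENNReal.one_le_ofReal]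
    linarith [rho_ge_two d]
  have hp' : rhoE d ≠ ⊤ := ENNReal.ofReal_ne_top
  have := nwr_conj hd
  have hfn : ∀ n, MemLp (cv (hk n) f) (rhoE d) volume := fun n => (young hp hf (hk n)).1
  have hgn : ∀ n, MemLp (cv (hk n) g) (rhoE d) volume := fun n => (young hp hg (hk n)).1
  have hlf := approx_id hp hp' hf
  have hlg := approx_id hp hp' hg
  -- first limit
  have hA := nemytskii (μ := (volume : Measure (Sp d))) (p := rho d) (by
      unfold rho
      have : 0 < 4 / (d : ℝ) := by positivity
      linarith) (T := fderiv ℝ (nl d)) ((nl_contDiff hd).continuous_fderiv (by norm_num))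
    (C := 1 + 4 / d) (fun z => by
      rw [hrho2]
      exact nl_fderiv_le hd z) hfn hgn hf hg hlf hlg
  rw [← hrhoC] at hA
  obtain ⟨hA1, hA2, hA3⟩ := hA
  have lA := nwr_lim hA1 hA2 hA3 (ψ.memLp (rhoE d) volume)
  -- second limit
  have hB1 : ∀ n, MemLp (fun x => nl d (cv (hk n) f x)) (rhoC d) volume := fun n =>
    (nl_holder hd (hfn n) hf).1
  have hB2 : MemLp (fun x => nl d (f x)) (rhoC d) volume := (nl_holder hd hf hf).1
  have hB3 : Tendsto (fun n => eLpNorm (fun x => nl d (cv (hk n) f x) - nl d (f x)) (rhoC d) volume)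
      atTop (𝓝 0) := by
    have hle : ∀ n, eLpNorm (fun x => nl d (cv (hk n) f x) - nl d (f x)) (rhoC d) volume ≤
        ENNReal.ofReal (1 + 4 / d) * (eLpNorm (fun x => cv (hk n) f x - f x) (rhoE d) volume +
          eLpNorm f (rhoE d) volume + eLpNorm f (rhoE d) volume) ^ ((4 : ℝ) / d) *
          eLpNorm (fun x => cv (hk n) f x - f x) (rhoE d) volume := by
      intro n
      refine (nl_holder hd (hfn n) hf).2.trans ?_
      refine mul_le_mul_left (mul_le_mul_right (ENNReal.rpow_le_rpow ?_ (by positivity)) _) _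
      refine add_le_add ?_ le_rfl
      have e : cv (hk n) f = fun x => (cv (hk n) f x - f x) + f x := by
        funext x
        ring
      calc eLpNorm (cv (hk n) f) (rhoE d) volume
          = eLpNorm (fun x => (cv (hk n) f x - f x) + f x) (rhoE d) volume := by rw [← e]
        _ ≤ _ := eLpNorm_add_le ((hfn n).sub hf).1 hf.1 hp
    have hlim : Tendsto (fun n => ENNReal.ofReal (1 + 4 / d) *
        (eLpNorm (fun x => cv (hk n) f x - f x) (rhoE d) volume +
          eLpNorm f (rhoE d) volume + eLpNorm f (rhoE d) volume) ^ ((4 : ℝ) / d) *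
          eLpNorm (fun x => cv (hk n) f x - f x) (rhoE d) volume) atTop (𝓝 0) := by
      have h1 := (hlf.add_const (eLpNorm f (rhoE d) volume)).add_const (eLpNorm f (rhoE d) volume)
      have hne : (0 + eLpNorm f (rhoE d) volume + eLpNorm f (rhoE d) volume) ^ ((4 : ℝ) / d) ≠ ⊤ :=
        ENNReal.rpow_ne_top_of_nonneg (by positivity) (by
          rw [zero_add]
          exact ENNReal.add_ne_top.2 ⟨hf.2.ne, hf.2.ne⟩)
      have h2 := ((ENNReal.continuous_rpow_const (y := (4 : ℝ) / d)).tendsto _).comp h1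
      have h3 := ENNReal.Tendsto.const_mul h2 (a := ENNReal.ofReal (1 + 4 / d))
        (Or.inr ENNReal.ofReal_ne_top)
      have h4 := ENNReal.Tendsto.mul h3 (Or.inr ENNReal.zero_ne_top) hlf
        (Or.inr (ENNReal.mul_ne_top ENNReal.ofReal_ne_top hne))
      rw [mul_zero] at h4
      exact h4
    exact tendsto_of_tendsto_of_tendsto_of_le_of_le tendsto_const_nhds hlim (fun n => zero_le) hle
  have lB := nwr_lim hB1 hB2 hB3 ((pd j ψ).memLp (rhoE d) volume)
  refine tendsto_nhds_unique lA ?_
  refine (lB.neg).congr fun n => ?_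
  exact (weak_comp_cv hp hf hg h (nl_contDiff hd) (hk n) ψ).symm

end MP3483
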