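import Pool.Agent.Lib_MP_3483a5_an.Base0

/-!
# MP_3483a5_an, piece PR

The pairing `L^p × L^{p'} → ℂ` is continuous: Hölder
(`|∫ conj f_n g_n - ∫ conj f g| ≤ ‖f_n - f‖_p ‖g_n‖_{p'} + ‖f‖_p ‖g_n - g‖_{p'}`, `‖g_n‖_{p'}` bounded).
`MemLp.integrable_mul` with `HolderConjugate` instance, `eLpNorm_smul_le_mul_eLpNorm` or similar.
-/

open MeasureTheory Filter Topology Complex SchwartzMap
open scoped FourierTransform LineDeriv Laplacian ENNReal NNReal ComplexConjugate

namespace MP3483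
variable {d : ℕ}

theorem pr_holder {p : ℝ} (hp : 1 < p) :
    ENNReal.HolderConjugate (ENNReal.ofReal p) (ENNReal.ofReal (p / (p - 1))) := by
  have h := Real.HolderConjugate.conjExponent hp
  exact h.ennrealOfReal

theorem pr_conj_memLp {X : Type*} [MeasurableSpace X] {μ : Measure X} {p : ℝ≥0∞} {f : X → ℂ}
    (hf : MemLp f p μ) : MemLp (fun x => conj (f x)) p μ := by
  have h : MemLp (fun x => (starL' ℝ : ℂ ≃L[ℝ] ℂ) (f x)) p μ := by
    exact (starL' ℝ : ℂ ≃L[ℝ] ℂ).toContinuousLinearMap.comp_memLp' hf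
  exact h

theorem pr_bound {X : Type*} [MeasurableSpace X] {μ : Measure X} {p : ℝ} (hp : 1 < p)
    {f g : X → ℂ} (hf : MemLp f (ENNReal.ofReal p) μ)
    (hg : MemLp g (ENNReal.ofReal (p / (p - 1))) μ) :
    Integrable (fun x => conj (f x) * g x) μ ∧
    ‖∫ x, conj (f x) * g x ∂μ‖ₑ ≤ eLpNorm f (ENNReal.ofReal p) μ *
      eLpNorm g (ENNReal.ofReal (p / (p - 1))) μ := by
  have := pr_holder hp
  refine ⟨(pr_conj_memLp hf).integrable_mul hg, ?_⟩
  calc ‖∫ x, conj (f x) * g x ∂μ‖ₑ ≤ ∫⁻ x, ‖conj (f x) * g x‖ₑ ∂μ :=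
        enorm_integral_le_lintegral_enorm _
    _ = eLpNorm (fun x => conj (f x) * g x) 1 μ := (eLpNorm_one_eq_lintegral_enorm).symm
    _ = eLpNorm ((fun x => conj (f x)) • g) 1 μ := rfl
    _ ≤ eLpNorm (fun x => conj (f x)) (ENNReal.ofReal p) μ *
        eLpNorm g (ENNReal.ofReal (p / (p - 1))) μ :=
        eLpNorm_smul_le_mul_eLpNorm hg.1 (pr_conj_memLp hf).1
    _ = _ := by
        congr 1
        refine eLpNorm_congr_norm_ae (ae_of_all _ fun x => ?_)
        exact RCLike.norm_conj _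

theorem pair_tendsto {X : Type*} [MeasurableSpace X] {μ : Measure X} {p : ℝ} (hp : 1 < p)
    {f g : ℕ → X → ℂ} {f' g' : X → ℂ} (hf : ∀ n, MemLp (f n) (ENNReal.ofReal p) μ)
    (hg : ∀ n, MemLp (g n) (ENNReal.ofReal (p / (p - 1))) μ) (hf' : MemLp f' (ENNReal.ofReal p) μ)
    (hg' : MemLp g' (ENNReal.ofReal (p / (p - 1))) μ)
    (hlf : Tendsto (fun n => eLpNorm (fun x => f n x - f' x) (ENNReal.ofReal p) μ) atTop (𝓝 0))
    (hlg : Tendsto (fun n => eLpNorm (fun x => g n x - g' x) (ENNReal.ofReal (p / (p - 1))) μ)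
      atTop (𝓝 0)) :
    (∀ n, Integrable (fun x => conj (f n x) * g n x) μ) ∧
    Integrable (fun x => conj (f' x) * g' x) μ ∧
    Tendsto (fun n => ∫ x, conj (f n x) * g n x ∂μ) atTop (𝓝 (∫ x, conj (f' x) * g' x ∂μ)) := by
  have hq : 1 ≤ ENNReal.ofReal (p / (p - 1)) := by
    rw [← ENNReal.ofReal_one]
    apply ENNReal.ofReal_le_ofReal
    rw [le_div_iff₀ (by linarith)]
    linarith
  refine ⟨fun n => (pr_bound hp (hf n) (hg n)).1, (pr_bound hp hf' hg').1, ?_⟩
  rw [tendsto_iff_edist_tendsto_0]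
  set a : ℕ → ℝ≥0∞ := fun n => eLpNorm (fun x => f n x - f' x) (ENNReal.ofReal p) μ with ha
  set b : ℕ → ℝ≥0∞ := fun n => eLpNorm (fun x => g n x - g' x) (ENNReal.ofReal (p / (p - 1))) μ
    with hb
  set A := eLpNorm f' (ENNReal.ofReal p) μ with hA
  set B := eLpNorm g' (ENNReal.ofReal (p / (p - 1))) μ with hB
  have hbound : ∀ n, edist (∫ x, conj (f n x) * g n x ∂μ) (∫ x, conj (f' x) * g' x ∂μ) ≤
      a n * (b n + B) + A * b n := by
    intro n
    have h1 := pr_bound hp ((hf n).sub hf') (hg n)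
    have h2 := pr_bound hp hf' ((hg n).sub hg')
    have h3 : (∫ x, conj (f n x) * g n x ∂μ) - (∫ x, conj (f' x) * g' x ∂μ) =
        (∫ x, conj ((f n - f') x) * g n x ∂μ) + ∫ x, conj (f' x) * (g n - g') x ∂μ := by
      rw [← integral_add h1.1 h2.1, ← integral_sub (pr_bound hp (hf n) (hg n)).1
        (pr_bound hp hf' hg').1]
      refine integral_congr_ae (ae_of_all _ fun x => ?_)
      simp only [Pi.sub_apply, map_sub]
      ring
    rw [edist_eq_enorm_sub, h3]
    refine (enorm_add_le _ _).trans (add_le_add (h1.2.trans ?_) h2.2)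
    refine mul_le_mul' le_rfl ?_
    calc eLpNorm (g n) (ENNReal.ofReal (p / (p - 1))) μ
        = eLpNorm ((fun x => g n x - g' x) + g') (ENNReal.ofReal (p / (p - 1))) μ := by
          congr 1; funext x; simp
      _ ≤ b n + B := eLpNorm_add_le ((hg n).sub hg').1 hg'.1 hq
  have hlim : Tendsto (fun n => a n * (b n + B) + A * b n) atTop (𝓝 0) := by
    have h1 : Tendsto (fun n => a n * (b n + B)) atTop (𝓝 (0 * (0 + B))) := by
      refine ENNReal.Tendsto.mul hlf (Or.inr ?_) (hlg.add tendsto_const_nhds) (Or.inr ?_)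
      · rw [zero_add]; exact hg'.2.ne
      · exact ENNReal.zero_ne_top
    have h2 : Tendsto (fun n => A * b n) atTop (𝓝 (A * 0)) :=
      ENNReal.Tendsto.const_mul hlg (Or.inr hf'.2.ne)
    have h3 := h1.add h2
    simpa using h3
  exact tendsto_of_tendsto_of_tendsto_of_le_of_le tendsto_const_nhds hlim (fun n => zero_le)
    hbound

end MP3483
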