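import Pool.Agent.Lib_MP_3483a5_an.OD
import Pool.Agent.Lib_MP_3483a5_an.FB
import Pool.Agent.Lib_MP_3483a5_an.IB
import Pool.Agent.Lib_MP_3483a5_an.AIT
import Pool.Agent.Lib_MP_3483a5_an.NWR
import Pool.Agent.Lib_MP_3483a5_an.DN
import Pool.Agent.Lib_MP_3483a5_an.M2
import Pool.Agent.Lib_MP_3483a5_an.NH
import Pool.Agent.Lib_MP_3483a5_an.PR

/-!
# MP_3483a5_an, piece EA1

Mollified kinetic energy identity.
Proof.  Write `φ = hk n`, `y t x = cv (pd j φ) (u t) x` (`= cv φ (Du t j) x` for `t ≥ 0`, `cv_partial_eq`) and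
`y' s x = -I cv (lap (pd j φ)) (u s) x - I cv (pd j φ) (nl ∘ u s) x`.  `ode` with the Schwartz function `pd j φ`
gives the hypotheses of `fub` with `Φ z = ‖z‖²/2`, `Φ' z = re ∘ (conj z ·)`.  Integrability on `muT`:
`y ∈ L²(muT) ∩ L^ρ(muT)`, `cv (lap..)(u) ∈ L²(muT)` (`memLp_two_T`, `young_T`), `cv (pd j φ)(nl∘u) ∈ L^{ρ'}(muT)`
(`nl_holder` on the space `ℝ × Sp d`, `young_T`), Hölder.  The first part of `∫ Re(conj y · y')` vanishes: for
every `s`, `ibp` with `N = id` and the Schwartz function `pd j φ` shows that `∫ conj(y) cv (lap (pd j φ)) (u s)` is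
minus a sum of integrals of squares, i.e. real, so `Re(-I · real) = 0`.  Second part: for a.e. `s`
(`strich_slices`) `nl_weak_rho` and `cv_partial_eq` give `cv (pd j φ)(nl ∘ u s) = cv φ (D nl(u s)[Du s j])`.
(Measurability: `u`, `Du` are jointly measurable, `fderiv ℝ (nl d)` is continuous.)
-/

open MeasureTheory Filter Topology Complex SchwartzMap
open scoped FourierTransform LineDeriv Laplacian ENNReal NNReal ComplexConjugate InnerProductSpace

namespace MP3483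
variable {d : ℕ}

theorem ea1_integrable {X : Type*} [MeasurableSpace X] {μ : Measure X} {f g : X → ℂ}
    (hf : MemLp f (rhoE d) μ) (hg : MemLp g (rhoC d) μ) :
    Integrable (fun x => conj (f x) * g x) μ := by
  have hp : 1 < rho d := by linarith [rho_ge_two d]
  have hC : rhoC d = ENNReal.ofReal (rho d / (rho d - 1)) := by
    unfold rhoC rho; congr 2; ring
  rw [hC] at hg
  have h0 : Tendsto (fun _ : ℕ => eLpNorm (fun x => f x - f x) (ENNReal.ofReal (rho d)) μ) atTop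
      (𝓝 0) := by simp
  have h1 : Tendsto (fun _ : ℕ => eLpNorm (fun x => g x - g x)
      (ENNReal.ofReal (rho d / (rho d - 1))) μ) atTop (𝓝 0) := by simp
  exact (pair_tendsto hp (fun _ => hf) (fun _ => hg) hf hg h0 h1).2.1

theorem ea1_one_le_rhoE (d : ℕ) : 1 ≤ rhoE d := by
  unfold rhoE
  rw [← ENNReal.ofReal_one]
  exact ENNReal.ofReal_le_ofReal (by linarith [rho_ge_two d])

theorem ea1_one_le_rhoC (d : ℕ) : 1 ≤ rhoC d := by
  unfold rhoC rho
  rw [← ENNReal.ofReal_one]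
  refine ENNReal.ofReal_le_ofReal ?_
  have : (0 : ℝ) ≤ 4 / d := by positivity
  rw [le_div_iff₀ (by linarith)]
  linarith

theorem ea1_real {f : Sp d → ℂ} (hf : MemLp f 2 volume) (ψ : 𝓢(Sp d, ℂ)) :
    (∫ x, conj (cv ψ f x) * cv (lap ψ) f x).im = 0 := by
  have h := ibp hf (N := fun z => z) contDiff_id rfl (C := 1) (fun z => by
    rw [fderiv_fun_id]
    exact ContinuousLinearMap.norm_id_le) ψ
  rw [h, Complex.neg_im, Complex.im_sum]
  rw [Finset.sum_eq_zero, neg_zero]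
  intro k _
  have h1 : ∀ x, conj (fderiv ℝ (fun z : ℂ => z) (cv ψ f x) (cv (pd k ψ) f x)) *
      cv (pd k ψ) f x = ((‖cv (pd k ψ) f x‖ ^ 2 : ℝ) : ℂ) := by
    intro x
    rw [fderiv_fun_id, ContinuousLinearMap.id_apply, mul_comm, Complex.mul_conj,
      Complex.normSq_eq_norm_sq]
  simp_rw [h1]
  have h2 : ∫ x, ((‖cv (pd k ψ) f x‖ ^ 2 : ℝ) : ℂ) =
      ((∫ x, ‖cv (pd k ψ) f x‖ ^ 2 : ℝ) : ℂ) := integral_ofReal
  rw [h2]
  exact Complex.ofReal_im _

theorem energy_A_n (hd : 1 ≤ d) {u : ℝ → Sp d → ℂ} {Du : ℝ → Fin d → Sp d → ℂ}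
    (hu : H1Path (Set.Ici 0) u Du) (hS : Strich u Du) (hsol : Solves (fun _ => -1) (Set.Ici 0) u)
    {T : ℝ} (hT : 0 < T) (j : Fin d) (n : ℕ) :
    (1 / 2) * (∫ x, ‖cv (hk n) (Du T j) x‖ ^ 2) - (1 / 2) * ∫ x, ‖cv (hk n) (Du 0 j) x‖ ^ 2 =
      ∫ q : ℝ × Sp d, (-Complex.I * (conj (cv (hk n) (Du q.1 j) q.2) *
        cv (hk n) (fun y => fderiv ℝ (nl d) (u q.1 y) (Du q.1 j y)) q.2)).re ∂(muT d T) := by
  set φ : 𝓢(Sp d, ℂ) := hk n with hφ
  set ψ : 𝓢(Sp d, ℂ) := pd j φ with hψ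
  have hu2 := memLp_two_T hu hT
  obtain ⟨huρ, hDρ⟩ := hS T hT
  have hρ1 := ea1_one_le_rhoE d
  have hρ1' := ea1_one_le_rhoC d
  have hρt : rhoE d ≠ ⊤ := ENNReal.ofReal_ne_top
  have hρt' : rhoC d ≠ ⊤ := ENNReal.ofReal_ne_top
  have hnlm : Measurable (nl d) := (nl_contDiff hd).continuous.measurable
  have hDnlc : Continuous (fun z : ℂ => fderiv ℝ (nl d) z) :=
    (nl_contDiff hd).continuous_fderiv one_ne_zero
  have hnl : MemLp (fun q : ℝ × Sp d => nl d (u q.1 q.2)) (rhoC d) (muT d T) :=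
    (nl_holder hd huρ huρ).1
  -- convolutions in space time
  have hy2 : MemLp (fun q : ℝ × Sp d => cv ψ (u q.1) q.2) 2 (muT d T) :=
    (young_T one_le_two (by norm_num) hu.meas hu2 ψ).2
  have hym : Measurable (fun q : ℝ × Sp d => cv ψ (u q.1) q.2) :=
    (young_T one_le_two (by norm_num) hu.meas hu2 ψ).1
  have hyρ : MemLp (fun q : ℝ × Sp d => cv ψ (u q.1) q.2) (rhoE d) (muT d T) :=
    (young_T hρ1 hρt hu.meas huρ ψ).2
  have ha2 : MemLp (fun q : ℝ × Sp d => cv (lap ψ) (u q.1) q.2) 2 (muT d T) :=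
    (young_T one_le_two (by norm_num) hu.meas hu2 (lap ψ)).2
  have hbρ : MemLp (fun q : ℝ × Sp d => cv ψ (fun y => nl d (u q.1 y)) q.2) (rhoC d)
      (muT d T) := (young_T hρ1' hρt' (hnlm.comp hu.meas) hnl ψ).2
  have i1 : Integrable (fun q : ℝ × Sp d => conj (cv ψ (u q.1) q.2) * cv (lap ψ) (u q.1) q.2)
      (muT d T) := by
    have hc : MemLp (fun q : ℝ × Sp d => conj (cv ψ (u q.1) q.2)) 2 (muT d T) :=
      hy2.star
    exact hc.integrable_mul ha2
  have i2 : Integrable (fun q : ℝ × Sp d => conj (cv ψ (u q.1) q.2) *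
      cv ψ (fun y => nl d (u q.1 y)) q.2) (muT d T) := ea1_integrable hyρ hbρ
  -- the first term vanishes
  have z1 : ∫ q : ℝ × Sp d, (-Complex.I * (conj (cv ψ (u q.1) q.2) *
      cv (lap ψ) (u q.1) q.2)).re ∂(muT d T) = 0 := by
    have e1 : ∫ q : ℝ × Sp d, (-Complex.I * (conj (cv ψ (u q.1) q.2) *
        cv (lap ψ) (u q.1) q.2)).re ∂(muT d T) =
        (∫ q : ℝ × Sp d, (conj (cv ψ (u q.1) q.2) * cv (lap ψ) (u q.1) q.2) ∂(muT d T)).im := by
      rw [← Complex.imCLM_apply, ← ContinuousLinearMap.integral_comp_comm _ i1]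
      refine integral_congr_ae (Eventually.of_forall fun q => ?_)
      simp [Complex.mul_re]
    rw [e1]
    unfold muT at i1 ⊢
    rw [integral_prod _ i1]
    have i1' := i1.integral_prod_left
    rw [← Complex.imCLM_apply, ← ContinuousLinearMap.integral_comp_comm _ i1']
    have e2 : ∀ s ∈ Set.Icc (0 : ℝ) T, Complex.imCLM
        (∫ x, conj (cv ψ (u (s, x).1) (s, x).2) * cv (lap ψ) (u (s, x).1) (s, x).2) = 0 := by
      intro s hs
      exact ea1_real (hu.isH1 s hs.1).memLp ψ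
    rw [setIntegral_congr_fun measurableSet_Icc e2]
    simp
  -- the second term
  have hsl := strich_slices hS hT
  have hfst : ∀ᵐ q ∂(muT d T), (q.1 ∈ Set.Icc (0 : ℝ) T) ∧ MemLp (u q.1) (rhoE d) volume ∧
      ∀ j, MemLp (Du q.1 j) (rhoE d) volume := by
    have h1 : ∀ᵐ s ∂(volume.restrict (Set.Icc (0 : ℝ) T)), s ∈ Set.Icc (0 : ℝ) T ∧
        MemLp (u s) (rhoE d) volume ∧ ∀ j, MemLp (Du s j) (rhoE d) volume := by
      filter_upwards [hsl, ae_restrict_mem measurableSet_Icc] with s h2 h3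
      exact ⟨h3, h2⟩
    exact Measure.quasiMeasurePreserving_fst.ae h1
  have z2 : ∫ q : ℝ × Sp d, (-Complex.I * (conj (cv ψ (u q.1) q.2) *
      cv ψ (fun y => nl d (u q.1 y)) q.2)).re ∂(muT d T) =
      ∫ q : ℝ × Sp d, (-Complex.I * (conj (cv φ (Du q.1 j) q.2) *
        cv φ (fun y => fderiv ℝ (nl d) (u q.1 y) (Du q.1 j y)) q.2)).re ∂(muT d T) := by
    refine integral_congr_ae ?_
    filter_upwards [hfst] with q hq
    obtain ⟨h1, h2, h3⟩ := hq
    have h4 := hu.isH1 q.1 h1.1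
    have h5 : cv ψ (u q.1) q.2 = cv φ (Du q.1 j) q.2 :=
      cv_partial_eq one_le_two one_le_two h4.memLp (h4.memLpD j) (h4.weak j) φ q.2
    have h6 : cv ψ (fun y => nl d (u q.1 y)) q.2 =
        cv φ (fun y => fderiv ℝ (nl d) (u q.1 y) (Du q.1 j y)) q.2 :=
      cv_partial_eq hρ1' hρ1' (nl_holder hd h2 h2).1 (dn_memLp hd h2 (h3 j))
        (nl_weak_rho hd h2 (h3 j) (h4.weak j)) φ q.2
    simp only [h5, h6]
  -- the fundamental theorem
  have hint : Integrable (fun q : ℝ × Sp d => innerSL ℝ (cv ψ (u q.1) q.2)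
      (-Complex.I * cv (lap ψ) (u q.1) q.2 - Complex.I * cv ψ (fun y => nl d (u q.1 y)) q.2))
      (muT d T) := by
    have h1 := (((i1.const_mul (-Complex.I)).add (i2.const_mul (-Complex.I))).re)
    refine h1.congr (Eventually.of_forall fun q => ?_)
    simp only [innerSL_apply_apply, Complex.inner, Pi.add_apply, RCLike.re_eq_complex_re]
    congr 1
    ring
  have hdiffΦ : ∀ z : ℂ, HasFDerivAt (fun z : ℂ => (1 / 2 : ℝ) * ‖z‖ ^ 2) (innerSL ℝ z) z := by
    intro z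
    have h1 := (hasStrictFDerivAt_norm_sq z).hasFDerivAt.const_mul (1 / 2 : ℝ)
    have e : (1 / 2 : ℝ) • (2 : ℕ) • (innerSL ℝ z : ℂ →L[ℝ] ℝ) = innerSL ℝ z := by
      ext w
      simp
      ring
    exact e ▸ h1
  have hLint : ∀ t, 0 ≤ t → Integrable (fun x => (1 / 2 : ℝ) * ‖cv ψ (u t) x‖ ^ 2) volume := by
    intro t ht
    have h1 := (young one_le_two (hu.isH1 t ht).memLp ψ).1
    exact ((memLp_two_iff_integrable_sq_norm h1.1).1 h1).const_mul _
  have hfub := fub hT (fun t x => cv ψ (u t) x)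
    (fun s x => -Complex.I * cv (lap ψ) (u s) x - Complex.I * cv ψ (fun y => nl d (u s y)) x)
    (fun z => (1 / 2 : ℝ) * ‖z‖ ^ 2) (fun z => innerSL ℝ z) hdiffΦ (innerSL ℝ).continuous
    (fun x t ht => (ode hd hu hsol ψ x).1 t ht.1)
    (fun x => (ode hd hu hsol ψ x).2.mono fun t ht => ht.1) hint (hLint 0 le_rfl)
    (hLint T hT.le)
  have e3 : ∀ t, 0 ≤ t → ∫ x, (1 / 2 : ℝ) * ‖cv ψ (u t) x‖ ^ 2 =
      (1 / 2) * ∫ x, ‖cv φ (Du t j) x‖ ^ 2 := by
    intro t ht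
    rw [integral_const_mul]
    congr 1
    refine integral_congr_ae (Eventually.of_forall fun x => ?_)
    have h4 := hu.isH1 t ht
    have h5 : cv ψ (u t) x = cv φ (Du t j) x :=
      cv_partial_eq one_le_two one_le_two h4.memLp (h4.memLpD j) (h4.weak j) φ x
    simp only [h5]
  rw [e3 T hT.le, e3 0 le_rfl] at hfub
  rw [hfub, ← z2, ← zero_add (∫ q : ℝ × Sp d, (-Complex.I * (conj (cv ψ (u q.1) q.2) *
      cv ψ (fun y => nl d (u q.1 y)) q.2)).re ∂(muT d T)), ← z1, ← integral_add]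
  · refine integral_congr_ae (Eventually.of_forall fun q => ?_)
    simp only [innerSL_apply_apply, Complex.inner]
    rw [← Complex.add_re]
    congr 1
    ring
  · exact (i1.const_mul (-Complex.I)).re
  · exact (i2.const_mul (-Complex.I)).re

end MP3483
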