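import Pool.Agent.Lib_MP_3483a5_an.EA1
import Pool.Agent.Lib_MP_3483a5_an.PR

/-!
# MP_3483a5_an, piece EA2

Limit `n → ∞` in `energy_A_n`.
Proof.  Left side: `cv (hk n) (Du T j) → Du T j` in `L²` (`approx_id`), norms converge.  Right side:
`cv (hk n) (Du · j) → Du · j` in `L^ρ(muT)` and `cv (hk n) (D nl(u)[Du j]) → D nl(u)[Du j]` in `L^{ρ'}(muT)`
(`approx_id_T`, `dn_memLp`; measurability: `fderiv ℝ (nl d)` continuous), then `pair_tendsto` with `p = rho d`
(`rho d - 1 = 1 + 4/d`), and take `Re(-I ·)`.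
-/

open MeasureTheory Filter Topology Complex SchwartzMap
open scoped FourierTransform LineDeriv Laplacian ENNReal NNReal ComplexConjugate

namespace MP3483
variable {d : ℕ}

theorem ea2_norm_tendsto {X : Type*} [MeasurableSpace X] {μ : Measure X} {p : ℝ≥0∞} (hp : 1 ≤ p)
    {f : ℕ → X → ℂ} {f' : X → ℂ} (hf : ∀ n, MemLp (f n) p μ) (hf' : MemLp f' p μ)
    (hl : Tendsto (fun n => eLpNorm (fun x => f n x - f' x) p μ) atTop (𝓝 0)) :
    Tendsto (fun n => (eLpNorm (f n) p μ).toReal) atTop (𝓝 (eLpNorm f' p μ).toReal) := by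
  have h1 : Tendsto (fun n => (eLpNorm (fun x => f n x - f' x) p μ).toReal) atTop (𝓝 0) := by
    have := (ENNReal.tendsto_toReal ENNReal.zero_ne_top).comp hl
    simpa [Function.comp_def] using this
  rw [tendsto_iff_dist_tendsto_zero]
  refine squeeze_zero (fun n => dist_nonneg) (fun n => ?_) h1
  have hd : MemLp (fun x => f n x - f' x) p μ := (hf n).sub hf'
  rw [Real.dist_eq, abs_le]
  constructor
  · have h2 : eLpNorm f' p μ ≤ eLpNorm (f n) p μ + eLpNorm (fun x => f n x - f' x) p μ := by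
      have h3 := eLpNorm_sub_le (hf n).1 hd.1 hp
      have h4 : (f n - fun x => f n x - f' x) = f' := by
        funext x; simp
      rwa [h4] at h3
    have h5 := ENNReal.toReal_mono (ENNReal.add_ne_top.2 ⟨(hf n).2.ne, hd.2.ne⟩) h2
    rw [ENNReal.toReal_add (hf n).2.ne hd.2.ne] at h5
    linarith
  · have h2 : eLpNorm (f n) p μ ≤ eLpNorm f' p μ + eLpNorm (fun x => f n x - f' x) p μ := by
      have h3 := eLpNorm_add_le hf'.1 hd.1 hp
      have h4 : (f' + fun x => f n x - f' x) = f n := by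
        funext x; simp
      rwa [h4] at h3
    have h5 := ENNReal.toReal_mono (ENNReal.add_ne_top.2 ⟨hf'.2.ne, hd.2.ne⟩) h2
    rw [ENNReal.toReal_add hf'.2.ne hd.2.ne] at h5
    linarith

theorem ea2_sq_tendsto {X : Type*} [MeasurableSpace X] {μ : Measure X}
    {f : ℕ → X → ℂ} {f' : X → ℂ} (hf : ∀ n, MemLp (f n) 2 μ) (hf' : MemLp f' 2 μ)
    (hl : Tendsto (fun n => eLpNorm (fun x => f n x - f' x) 2 μ) atTop (𝓝 0)) :
    Tendsto (fun n => ∫ x, ‖f n x‖ ^ 2 ∂μ) atTop (𝓝 (∫ x, ‖f' x‖ ^ 2 ∂μ)) := by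
  have h := (ea2_norm_tendsto one_le_two hf hf' hl).pow 2
  rw [int_sq_eq hf']
  refine h.congr fun n => ?_
  rw [int_sq_eq (hf n)]

theorem energy_A (hd : 1 ≤ d) {u : ℝ → Sp d → ℂ} {Du : ℝ → Fin d → Sp d → ℂ}
    (hu : H1Path (Set.Ici 0) u Du) (hS : Strich u Du) (hsol : Solves (fun _ => -1) (Set.Ici 0) u)
    {T : ℝ} (hT : 0 < T) (j : Fin d) :
    (1 / 2) * (∫ x, ‖Du T j x‖ ^ 2) - (1 / 2) * ∫ x, ‖Du 0 j x‖ ^ 2 =
      ∫ q : ℝ × Sp d, (-Complex.I * (conj (Du q.1 j q.2) *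
        fderiv ℝ (nl d) (u q.1 q.2) (Du q.1 j q.2))).re ∂(muT d T) := by
  obtain ⟨huρ, hDρ⟩ := hS T hT
  have hρ1 := ea1_one_le_rhoE d
  have hρ1' := ea1_one_le_rhoC d
  have hρt : rhoE d ≠ ⊤ := ENNReal.ofReal_ne_top
  have hρt' : rhoC d ≠ ⊤ := ENNReal.ofReal_ne_top
  have hDnlc : Continuous (fun z : ℂ => fderiv ℝ (nl d) z) :=
    (nl_contDiff hd).continuous_fderiv one_ne_zero
  have hp : 1 < rho d := by linarith [rho_ge_two d]
  have hC : rhoC d = ENNReal.ofReal (rho d / (rho d - 1)) := by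
    unfold rhoC rho; congr 2; ring
  have hL : ∀ t, 0 ≤ t → Tendsto (fun n => ∫ x, ‖cv (hk n) (Du t j) x‖ ^ 2) atTop
      (𝓝 (∫ x, ‖Du t j x‖ ^ 2)) := by
    intro t ht
    have h1 := (hu.isH1 t ht).memLpD j
    exact ea2_sq_tendsto (fun n => (young one_le_two h1 (hk n)).1) h1
      (approx_id one_le_two (by norm_num) h1)
  have hleft := ((hL T hT.le).const_mul (1 / 2)).sub ((hL 0 le_rfl).const_mul (1 / 2))
  have hDNm : Measurable (fun q : ℝ × Sp d =>
      fderiv ℝ (nl d) (u q.1 q.2) (Du q.1 j q.2)) := by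
    have hc : Continuous (fun z : ℂ × ℂ => fderiv ℝ (nl d) z.1 z.2) :=
      (hDnlc.comp continuous_fst).clm_apply continuous_snd
    exact hc.measurable.comp (hu.meas.prodMk (hu.measD j))
  have hDN : MemLp (fun q : ℝ × Sp d => fderiv ℝ (nl d) (u q.1 q.2) (Du q.1 j q.2)) (rhoC d)
      (muT d T) := dn_memLp hd huρ (hDρ j)
  have hf := fun n => (young_T hρ1 hρt (hu.measD j) (hDρ j) (hk n)).2
  have hg := fun n => (young_T hρ1' hρt' hDNm hDN (hk n)).2
  have hlf := approx_id_T hρ1 hρt (hu.measD j) (hDρ j)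
  have hlg := approx_id_T hρ1' hρt' hDNm hDN
  rw [hC] at hg hlg hDN
  obtain ⟨hi1, hi2, hi3⟩ := pair_tendsto hp hf hg (hDρ j) hDN hlf hlg
  have hright : Tendsto (fun n => ∫ q : ℝ × Sp d, (-Complex.I * (conj (cv (hk n) (Du q.1 j) q.2) *
        cv (hk n) (fun y => fderiv ℝ (nl d) (u q.1 y) (Du q.1 j y)) q.2)).re ∂(muT d T)) atTop
      (𝓝 (∫ q : ℝ × Sp d, (-Complex.I * (conj (Du q.1 j q.2) *
        fderiv ℝ (nl d) (u q.1 q.2) (Du q.1 j q.2))).re ∂(muT d T))) := by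
    have h1 := (Complex.continuous_re.tendsto _).comp (hi3.const_mul (-Complex.I))
    have e1 : (-Complex.I * ∫ q : ℝ × Sp d, (conj (Du q.1 j q.2) *
        fderiv ℝ (nl d) (u q.1 q.2) (Du q.1 j q.2)) ∂(muT d T)).re =
        ∫ q : ℝ × Sp d, (-Complex.I * (conj (Du q.1 j q.2) *
        fderiv ℝ (nl d) (u q.1 q.2) (Du q.1 j q.2))).re ∂(muT d T) := by
      rw [← integral_const_mul, ← Complex.reCLM_apply,
        ← ContinuousLinearMap.integral_comp_comm _ (hi2.const_mul (-Complex.I))]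
      rfl
    rw [← e1]
    refine h1.congr fun n => ?_
    simp only [Function.comp_def]
    rw [← integral_const_mul, ← Complex.reCLM_apply,
      ← ContinuousLinearMap.integral_comp_comm _ ((hi1 n).const_mul (-Complex.I))]
    rfl
  refine tendsto_nhds_unique hleft (hright.congr fun n => ?_)
  exact (energy_A_n hd hu hS hsol hT j n).symm

end MP3483
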