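import Pool.Agent.Lib_MP_3483a5_an.Base0

/-!
# MP_3483a5_an, piece NC

Continuity of `(f,g) ↦ T(f)[g]`, `L^p × L^p → L^{p/(p-1)}`, when `T` is continuous with
`‖T z‖ ≤ C‖z‖^{p-2}`.
Proof.  `|T(f)g|^{p'} ≤ C^{p'} (|f|^{p-2}|g|)^{p'} ≤ C^{p'}(|f|^p + |g|^p)` as `p' = p/(p-1)` (if `m = max(|f|,|g|)`,
`(m^{p-1})^{p'} = m^p`): membership.  Convergence: it is enough to show that every subsequence has a
further subsequence along which the claim holds (`tendsto_of_subseq_tendsto`); convergence in `L^p`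
implies convergence in measure, hence a.e. along a subsequence
(`tendstoInMeasure_of_tendsto_eLpNorm`, `TendstoInMeasure.exists_seq_tendsto_ae`).  Along it
`h_n = |T(f_n)g_n - T(f)g|^{p'} → 0` a.e. and `h_n ≤ k + e_n` with `k = K (|f|^p + |g|^p)` and
`e_n = K (|f_n - f|^p + |g_n - g|^p)`, so `h_n ≤ min(h_n, k) + e_n`: dominated convergence for the first
term, and `∫ e_n → 0`.
-/

open MeasureTheory Filter Topology Complex SchwartzMap
open scoped FourierTransform LineDeriv Laplacian ENNReal NNReal ComplexConjugate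

namespace MP3483
variable {d : ℕ}

theorem nem_pt {p : ℝ} (hp : 2 < p) {T : ℂ → ℂ →L[ℝ] ℂ} {C : ℝ}
    (hC : ∀ z, ‖T z‖ ≤ C * ‖z‖ ^ (p - 2)) (z w z' w' : ℂ) :
    ‖T z w - T z' w'‖ ^ (p / (p - 1)) ≤ ((2 * |C|) ^ (p / (p - 1)) * 2 ^ p) *
      (‖z'‖ ^ p + ‖w'‖ ^ p + (‖z - z'‖ ^ p + ‖w - w'‖ ^ p)) := by
  have hp1 : 0 < p - 1 := by linarith
  have hP : 0 < p / (p - 1) := div_pos (by linarith) hp1
  set m : ℝ := max (max ‖z'‖ ‖w'‖) (max ‖z - z'‖ ‖w - w'‖) with hm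
  have m1 : ‖z'‖ ≤ m := (le_max_left _ _).trans (le_max_left _ _)
  have m2 : ‖w'‖ ≤ m := (le_max_right _ _).trans (le_max_left _ _)
  have m3 : ‖z - z'‖ ≤ m := (le_max_left _ _).trans (le_max_right _ _)
  have m4 : ‖w - w'‖ ≤ m := (le_max_right _ _).trans (le_max_right _ _)
  have m0 : 0 ≤ m := (norm_nonneg _).trans m1
  have hz : ‖z‖ ≤ 2 * m := by
    have : z = (z - z') + z' := by ring
    rw [this]
    exact (norm_add_le _ _).trans (by linarith)
  have hw : ‖w‖ ≤ 2 * m := by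
    have : w = (w - w') + w' := by ring
    rw [this]
    exact (norm_add_le _ _).trans (by linarith)
  have key : ∀ a b : ℂ, ‖a‖ ≤ 2 * m → ‖b‖ ≤ 2 * m → ‖T a b‖ ≤ |C| * (2 * m) ^ (p - 1) := by
    intro a b ha hb
    have h1 : (2 * m) ^ (p - 1) = (2 * m) ^ (p - 2) * (2 * m) := by
      have h2 := Real.rpow_add_one' (x := 2 * m) (y := p - 2) (by positivity) (by linarith)
      rw [← h2]
      congr 1
      ring
    have h3 : ‖a‖ ^ (p - 2) ≤ (2 * m) ^ (p - 2) :=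
      Real.rpow_le_rpow (norm_nonneg _) ha (by linarith)
    have h4 : ‖T a‖ ≤ |C| * (2 * m) ^ (p - 2) :=
      (hC a).trans (mul_le_mul (le_abs_self C) h3 (Real.rpow_nonneg (norm_nonneg _) _)
        (abs_nonneg C))
    rw [h1, ← mul_assoc]
    refine ((T a).le_opNorm b).trans ?_
    exact mul_le_mul h4 hb (norm_nonneg _) (by positivity)
  have h5 : ‖T z w - T z' w'‖ ≤ (2 * |C|) * (2 * m) ^ (p - 1) := by
    refine (norm_sub_le _ _).trans ?_
    have e1 := key z w hz hw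
    have e2 := key z' w' (by linarith) (by linarith)
    linarith
  have h6 := Real.rpow_le_rpow (norm_nonneg _) h5 hP.le
  have h7 : (2 * |C| * (2 * m) ^ (p - 1)) ^ (p / (p - 1)) =
      ((2 * |C|) ^ (p / (p - 1)) * 2 ^ p) * m ^ p := by
    rw [Real.mul_rpow (by positivity) (by positivity), ← Real.rpow_mul (by positivity)]
    have e : (p - 1) * (p / (p - 1)) = p := by field_simp
    rw [e, Real.mul_rpow (by norm_num) m0, mul_assoc]
  rw [h7] at h6
  refine h6.trans (mul_le_mul_of_nonneg_left ?_ (by positivity))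
  have n1 : 0 ≤ ‖z'‖ ^ p := Real.rpow_nonneg (norm_nonneg _) _
  have n2 : 0 ≤ ‖w'‖ ^ p := Real.rpow_nonneg (norm_nonneg _) _
  have n3 : 0 ≤ ‖z - z'‖ ^ p := Real.rpow_nonneg (norm_nonneg _) _
  have n4 : 0 ≤ ‖w - w'‖ ^ p := Real.rpow_nonneg (norm_nonneg _) _
  rcases max_choice (max ‖z'‖ ‖w'‖) (max ‖z - z'‖ ‖w - w'‖) with h | h
  · rcases max_choice ‖z'‖ ‖w'‖ with h' | h'
    · rw [hm, h, h']; linarith
    · rw [hm, h, h']; linarith
  · rcases max_choice ‖z - z'‖ ‖w - w'‖ with h' | h'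
    · rw [hm, h, h']; linarith
    · rw [hm, h, h']; linarith

theorem nem_cont {T : ℂ → ℂ →L[ℝ] ℂ} (hT : Continuous T) :
    Continuous (fun q : ℂ × ℂ => T q.1 q.2) :=
  (hT.comp continuous_fst).clm_apply continuous_snd

theorem nem_mem {X : Type*} [MeasurableSpace X] {μ : Measure X} {p : ℝ} (hp : 2 < p)
    {T : ℂ → ℂ →L[ℝ] ℂ} (hT : Continuous T) {C : ℝ} (hC : ∀ z, ‖T z‖ ≤ C * ‖z‖ ^ (p - 2))
    {f g : X → ℂ} (hf : MemLp f (ENNReal.ofReal p) μ) (hg : MemLp g (ENNReal.ofReal p) μ) :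
    MemLp (fun x => T (f x) (g x)) (ENNReal.ofReal (p / (p - 1))) μ := by
  have hp1 : 0 < p - 1 := by linarith
  have hp0 : 0 < p := by linarith
  have hP : 0 < p / (p - 1) := div_pos hp0 hp1
  have hmeas : AEStronglyMeasurable (fun x => T (f x) (g x)) μ :=
    (nem_cont hT).comp_aestronglyMeasurable (hf.1.prodMk hg.1)
  have h1 := (integrable_norm_rpow_iff hmeas (p := ENNReal.ofReal (p / (p - 1)))
    (by simpa using hP) ENNReal.ofReal_ne_top)
  rw [← h1, ENNReal.toReal_ofReal hP.le]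
  have h2 := (integrable_norm_rpow_iff hf.1 (p := ENNReal.ofReal p) (by simpa using hp0)
    ENNReal.ofReal_ne_top).2 hf
  have h3 := (integrable_norm_rpow_iff hg.1 (p := ENNReal.ofReal p) (by simpa using hp0)
    ENNReal.ofReal_ne_top).2 hg
  rw [ENNReal.toReal_ofReal hp0.le] at h2 h3
  refine ((h2.add h3).const_mul ((2 * |C|) ^ (p / (p - 1)) * 2 ^ p)).mono'
    (hmeas.norm.aemeasurable.pow_const _).aestronglyMeasurable (Eventually.of_forall fun x => ?_)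
  rw [Real.norm_of_nonneg (Real.rpow_nonneg (norm_nonneg _) _)]
  have h4 := nem_pt hp hC (f x) (g x) 0 0
  simp only [sub_zero, norm_zero, map_zero, Real.zero_rpow hp0.ne', zero_add] at h4
  exact h4

theorem nem_int_tendsto {X : Type*} [MeasurableSpace X] {μ : Measure X} {p : ℝ} (hp : 0 < p)
    {f : ℕ → X → ℂ} (hf : ∀ n, MemLp (f n) (ENNReal.ofReal p) μ) :
    Tendsto (fun n => eLpNorm (f n) (ENNReal.ofReal p) μ) atTop (𝓝 0) ↔
      Tendsto (fun n => ∫ x, ‖f n x‖ ^ p ∂μ) atTop (𝓝 0) := by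
  constructor
  · intro h
    have h1 := (ENNReal.tendsto_toReal ENNReal.zero_ne_top).comp h
    have h2 := ((Real.continuous_rpow_const hp.le).tendsto ((0 : ℝ≥0∞).toReal)).comp h1
    rw [ENNReal.toReal_zero, Real.zero_rpow hp.ne'] at h2
    refine h2.congr fun n => ?_
    simp only [Function.comp_apply]
    exact (int_rpow_eq hp (hf n)).symm
  · intro h
    have h1 : ∀ n, eLpNorm (f n) (ENNReal.ofReal p) μ =
        ENNReal.ofReal ((∫ x, ‖f n x‖ ^ p ∂μ) ^ p⁻¹) := by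
      intro n
      rw [(hf n).eLpNorm_eq_integral_rpow_norm (by simpa using hp) ENNReal.ofReal_ne_top,
        ENNReal.toReal_ofReal hp.le]
    simp only [h1]
    have h2 := ((Real.continuous_rpow_const (inv_pos.2 hp).le).tendsto 0).comp h
    rw [Real.zero_rpow (inv_pos.2 hp).ne'] at h2
    have h3 := (ENNReal.continuous_ofReal.tendsto 0).comp h2
    rw [ENNReal.ofReal_zero] at h3
    exact h3

theorem nemytskii {X : Type*} [MeasurableSpace X] {μ : Measure X} {p : ℝ} (hp : 2 < p)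
    {T : ℂ → ℂ →L[ℝ] ℂ} (hT : Continuous T) {C : ℝ} (hC : ∀ z, ‖T z‖ ≤ C * ‖z‖ ^ (p - 2))
    {f g : ℕ → X → ℂ} {f' g' : X → ℂ} (hf : ∀ n, MemLp (f n) (ENNReal.ofReal p) μ)
    (hg : ∀ n, MemLp (g n) (ENNReal.ofReal p) μ) (hf' : MemLp f' (ENNReal.ofReal p) μ)
    (hg' : MemLp g' (ENNReal.ofReal p) μ)
    (hlf : Tendsto (fun n => eLpNorm (fun x => f n x - f' x) (ENNReal.ofReal p) μ) atTop (𝓝 0))
    (hlg : Tendsto (fun n => eLpNorm (fun x => g n x - g' x) (ENNReal.ofReal p) μ) atTop (𝓝 0)) :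
    (∀ n, MemLp (fun x => T (f n x) (g n x)) (ENNReal.ofReal (p / (p - 1))) μ) ∧
    MemLp (fun x => T (f' x) (g' x)) (ENNReal.ofReal (p / (p - 1))) μ ∧
    Tendsto (fun n => eLpNorm (fun x => T (f n x) (g n x) - T (f' x) (g' x))
      (ENNReal.ofReal (p / (p - 1))) μ) atTop (𝓝 0) := by
  have hp1 : 0 < p - 1 := by linarith
  have hp0 : 0 < p := by linarith
  have hP : 0 < p / (p - 1) := div_pos hp0 hp1
  have hpne : ENNReal.ofReal p ≠ 0 := by simpa using hp0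
  have hmem : ∀ n, MemLp (fun x => T (f n x) (g n x)) (ENNReal.ofReal (p / (p - 1))) μ :=
    fun n => nem_mem hp hT hC (hf n) (hg n)
  have hmem' : MemLp (fun x => T (f' x) (g' x)) (ENNReal.ofReal (p / (p - 1))) μ :=
    nem_mem hp hT hC hf' hg'
  refine ⟨hmem, hmem', ?_⟩
  have hsub : ∀ n, MemLp (fun x => T (f n x) (g n x) - T (f' x) (g' x))
      (ENNReal.ofReal (p / (p - 1))) μ := fun n => (hmem n).sub hmem'
  rw [nem_int_tendsto hP hsub]
  have hfs : ∀ n, MemLp (fun x => f n x - f' x) (ENNReal.ofReal p) μ := fun n => (hf n).sub hf'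
  have hgs : ∀ n, MemLp (fun x => g n x - g' x) (ENNReal.ofReal p) μ := fun n => (hg n).sub hg'
  have hlf' := (nem_int_tendsto hp0 hfs).1 hlf
  have hlg' := (nem_int_tendsto hp0 hgs).1 hlg
  set K : ℝ := (2 * |C|) ^ (p / (p - 1)) * 2 ^ p with hK
  have hK0 : 0 ≤ K := by positivity
  have ir : ∀ {u : X → ℂ} {r : ℝ}, 0 < r → MemLp u (ENNReal.ofReal r) μ →
      Integrable (fun x => ‖u x‖ ^ r) μ := by
    intro u r hr hu
    have h2 := (integrable_norm_rpow_iff hu.1 (p := ENNReal.ofReal r) (by simpa using hr)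
      ENNReal.ofReal_ne_top).2 hu
    rwa [ENNReal.toReal_ofReal hr.le] at h2
  have hk : Integrable (fun x => K * (‖f' x‖ ^ p + ‖g' x‖ ^ p)) μ :=
    ((ir hp0 hf').add (ir hp0 hg')).const_mul K
  refine tendsto_of_subseq_tendsto fun ns hns => ?_
  have t1 : TendstoInMeasure μ (fun n => f (ns n)) atTop f' :=
    tendstoInMeasure_of_tendsto_eLpNorm hpne (fun n => (hf (ns n)).1) hf'.1 (hlf.comp hns)
  obtain ⟨m1, hm1, h1⟩ := t1.exists_seq_tendsto_ae
  have t2 : TendstoInMeasure μ (fun n => g (ns (m1 n))) atTop g' :=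
    tendstoInMeasure_of_tendsto_eLpNorm hpne (fun n => (hg (ns (m1 n))).1) hg'.1
      (hlg.comp (hns.comp hm1.tendsto_atTop))
  obtain ⟨m2, hm2, h2⟩ := t2.exists_seq_tendsto_ae
  refine ⟨fun n => m1 (m2 n), ?_⟩
  have hidx : Tendsto (fun n => ns (m1 (m2 n))) atTop atTop :=
    hns.comp (hm1.tendsto_atTop.comp hm2.tendsto_atTop)
  -- dominated convergence
  have hdct : Tendsto (fun n => ∫ x, min (‖T (f (ns (m1 (m2 n))) x) (g (ns (m1 (m2 n))) x) -
      T (f' x) (g' x)‖ ^ (p / (p - 1))) (K * (‖f' x‖ ^ p + ‖g' x‖ ^ p)) ∂μ) atTop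
      (𝓝 (∫ _x, (0 : ℝ) ∂μ)) := by
    refine tendsto_integral_of_dominated_convergence (fun x => K * (‖f' x‖ ^ p + ‖g' x‖ ^ p))
      (fun n => ?_) hk (fun n => Eventually.of_forall fun x => ?_) ?_
    · exact (ir hP (hsub _)).1.inf hk.1
    · have h3 : 0 ≤ K * (‖f' x‖ ^ p + ‖g' x‖ ^ p) := by positivity
      rw [Real.norm_of_nonneg (le_min (by positivity) h3)]
      exact min_le_right _ _
    · filter_upwards [h1, h2] with x hx1 hx2
      have hx1' := hx1.comp hm2.tendsto_atTop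
      have h3 : Tendsto (fun n => T (f (ns (m1 (m2 n))) x) (g (ns (m1 (m2 n))) x)) atTop
          (𝓝 (T (f' x) (g' x))) :=
        ((nem_cont hT).tendsto (f' x, g' x)).comp (hx1'.prodMk_nhds hx2)
      have h4 : Tendsto (fun n => ‖T (f (ns (m1 (m2 n))) x) (g (ns (m1 (m2 n))) x) -
          T (f' x) (g' x)‖ ^ (p / (p - 1))) atTop (𝓝 0) := by
        have h5 := (h3.sub_const (T (f' x) (g' x))).norm
        rw [sub_self, norm_zero] at h5
        have h6 := ((Real.continuous_rpow_const hP.le).tendsto 0).comp h5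
        rw [Real.zero_rpow hP.ne'] at h6
        exact h6
      have h7 : 0 ≤ K * (‖f' x‖ ^ p + ‖g' x‖ ^ p) := by positivity
      have h8 := h4.min (tendsto_const_nhds (x := K * (‖f' x‖ ^ p + ‖g' x‖ ^ p)))
      rw [min_eq_left h7] at h8
      exact h8
  rw [integral_zero] at hdct
  have hE : Tendsto (fun n => K * ((∫ x, ‖f (ns (m1 (m2 n))) x - f' x‖ ^ p ∂μ) +
      ∫ x, ‖g (ns (m1 (m2 n))) x - g' x‖ ^ p ∂μ)) atTop (𝓝 0) := by
    have h3 := ((hlf'.comp hidx).add (hlg'.comp hidx)).const_mul K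
    rw [add_zero, mul_zero] at h3
    exact h3
  have hsum := hdct.add hE
  rw [add_zero] at hsum
  refine squeeze_zero (fun n => integral_nonneg fun x => Real.rpow_nonneg (norm_nonneg _) _)
    (fun n => ?_) hsum
  have i1 := ir hp0 (hfs (ns (m1 (m2 n))))
  have i2 := ir hp0 (hgs (ns (m1 (m2 n))))
  have i3 := ir hP (hsub (ns (m1 (m2 n))))
  have i4 : Integrable (fun x => min (‖T (f (ns (m1 (m2 n))) x) (g (ns (m1 (m2 n))) x) -
      T (f' x) (g' x)‖ ^ (p / (p - 1))) (K * (‖f' x‖ ^ p + ‖g' x‖ ^ p))) μ := i3.inf hk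
  have i5 : Integrable (fun x => K * (‖f (ns (m1 (m2 n))) x - f' x‖ ^ p +
      ‖g (ns (m1 (m2 n))) x - g' x‖ ^ p)) μ := (i1.add i2).const_mul K
  have e1 : K * ((∫ x, ‖f (ns (m1 (m2 n))) x - f' x‖ ^ p ∂μ) +
      ∫ x, ‖g (ns (m1 (m2 n))) x - g' x‖ ^ p ∂μ) =
      ∫ x, K * (‖f (ns (m1 (m2 n))) x - f' x‖ ^ p +
      ‖g (ns (m1 (m2 n))) x - g' x‖ ^ p) ∂μ := by
    rw [integral_const_mul, integral_add i1 i2]
  have e2 := integral_add i4 i5
  have e3 : (∫ x, ‖T (f (ns (m1 (m2 n))) x) (g (ns (m1 (m2 n))) x) -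
      T (f' x) (g' x)‖ ^ (p / (p - 1)) ∂μ) ≤
      ∫ x, (min (‖T (f (ns (m1 (m2 n))) x) (g (ns (m1 (m2 n))) x) -
      T (f' x) (g' x)‖ ^ (p / (p - 1))) (K * (‖f' x‖ ^ p + ‖g' x‖ ^ p)) +
      K * (‖f (ns (m1 (m2 n))) x - f' x‖ ^ p + ‖g (ns (m1 (m2 n))) x - g' x‖ ^ p)) ∂μ := ?_
  · rw [e2, ← e1] at e3
    exact e3
  refine integral_mono i3 (i4.add i5) fun x => ?_
  have h9 := nem_pt hp hC (f (ns (m1 (m2 n))) x) (g (ns (m1 (m2 n))) x) (f' x) (g' x)
  rw [← hK, mul_add K (‖f' x‖ ^ p + ‖g' x‖ ^ p)] at h9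
  have h10 : 0 ≤ K * (‖f (ns (m1 (m2 n))) x - f' x‖ ^ p +
      ‖g (ns (m1 (m2 n))) x - g' x‖ ^ p) := by positivity
  show ‖T (f (ns (m1 (m2 n))) x) (g (ns (m1 (m2 n))) x) - T (f' x) (g' x)‖ ^ (p / (p - 1)) ≤
    min (‖T (f (ns (m1 (m2 n))) x) (g (ns (m1 (m2 n))) x) -
      T (f' x) (g' x)‖ ^ (p / (p - 1))) (K * (‖f' x‖ ^ p + ‖g' x‖ ^ p)) +
    K * (‖f (ns (m1 (m2 n))) x - f' x‖ ^ p + ‖g (ns (m1 (m2 n))) x - g' x‖ ^ p)
  rcases le_total (‖T (f (ns (m1 (m2 n))) x) (g (ns (m1 (m2 n))) x) -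
      T (f' x) (g' x)‖ ^ (p / (p - 1))) (K * (‖f' x‖ ^ p + ‖g' x‖ ^ p)) with h | h
  · rw [min_eq_left h]
    linarith
  · rw [min_eq_right h]
    exact h9

end MP3483
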