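import Pool.Agent.Lib_MP_3483a5_an.RD
import Pool.Agent.Lib_MP_3483a5_an.NLD

/-!
# MP_3483a5_an, piece TR1

The truncated nonlinearity `nlK d K z = m(|z|²) z`, `m(y) = (y/(1+y/K))^{2/d}`.
`m'(y) = (2/d) (y/(1+y/K))^{2/d-1} (1+y/K)^{-2}`, so `2 y m'(y) = (4/d) m(y)/(1+y/K) ≤ (4/d) m(y)`: use `radial`
with `c = 4/d` (change `m` for negative `y` if convenient; only `y ≥ 0` matters for `nlK`).
`m(|z|²) ≤ min(|z|^{4/d}, K^{2/d})` because `y/(1+y/K) ≤ min(y, K)`.  For the limit `K → ∞` use the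
formula of `radial` for `z ≠ 0` (both `F(|z|²)` and `F'(|z|²)` converge; convergence of continuous linear
maps on `ℂ` follows from the explicit formula, e.g. via `ContinuousLinearMap` built from
`m • id + (2m' • ...)`), and `fderiv = 0` at `z = 0`.
-/

open MeasureTheory Filter Topology Complex SchwartzMap
open scoped FourierTransform LineDeriv Laplacian ENNReal NNReal ComplexConjugate

namespace MP3483
variable {d : ℕ}

theorem TR1_p_pos (hd : 1 ≤ d) : (0 : ℝ) < 2 / d := by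
  have : (0 : ℝ) < d := by exact_mod_cast hd
  positivity

theorem TR1_den_pos {K : ℝ} (hK : 0 < K) {y : ℝ} (hy : 0 ≤ y) : 0 < 1 + y / K := by positivity

theorem TR1_u_nonneg {K : ℝ} (hK : 0 < K) {y : ℝ} (hy : 0 ≤ y) : 0 ≤ y / (1 + y / K) :=
  div_nonneg hy (TR1_den_pos hK hy).le

theorem TR1_u_le {K : ℝ} (hK : 0 < K) {y : ℝ} (hy : 0 ≤ y) : y / (1 + y / K) ≤ y := by
  refine div_le_self hy ?_
  have : 0 ≤ y / K := by positivity
  linarith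

theorem TR1_u_le_K {K : ℝ} (hK : 0 < K) {y : ℝ} (hy : 0 ≤ y) : y / (1 + y / K) ≤ K := by
  rw [div_le_iff₀ (TR1_den_pos hK hy)]
  have : K * (1 + y / K) = K + y := by field_simp
  rw [this]
  linarith

theorem TR1_mK_nonneg {K : ℝ} (hK : 0 < K) {y : ℝ} (hy : 0 ≤ y) : 0 ≤ mK d K y :=
  Real.rpow_nonneg (TR1_u_nonneg hK hy) _

theorem TR1_mK_le (hd : 1 ≤ d) {K : ℝ} (hK : 0 < K) {y : ℝ} (hy : 0 ≤ y) :
    mK d K y ≤ y ^ ((2 : ℝ) / d) :=
  Real.rpow_le_rpow (TR1_u_nonneg hK hy) (TR1_u_le hK hy) (TR1_p_pos hd).le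

theorem TR1_mK_le_K (hd : 1 ≤ d) {K : ℝ} (hK : 0 < K) {y : ℝ} (hy : 0 ≤ y) :
    mK d K y ≤ K ^ ((2 : ℝ) / d) :=
  Real.rpow_le_rpow (TR1_u_nonneg hK hy) (TR1_u_le_K hK hy) (TR1_p_pos hd).le

theorem TR1_mK_zero (hd : 1 ≤ d) (K : ℝ) : mK d K 0 = 0 := by
  unfold mK
  rw [zero_div, Real.zero_rpow (TR1_p_pos hd).ne']

theorem TR1_mK_cont (hd : 1 ≤ d) {K : ℝ} (hK : 0 < K) : ContinuousOn (mK d K) (Set.Ici 0) := by
  unfold mK
  refine ContinuousOn.rpow_const ?_ fun _ _ => Or.inr (TR1_p_pos hd).le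
  refine continuousOn_id.div ?_ fun y hy => (TR1_den_pos hK hy).ne'
  exact (continuous_const.add (continuous_id.div_const K)).continuousOn

/-- the derivative of `mK` -/
noncomputable def TR1_m' (d : ℕ) (K : ℝ) (y : ℝ) : ℝ :=
  (1 / (1 + y / K) ^ 2) * ((2 : ℝ) / d) * (y / (1 + y / K)) ^ ((2 : ℝ) / d - 1)

theorem TR1_hasDerivAt {K : ℝ} (hK : 0 < K) {y : ℝ} (hy : 0 < y) :
    HasDerivAt (mK d K) (TR1_m' d K y) y := by
  have h0 := (TR1_den_pos hK hy.le).ne'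
  have h1 : HasDerivAt (fun y : ℝ => y / (1 + y / K)) (1 / (1 + y / K) ^ 2) y := by
    have h2 : HasDerivAt (fun y : ℝ => 1 + y / K) (1 / K) y := by
      have h3 := ((hasDerivAt_id y).div_const K).const_add 1
      simpa using h3
    have h4 := (hasDerivAt_id' y).div h2 h0
    refine h4.congr_deriv ?_
    field_simp
    ring
  exact h1.rpow_const (Or.inl (div_pos hy (TR1_den_pos hK hy.le)).ne')

theorem TR1_m'_cont {K : ℝ} (hK : 0 < K) : ContinuousOn (TR1_m' d K) (Set.Ioi 0) := by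
  have hc : ContinuousOn (fun y : ℝ => 1 + y / K) (Set.Ioi 0) :=
    (continuous_const.add (continuous_id.div_const K)).continuousOn
  have h0 : ∀ y ∈ Set.Ioi (0 : ℝ), 1 + y / K ≠ 0 := fun y hy => (TR1_den_pos hK (le_of_lt hy)).ne'
  unfold TR1_m'
  refine ContinuousOn.mul (ContinuousOn.mul ?_ continuousOn_const) ?_
  · exact continuousOn_const.div (hc.pow 2) fun y hy => pow_ne_zero 2 (h0 y hy)
  · refine ContinuousOn.rpow_const (continuousOn_id.div hc h0) fun y hy => Or.inl ?_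
    exact (div_pos hy (TR1_den_pos hK (le_of_lt hy))).ne'

theorem TR1_m'_bd {K : ℝ} (hK : 0 < K) {y : ℝ} (hy : 0 < y) :
    2 * y * |TR1_m' d K y| ≤ (4 / d) * mK d K y := by
  have h0 := TR1_den_pos hK hy.le
  have hu : 0 < y / (1 + y / K) := div_pos hy h0
  have hp : (0 : ℝ) ≤ 2 / d := by positivity
  have h1 : 0 ≤ TR1_m' d K y := by
    unfold TR1_m'
    exact mul_nonneg (mul_nonneg (by positivity) hp) (Real.rpow_nonneg hu.le _)
  rw [abs_of_nonneg h1]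
  unfold TR1_m' mK
  have h2 : (y / (1 + y / K)) ^ ((2 : ℝ) / d) = (y / (1 + y / K)) ^ ((2 : ℝ) / d - 1) * (y / (1 + y / K)) := by
    rw [← Real.rpow_add_one hu.ne']
    congr 1
    ring
  rw [h2]
  set w := (y / (1 + y / K)) ^ ((2 : ℝ) / d - 1) with hw
  have hw0 : 0 ≤ w := Real.rpow_nonneg hu.le _
  have h3 : 2 * y * (1 / (1 + y / K) ^ 2 * (2 / d) * w) =
      (4 / d) * (w * (y / (1 + y / K))) * (1 / (1 + y / K)) := by
    field_simp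
    ring
  rw [h3]
  refine mul_le_of_le_one_right ?_ ?_
  · exact mul_nonneg (by positivity) (mul_nonneg hw0 hu.le)
  · rw [div_le_one h0]
    have : 0 ≤ y / K := by positivity
    linarith

theorem TR1_rad (hd : 1 ≤ d) {K : ℝ} (hK : 0 < K) :
    ContDiff ℝ 1 (nlK d K) ∧
    (∀ z : ℂ, ‖fderiv ℝ (nlK d K) z‖ ≤ (1 + 4 / d) * mK d K (‖z‖ ^ 2)) ∧
    fderiv ℝ (nlK d K) 0 = 0 ∧
    ∀ z : ℂ, z ≠ 0 → ∀ h : ℂ, fderiv ℝ (nlK d K) z h =
      ((mK d K (‖z‖ ^ 2) : ℝ) : ℂ) * h +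
        ((2 * TR1_m' d K (‖z‖ ^ 2) * (conj z * h).re : ℝ) : ℂ) * z :=
  radial (F := mK d K) (F' := TR1_m' d K) (TR1_mK_cont hd hK) (TR1_mK_zero hd K)
    (fun _ hy => TR1_mK_nonneg hK hy) (fun _ hy => TR1_hasDerivAt hK hy) (TR1_m'_cont hK)
    (c := 4 / d) (fun _ hy => TR1_m'_bd hK hy)

theorem TR1_sq_rpow (r : ℝ) (hr : 0 ≤ r) : (r ^ 2) ^ ((2 : ℝ) / d) = r ^ ((4 : ℝ) / d) := by
  rw [← Real.rpow_natCast, ← Real.rpow_mul hr]
  congr 1
  push_cast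
  ring

theorem nlK_contDiff (hd : 1 ≤ d) {K : ℝ} (hK : 0 < K) : ContDiff ℝ 1 (nlK d K) :=
  (TR1_rad hd hK).1

theorem nlK_fderiv_le (hd : 1 ≤ d) {K : ℝ} (hK : 0 < K) (z : ℂ) :
    ‖fderiv ℝ (nlK d K) z‖ ≤ (1 + 4 / d) * ‖z‖ ^ ((4 : ℝ) / d) ∧
    ‖fderiv ℝ (nlK d K) z‖ ≤ (1 + 4 / d) * K ^ ((2 : ℝ) / d) := by
  have h1 : ‖fderiv ℝ (nlK d K) z‖ ≤ (1 + 4 / d) * mK d K (‖z‖ ^ 2) := (TR1_rad hd hK).2.1 z
  have h0 : (0 : ℝ) ≤ 1 + 4 / d := by positivity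
  constructor
  · refine h1.trans (mul_le_mul_of_nonneg_left ?_ h0)
    rw [← TR1_sq_rpow _ (norm_nonneg z)]
    exact TR1_mK_le hd hK (by positivity)
  · exact h1.trans (mul_le_mul_of_nonneg_left (TR1_mK_le_K hd hK (by positivity)) h0)

theorem nlK_norm_le (hd : 1 ≤ d) {K : ℝ} (hK : 0 < K) (z : ℂ) :
    ‖nlK d K z‖ ≤ K ^ ((2 : ℝ) / d) * ‖z‖ := by
  unfold nlK
  rw [norm_mul, Complex.norm_real, Real.norm_of_nonneg (TR1_mK_nonneg hK (by positivity))]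
  exact mul_le_mul_of_nonneg_right (TR1_mK_le_K hd hK (by positivity)) (norm_nonneg _)

theorem TR1_tendsto_u (y : ℝ) :
    Tendsto (fun K : ℕ => y / (1 + y / ((K : ℝ) + 1))) atTop (𝓝 y) := by
  have h1 : Tendsto (fun K : ℕ => (K : ℝ) + 1) atTop atTop :=
    tendsto_atTop_add_const_right _ _ tendsto_natCast_atTop_atTop
  have h2 : Tendsto (fun K : ℕ => y / ((K : ℝ) + 1)) atTop (𝓝 0) := h1.const_div_atTop y
  have h3 : Tendsto (fun K : ℕ => 1 + y / ((K : ℝ) + 1)) atTop (𝓝 (1 + 0)) := h2.const_add 1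
  have h4 := Tendsto.div (tendsto_const_nhds (x := y)) h3 (by norm_num)
  rw [add_zero, div_one] at h4
  exact h4

theorem TR1_tendsto_mK (hd : 1 ≤ d) (y : ℝ) :
    Tendsto (fun K : ℕ => mK d ((K : ℝ) + 1) y) atTop (𝓝 (y ^ ((2 : ℝ) / d))) :=
  (TR1_tendsto_u y).rpow_const (Or.inr (TR1_p_pos hd).le)

theorem TR1_tendsto_m' {y : ℝ} (hy : 0 < y) :
    Tendsto (fun K : ℕ => TR1_m' d ((K : ℝ) + 1) y) atTop
      (𝓝 (((2 : ℝ) / d) * y ^ ((2 : ℝ) / d - 1))) := by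
  have h1 : Tendsto (fun K : ℕ => (K : ℝ) + 1) atTop atTop :=
    tendsto_atTop_add_const_right _ _ tendsto_natCast_atTop_atTop
  have h2 : Tendsto (fun K : ℕ => y / ((K : ℝ) + 1)) atTop (𝓝 0) := h1.const_div_atTop y
  have h3 : Tendsto (fun K : ℕ => 1 + y / ((K : ℝ) + 1)) atTop (𝓝 (1 + 0)) := h2.const_add 1
  have h4 : Tendsto (fun K : ℕ => 1 / (1 + y / ((K : ℝ) + 1)) ^ 2) atTop (𝓝 (1 / (1 + 0) ^ 2)) :=
    (tendsto_const_nhds (x := (1 : ℝ))).div (h3.pow 2) (by norm_num)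
  have h5 := (h4.mul_const ((2 : ℝ) / d)).mul
    ((TR1_tendsto_u y).rpow_const (p := (2 : ℝ) / d - 1) (Or.inl hy.ne'))
  unfold TR1_m'
  simpa using h5

theorem TR1_rad0 (hd : 1 ≤ d) :
    ContDiff ℝ 1 (fun z : ℂ => (((‖z‖ ^ 2) ^ ((2 : ℝ) / d) : ℝ) : ℂ) * z) ∧
    (∀ z : ℂ, ‖fderiv ℝ (fun z : ℂ => (((‖z‖ ^ 2) ^ ((2 : ℝ) / d) : ℝ) : ℂ) * z) z‖ ≤
      (1 + 4 / d) * (‖z‖ ^ 2) ^ ((2 : ℝ) / d)) ∧
    fderiv ℝ (fun z : ℂ => (((‖z‖ ^ 2) ^ ((2 : ℝ) / d) : ℝ) : ℂ) * z) 0 = 0 ∧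
    ∀ z : ℂ, z ≠ 0 → ∀ h : ℂ,
      fderiv ℝ (fun z : ℂ => (((‖z‖ ^ 2) ^ ((2 : ℝ) / d) : ℝ) : ℂ) * z) z h =
      (((‖z‖ ^ 2) ^ ((2 : ℝ) / d) : ℝ) : ℂ) * h +
        ((2 * (((2 : ℝ) / d) * (‖z‖ ^ 2) ^ ((2 : ℝ) / d - 1)) * (conj z * h).re : ℝ) : ℂ) * z :=
  radial (F := fun y : ℝ => y ^ ((2 : ℝ) / d))
    (F' := fun y : ℝ => ((2 : ℝ) / d) * y ^ ((2 : ℝ) / d - 1))
    (fun y _ => (Real.continuousAt_rpow_const y _ (Or.inr (TR1_p_pos hd).le)).continuousWithinAt)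
    (Real.zero_rpow (TR1_p_pos hd).ne') (fun _ hy => Real.rpow_nonneg hy _)
    (fun _ hy => Real.hasDerivAt_rpow_const (Or.inl hy.ne'))
    (fun y hy => ((Real.continuousAt_rpow_const y _ (Or.inl (ne_of_gt hy))).const_mul
      ((2 : ℝ) / d)).continuousWithinAt)
    (c := 4 / d) (by
      intro y hy
      have hp : (0 : ℝ) ≤ 2 / d := by positivity
      rw [abs_of_nonneg (mul_nonneg hp (Real.rpow_nonneg hy.le _))]
      have h2 : y ^ ((2 : ℝ) / d) = y ^ ((2 : ℝ) / d - 1) * y := by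
        rw [← Real.rpow_add_one hy.ne']
        congr 1
        ring
      rw [h2]
      apply le_of_eq
      ring)

theorem TR1_nl_eq : nl d = fun z : ℂ => (((‖z‖ ^ 2) ^ ((2 : ℝ) / d) : ℝ) : ℂ) * z := by
  funext z
  rw [TR1_sq_rpow _ (norm_nonneg z)]
  rfl

/-- the linear map `h ↦ 2 Re(z̄ h) z` -/
noncomputable def TR1_L (z : ℂ) : ℂ →L[ℝ] ℂ :=
  (Complex.reCLM.comp ((ContinuousLinearMap.mul ℝ ℂ) (conj z))).smulRight (2 * z)

theorem nlK_fderiv_tendsto (hd : 1 ≤ d) (z : ℂ) :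
    Tendsto (fun K : ℕ => fderiv ℝ (nlK d ((K : ℝ) + 1)) z) atTop (𝓝 (fderiv ℝ (nl d) z)) := by
  have hK : ∀ K : ℕ, (0 : ℝ) < (K : ℝ) + 1 := fun K => by positivity
  rcases eq_or_ne z 0 with rfl | hz
  · have h1 : fderiv ℝ (nl d) 0 = 0 := by
      rw [TR1_nl_eq]
      exact (TR1_rad0 hd).2.2.1
    have h2 : ∀ K : ℕ, fderiv ℝ (nlK d ((K : ℝ) + 1)) 0 = 0 := fun K => (TR1_rad hd (hK K)).2.2.1
    simp only [h1, h2]
    exact tendsto_const_nhds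
  · have hy : 0 < ‖z‖ ^ 2 := by positivity
    have h1 : fderiv ℝ (nl d) z = ((‖z‖ ^ 2) ^ ((2 : ℝ) / d)) • (1 : ℂ →L[ℝ] ℂ) +
        (((2 : ℝ) / d) * (‖z‖ ^ 2) ^ ((2 : ℝ) / d - 1)) • TR1_L z := by
      refine ContinuousLinearMap.ext fun h => ?_
      rw [TR1_nl_eq]
      refine ((TR1_rad0 hd).2.2.2 z hz h).trans ?_
      simp only [ContinuousLinearMap.add_apply, ContinuousLinearMap.smul_apply, TR1_L,
        ContinuousLinearMap.smulRight_apply, ContinuousLinearMap.comp_apply,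
        ContinuousLinearMap.mul_apply', Complex.reCLM_apply, ContinuousLinearMap.one_apply,
        Complex.real_smul]
      push_cast
      ring
    have h2 : ∀ K : ℕ, fderiv ℝ (nlK d ((K : ℝ) + 1)) z =
        (mK d ((K : ℝ) + 1) (‖z‖ ^ 2)) • (1 : ℂ →L[ℝ] ℂ) +
        (TR1_m' d ((K : ℝ) + 1) (‖z‖ ^ 2)) • TR1_L z := by
      intro K
      refine ContinuousLinearMap.ext fun h => ?_
      refine ((TR1_rad hd (hK K)).2.2.2 z hz h).trans ?_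
      simp only [ContinuousLinearMap.add_apply, ContinuousLinearMap.smul_apply, TR1_L,
        ContinuousLinearMap.smulRight_apply, ContinuousLinearMap.comp_apply,
        ContinuousLinearMap.mul_apply', Complex.reCLM_apply, ContinuousLinearMap.one_apply,
        Complex.real_smul]
      push_cast
      ring
    simp only [h1, h2]
    exact ((TR1_tendsto_mK hd _).smul_const _).add ((TR1_tendsto_m' hy).smul_const _)

end MP3483
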