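import Pool.Agent.Lib_MP_3483a5_an.RD
import Pool.Agent.Lib_MP_3483a5_an.NLD
import Pool.Agent.Lib_MP_3483a5_an.TR1

/-!
# MP_3483a5_an, piece TR2

The primitive `GK d K z = (1/2) ∫_0^{|z|²} m(y) dy` of the truncated nonlinearity, `m = mK d K`,
`0 ≤ m(y) ≤ min(y^{2/d}, K^{2/d})` for `y ≥ 0`, `m` continuous on `[0,∞)` (for `y < 0` it is irrelevant; to use
the fundamental theorem at `|z|² = 0` replace `m y` by `m (max y 0)`, which gives the same integral).
Derivative: `(1/2) m(|z|²) · 2 Re(z̄ h) = Re(conj(nlK z) h)`.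
Bounds: `(1/2)∫_0^{|z|²} y^{2/d} dy = (1/2) |z|^{2(1+2/d)}/(1+2/d) = |z|^ρ/ρ`, `ρ = 2+4/d`.
Limit `K → ∞`: dominated (or monotone) convergence.
-/

open MeasureTheory Filter Topology Complex SchwartzMap
open scoped FourierTransform LineDeriv Laplacian ENNReal NNReal ComplexConjugate

namespace MP3483
variable {d : ℕ}

theorem TR2_cont (hd : 1 ≤ d) {K : ℝ} (hK : 0 < K) : Continuous (fun y : ℝ => mK d K (max y 0)) := by
  have h := TR1_mK_cont hd hK
  refine continuousOn_univ.1 (h.comp (continuous_id.max continuous_const).continuousOn ?_)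
  intro y _
  exact (le_max_right y 0 : (0 : ℝ) ≤ max y 0)

theorem TR2_GK_eq (d : ℕ) (K : ℝ) (z : ℂ) :
    GK d K z = (1 / 2) * ∫ y in (0 : ℝ)..‖z‖ ^ 2, mK d K (max y 0) := by
  unfold GK
  congr 1
  refine intervalIntegral.integral_congr fun y hy => ?_
  rw [Set.uIcc_of_le (by positivity)] at hy
  simp only [max_eq_left hy.1]

theorem TR2_ii (hd : 1 ≤ d) {K : ℝ} (hK : 0 < K) {r : ℝ} (hr : 0 ≤ r) :
    IntervalIntegrable (mK d K) volume 0 r := by
  refine ContinuousOn.intervalIntegrable ?_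
  rw [Set.uIcc_of_le hr]
  exact (TR1_mK_cont hd hK).mono fun y hy => hy.1

theorem GK_hasFDerivAt (hd : 1 ≤ d) {K : ℝ} (hK : 0 < K) (z : ℂ) :
    HasFDerivAt (GK d K) (Complex.reCLM.comp
      ((ContinuousLinearMap.mul ℝ ℂ) (conj (nlK d K z)))) z := by
  have h1 := ((TR2_cont hd hK).integral_hasStrictDerivAt 0 (‖z‖ ^ 2)).hasDerivAt
  have h2 : HasFDerivAt (fun w : ℂ => ‖w‖ ^ 2) (2 • (innerSL ℝ z)) z :=
    (hasStrictFDerivAt_norm_sq z).hasFDerivAt
  have h3 := (h1.comp_hasFDerivAt z h2).const_mul (1 / 2)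
  have h4 : (fun w : ℂ => 1 / 2 * ((fun u => ∫ y in (0 : ℝ)..u, mK d K (max y 0)) ∘
      fun w : ℂ => ‖w‖ ^ 2) w) = GK d K := by
    funext w
    rw [TR2_GK_eq]
    rfl
  rw [h4] at h3
  refine h3.congr_fderiv ?_
  refine ContinuousLinearMap.ext fun h => ?_
  have h5 : max (‖z‖ ^ 2) 0 = ‖z‖ ^ 2 := max_eq_left (by positivity)
  simp only [ContinuousLinearMap.smul_apply, ContinuousLinearMap.comp_apply, innerSL_apply_apply,
    ContinuousLinearMap.mul_apply', Complex.reCLM_apply, smul_eq_mul, nsmul_eq_mul, h5, Complex.inner]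
  unfold nlK
  rw [map_mul, Complex.conj_ofReal, mul_assoc, Complex.re_ofReal_mul]
  push_cast
  ring_nf

theorem TR2_rpow (hd : 1 ≤ d) {r : ℝ} (hr : 0 ≤ r) :
    (1 / 2) * ∫ y in (0 : ℝ)..r ^ 2, y ^ ((2 : ℝ) / d) = (1 / rho d) * r ^ rho d := by
  have hp := TR1_p_pos hd
  have hd0 : (0 : ℝ) < d := by exact_mod_cast hd
  rw [integral_rpow (Or.inl (by linarith)), Real.zero_rpow (by linarith), sub_zero]
  have h1 : (r ^ 2) ^ ((2 : ℝ) / d + 1) = r ^ rho d := by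
    rw [← Real.rpow_natCast, ← Real.rpow_mul hr]
    congr 1
    unfold rho
    push_cast
    ring
  rw [h1]
  have h2 : (2 : ℝ) / d + 1 = rho d / 2 := by
    unfold rho
    ring
  rw [h2]
  have h3 := rho_pos d
  field_simp

theorem GK_bounds (hd : 1 ≤ d) {K : ℝ} (hK : 0 < K) (z : ℂ) :
    0 ≤ GK d K z ∧ GK d K z ≤ (1 / rho d) * ‖z‖ ^ rho d ∧
      GK d K z ≤ K ^ ((2 : ℝ) / d) * ‖z‖ ^ 2 := by
  have hr : (0 : ℝ) ≤ ‖z‖ ^ 2 := by positivity
  have hp := TR1_p_pos hd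
  refine ⟨?_, ?_, ?_⟩
  · unfold GK
    refine mul_nonneg (by norm_num) (intervalIntegral.integral_nonneg hr fun y hy => ?_)
    exact TR1_mK_nonneg hK hy.1
  · rw [← TR2_rpow hd (norm_nonneg z)]
    unfold GK
    refine mul_le_mul_of_nonneg_left ?_ (by norm_num)
    refine intervalIntegral.integral_mono_on hr (TR2_ii hd hK hr) ?_ fun y hy =>
      TR1_mK_le hd hK hy.1
    exact intervalIntegral.intervalIntegrable_rpow' (by linarith)
  · have h1 : ∫ y in (0 : ℝ)..‖z‖ ^ 2, mK d K y ≤ ∫ _y in (0 : ℝ)..‖z‖ ^ 2, K ^ ((2 : ℝ) / d) :=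
      intervalIntegral.integral_mono_on hr (TR2_ii hd hK hr) intervalIntegrable_const fun y hy =>
        TR1_mK_le_K hd hK hy.1
    rw [intervalIntegral.integral_const, sub_zero, smul_eq_mul] at h1
    have h2 : 0 ≤ K ^ ((2 : ℝ) / d) * ‖z‖ ^ 2 := mul_nonneg (Real.rpow_nonneg hK.le _) hr
    unfold GK
    linarith

theorem GK_tendsto (hd : 1 ≤ d) (z : ℂ) :
    Tendsto (fun K : ℕ => GK d ((K : ℝ) + 1) z) atTop (𝓝 ((1 / rho d) * ‖z‖ ^ rho d)) := by
  have hr : (0 : ℝ) ≤ ‖z‖ ^ 2 := by positivity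
  have hp := TR1_p_pos hd
  have hK : ∀ K : ℕ, (0 : ℝ) < (K : ℝ) + 1 := fun K => by positivity
  rw [← TR2_rpow hd (norm_nonneg z)]
  unfold GK
  refine Tendsto.const_mul _ ?_
  refine intervalIntegral.tendsto_integral_filter_of_dominated_convergence
    (fun y => y ^ ((2 : ℝ) / d)) ?_ ?_ ?_ ?_
  · refine Eventually.of_forall fun K => ?_
    rw [Set.uIoc_of_le hr]
    exact (TR2_ii hd (hK K) hr).1.aestronglyMeasurable
  · refine Eventually.of_forall fun K => Eventually.of_forall fun y hy => ?_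
    rw [Set.uIoc_of_le hr] at hy
    rw [Real.norm_of_nonneg (TR1_mK_nonneg (hK K) hy.1.le)]
    exact TR1_mK_le hd (hK K) hy.1.le
  · exact intervalIntegral.intervalIntegrable_rpow' (by linarith)
  · exact Eventually.of_forall fun y _ => TR1_tendsto_mK hd y

end MP3483
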