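import Pool.Agent.Lib_MP_3483a5_an.OD
import Pool.Agent.Lib_MP_3483a5_an.FB
import Pool.Agent.Lib_MP_3483a5_an.IB
import Pool.Agent.Lib_MP_3483a5_an.AIT
import Pool.Agent.Lib_MP_3483a5_an.M2
import Pool.Agent.Lib_MP_3483a5_an.TR2
import Pool.Agent.Lib_MP_3483a5_an.TR1
import Pool.Agent.Lib_MP_3483a5_an.NH
import Pool.Agent.Lib_MP_3483a5_an.NC
import Pool.Agent.Lib_MP_3483a5_an.EA1

/-!
# MP_3483a5_an, piece EB1

Mollified potential energy identity.
Proof.  `φ = hk n`, `y t x = cv φ (u t) x`, `y' s x = -I cv (lap φ) (u s) x - I cv φ (nl ∘ u s) x` (`ode`), `fub` with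
`Φ = GK d K`, `Φ' z = re ∘ (conj (nlK d K z) ·)` (`GK_hasFDerivAt`; continuous as `nlK` is).  Integrability:
`|nlK z| ≤ C|z|`, `y ∈ L²(muT) ∩ L^ρ(muT)`, `cv (lap φ) u ∈ L²(muT)`, `cv φ (nl∘u) ∈ L^{ρ'}(muT)`; `GK(y t) ≤ C|y t|²`
integrable.  For every `s`, `ibp` with `N = nlK d K` (`nlK 0 = 0`, `‖D nlK‖ ≤ C` by `nlK_fderiv_le`):
`∫ conj(nlK y) cv (lap φ)(u s) = -∑_j ∫ conj(D nlK(y)[∂_jy]) ∂_jy`, `∂_jy = cv (pd j φ)(u s) = cv φ (Du s j)`
(`cv_partial_eq`), and `Re(-I · (-∫ conj(a) b)) = Re(I∫ conj(a) b) = Re(-I ∫ conj(b) a)`.  Fubini to go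
between the integral over `muT` and the iterated one (products of two `L²(muT)` functions; the
gradients `Du j` are in `L²(muT)` as well by `unif_bound`).
-/

open MeasureTheory Filter Topology Complex SchwartzMap
open scoped FourierTransform LineDeriv Laplacian ENNReal NNReal ComplexConjugate

namespace MP3483
variable {d : ℕ}

theorem eb1_nlK_memLp (hd : 1 ≤ d) {K : ℝ} (hK : 0 < K) {X : Type*} [MeasurableSpace X]
    {μ : Measure X} {p : ℝ≥0∞} {f : X → ℂ} (hf : MemLp f p μ) :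
    MemLp (fun x => nlK d K (f x)) p μ := by
  refine hf.of_le_mul (c := K ^ ((2 : ℝ) / d)) ?_ (Eventually.of_forall fun x => ?_)
  · exact (nlK_contDiff hd hK).continuous.comp_aestronglyMeasurable hf.1
  · exact nlK_norm_le hd hK (f x)

theorem eb1_fderiv_memLp (hd : 1 ≤ d) {K : ℝ} (hK : 0 < K) {X : Type*} [MeasurableSpace X]
    {μ : Measure X} {f g : X → ℂ} (hf : MemLp f (rhoE d) μ) (hg : MemLp g (rhoE d) μ) :
    MemLp (fun x => fderiv ℝ (nlK d K) (f x) (g x)) (rhoC d) μ := by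
  have hC : rhoC d = ENNReal.ofReal (rho d / (rho d - 1)) := by
    unfold rhoC rho; congr 2; ring
  have hd0 : (0 : ℝ) < d := by exact_mod_cast hd
  have hp : 2 < rho d := by
    unfold rho
    have : (0 : ℝ) < 4 / d := by positivity
    linarith
  have h0 : Tendsto (fun _ : ℕ => eLpNorm (fun x => f x - f x) (ENNReal.ofReal (rho d)) μ) atTop
      (𝓝 0) := by simp
  have h1 : Tendsto (fun _ : ℕ => eLpNorm (fun x => g x - g x) (ENNReal.ofReal (rho d)) μ) atTop
      (𝓝 0) := by simp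
  have h := (nemytskii (T := fun z => fderiv ℝ (nlK d K) z) (C := 1 + 4 / d) hp
    ((nlK_contDiff hd hK).continuous_fderiv one_ne_zero) (fun z => by
      have := (nlK_fderiv_le hd hK z).1
      have e : rho d - 2 = (4 : ℝ) / d := by unfold rho; ring
      rwa [e]) (fun _ => hf) (fun _ => hg) hf hg h0 h1).2.1
  rwa [← hC] at h

theorem energy_B_n (hd : 1 ≤ d) {u : ℝ → Sp d → ℂ} {Du : ℝ → Fin d → Sp d → ℂ}
    (hu : H1Path (Set.Ici 0) u Du) (hS : Strich u Du) (hsol : Solves (fun _ => -1) (Set.Ici 0) u)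
    {T : ℝ} (hT : 0 < T) {K : ℝ} (hK : 0 < K) (n : ℕ) :
    (∫ x, GK d K (cv (hk n) (u T) x)) - ∫ x, GK d K (cv (hk n) (u 0) x) =
      (∑ j, ∫ q : ℝ × Sp d, (-Complex.I * (conj (cv (hk n) (Du q.1 j) q.2) *
        fderiv ℝ (nlK d K) (cv (hk n) (u q.1) q.2) (cv (hk n) (Du q.1 j) q.2))).re ∂(muT d T)) +
      ∫ q : ℝ × Sp d, (-Complex.I * (conj (nlK d K (cv (hk n) (u q.1) q.2)) *
        cv (hk n) (fun y => nl d (u q.1 y)) q.2)).re ∂(muT d T) := by
  set φ : 𝓢(Sp d, ℂ) := hk n with hφ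
  have hu2 := memLp_two_T hu hT
  obtain ⟨huρ, hDρ⟩ := hS T hT
  have hρ1 := ea1_one_le_rhoE d
  have hρ1' := ea1_one_le_rhoC d
  have hρt : rhoE d ≠ ⊤ := ENNReal.ofReal_ne_top
  have hρt' : rhoC d ≠ ⊤ := ENNReal.ofReal_ne_top
  have hnlm : Measurable (nl d) := (nl_contDiff hd).continuous.measurable
  have hnl : MemLp (fun q : ℝ × Sp d => nl d (u q.1 q.2)) (rhoC d) (muT d T) :=
    (nl_holder hd huρ huρ).1
  -- convolutions in space time
  have hy2 : MemLp (fun q : ℝ × Sp d => cv φ (u q.1) q.2) 2 (muT d T) :=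
    (young_T one_le_two (by norm_num) hu.meas hu2 φ).2
  have hyρ : MemLp (fun q : ℝ × Sp d => cv φ (u q.1) q.2) (rhoE d) (muT d T) :=
    (young_T hρ1 hρt hu.meas huρ φ).2
  have hgρ : ∀ k, MemLp (fun q : ℝ × Sp d => cv φ (Du q.1 k) q.2) (rhoE d) (muT d T) :=
    fun k => (young_T hρ1 hρt (hu.measD k) (hDρ k) φ).2
  have ha2 : MemLp (fun q : ℝ × Sp d => cv (lap φ) (u q.1) q.2) 2 (muT d T) :=
    (young_T one_le_two (by norm_num) hu.meas hu2 (lap φ)).2
  have hbρ : MemLp (fun q : ℝ × Sp d => cv φ (fun y => nl d (u q.1 y)) q.2) (rhoC d)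
      (muT d T) := (young_T hρ1' hρt' (hnlm.comp hu.meas) hnl φ).2
  have i1 : Integrable (fun q : ℝ × Sp d => conj (nlK d K (cv φ (u q.1) q.2)) *
      cv (lap φ) (u q.1) q.2) (muT d T) :=
    (eb1_nlK_memLp hd hK hy2).star.integrable_mul ha2
  have i2 : Integrable (fun q : ℝ × Sp d => conj (nlK d K (cv φ (u q.1) q.2)) *
      cv φ (fun y => nl d (u q.1 y)) q.2) (muT d T) :=
    ea1_integrable (eb1_nlK_memLp hd hK hyρ) hbρ
  have i3 : ∀ k, Integrable (fun q : ℝ × Sp d => conj (cv φ (Du q.1 k) q.2) *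
      fderiv ℝ (nlK d K) (cv φ (u q.1) q.2) (cv φ (Du q.1 k) q.2)) (muT d T) :=
    fun k => ea1_integrable (hgρ k) (eb1_fderiv_memLp hd hK hyρ (hgρ k))
  -- the integration by parts
  have z0 : ∫ q : ℝ × Sp d, conj (nlK d K (cv φ (u q.1) q.2)) *
      cv (lap φ) (u q.1) q.2 ∂(muT d T) = - ∑ k, conj (∫ q : ℝ × Sp d,
        conj (cv φ (Du q.1 k) q.2) *
          fderiv ℝ (nlK d K) (cv φ (u q.1) q.2) (cv φ (Du q.1 k) q.2) ∂(muT d T)) := by
    unfold muT at i1 i3 ⊢
    rw [integral_prod _ i1]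
    have e2 : ∀ s ∈ Set.Icc (0 : ℝ) T,
        (∫ x, conj (nlK d K (cv φ (u (s, x).1) (s, x).2)) * cv (lap φ) (u (s, x).1) (s, x).2) =
        - ∑ k, conj (∫ x, conj (cv φ (Du (s, x).1 k) (s, x).2) *
          fderiv ℝ (nlK d K) (cv φ (u (s, x).1) (s, x).2) (cv φ (Du (s, x).1 k) (s, x).2)) := by
      intro s hs
      have hs1 := hu.isH1 s hs.1
      have h := ibp hs1.memLp (nlK_contDiff hd hK) (by unfold nlK; simp)
        (fun z => (nlK_fderiv_le hd hK z).2) φ
      simp only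
      rw [h]
      congr 1
      refine Finset.sum_congr rfl fun k _ => ?_
      rw [← integral_conj]
      refine integral_congr_ae (Eventually.of_forall fun x => ?_)
      have h5 : cv (pd k φ) (u s) x = cv φ (Du s k) x :=
        cv_partial_eq one_le_two one_le_two hs1.memLp (hs1.memLpD k) (hs1.weak k) φ x
      simp only [h5, map_mul, Complex.conj_conj]
      ring
    rw [setIntegral_congr_fun measurableSet_Icc e2]
    rw [integral_neg, integral_finsetSum]
    · congr 1
      refine Finset.sum_congr rfl fun k _ => ?_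
      rw [integral_conj, integral_prod _ (i3 k)]
    · intro k _
      exact (Complex.conjCLE : ℂ →L[ℝ] ℂ).integrable_comp (i3 k).integral_prod_left
  have z1 : ∫ q : ℝ × Sp d, (-Complex.I * (conj (nlK d K (cv φ (u q.1) q.2)) *
      cv (lap φ) (u q.1) q.2)).re ∂(muT d T) =
      ∑ j, ∫ q : ℝ × Sp d, (-Complex.I * (conj (cv φ (Du q.1 j) q.2) *
        fderiv ℝ (nlK d K) (cv φ (u q.1) q.2) (cv φ (Du q.1 j) q.2))).re ∂(muT d T) := by
    have e1 : ∀ {F : ℝ × Sp d → ℂ}, Integrable F (muT d T) →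
        ∫ q : ℝ × Sp d, (-Complex.I * F q).re ∂(muT d T) =
        (-Complex.I * ∫ q, F q ∂(muT d T)).re := by
      intro F hF
      rw [← integral_const_mul]
      have h7 := ContinuousLinearMap.integral_comp_comm Complex.reCLM (hF.const_mul (-Complex.I))
      simpa using h7
    rw [e1 i1, z0]
    simp_rw [e1 (i3 _)]
    rw [mul_neg, neg_mul, neg_neg, Finset.mul_sum, Complex.re_sum]
    refine Finset.sum_congr rfl fun k _ => ?_
    simp [Complex.mul_re]
  -- the fundamental theorem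
  have hint : Integrable (fun q : ℝ × Sp d => (Complex.reCLM.comp
      ((ContinuousLinearMap.mul ℝ ℂ) (conj (nlK d K (cv φ (u q.1) q.2)))))
      (-Complex.I * cv (lap φ) (u q.1) q.2 - Complex.I * cv φ (fun y => nl d (u q.1 y)) q.2))
      (muT d T) := by
    have h1 := (((i1.const_mul (-Complex.I)).add (i2.const_mul (-Complex.I))).re)
    refine h1.congr (Eventually.of_forall fun q => ?_)
    simp only [ContinuousLinearMap.comp_apply, ContinuousLinearMap.mul_apply',
      Complex.reCLM_apply, Pi.add_apply, RCLike.re_eq_complex_re]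
    congr 1
    ring
  have hΦc : Continuous (fun z : ℂ => (Complex.reCLM.comp
      ((ContinuousLinearMap.mul ℝ ℂ) (conj (nlK d K z))))) := by
    have h1 : Continuous (fun z : ℂ => (ContinuousLinearMap.mul ℝ ℂ) (conj (nlK d K z))) :=
      (ContinuousLinearMap.continuous _).comp
        (Complex.continuous_conj.comp (nlK_contDiff hd hK).continuous)
    exact continuous_const.clm_comp h1
  have hLint : ∀ t, 0 ≤ t → Integrable (fun x => GK d K (cv φ (u t) x)) volume := by
    intro t ht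
    have h1 := (young one_le_two (hu.isH1 t ht).memLp φ).1
    have h2 := ((memLp_two_iff_integrable_sq_norm h1.1).1 h1).const_mul (K ^ ((2 : ℝ) / d))
    refine h2.mono' ?_ (Eventually.of_forall fun x => ?_)
    · have hc : Continuous (GK d K) := by
        rw [continuous_iff_continuousAt]
        exact fun z => (GK_hasFDerivAt hd hK z).continuousAt
      exact hc.comp_aestronglyMeasurable h1.1
    · have h3 := GK_bounds hd hK (cv φ (u t) x)
      rw [Real.norm_of_nonneg h3.1]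
      exact h3.2.2
  have hfub := fub hT (fun t x => cv φ (u t) x)
    (fun s x => -Complex.I * cv (lap φ) (u s) x - Complex.I * cv φ (fun y => nl d (u s y)) x)
    (GK d K) _ (GK_hasFDerivAt hd hK) hΦc
    (fun x t ht => (ode hd hu hsol φ x).1 t ht.1)
    (fun x => (ode hd hu hsol φ x).2.mono fun t ht => ht.1) hint (hLint 0 le_rfl)
    (hLint T hT.le)
  rw [hfub, ← z1, ← integral_add]
  · refine integral_congr_ae (Eventually.of_forall fun q => ?_)
    simp only [ContinuousLinearMap.comp_apply, ContinuousLinearMap.mul_apply',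
      Complex.reCLM_apply]
    rw [← Complex.add_re]
    congr 1
    ring
  · exact (i1.const_mul (-Complex.I)).re
  · exact (i2.const_mul (-Complex.I)).re

end MP3483
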