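import Pool.Agent.Lib_MP_3483a5_an.TR2

/-!
# MP_3483a5_an, piece GC

`GK` is continuous (differentiable) and `0 ≤ GK z ≤ K^{2/d}|z|²` (`GK_bounds`): integrability.  By the mean
value inequality and `GK_hasFDerivAt`, `nlK_norm_le`: `|GK a - GK b| ≤ K^{2/d} (|a|+|b|)|a-b|`, so
`|∫GK(f_n) - ∫GK(f')| ≤ K^{2/d} (‖f_n‖₂ + ‖f'‖₂)‖f_n - f'‖₂ → 0` (Cauchy-Schwarz).
-/

open MeasureTheory Filter Topology Complex SchwartzMap
open scoped FourierTransform LineDeriv Laplacian ENNReal NNReal ComplexConjugate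

namespace MP3483
variable {d : ℕ}

private theorem gc_cont (hd : 1 ≤ d) {K : ℝ} (hK : 0 < K) : Continuous (GK d K) :=
  continuous_iff_continuousAt.2 fun z => (GK_hasFDerivAt hd hK z).continuousAt

private theorem gc_lip (hd : 1 ≤ d) {K : ℝ} (hK : 0 < K) (a b : ℂ) :
    ‖GK d K a - GK d K b‖ ≤ K ^ ((2 : ℝ) / d) * ((‖a - b‖ + 2 * ‖b‖) * ‖a - b‖) := by
  have hK0 : 0 ≤ K ^ ((2 : ℝ) / d) := Real.rpow_nonneg hK.le _
  have h1 : ∀ w ∈ segment ℝ b a, ‖Complex.reCLM.comp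
      ((ContinuousLinearMap.mul ℝ ℂ) (conj (nlK d K w)))‖ ≤
      K ^ ((2 : ℝ) / d) * (‖a - b‖ + 2 * ‖b‖) := by
    intro w hw
    have h2 : ‖Complex.reCLM.comp ((ContinuousLinearMap.mul ℝ ℂ) (conj (nlK d K w)))‖ ≤
        ‖nlK d K w‖ := by
      refine ContinuousLinearMap.opNorm_le_bound _ (norm_nonneg _) fun h => ?_
      show ‖(conj (nlK d K w) * h).re‖ ≤ _
      refine (Complex.abs_re_le_norm _).trans ?_
      rw [norm_mul, RCLike.norm_conj]
    have h3 : ‖w‖ ≤ ‖a - b‖ + 2 * ‖b‖ := by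
      obtain ⟨s, t, hs, ht, hst, rfl⟩ := hw
      have h4 : s • b + t • a = b + t • (a - b) := by
        rw [smul_sub]
        have h5 : s • b = b - t • b := by
          have h6 : s = 1 - t := by linarith
          rw [h6, sub_smul, one_smul]
        rw [h5]
        abel
      rw [h4]
      have h5 : ‖t • (a - b)‖ ≤ ‖a - b‖ := by
        rw [norm_smul, Real.norm_of_nonneg ht]
        have h6 : t ≤ 1 := by linarith
        exact mul_le_of_le_one_left (norm_nonneg _) h6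
      have h6 := norm_add_le b (t • (a - b))
      have h7 := norm_nonneg b
      linarith
    calc _ ≤ ‖nlK d K w‖ := h2
      _ ≤ K ^ ((2 : ℝ) / d) * ‖w‖ := nlK_norm_le hd hK w
      _ ≤ _ := mul_le_mul_of_nonneg_left h3 hK0
  have h2 := (convex_segment b a).norm_image_sub_le_of_norm_hasFDerivWithin_le
    (f := GK d K) (fun w _ => (GK_hasFDerivAt hd hK w).hasFDerivWithinAt) h1
    (left_mem_segment ℝ b a) (right_mem_segment ℝ b a)
  linarith

theorem GK_integral_tendsto (hd : 1 ≤ d) {K : ℝ} (hK : 0 < K) {X : Type*} [MeasurableSpace X]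
    {μ : Measure X} {f : ℕ → X → ℂ} {f' : X → ℂ} (hf : ∀ n, MemLp (f n) 2 μ) (hf' : MemLp f' 2 μ)
    (hl : Tendsto (fun n => eLpNorm (fun x => f n x - f' x) 2 μ) atTop (𝓝 0)) :
    (∀ n, Integrable (fun x => GK d K (f n x)) μ) ∧ Integrable (fun x => GK d K (f' x)) μ ∧
    Tendsto (fun n => ∫ x, GK d K (f n x) ∂μ) atTop (𝓝 (∫ x, GK d K (f' x) ∂μ)) := by
  have hint : ∀ g : X → ℂ, MemLp g 2 μ → Integrable (fun x => GK d K (g x)) μ := by
    intro g hg
    have h1 : Integrable (fun x => K ^ ((2 : ℝ) / d) * ‖g x‖ ^ 2) μ :=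
      ((memLp_two_iff_integrable_sq_norm hg.1).1 hg).const_mul _
    refine h1.mono' ((gc_cont hd hK).comp_aestronglyMeasurable hg.1)
      (Eventually.of_forall fun x => ?_)
    obtain ⟨h2, _, h3⟩ := GK_bounds hd hK (g x)
    rw [Real.norm_of_nonneg h2]
    exact h3
  refine ⟨fun n => hint _ (hf n), hint _ hf', ?_⟩
  refine tendsto_integral_of_L1' _ (hint _ hf').1 (Eventually.of_forall fun n => hint _ (hf n)) ?_
  obtain ⟨κ, hκ⟩ : ∃ κ : ℝ, κ = K ^ ((2 : ℝ) / d) := ⟨_, rfl⟩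
  have hdm : ∀ n, AEStronglyMeasurable (fun x => ‖f n x - f' x‖) μ := fun n =>
    ((hf n).1.sub hf'.1).norm
  have hB : MemLp (fun x => 2 * ‖f' x‖) 2 μ := hf'.norm.const_mul 2
  have hle : ∀ n, eLpNorm ((fun x => GK d K (f n x)) - fun x => GK d K (f' x)) 1 μ ≤
      ENNReal.ofReal κ * ((eLpNorm (fun x => f n x - f' x) 2 μ +
        eLpNorm (fun x => 2 * ‖f' x‖) 2 μ) * eLpNorm (fun x => f n x - f' x) 2 μ) := by
    intro n
    have h1 : eLpNorm ((fun x => GK d K (f n x)) - fun x => GK d K (f' x)) 1 μ ≤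
        ENNReal.ofReal κ * eLpNorm ((fun x => ‖f n x - f' x‖ + 2 * ‖f' x‖) •
          (fun x => ‖f n x - f' x‖)) 1 μ := by
      refine eLpNorm_le_mul_eLpNorm_of_ae_le_mul (Eventually.of_forall fun x => ?_) 1
      show ‖GK d K (f n x) - GK d K (f' x)‖ ≤
        κ * ‖(‖f n x - f' x‖ + 2 * ‖f' x‖) * ‖f n x - f' x‖‖
      rw [Real.norm_of_nonneg (r := (‖f n x - f' x‖ + 2 * ‖f' x‖) * ‖f n x - f' x‖) (by positivity),
        hκ]
      exact gc_lip hd hK _ _
    refine h1.trans ?_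
    gcongr
    refine (eLpNorm_smul_le_mul_eLpNorm (p := 2) (q := 2) (r := 1) (hdm n)
      ((hdm n).add hB.1)).trans ?_
    rw [eLpNorm_norm (fun x => f n x - f' x)]
    gcongr
    refine (eLpNorm_add_le (hdm n) hB.1 (by norm_num)).trans ?_
    rw [eLpNorm_norm (fun x => f n x - f' x)]
  have hlim : Tendsto (fun n => ENNReal.ofReal κ * ((eLpNorm (fun x => f n x - f' x) 2 μ +
        eLpNorm (fun x => 2 * ‖f' x‖) 2 μ) * eLpNorm (fun x => f n x - f' x) 2 μ)) atTop (𝓝 0) := by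
    have h1 : Tendsto (fun n => eLpNorm (fun x => f n x - f' x) 2 μ +
        eLpNorm (fun x => 2 * ‖f' x‖) 2 μ) atTop (𝓝 (0 + eLpNorm (fun x => 2 * ‖f' x‖) 2 μ)) :=
      hl.add tendsto_const_nhds
    have h2 := ENNReal.Tendsto.mul h1 (Or.inr ENNReal.zero_ne_top) hl
      (Or.inr (by rw [zero_add]; exact hB.2.ne))
    have h3 := ENNReal.Tendsto.const_mul (a := ENNReal.ofReal κ) h2
      (Or.inr ENNReal.ofReal_ne_top)
    simpa using h3
  exact tendsto_of_tendsto_of_tendsto_of_le_of_le tendsto_const_nhds hlim (fun _ => zero_le) hle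

end MP3483
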