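import Pool.Agent.Lib_MP_3483a5_an.EB1
import Pool.Agent.Lib_MP_3483a5_an.EA2
import Pool.Agent.Lib_MP_3483a5_an.PR
import Pool.Agent.Lib_MP_3483a5_an.NC
import Pool.Agent.Lib_MP_3483a5_an.GC
import Pool.Agent.Lib_MP_3483a5_an.TR1

/-!
# MP_3483a5_an, piece EB2

Limit `n → ∞` in `energy_B_n` (`K` fixed).
Proof.  Left side: `GK_integral_tendsto` with `approx_id` in `L²`.  First term on the right:
`cv (hk n) u → u`, `cv (hk n) (Du j) → Du j` in `L^ρ(muT)` (`approx_id_T`), so by `nemytskii` (`T = fderiv ℝ (nlK d K)`,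
`p = rho d`, `nlK_fderiv_le`) `D nlK(..)[..] → D nlK(u)[Du j]` in `L^{ρ'}(muT)`, and `pair_tendsto`.  Second term:
`nlK(cv (hk n) u) → nlK(u)` in `L^ρ(muT)` (`nlK` is Lipschitz by `nlK_fderiv_le`) and
`cv (hk n)(nl∘u) → nl∘u` in `L^{ρ'}(muT)`, so the limit is `∫ Re(-I conj(nlK u) nl u) = 0` because
`conj(nlK z) nl z = m(|z|²)|z|^{4/d}|z|²` is real.
-/

open MeasureTheory Filter Topology Complex SchwartzMap
open scoped FourierTransform LineDeriv Laplacian ENNReal NNReal ComplexConjugate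

namespace MP3483
variable {d : ℕ}

theorem eb2_re_tendsto {X : Type*} [MeasurableSpace X] {μ : Measure X} {F : ℕ → X → ℂ}
    {F' : X → ℂ} (h1 : ∀ n, Integrable (F n) μ) (h2 : Integrable F' μ)
    (h3 : Tendsto (fun n => ∫ x, F n x ∂μ) atTop (𝓝 (∫ x, F' x ∂μ))) :
    Tendsto (fun n => ∫ x, (-Complex.I * F n x).re ∂μ) atTop
      (𝓝 (∫ x, (-Complex.I * F' x).re ∂μ)) := by
  have e1 : ∀ {G : X → ℂ}, Integrable G μ →
      (-Complex.I * ∫ x, G x ∂μ).re = ∫ x, (-Complex.I * G x).re ∂μ := by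
    intro G hG
    rw [← integral_const_mul]
    have h7 := ContinuousLinearMap.integral_comp_comm Complex.reCLM (hG.const_mul (-Complex.I))
    simpa using h7.symm
  have h4 := (Complex.continuous_re.tendsto _).comp (h3.const_mul (-Complex.I))
  rw [e1 h2] at h4
  refine h4.congr fun n => ?_
  simp only [Function.comp_def]
  exact e1 (h1 n)

theorem eb2_nlK_lip (hd : 1 ≤ d) {K : ℝ} (hK : 0 < K) (a b : ℂ) :
    ‖nlK d K a - nlK d K b‖ ≤ (1 + 4 / d) * K ^ ((2 : ℝ) / d) * ‖a - b‖ := by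
  refine Convex.norm_image_sub_le_of_norm_fderiv_le (𝕜 := ℝ) (s := Set.univ)
    (fun z _ => ?_) (fun z _ => (nlK_fderiv_le hd hK z).2) convex_univ (Set.mem_univ _)
    (Set.mem_univ _)
  exact ((nlK_contDiff hd hK).differentiable one_ne_zero).differentiableAt

theorem energy_B (hd : 1 ≤ d) {u : ℝ → Sp d → ℂ} {Du : ℝ → Fin d → Sp d → ℂ}
    (hu : H1Path (Set.Ici 0) u Du) (hS : Strich u Du) (hsol : Solves (fun _ => -1) (Set.Ici 0) u)
    {T : ℝ} (hT : 0 < T) {K : ℝ} (hK : 0 < K) :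
    (∫ x, GK d K (u T x)) - ∫ x, GK d K (u 0 x) =
      ∑ j, ∫ q : ℝ × Sp d, (-Complex.I * (conj (Du q.1 j q.2) *
        fderiv ℝ (nlK d K) (u q.1 q.2) (Du q.1 j q.2))).re ∂(muT d T) := by
  obtain ⟨huρ, hDρ⟩ := hS T hT
  have hρ1 := ea1_one_le_rhoE d
  have hρ1' := ea1_one_le_rhoC d
  have hρt : rhoE d ≠ ⊤ := ENNReal.ofReal_ne_top
  have hρt' : rhoC d ≠ ⊤ := ENNReal.ofReal_ne_top
  have hp : 1 < rho d := by linarith [rho_ge_two d]
  have hd0 : (0 : ℝ) < d := by exact_mod_cast hd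
  have hp2 : 2 < rho d := by
    unfold rho
    have : (0 : ℝ) < 4 / d := by positivity
    linarith
  have hC : rhoC d = ENNReal.ofReal (rho d / (rho d - 1)) := by
    unfold rhoC rho; congr 2; ring
  -- left side
  have hL : ∀ t, 0 ≤ t → Tendsto (fun n => ∫ x, GK d K (cv (hk n) (u t) x)) atTop
      (𝓝 (∫ x, GK d K (u t x))) := by
    intro t ht
    have h1 := (hu.isH1 t ht).memLp
    exact (GK_integral_tendsto hd hK (fun n => (young one_le_two h1 (hk n)).1) h1
      (approx_id one_le_two (by norm_num) h1)).2.2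
  have hleft := (hL T hT.le).sub (hL 0 le_rfl)
  -- convergence in space time
  have huρn := fun n => (young_T hρ1 hρt hu.meas huρ (hk n)).2
  have hDρn := fun (j : Fin d) n => (young_T hρ1 hρt (hu.measD j) (hDρ j) (hk n)).2
  have hlu := approx_id_T hρ1 hρt hu.meas huρ
  have hlD := fun (j : Fin d) => approx_id_T hρ1 hρt (hu.measD j) (hDρ j)
  have hnem := fun (j : Fin d) => nemytskii (T := fun z => fderiv ℝ (nlK d K) z)
    (C := 1 + 4 / d) hp2
    ((nlK_contDiff hd hK).continuous_fderiv one_ne_zero) (fun z => by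
      have := (nlK_fderiv_le hd hK z).1
      have e : rho d - 2 = (4 : ℝ) / d := by unfold rho; ring
      rwa [e]) huρn (hDρn j) huρ (hDρ j) hlu (hlD j)
  have hR1 : ∀ j, Tendsto (fun n => ∫ q : ℝ × Sp d, (-Complex.I *
      (conj (cv (hk n) (Du q.1 j) q.2) * fderiv ℝ (nlK d K) (cv (hk n) (u q.1) q.2)
        (cv (hk n) (Du q.1 j) q.2))).re ∂(muT d T)) atTop
      (𝓝 (∫ q : ℝ × Sp d, (-Complex.I * (conj (Du q.1 j q.2) *
        fderiv ℝ (nlK d K) (u q.1 q.2) (Du q.1 j q.2))).re ∂(muT d T))) := by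
    intro j
    obtain ⟨h1, h2, h3⟩ := pair_tendsto hp (hDρn j) (hnem j).1 (hDρ j) (hnem j).2.1 (hlD j)
      (hnem j).2.2
    exact eb2_re_tendsto h1 h2 h3
  -- second term
  have hnlm : Measurable (nl d) := (nl_contDiff hd).continuous.measurable
  have hnl : MemLp (fun q : ℝ × Sp d => nl d (u q.1 q.2)) (rhoC d) (muT d T) :=
    (nl_holder hd huρ huρ).1
  have hnln := fun n => (young_T hρ1' hρt' (hnlm.comp hu.meas) hnl (hk n)).2
  have hlnl := approx_id_T hρ1' hρt' (hnlm.comp hu.meas) hnl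
  have hK1 : Tendsto (fun n => eLpNorm (fun q : ℝ × Sp d => nlK d K (cv (hk n) (u q.1) q.2) -
      nlK d K (u q.1 q.2)) (rhoE d) (muT d T)) atTop (𝓝 0) := by
    have h1 : Tendsto (fun n => ENNReal.ofReal ((1 + 4 / d) * K ^ ((2 : ℝ) / d)) *
        eLpNorm (fun q : ℝ × Sp d => cv (hk n) (fun y => u q.1 y) q.2 - u q.1 q.2) (rhoE d)
          (muT d T)) atTop (𝓝 0) := by
      have h2 := ENNReal.Tendsto.const_mul
        (a := ENNReal.ofReal ((1 + 4 / d) * K ^ ((2 : ℝ) / d))) hlu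
        (Or.inr ENNReal.ofReal_ne_top)
      simpa using h2
    refine tendsto_of_tendsto_of_tendsto_of_le_of_le tendsto_const_nhds h1
      (fun n => bot_le) fun n => ?_
    exact eLpNorm_le_mul_eLpNorm_of_ae_le_mul
      (Eventually.of_forall fun q => eb2_nlK_lip hd hK _ _) _
  have hR2 : Tendsto (fun n => ∫ q : ℝ × Sp d, (-Complex.I *
      (conj (nlK d K (cv (hk n) (u q.1) q.2)) *
        cv (hk n) (fun y => nl d (u q.1 y)) q.2)).re ∂(muT d T)) atTop (𝓝 0) := by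
    have hnl' := hnl
    rw [hC] at hnln hlnl hnl'
    obtain ⟨h1, h2, h3⟩ := pair_tendsto hp (fun n => eb1_nlK_memLp hd hK (huρn n)) hnln
      (eb1_nlK_memLp hd hK huρ) hnl' hK1 hlnl
    have h4 := eb2_re_tendsto h1 h2 h3
    have h5 : ∫ q : ℝ × Sp d, (-Complex.I * (conj (nlK d K (u q.1 q.2)) *
        nl d (u q.1 q.2))).re ∂(muT d T) = 0 := by
      rw [← integral_zero (ℝ × Sp d) ℝ]
      refine integral_congr_ae (Eventually.of_forall fun q => ?_)
      unfold nlK nl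
      simp [Complex.mul_re]
      ring
    rwa [h5] at h4
  have hright := (tendsto_finsetSum Finset.univ fun j _ => hR1 j).add hR2
  rw [add_zero] at hright
  refine tendsto_nhds_unique hleft (hright.congr fun n => ?_)
  exact (energy_B_n hd hu hS hsol hT hK n).symm

end MP3483
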