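import Pool.Agent.Lib_MP_3483a5_an.EA2
import Pool.Agent.Lib_MP_3483a5_an.EB2
import Pool.Agent.Lib_MP_3483a5_an.CR
import Pool.Agent.Lib_MP_3483a5_an.TR1
import Pool.Agent.Lib_MP_3483a5_an.TR2

/-!
# MP_3483a5_an, piece EC

Conservation of energy.
Proof.  Let `K → ∞` (`K = k+1`, `k : ℕ`) in `energy_B`: on the left dominated convergence with
`0 ≤ GK ≤ |u|^ρ/ρ` (`GK_bounds`, `GK_tendsto`; `u T, u 0 ∈ L^ρ` by `cont_rho`), on the right dominated
convergence with `|conj(Du j) D nlK(u)[Du j]| ≤ (1+4/d)|u|^{4/d}|Du j|²`, integrable on `muT` by Hölder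
(`|u|^{4/d}|Du_j| ∈ L^{ρ'}`: it is `nemytskii`/`dn_memLp`-type, or `|u|^{4/d}|Du|² ≤ |u|^ρ + |Du|^ρ`), and
`nlK_fderiv_tendsto`.  So `(1/ρ)∫|u T|^ρ - (1/ρ)∫|u 0|^ρ = ∑_j ∫ Re(-I conj(Du j) D nl(u)[Du j])`, which by
`energy_A` equals `(1/2)∑_j(∫|Du T j|² - ∫|Du 0 j|²)`.
-/

open MeasureTheory Filter Topology Complex SchwartzMap
open scoped FourierTransform LineDeriv Laplacian ENNReal NNReal ComplexConjugate

namespace MP3483
variable {d : ℕ}

theorem ec_young {a x y : ℝ} (ha : 0 < a) (hx : 0 ≤ x) (hy : 0 ≤ y) :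
    x ^ a * y ^ 2 ≤ x ^ (a + 2) + y ^ (a + 2) := by
  rcases le_total x y with h | h
  · have h1 : x ^ a * y ^ 2 ≤ y ^ a * y ^ 2 :=
      mul_le_mul_of_nonneg_right (Real.rpow_le_rpow hx h ha.le) (by positivity)
    have h2 : y ^ a * y ^ 2 = y ^ (a + 2) := by
      rcases eq_or_lt_of_le hy with h0 | h0
      · rw [← h0, Real.zero_rpow ha.ne', Real.zero_rpow (by linarith)]; simp
      · rw [← Real.rpow_natCast, ← Real.rpow_add h0]; norm_num
    have h3 : 0 ≤ x ^ (a + 2) := Real.rpow_nonneg hx _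
    linarith
  · have h1 : x ^ a * y ^ 2 ≤ x ^ a * x ^ 2 :=
      mul_le_mul_of_nonneg_left (pow_le_pow_left₀ hy h 2) (Real.rpow_nonneg hx _)
    have h2 : x ^ a * x ^ 2 = x ^ (a + 2) := by
      rcases eq_or_lt_of_le hx with h0 | h0
      · rw [← h0, Real.zero_rpow ha.ne', Real.zero_rpow (by linarith)]; simp
      · rw [← Real.rpow_natCast, ← Real.rpow_add h0]; norm_num
    have h3 : 0 ≤ y ^ (a + 2) := Real.rpow_nonneg hy _
    linarith

theorem ec_integrable_rpow {X : Type*} [MeasurableSpace X] {μ : Measure X} {f : X → ℂ}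
    (hf : MemLp f (rhoE d) μ) : Integrable (fun x => ‖f x‖ ^ rho d) μ := by
  have h := hf.integrable_norm_rpow (by
    unfold rhoE
    simpa using rho_pos d) ENNReal.ofReal_ne_top
  unfold rhoE at h
  rwa [ENNReal.toReal_ofReal (rho_pos d).le] at h

theorem energy_conservation (hd : 1 ≤ d) {u : ℝ → Sp d → ℂ} {Du : ℝ → Fin d → Sp d → ℂ}
    (hu : H1Path (Set.Ici 0) u Du) (hS : Strich u Du) (hsol : Solves (fun _ => -1) (Set.Ici 0) u)
    {T : ℝ} (hT : 0 < T) : En (u T) (Du T) = En (u 0) (Du 0) := by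
  obtain ⟨huρ, hDρ⟩ := hS T hT
  have hd0 : (0 : ℝ) < d := by exact_mod_cast hd
  have ha : (0 : ℝ) < 4 / d := by positivity
  have hKpos : ∀ k : ℕ, (0 : ℝ) < (k : ℝ) + 1 := fun k => by positivity
  obtain ⟨hmem, -, -⟩ := cont_rho hd hu
  -- left side
  have hL : ∀ t, 0 ≤ t → Tendsto (fun k : ℕ => ∫ x, GK d ((k : ℝ) + 1) (u t x)) atTop
      (𝓝 ((1 / rho d) * ∫ x, ‖u t x‖ ^ rho d)) := by
    intro t ht
    rw [← integral_const_mul]
    have hi := (ec_integrable_rpow (hmem t ht)).const_mul (1 / rho d)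
    refine tendsto_integral_of_dominated_convergence _ (fun k => ?_) hi (fun k => ?_) ?_
    · have hc : Continuous (GK d ((k : ℝ) + 1)) := by
        rw [continuous_iff_continuousAt]
        exact fun z => (GK_hasFDerivAt hd (hKpos k) z).continuousAt
      exact hc.comp_aestronglyMeasurable (hmem t ht).1
    · refine Eventually.of_forall fun x => ?_
      have h3 := GK_bounds hd (hKpos k) (u t x)
      rw [Real.norm_of_nonneg h3.1]
      exact h3.2.1
    · exact Eventually.of_forall fun x => GK_tendsto hd (u t x)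
  have hleft := (hL T hT.le).sub (hL 0 le_rfl)
  -- right side
  have hR : ∀ j, Tendsto (fun k : ℕ => ∫ q : ℝ × Sp d, (-Complex.I * (conj (Du q.1 j q.2) *
        fderiv ℝ (nlK d ((k : ℝ) + 1)) (u q.1 q.2) (Du q.1 j q.2))).re ∂(muT d T)) atTop
      (𝓝 (∫ q : ℝ × Sp d, (-Complex.I * (conj (Du q.1 j q.2) *
        fderiv ℝ (nl d) (u q.1 q.2) (Du q.1 j q.2))).re ∂(muT d T))) := by
    intro j
    have hi1 : Integrable (fun q : ℝ × Sp d => ‖u q.1 q.2‖ ^ rho d) (muT d T) :=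
      ec_integrable_rpow huρ
    have hi2 : Integrable (fun q : ℝ × Sp d => ‖Du q.1 j q.2‖ ^ rho d) (muT d T) :=
      ec_integrable_rpow (hDρ j)
    have hi := (hi1.add hi2).const_mul (1 + 4 / (d : ℝ))
    refine tendsto_integral_of_dominated_convergence _ (fun k => ?_) hi (fun k => ?_) ?_
    · have hc : Continuous (fun z : ℂ × ℂ => (-Complex.I * (conj z.2 *
          fderiv ℝ (nlK d ((k : ℝ) + 1)) z.1 z.2)).re) := by
        have h1 : Continuous (fun z : ℂ × ℂ => fderiv ℝ (nlK d ((k : ℝ) + 1)) z.1 z.2) :=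
          (((nlK_contDiff hd (hKpos k)).continuous_fderiv one_ne_zero).comp
            continuous_fst).clm_apply continuous_snd
        exact Complex.continuous_re.comp (continuous_const.mul
          ((Complex.continuous_conj.comp continuous_snd).mul h1))
      exact (hc.measurable.comp (hu.meas.prodMk (hu.measD j))).aestronglyMeasurable
    · refine Eventually.of_forall fun q => ?_
      have h1 := (nlK_fderiv_le hd (hKpos k) (u q.1 q.2)).1
      have h2 : ‖fderiv ℝ (nlK d ((k : ℝ) + 1)) (u q.1 q.2) (Du q.1 j q.2)‖ ≤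
          (1 + 4 / d) * ‖u q.1 q.2‖ ^ ((4 : ℝ) / d) * ‖Du q.1 j q.2‖ :=
        (ContinuousLinearMap.le_opNorm _ _).trans
          (mul_le_mul_of_nonneg_right h1 (norm_nonneg _))
      rw [Real.norm_eq_abs]
      refine (Complex.abs_re_le_norm _).trans ?_
      rw [norm_mul, norm_mul, norm_neg, Complex.norm_I, one_mul, RCLike.norm_conj]
      have h3 : ‖Du q.1 j q.2‖ *
          ‖fderiv ℝ (nlK d ((k : ℝ) + 1)) (u q.1 q.2) (Du q.1 j q.2)‖ ≤
          (1 + 4 / d) * (‖u q.1 q.2‖ ^ ((4 : ℝ) / d) * ‖Du q.1 j q.2‖ ^ 2) := by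
        refine (mul_le_mul_of_nonneg_left h2 (norm_nonneg _)).trans (le_of_eq ?_)
        ring
      refine h3.trans ?_
      have h4 := ec_young ha (norm_nonneg (u q.1 q.2)) (norm_nonneg (Du q.1 j q.2))
      have e : (4 : ℝ) / d + 2 = rho d := by unfold rho; ring
      rw [e] at h4
      exact mul_le_mul_of_nonneg_left h4 (by positivity)
    · refine Eventually.of_forall fun q => ?_
      have h1 := nlK_fderiv_tendsto hd (u q.1 q.2)
      have h2 : Tendsto (fun k : ℕ => fderiv ℝ (nlK d ((k : ℝ) + 1)) (u q.1 q.2)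
          (Du q.1 j q.2)) atTop (𝓝 (fderiv ℝ (nl d) (u q.1 q.2) (Du q.1 j q.2))) :=
        ((ContinuousLinearMap.apply ℝ ℂ (Du q.1 j q.2)).continuous.tendsto _).comp h1
      exact (Complex.continuous_re.tendsto _).comp
        ((h2.const_mul (conj (Du q.1 j q.2))).const_mul (-Complex.I))
  have hright := tendsto_finsetSum Finset.univ fun j _ => hR j
  have hkey := tendsto_nhds_unique hleft (hright.congr fun k =>
    (energy_B hd hu hS hsol hT (hKpos k)).symm)
  have hA : ∑ j, ((1 / 2) * (∫ x, ‖Du T j x‖ ^ 2) - (1 / 2) * ∫ x, ‖Du 0 j x‖ ^ 2) =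
      ∑ j, ∫ q : ℝ × Sp d, (-Complex.I * (conj (Du q.1 j q.2) *
        fderiv ℝ (nl d) (u q.1 q.2) (Du q.1 j q.2))).re ∂(muT d T) :=
    Finset.sum_congr rfl fun j _ => energy_A hd hu hS hsol hT j
  rw [Finset.sum_sub_distrib, ← Finset.mul_sum, ← Finset.mul_sum] at hA
  unfold En
  linarith

end MP3483
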