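import Pool.Agent.Lib_MP_3483a5_an.Base

/-!
# MP_3483a5_an, piece GD

Derivatives of the heat kernel `G z x = (4πz)^{-d/2} e^{-‖x‖²/(4z)}`.
`∂_j G = -(x_j/(2z)) G`, `∂_j² G = (-1/(2z) + x_j²/(4z²)) G`, hence `ΔG = (‖x‖²/(4z²) - d/(2z)) G`,
and `d/dz G` is the same expression (`4πz` is in the slit plane).
Use `SchwartzMap.lineDerivOp_apply` / `lineDerivOp_apply_eq_fderiv`, `SchwartzMap.laplacian_eq_sum`
(with `EuclideanSpace.basisFun`) or `laplacianCLM`, `gS_apply` to rewrite the coercion as `G z`.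
-/

open MeasureTheory Filter Topology Complex SchwartzMap
open scoped FourierTransform LineDeriv Laplacian ENNReal NNReal ComplexConjugate

namespace MP3483
variable {d : ℕ}

theorem gd_norm_sq (x : Sp d) (j : Fin d) (t : ℝ) :
    ‖x + t • ev j‖ ^ 2 = ‖x‖ ^ 2 + 2 * t * x j + t ^ 2 := by
  have h1 : inner ℝ x (t • ev j) = t * x j := by
    rw [inner_smul_right]
    congr 1
    simp [ev, EuclideanSpace.inner_single_right]
  have h2 : ‖t • ev j‖ = |t| := by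
    rw [norm_smul, Real.norm_eq_abs]
    simp [ev]
  rw [norm_add_sq_real, h1, h2, sq_abs]
  ring

theorem gd_hasDeriv (z : ℂ) (hz : z ≠ 0) (j : Fin d) (x : Sp d) (t : ℝ) :
    HasDerivAt (fun s : ℝ => G z (x + s • ev j))
      (-(((x j : ℂ) + t) / (2 * z)) * G z (x + t • ev j)) t := by
  have e : ∀ s : ℝ, G z (x + s • ev j) = (4 * (Real.pi : ℂ) * z) ^ (-(d : ℂ) / 2) *
      cexp (-(((‖x‖ : ℂ) ^ 2 + 2 * (s : ℂ) * (x j : ℂ) + (s : ℂ) ^ 2) / (4 * z))) := by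
    intro s
    unfold G
    have h := gd_norm_sq x j s
    have h' : (‖x + s • ev j‖ : ℂ) ^ 2 =
        (‖x‖ : ℂ) ^ 2 + 2 * (s : ℂ) * (x j : ℂ) + (s : ℂ) ^ 2 := by
      rw [← ofReal_pow, h]
      push_cast
      ring
    rw [h']
  have h0 : HasDerivAt (fun s : ℝ => (s : ℂ)) 1 t := by
    simpa using (hasDerivAt_id t).ofReal_comp
  have h1 : HasDerivAt (fun s : ℝ => -(((‖x‖ : ℂ) ^ 2 + 2 * (s : ℂ) * (x j : ℂ) + (s : ℂ) ^ 2) /
      (4 * z))) (-((2 * 1 * (x j : ℂ) + 2 * (t : ℂ) * 1) / (4 * z))) t := by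
    have h2 : HasDerivAt (fun s : ℝ => (‖x‖ : ℂ) ^ 2 + 2 * (s : ℂ) * (x j : ℂ) + (s : ℂ) ^ 2)
        (2 * 1 * (x j : ℂ) + 2 * (t : ℂ) * 1) t := by
      have h3 := (((h0.const_mul (2 : ℂ)).mul_const (x j : ℂ)).const_add ((‖x‖ : ℂ) ^ 2)).add
        (h0.pow 2)
      exact h3.congr_deriv (by push_cast; ring)
    exact (h2.div_const (4 * z)).neg
  have h4 := (h1.cexp).const_mul ((4 * (Real.pi : ℂ) * z) ^ (-(d : ℂ) / 2))
  have h5 : HasDerivAt (fun s : ℝ => G z (x + s • ev j))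
      ((4 * (Real.pi : ℂ) * z) ^ (-(d : ℂ) / 2) *
        (cexp (-(((‖x‖ : ℂ) ^ 2 + 2 * (t : ℂ) * (x j : ℂ) + (t : ℂ) ^ 2) / (4 * z))) *
          (-((2 * 1 * (x j : ℂ) + 2 * (t : ℂ) * 1) / (4 * z))))) t := by
    refine h4.congr_of_eventuallyEq (Filter.Eventually.of_forall (fun s => ?_))
    exact e s
  refine h5.congr_deriv ?_
  rw [e t]
  field_simp
  ring

theorem gd_ne {z : ℂ} (hz : 0 < z.re) : z ≠ 0 := by
  rintro rfl
  simp at hz

theorem gd_coe (z : ℂ) (hz : 0 < z.re) : ((gS z hz : 𝓢(Sp d, ℂ)) : Sp d → ℂ) = G z := by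
  funext x
  exact gS_apply z hz x

theorem gS_partial (z : ℂ) (hz : 0 < z.re) (j : Fin d) (x : Sp d) :
    pd j (gS z hz) x = -((x j : ℂ) / (2 * z)) * G z x := by
  unfold pd
  rw [SchwartzMap.lineDerivOp_apply, gd_coe, lineDeriv]
  have h := (gd_hasDeriv z (gd_ne hz) j x 0).deriv
  rw [h]
  simp

theorem gd_partial2 (z : ℂ) (hz : 0 < z.re) (j : Fin d) (x : Sp d) :
    pd j (pd j (gS z hz)) x = (-(1 / (2 * z)) + (x j : ℂ) ^ 2 / (4 * z ^ 2)) * G z x := by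
  have hz0 := gd_ne hz
  have hc : ((pd j (gS z hz) : 𝓢(Sp d, ℂ)) : Sp d → ℂ) =
      fun y => -((y j : ℂ) / (2 * z)) * G z y := by
    funext y
    exact gS_partial z hz j y
  have h0 : HasDerivAt (fun s : ℝ => (s : ℂ)) 1 (0 : ℝ) := by
    simpa using (hasDerivAt_id (0 : ℝ)).ofReal_comp
  have h1 : HasDerivAt (fun s : ℝ => -(((x j : ℂ) + s) / (2 * z))) (-(1 / (2 * z))) (0 : ℝ) :=
    ((h0.const_add (x j : ℂ)).div_const (2 * z)).neg
  have h2 := h1.mul (gd_hasDeriv z hz0 j x 0)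
  have h3 : (fun s : ℝ => -(((x + s • ev j) j : ℂ) / (2 * z)) * G z (x + s • ev j)) =
      fun s : ℝ => -(((x j : ℂ) + s) / (2 * z)) * G z (x + s • ev j) := by
    funext s
    have : ((x + s • ev j) j : ℂ) = (x j : ℂ) + s := by
      simp [ev]
    rw [this]
  change (∂_{ev j} (pd j (gS z hz))) x = _
  rw [SchwartzMap.lineDerivOp_apply, hc, lineDeriv, h3]
  have h4 := h2.deriv
  refine Eq.trans ?_ (h4.trans ?_)
  · rfl
  · simp only [ofReal_zero, add_zero, zero_smul]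
    field_simp
    ring

theorem gS_laplacian (z : ℂ) (hz : 0 < z.re) (x : Sp d) :
    lap (gS z hz) x = ((‖x‖ : ℂ) ^ 2 / (4 * z ^ 2) - (d : ℂ) / (2 * z)) * G z x := by
  have h1 : lap (gS z hz : 𝓢(Sp d, ℂ)) = ∑ j : Fin d, pd j (pd j (gS z hz)) := by
    unfold lap
    rw [SchwartzMap.laplacian_eq_sum (EuclideanSpace.basisFun (Fin d) ℝ)]
    refine Finset.sum_congr rfl (fun j _ => ?_)
    simp only [EuclideanSpace.basisFun_apply]
    rfl
  have h2 : lap (gS z hz) x = ∑ j : Fin d, pd j (pd j (gS z hz)) x := by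
    rw [h1]
    simp
  have hx : (‖x‖ : ℂ) ^ 2 = ∑ j : Fin d, (x j : ℂ) ^ 2 := by
    rw [← ofReal_pow, EuclideanSpace.real_norm_sq_eq]
    push_cast
    rfl
  rw [h2, Finset.sum_congr rfl (fun j _ => gd_partial2 z hz j x), ← Finset.sum_mul,
    Finset.sum_add_distrib, hx, Finset.sum_div, Finset.sum_const, Finset.card_univ,
    Fintype.card_fin, nsmul_eq_mul]
  ring

theorem G_hasDerivAt (z : ℂ) (hz : 0 < z.re) (x : Sp d) :
    HasDerivAt (fun w : ℂ => G w x) (lap (gS z hz) x) z := by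
  have hz0 := gd_ne hz
  have hpi : (Real.pi : ℂ) ≠ 0 := by exact_mod_cast Real.pi_ne_zero
  have h1 : HasDerivAt (fun w : ℂ => 4 * (Real.pi : ℂ) * w) (4 * (Real.pi : ℂ)) z := by
    simpa using (hasDerivAt_id z).const_mul (4 * (Real.pi : ℂ))
  have hslit : 4 * (Real.pi : ℂ) * z ∈ slitPlane := by
    left
    have : (4 * (Real.pi : ℂ) * z).re = 4 * Real.pi * z.re := by
      have e : 4 * (Real.pi : ℂ) * z = ((4 * Real.pi : ℝ) : ℂ) * z := by push_cast; ring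
      rw [e, re_ofReal_mul]
    rw [this]
    have := Real.pi_pos
    positivity
  have hne : 4 * (Real.pi : ℂ) * z ≠ 0 := mul_ne_zero (mul_ne_zero (by norm_num) hpi) hz0
  have h2 := h1.cpow_const (c := -(d : ℂ) / 2) hslit
  have h3 : HasDerivAt (fun w : ℂ => cexp (-((‖x‖ : ℂ) ^ 2 / (4 * w))))
      (cexp (-((‖x‖ : ℂ) ^ 2 / (4 * z))) * ((‖x‖ : ℂ) ^ 2 / (4 * z ^ 2))) z := by
    have h4 : HasDerivAt (fun w : ℂ => -((‖x‖ : ℂ) ^ 2 / (4 * w)))
        ((‖x‖ : ℂ) ^ 2 / (4 * z ^ 2)) z := by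
      have h5 : HasDerivAt (fun w : ℂ => -((‖x‖ : ℂ) ^ 2 / 4) * w⁻¹)
          (-((‖x‖ : ℂ) ^ 2 / 4) * (-(z ^ 2)⁻¹)) z := (hasDerivAt_inv hz0).const_mul _
      have h6 : (fun w : ℂ => -((‖x‖ : ℂ) ^ 2 / (4 * w))) =
          fun w : ℂ => -((‖x‖ : ℂ) ^ 2 / 4) * w⁻¹ := by
        funext w
        rw [div_mul_eq_div_div, div_eq_mul_inv _ w]
        ring
      rw [h6]
      refine h5.congr_deriv ?_
      field_simp
    exact h4.cexp
  have h7 := h2.mul h3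
  have h8 : (4 * (Real.pi : ℂ) * z) ^ (-(d : ℂ) / 2 - 1) =
      (4 * (Real.pi : ℂ) * z) ^ (-(d : ℂ) / 2) / (4 * (Real.pi : ℂ) * z) := by
    rw [cpow_sub _ _ hne, cpow_one]
  rw [gS_laplacian z hz x]
  refine h7.congr_deriv ?_
  rw [h8]
  unfold G
  field_simp
  ring

end MP3483
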