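import Pool.Agent.Lib_MP_3483a5_an.Base0

/-!
# MP_3483a5_an, piece GN1

`∫_0^∞ l^{α-1} min(1, y² l^{-2α}) dl ≤ 2y/α`.
Proof.  `y = 0`: trivial.  `y > 0`: split at `L = y^{1/α}`: `∫_0^L l^{α-1} = L^α/α = y/α` and
`∫_L^∞ y² l^{-α-1} = y² L^{-α}/α = y/α` (`integral_Ioi_rpow_of_lt`, `integral_rpow`).
-/

open MeasureTheory Filter Topology Complex SchwartzMap
open scoped FourierTransform LineDeriv Laplacian ENNReal NNReal ComplexConjugate

namespace MP3483
variable {d : ℕ}

theorem scalar_int {α y : ℝ} (hα : 0 < α) (hy : 0 ≤ y) :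
    ∫⁻ l in Set.Ioi (0 : ℝ), ENNReal.ofReal (l ^ (α - 1) * min 1 ((y * l ^ (-α)) ^ 2)) ≤
      ENNReal.ofReal (2 * y / α) := by
  rcases hy.eq_or_lt with h0 | hy0
  · rw [← h0]
    simp
  set L : ℝ := y ^ (1 / α) with hL
  have hL0 : 0 < L := Real.rpow_pos_of_pos hy0 _
  have hLα : L ^ α = y := by
    rw [hL, ← Real.rpow_mul hy0.le]; field_simp; simp
  have hsplit : Set.Ioi (0 : ℝ) = Set.Ioc 0 L ∪ Set.Ioi L := (Set.Ioc_union_Ioi_eq_Ioi hL0.le).symm
  have h1 : ∫⁻ l in Set.Ioc 0 L, ENNReal.ofReal (l ^ (α - 1) * min 1 ((y * l ^ (-α)) ^ 2)) ≤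
      ENNReal.ofReal (y / α) := by
    have hint : IntegrableOn (fun l : ℝ => l ^ (α - 1)) (Set.Ioc 0 L) := by
      have := (intervalIntegral.intervalIntegrable_rpow' (a := 0) (b := L) (r := α - 1)
        (by linarith))
      rwa [intervalIntegrable_iff_integrableOn_Ioc_of_le hL0.le] at this
    calc ∫⁻ l in Set.Ioc 0 L, ENNReal.ofReal (l ^ (α - 1) * min 1 ((y * l ^ (-α)) ^ 2))
        ≤ ∫⁻ l in Set.Ioc 0 L, ENNReal.ofReal (l ^ (α - 1)) := by
          apply lintegral_mono_ae
          filter_upwards [ae_restrict_mem measurableSet_Ioc] with l hl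
          apply ENNReal.ofReal_le_ofReal
          have : 0 ≤ l ^ (α - 1) := Real.rpow_nonneg hl.1.le _
          calc l ^ (α - 1) * min 1 ((y * l ^ (-α)) ^ 2) ≤ l ^ (α - 1) * 1 :=
                mul_le_mul_of_nonneg_left (min_le_left _ _) this
            _ = _ := mul_one _
      _ = ENNReal.ofReal (∫ l in Set.Ioc 0 L, l ^ (α - 1)) := by
          rw [ofReal_integral_eq_lintegral_ofReal hint]
          filter_upwards [ae_restrict_mem measurableSet_Ioc] with l hl
          exact Real.rpow_nonneg hl.1.le _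
      _ = ENNReal.ofReal (y / α) := by
          rw [← intervalIntegral.integral_of_le hL0.le, integral_rpow (Or.inl (by linarith))]
          congr 1
          rw [Real.zero_rpow (by linarith), sub_add_cancel, hLα, sub_zero]
  have h2 : ∫⁻ l in Set.Ioi L, ENNReal.ofReal (l ^ (α - 1) * min 1 ((y * l ^ (-α)) ^ 2)) ≤
      ENNReal.ofReal (y / α) := by
    have hint : IntegrableOn (fun l : ℝ => y ^ 2 * l ^ (-α - 1)) (Set.Ioi L) :=
      (integrableOn_Ioi_rpow_of_lt (by linarith) hL0).const_mul _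
    calc ∫⁻ l in Set.Ioi L, ENNReal.ofReal (l ^ (α - 1) * min 1 ((y * l ^ (-α)) ^ 2))
        ≤ ∫⁻ l in Set.Ioi L, ENNReal.ofReal (y ^ 2 * l ^ (-α - 1)) := by
          apply lintegral_mono_ae
          filter_upwards [ae_restrict_mem measurableSet_Ioi] with l hl
          apply ENNReal.ofReal_le_ofReal
          have hl0 : 0 < l := hL0.trans hl
          have : 0 ≤ l ^ (α - 1) := Real.rpow_nonneg hl0.le _
          calc l ^ (α - 1) * min 1 ((y * l ^ (-α)) ^ 2) ≤ l ^ (α - 1) * ((y * l ^ (-α)) ^ 2) :=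
                mul_le_mul_of_nonneg_left (min_le_right _ _) this
            _ = y ^ 2 * (l ^ (α - 1) * (l ^ (-α)) ^ 2) := by ring
            _ = y ^ 2 * l ^ (-α - 1) := by
                congr 1
                rw [← Real.rpow_natCast, ← Real.rpow_mul hl0.le, ← Real.rpow_add hl0]
                congr 1; push_cast; ring
      _ = ENNReal.ofReal (∫ l in Set.Ioi L, y ^ 2 * l ^ (-α - 1)) := by
          rw [ofReal_integral_eq_lintegral_ofReal hint]
          filter_upwards [ae_restrict_mem measurableSet_Ioi] with l hl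
          have hl0 : 0 < l := hL0.trans hl
          positivity
      _ = ENNReal.ofReal (y / α) := by
          rw [integral_const_mul, integral_Ioi_rpow_of_lt (by linarith) hL0]
          congr 1
          have h3 : L ^ (-α - 1 + 1) = y⁻¹ := by
            rw [sub_add_cancel, Real.rpow_neg hL0.le, hLα]
          rw [h3]
          have hα' : α ≠ 0 := hα.ne'
          have hy' : y ≠ 0 := hy0.ne'
          have h4 : -α - 1 + 1 = -α := by ring
          rw [h4]
          field_simp
  rw [hsplit]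
  calc _ ≤ ENNReal.ofReal (y / α) + ENNReal.ofReal (y / α) :=
        (lintegral_union_le _ _ _).trans (add_le_add h1 h2)
    _ = ENNReal.ofReal (2 * y / α) := by
        rw [← ENNReal.ofReal_add (by positivity) (by positivity)]
        congr 1; ring

end MP3483
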