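import Pool.Agent.Lib_MP_3483a5_an.Base0

/-!
# MP_3483a5_an, piece PL

`SchwartzMap.fourier_lineDerivOp_eq` and Plancherel (`SchwartzMap.integral_norm_sq_fourier`), with
`∑_j ξ_j² = ‖ξ‖²` (`EuclideanSpace.norm_sq_eq`).
-/

open MeasureTheory Filter Topology Complex SchwartzMap
open scoped FourierTransform LineDeriv Laplacian ENNReal NNReal ComplexConjugate

namespace MP3483
variable {d : ℕ}

theorem fourier_pd (φ : 𝓢(Sp d, ℂ)) (j : Fin d) (ξ : Sp d) : (𝓕 (pd j φ) : 𝓢(Sp d, ℂ)) ξ =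
    2 * (Real.pi : ℂ) * Complex.I * (ξ j : ℂ) * (𝓕 φ : 𝓢(Sp d, ℂ)) ξ := by
  have hg : (fun x : Sp d => inner ℝ x (ev j)).HasTemperateGrowth :=
    ((innerSL ℝ).flip (ev j)).hasTemperateGrowth
  rw [pd, SchwartzMap.fourier_lineDerivOp_eq, _root_.smul_apply, smulLeftCLM_apply_apply hg]
  have h1 : inner ℝ ξ (ev j) = ξ j := by
    rw [ev, EuclideanSpace.inner_single_right]
    simp
  rw [h1, smul_eq_mul, Complex.real_smul]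
  ring

theorem plancherel_grad (φ : 𝓢(Sp d, ℂ)) : ∑ j, ∫ x, ‖pd j φ x‖ ^ 2 =
    4 * Real.pi ^ 2 * ∫ ξ, ‖ξ‖ ^ 2 * ‖(𝓕 φ : 𝓢(Sp d, ℂ)) ξ‖ ^ 2 := by
  have h1 : ∀ j, ∀ ξ : Sp d, ‖(𝓕 (pd j φ) : 𝓢(Sp d, ℂ)) ξ‖ ^ 2 =
      4 * Real.pi ^ 2 * ((ξ j) ^ 2 * ‖(𝓕 φ : 𝓢(Sp d, ℂ)) ξ‖ ^ 2) := by
    intro j ξ
    rw [fourier_pd]
    simp only [norm_mul, norm_I, mul_one, Complex.norm_real, Real.norm_eq_abs]
    rw [mul_pow, mul_pow, mul_pow, sq_abs, sq_abs]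
    norm_num
    ring
  have h2 : ∀ j, ∫ x, ‖pd j φ x‖ ^ 2 =
      ∫ ξ : Sp d, 4 * Real.pi ^ 2 * ((ξ j) ^ 2 * ‖(𝓕 φ : 𝓢(Sp d, ℂ)) ξ‖ ^ 2) := by
    intro j
    rw [← SchwartzMap.integral_norm_sq_fourier (pd j φ)]
    exact integral_congr_ae (Eventually.of_forall (h1 j))
  have h3 : ∀ j, Integrable (fun ξ : Sp d =>
      4 * Real.pi ^ 2 * ((ξ j) ^ 2 * ‖(𝓕 φ : 𝓢(Sp d, ℂ)) ξ‖ ^ 2)) := by
    intro j
    have h4 : Integrable (fun ξ : Sp d => ‖(𝓕 (pd j φ) : 𝓢(Sp d, ℂ)) ξ‖ ^ 2) :=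
      (memLp_two_iff_integrable_sq_norm ((𝓕 (pd j φ) : 𝓢(Sp d, ℂ)).memLp 2).1).1
        ((𝓕 (pd j φ) : 𝓢(Sp d, ℂ)).memLp 2)
    exact h4.congr (Eventually.of_forall (h1 j))
  rw [Finset.sum_congr rfl fun j _ => h2 j, ← integral_finset_sum _ fun j _ => h3 j,
    ← integral_const_mul]
  refine integral_congr_ae (Eventually.of_forall fun ξ => ?_)
  simp only
  rw [← Finset.mul_sum, ← Finset.sum_mul, EuclideanSpace.norm_sq_eq]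
  simp

end MP3483
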