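import Pool.Agent.Lib_MP_3483a5_an.HE
import Pool.Agent.Lib_MP_3483a5_an.GN1
import Pool.Agent.Lib_MP_3483a5_an.PL
import Pool.Agent.Lib_MP_3483a5_an.GL
import Pool.Agent.Lib_MP_3483a5_an.YG

/-!
# MP_3483a5_an, piece GN

The Gagliardo-Nirenberg inequality `∫|φ|^ρ ≤ C (∫|φ|²)^{2/d} ∑_j∫|∂_jφ|²`, `ρ = 2+4/d`, `α := 4/d`, for
Schwartz functions (heat kernel version of the Chemin-Xu proof).
Proof.  `m = ∫|φ|² > 0` (else `φ = 0`).  For `λ > 0` let `ε = ε(λ) = (8π)^{-1} (2√m/λ)^α`, so that by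
Cauchy-Schwarz and `G_l2` `|cv (gS ε) φ x| ≤ √m (8πε)^{-d/4} = λ/2`.  Hence `{|φ| > λ} ⊆ {|φ - cv (gS ε) φ| > λ/2}`
and by Chebyshev and `heat_diff` `vol{|φ|>λ} ≤ (4/λ²) ∫ min(1,(4π²ε‖ξ‖²)²)|𝓕φ|² dξ`.  Layer cake
(`lintegral_rpow_eq_lintegral_meas_lt_mul`): `∫|φ|^ρ = ρ∫_0^∞ λ^{ρ-1} vol{|φ|>λ} dλ ≤
4ρ ∫∫ λ^{α-1} min(1,(y λ^{-α})²) dλ |𝓕φ(ξ)|² dξ`, `y = (π/2)(2√m)^α ‖ξ‖²` (Tonelli), `≤ (8ρ/α) ∫ y|𝓕φ|²` by
`scalar_int`, and `4π²∫‖ξ‖²|𝓕φ|² = ∑_j∫|∂_jφ|²` (`plancherel_grad`), `√m^α = m^{2/d}`.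
-/

open MeasureTheory Filter Topology Complex SchwartzMap
open scoped FourierTransform LineDeriv Laplacian ENNReal NNReal ComplexConjugate

namespace MP3483
variable {d : ℕ}

theorem gn_int_sq (φ : 𝓢(Sp d, ℂ)) : Integrable (fun x => ‖φ x‖ ^ 2) :=
  (memLp_two_iff_integrable_sq_norm φ.continuous.aestronglyMeasurable).1 (φ.memLp 2)

theorem gn_int_grad (φ : 𝓢(Sp d, ℂ)) :
    Integrable (fun ξ : Sp d => ‖ξ‖ ^ 2 * ‖(𝓕 φ : 𝓢(Sp d, ℂ)) ξ‖ ^ 2) := by
  have h1 : ∀ ξ : Sp d, ‖ξ‖ ^ 2 * ‖(𝓕 φ : 𝓢(Sp d, ℂ)) ξ‖ ^ 2 =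
      (1 / (4 * Real.pi ^ 2)) * ∑ j, ‖(𝓕 (pd j φ) : 𝓢(Sp d, ℂ)) ξ‖ ^ 2 := by
    intro ξ
    have h2 : ∀ j, ‖(𝓕 (pd j φ) : 𝓢(Sp d, ℂ)) ξ‖ ^ 2 =
        (4 * Real.pi ^ 2) * ‖(𝓕 φ : 𝓢(Sp d, ℂ)) ξ‖ ^ 2 * ‖ξ j‖ ^ 2 := by
      intro j
      rw [fourier_pd]
      simp only [norm_mul, Complex.norm_real, Complex.norm_I, mul_one, Complex.norm_ofNat]
      rw [Real.norm_of_nonneg Real.pi_pos.le]
      ring
    rw [Finset.sum_congr rfl fun j _ => h2 j, ← Finset.mul_sum, ← EuclideanSpace.norm_sq_eq]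
    have := Real.pi_pos.ne'
    field_simp
  rw [show (fun ξ : Sp d => ‖ξ‖ ^ 2 * ‖(𝓕 φ : 𝓢(Sp d, ℂ)) ξ‖ ^ 2) = fun ξ =>
      (1 / (4 * Real.pi ^ 2)) * ∑ j, ‖(𝓕 (pd j φ) : 𝓢(Sp d, ℂ)) ξ‖ ^ 2 from funext h1]
  exact (integrable_finset_sum _ fun j _ => gn_int_sq _).const_mul _

/-- the pointwise bound for the heat flow -/
theorem gn_ptw (φ : 𝓢(Sp d, ℂ)) (ε : ℝ) (hε : 0 < ε) (m l : ℝ) (hl : 0 < l) (hm : 0 < m)
    (hmφ : ∫ x, ‖φ x‖ ^ 2 = m) (hM : (8 * Real.pi * ε) ^ (-(d : ℝ) / 2) * m = l ^ 2 / 4) (x : Sp d) :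
    ‖cv (gS (ε : ℂ) (by simpa using hε)) φ x‖ ≤ l / 2 := by
  set z : 𝓢(Sp d, ℂ) := gS (ε : ℂ) (by simpa using hε) with hz
  have hM2 : ∫ y, ‖z (x - y)‖ ^ 2 = (8 * Real.pi * ε) ^ (-(d : ℝ) / 2) := by
    rw [integral_sub_left_eq_self (fun y => ‖z y‖ ^ 2)]
    have := G_l2 (d := d) (ε : ℂ) (by simpa using hε)
    rw [Complex.ofReal_re] at this
    rw [← this]
    refine integral_congr_ae (Filter.Eventually.of_forall fun y => ?_)
    simp only [hz, gS_apply]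
  have hI2 : Integrable (fun y => ‖z (x - y)‖ ^ 2) := (gn_int_sq z).comp_sub_left x
  unfold cv
  calc ‖∫ y, φ y * z (x - y)‖ ≤ ∫ y, ‖φ y * z (x - y)‖ := norm_integral_le_integral_norm _
    _ ≤ ∫ y, ((l / (2 * m)) / 2 * ‖φ y‖ ^ 2 + (m / l) * ‖z (x - y)‖ ^ 2) := by
        refine integral_mono_of_nonneg (Filter.Eventually.of_forall fun y => norm_nonneg _)
          (((gn_int_sq φ).const_mul _).add (hI2.const_mul _))
          (Filter.Eventually.of_forall fun y => ?_)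
        simp only [norm_mul]
        have h0 : (m / l) = (1 / (l / (2 * m))) / 2 := by field_simp
        rw [h0]
        set t := l / (2 * m) with ht
        have ht0 : 0 < t := by positivity
        have h1 : 0 ≤ (t * ‖φ y‖ - ‖z (x - y)‖) ^ 2 / (2 * t) := by positivity
        have h2 : (t * ‖φ y‖ - ‖z (x - y)‖) ^ 2 / (2 * t) = t / 2 * ‖φ y‖ ^ 2 +
          1 / t / 2 * ‖z (x - y)‖ ^ 2 - ‖φ y‖ * ‖z (x - y)‖ := by
          field_simp; ring
        linarith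
    _ = (l / (2 * m)) / 2 * m + (m / l) * (8 * Real.pi * ε) ^ (-(d : ℝ) / 2) := by
        rw [integral_add ((gn_int_sq φ).const_mul _) (hI2.const_mul _), integral_const_mul,
          integral_const_mul, hmφ, hM2]
    _ = l / 2 := by
        have : (m / l) * (8 * Real.pi * ε) ^ (-(d : ℝ) / 2) =
          ((8 * Real.pi * ε) ^ (-(d : ℝ) / 2) * m) / l := by ring
        rw [this, hM]
        field_simp
        ring

theorem gn_level (hd : 1 ≤ d) (φ : 𝓢(Sp d, ℂ)) (m l : ℝ) (hl : 0 < l) (hm : 0 < m)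
    (hmφ : ∫ x, ‖φ x‖ ^ 2 = m) :
    volume {x | l < ‖φ x‖} ≤ ENNReal.ofReal (4 / l ^ 2) *
      ∫⁻ ξ : Sp d, ENNReal.ofReal (min 1 ((Real.pi / 2 * (2 * √m) ^ ((4 : ℝ) / d) * ‖ξ‖ ^ 2 *
        l ^ (-((4 : ℝ) / d))) ^ 2) * ‖(𝓕 φ : 𝓢(Sp d, ℂ)) ξ‖ ^ 2) := by
  have hd0 : (0 : ℝ) < d := by exact_mod_cast hd
  set α : ℝ := (4 : ℝ) / d with hα
  have hsm : 0 < √m := Real.sqrt_pos.2 hm
  set ε : ℝ := (2 * √m / l) ^ α / (8 * Real.pi) with hε
  have hε0 : 0 < ε := by have := Real.pi_pos; positivity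
  have h8 : 8 * Real.pi * ε = (2 * √m / l) ^ α := by
    have := Real.pi_pos.ne'; rw [hε]; field_simp
  have hM : (8 * Real.pi * ε) ^ (-(d : ℝ) / 2) * m = l ^ 2 / 4 := by
    rw [h8, ← Real.rpow_mul (by positivity)]
    have : α * (-(d : ℝ) / 2) = -(2 : ℕ) := by rw [hα]; field_simp; norm_num
    rw [this, Real.rpow_neg (by positivity), Real.rpow_natCast, div_pow, mul_pow, Real.sq_sqrt hm.le]
    field_simp
    norm_num
  have hptw := gn_ptw φ ε hε0 m l hl hm hmφ hM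
  set w : Sp d → ℂ := cv (gS (ε : ℂ) (by simpa using hε0)) φ with hw
  have hwL : MemLp w 2 volume := (young (by norm_num) (φ.memLp 2) _).1
  have hD : MemLp (fun x => φ x - w x) 2 volume := (φ.memLp 2).sub hwL
  have hDi : Integrable (fun x => ‖φ x - w x‖ ^ 2) := (memLp_two_iff_integrable_sq_norm hD.1).1 hD
  have hsub : {x | l < ‖φ x‖} ⊆ {x | ENNReal.ofReal (l ^ 2 / 4) ≤ ENNReal.ofReal (‖φ x - w x‖ ^ 2)} := by
    intro x hx
    simp only [Set.mem_setOf_eq] at hx ⊢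
    apply ENNReal.ofReal_le_ofReal
    have h1 : l / 2 ≤ ‖φ x - w x‖ := by
      have := norm_sub_norm_le (φ x) (w x)
      have := hptw x
      linarith
    calc l ^ 2 / 4 = (l / 2) ^ 2 := by ring
      _ ≤ _ := pow_le_pow_left₀ (by positivity) h1 2
  have hcheb : volume {x | l < ‖φ x‖} ≤ (∫⁻ x, ENNReal.ofReal (‖φ x - w x‖ ^ 2)) /
      ENNReal.ofReal (l ^ 2 / 4) := by
    refine (measure_mono hsub).trans ?_
    exact meas_ge_le_lintegral_div (hDi.1.aemeasurable.ennreal_ofReal) (by simpa using by positivity)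
      ENNReal.ofReal_ne_top
  have hB := heat_diff φ ε hε0
  have hBint : Integrable (fun ξ : Sp d => min 1 ((4 * Real.pi ^ 2 * ε * ‖ξ‖ ^ 2) ^ 2) *
      ‖(𝓕 φ : 𝓢(Sp d, ℂ)) ξ‖ ^ 2) := by
    refine (gn_int_sq (𝓕 φ : 𝓢(Sp d, ℂ))).mono' ?_ (Filter.Eventually.of_forall fun ξ => ?_)
    · refine Continuous.aestronglyMeasurable ?_
      have := (𝓕 φ : 𝓢(Sp d, ℂ)).continuous
      fun_prop
    · rw [Real.norm_of_nonneg (by positivity)]
      calc _ ≤ 1 * ‖(𝓕 φ : 𝓢(Sp d, ℂ)) ξ‖ ^ 2 :=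
            mul_le_mul_of_nonneg_right (min_le_left _ _) (by positivity)
        _ = _ := one_mul _
  have hy : ∀ ξ : Sp d, 4 * Real.pi ^ 2 * ε * ‖ξ‖ ^ 2 =
      Real.pi / 2 * (2 * √m) ^ α * ‖ξ‖ ^ 2 * l ^ (-α) := by
    intro ξ
    rw [hε, Real.div_rpow (by positivity) hl.le, Real.rpow_neg hl.le]
    have := Real.pi_pos.ne'
    have := (Real.rpow_pos_of_pos hl α).ne'
    field_simp
    norm_num
  calc volume {x | l < ‖φ x‖} ≤ _ := hcheb
    _ = ENNReal.ofReal (∫ x, ‖φ x - w x‖ ^ 2) / ENNReal.ofReal (l ^ 2 / 4) := by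
        rw [ofReal_integral_eq_lintegral_ofReal hDi (Filter.Eventually.of_forall fun x => by positivity)]
    _ ≤ ENNReal.ofReal (∫ ξ : Sp d, min 1 ((4 * Real.pi ^ 2 * ε * ‖ξ‖ ^ 2) ^ 2) *
          ‖(𝓕 φ : 𝓢(Sp d, ℂ)) ξ‖ ^ 2) / ENNReal.ofReal (l ^ 2 / 4) := by
        gcongr
    _ = ENNReal.ofReal (4 / l ^ 2) * ENNReal.ofReal (∫ ξ : Sp d,
          min 1 ((4 * Real.pi ^ 2 * ε * ‖ξ‖ ^ 2) ^ 2) * ‖(𝓕 φ : 𝓢(Sp d, ℂ)) ξ‖ ^ 2) := by
        rw [div_eq_mul_inv, mul_comm, ← ENNReal.ofReal_inv_of_pos (by positivity)]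
        congr 2
        field_simp
    _ = _ := by
        rw [ofReal_integral_eq_lintegral_ofReal hBint
          (Filter.Eventually.of_forall fun x => by positivity)]
        simp only [hy]

theorem gagliardo (hd : 1 ≤ d) : ∃ C : ℝ, 0 ≤ C ∧ ∀ φ : 𝓢(Sp d, ℂ), ∫ x, ‖φ x‖ ^ rho d ≤
    C * (∫ x, ‖φ x‖ ^ 2) ^ ((2 : ℝ) / d) * ∑ j, ∫ x, ‖pd j φ x‖ ^ 2 := by
  have hd0 : (0 : ℝ) < d := by exact_mod_cast hd
  have hπ := Real.pi_pos
  set α : ℝ := (4 : ℝ) / d with hα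
  have hα0 : 0 < α := by positivity
  have hρ : rho d = 2 + α := rfl
  refine ⟨(2 + α) * 2 ^ α / (α * Real.pi), by positivity, fun φ => ?_⟩
  set m := ∫ x, ‖φ x‖ ^ 2 with hm
  have hm0 : 0 ≤ m := integral_nonneg fun x => by positivity
  rcases hm0.eq_or_lt with h0 | hmpos
  · have h1 : (fun x => ‖φ x‖ ^ 2) =ᵐ[volume] 0 :=
      (integral_eq_zero_iff_of_nonneg (fun x => by positivity) (gn_int_sq φ)).1 (by rw [← hm, ← h0])
    have h2 : ∫ x, ‖φ x‖ ^ rho d = 0 := by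
      rw [integral_eq_zero_of_ae]
      filter_upwards [h1] with x hx
      have hx' : ‖φ x‖ = 0 := by simpa using hx
      rw [hx', hρ, Real.zero_rpow (by positivity)]; rfl
    rw [h2, ← h0, Real.zero_rpow (by positivity), mul_zero, zero_mul]
  have hsm : 0 < √m := Real.sqrt_pos.2 hmpos
  set F : 𝓢(Sp d, ℂ) := (𝓕 φ : 𝓢(Sp d, ℂ)) with hF
  set Y : Sp d → ℝ := fun ξ => Real.pi / 2 * (2 * √m) ^ α * ‖ξ‖ ^ 2 with hY
  have hFc : Continuous F := F.continuous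
  have hkey : ∫⁻ x, ENNReal.ofReal (‖φ x‖ ^ rho d) ≤ ENNReal.ofReal ((2 + α) * (8 / α) *
      (Real.pi / 2 * (2 * √m) ^ α) * ∫ ξ, ‖ξ‖ ^ 2 * ‖F ξ‖ ^ 2) := by
    rw [lintegral_rpow_eq_lintegral_meas_lt_mul volume
      (Filter.Eventually.of_forall fun x => norm_nonneg _) φ.continuous.norm.aemeasurable
      (by rw [hρ]; positivity)]
    rw [hρ]
    calc ENNReal.ofReal (2 + α) * ∫⁻ t in Set.Ioi 0, volume {a | t < ‖φ a‖} *
            ENNReal.ofReal (t ^ (2 + α - 1))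
        ≤ ENNReal.ofReal (2 + α) * ∫⁻ t in Set.Ioi 0, ∫⁻ ξ : Sp d,
            ENNReal.ofReal (4 * ‖F ξ‖ ^ 2) *
              ENNReal.ofReal (t ^ (α - 1) * min 1 ((Y ξ * t ^ (-α)) ^ 2)) := by
          refine mul_le_mul' le_rfl ?_
          apply lintegral_mono_ae
          filter_upwards [ae_restrict_mem measurableSet_Ioi] with t ht
          have ht0 : (0 : ℝ) < t := ht
          calc volume {a | t < ‖φ a‖} * ENNReal.ofReal (t ^ (2 + α - 1))
              ≤ (ENNReal.ofReal (4 / t ^ 2) * ∫⁻ ξ : Sp d, ENNReal.ofReal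
                  (min 1 ((Y ξ * t ^ (-α)) ^ 2) * ‖F ξ‖ ^ 2)) * ENNReal.ofReal (t ^ (2 + α - 1)) := by
                gcongr
                exact gn_level hd φ m t ht0 hmpos hm.symm
            _ = ENNReal.ofReal (4 * t ^ (α - 1)) * ∫⁻ ξ : Sp d, ENNReal.ofReal
                  (min 1 ((Y ξ * t ^ (-α)) ^ 2) * ‖F ξ‖ ^ 2) := by
                rw [mul_comm (ENNReal.ofReal (4 / t ^ 2)), mul_assoc, mul_comm,
                  ← ENNReal.ofReal_mul (by positivity)]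
                congr 2
                have : t ^ (2 + α - 1) = t ^ 2 * t ^ (α - 1) := by
                  rw [← Real.rpow_natCast, ← Real.rpow_add ht0]
                  congr 1; push_cast; ring
                rw [this]
                field_simp
            _ = ∫⁻ ξ : Sp d, ENNReal.ofReal (4 * ‖F ξ‖ ^ 2) *
                  ENNReal.ofReal (t ^ (α - 1) * min 1 ((Y ξ * t ^ (-α)) ^ 2)) := by
                rw [← lintegral_const_mul' _ _ ENNReal.ofReal_ne_top]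
                refine lintegral_congr fun ξ => ?_
                rw [← ENNReal.ofReal_mul (by positivity), ← ENNReal.ofReal_mul (by positivity)]
                congr 1; ring
            _ ≤ _ := le_rfl
      _ = ENNReal.ofReal (2 + α) * ∫⁻ ξ : Sp d, ∫⁻ t in Set.Ioi 0,
            ENNReal.ofReal (4 * ‖F ξ‖ ^ 2) *
              ENNReal.ofReal (t ^ (α - 1) * min 1 ((Y ξ * t ^ (-α)) ^ 2)) := by
          rw [lintegral_lintegral_swap]
          apply Measurable.aemeasurable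
          have h1 : Measurable (fun p : ℝ × Sp d => F p.2) := hFc.measurable.comp measurable_snd
          have h2 : Measurable (fun p : ℝ × Sp d => Y p.2) := by
            have : Continuous Y := by fun_prop
            exact this.measurable.comp measurable_snd
          have h3 : ∀ r : ℝ, Measurable (fun p : ℝ × Sp d => p.1 ^ r) := fun r =>
            measurable_fst.pow_const r
          unfold Function.uncurry
          exact ((h1.norm.pow_const 2).const_mul 4).ennreal_ofReal.mul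
            (((h3 _).mul (measurable_const.min ((h2.mul (h3 _)).pow_const 2))).ennreal_ofReal)
      _ ≤ ENNReal.ofReal (2 + α) * ∫⁻ ξ : Sp d,
            ENNReal.ofReal (4 * ‖F ξ‖ ^ 2) * ENNReal.ofReal (2 * Y ξ / α) := by
          refine mul_le_mul' le_rfl ?_
          refine lintegral_mono fun ξ => ?_
          simp only
          rw [lintegral_const_mul' _ _ ENNReal.ofReal_ne_top]
          gcongr
          exact scalar_int hα0 (by positivity)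
      _ = ENNReal.ofReal (2 + α) * ∫⁻ ξ : Sp d,
            ENNReal.ofReal ((8 / α) * (Real.pi / 2 * (2 * √m) ^ α) * (‖ξ‖ ^ 2 * ‖F ξ‖ ^ 2)) := by
          congr 1
          refine lintegral_congr fun ξ => ?_
          rw [← ENNReal.ofReal_mul (by positivity)]
          congr 1
          simp only [hY]
          ring
      _ = ENNReal.ofReal (2 + α) * ENNReal.ofReal ((8 / α) * (Real.pi / 2 * (2 * √m) ^ α) *
            ∫ ξ, (‖ξ‖ ^ 2 * ‖F ξ‖ ^ 2)) := by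
          rw [← integral_const_mul, ofReal_integral_eq_lintegral_ofReal
            ((gn_int_grad φ).const_mul _) (Filter.Eventually.of_forall fun x => by positivity)]
      _ = _ := by
          rw [← ENNReal.ofReal_mul (by positivity)]
          congr 1; ring
  have hpl := plancherel_grad φ
  rw [hpl]
  have hnn : 0 ≤ ∫ ξ, ‖ξ‖ ^ 2 * ‖F ξ‖ ^ 2 := integral_nonneg fun x => by positivity
  rw [integral_eq_lintegral_of_nonneg_ae (Filter.Eventually.of_forall fun x => by positivity)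
    (φ.continuous.norm.measurable.pow_const _).aestronglyMeasurable]
  refine ENNReal.toReal_le_of_le_ofReal (by positivity) (hkey.trans_eq ?_)
  congr 1
  have h1 : (2 * √m) ^ α = 2 ^ α * m ^ ((2 : ℝ) / d) := by
    rw [Real.mul_rpow (by norm_num) hsm.le, Real.sqrt_eq_rpow, ← Real.rpow_mul hm0]
    congr 2
    rw [hα]; field_simp; norm_num
  rw [h1]
  field_simp
  ring

end MP3483
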