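import Pool.Agent.Lib_MP_3483a5_an.GD

/-!
# MP_3483a5_an, piece GQ

`∫ |∂_j G_z|^q ≤ C(d,q) |z|^{d - dq/2} (Re z)^{-(q+d)/2}`.
Proof.  `|e^{-‖x‖²/(4z)}| = e^{-β‖x‖²}`, `β = Re z/(4|z|²)` and `|G z x| = (4π|z|)^{-d/2} e^{-β‖x‖²}`
(`Complex.norm_cpow_of_ne_zero` or `norm_cpow_eq_rpow...`; the exponent `-(d:ℂ)/2` is real).  By
`gS_partial`, `|∂_jG|^q ≤ (‖x‖/(2|z|))^q (4π|z|)^{-dq/2} e^{-qβ‖x‖²}`, and
`‖x‖^q e^{-qβ‖x‖²} ≤ β^{-q/2} e^{-qβ‖x‖²/2}` because `y ≤ e^{y²/2}` with `y = √β ‖x‖`.  Finally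
`∫ e^{-qβ‖x‖²/2} = (2π/(qβ))^{d/2}` (`GaussianFourier.integral_rexp_neg_mul_sq_norm`), and
`β^{-(q+d)/2} = (4|z|²/Re z)^{(q+d)/2}`.
-/

open MeasureTheory Filter Topology Complex SchwartzMap
open scoped FourierTransform LineDeriv Laplacian ENNReal NNReal ComplexConjugate

namespace MP3483
variable {d : ℕ}

theorem gq_norm_G (z : ℂ) (hz : 0 < z.re) (x : Sp d) :
    ‖G z x‖ = (4 * Real.pi * ‖z‖) ^ (-(d : ℝ) / 2) *
      Real.exp (-(z.re / (4 * ‖z‖ ^ 2) * ‖x‖ ^ 2)) := by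
  have hz0 : z ≠ 0 := fun h => by simp [h] at hz
  have hn : 0 < ‖z‖ := norm_pos_iff.2 hz0
  unfold G
  rw [norm_mul]
  congr 1
  · have e : (-(d : ℂ) / 2) = ((-(d : ℝ) / 2 : ℝ) : ℂ) := by push_cast; ring
    rw [e, norm_cpow_real]
    congr 1
    rw [norm_mul, norm_mul, norm_real, Real.norm_eq_abs, abs_of_pos Real.pi_pos]
    norm_num
  · rw [norm_exp]
    congr 1
    have e : -((‖x‖ : ℂ) ^ 2 / (4 * z)) = ((-(‖x‖ ^ 2 / 4) : ℝ) : ℂ) * z⁻¹ := by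
      push_cast
      field_simp
    rw [e, re_ofReal_mul, inv_re, normSq_eq_norm_sq]
    field_simp

theorem gq_exp (y : ℝ) : y ≤ Real.exp (y ^ 2 / 2) := by
  have h1 := Real.add_one_le_exp (y ^ 2 / 2)
  nlinarith [sq_nonneg (y - 1)]

theorem gS_partial_norm (q : ℝ) (hq : 1 ≤ q) : ∃ C : ℝ, 0 ≤ C ∧ ∀ (z : ℂ) (hz : 0 < z.re)
    (j : Fin d), ∫ x : Sp d, ‖pd j (gS z hz) x‖ ^ q ≤
      C * ‖z‖ ^ ((d : ℝ) - d * q / 2) * z.re ^ (-(q + d) / 2) := by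
  have hq0 : 0 < q := by linarith
  refine ⟨(2 : ℝ) ^ (-q) * (4 * Real.pi) ^ (-(d : ℝ) * q / 2) * (2 * Real.pi / q) ^ ((d : ℝ) / 2) *
    (4 : ℝ) ^ ((q + d) / 2), by positivity, ?_⟩
  intro z hz j
  have hz0 : z ≠ 0 := fun h => by simp [h] at hz
  have hn : 0 < ‖z‖ := norm_pos_iff.2 hz0
  set N : ℝ := ‖z‖ with hN
  set ρ : ℝ := z.re with hρ
  set β : ℝ := ρ / (4 * N ^ 2) with hβ
  have hβ0 : 0 < β := by positivity
  have hpi := Real.pi_pos
  -- pointwise bound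
  have hpt : ∀ x : Sp d, ‖pd j (gS z hz) x‖ ^ q ≤
      ((2 * N) ^ (-q) * β ^ (-q / 2) * (4 * Real.pi * N) ^ (-(d : ℝ) * q / 2)) *
        Real.exp (-(q * β / 2) * ‖x‖ ^ 2) := by
    intro x
    have h1 : ‖pd j (gS z hz) x‖ ≤ (2 * N)⁻¹ * β ^ (-(1 : ℝ) / 2) *
        (4 * Real.pi * N) ^ (-(d : ℝ) / 2) * Real.exp (-(β / 2) * ‖x‖ ^ 2) := by
      rw [gS_partial, norm_mul, gq_norm_G z hz x, norm_neg, norm_div, norm_mul, norm_real]
      have hx : ‖x j‖ ≤ ‖x‖ := PiLp.norm_apply_le x j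
      have h2 : ‖x‖ ≤ β ^ (-(1 : ℝ) / 2) * Real.exp (β * ‖x‖ ^ 2 / 2) := by
        have h3 := gq_exp (Real.sqrt β * ‖x‖)
        rw [mul_pow, Real.sq_sqrt hβ0.le] at h3
        have h4 : β ^ (-(1 : ℝ) / 2) = (Real.sqrt β)⁻¹ := by
          rw [Real.sqrt_eq_rpow, ← Real.rpow_neg hβ0.le]
          congr 1
          ring
        have h5 : 0 < Real.sqrt β := Real.sqrt_pos.2 hβ0
        rw [h4, inv_mul_eq_div, le_div_iff₀ h5, mul_comm]
        exact h3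
      have h6 : ‖(2 : ℂ)‖ = 2 := by norm_num
      rw [h6, ← hN]
      have h7 : Real.exp (β * ‖x‖ ^ 2 / 2) * Real.exp (-(β * ‖x‖ ^ 2)) =
          Real.exp (-(β / 2) * ‖x‖ ^ 2) := by
        rw [← Real.exp_add]
        congr 1
        ring
      have h8 : 0 ≤ (4 * Real.pi * N) ^ (-(d : ℝ) / 2) := by positivity
      calc ‖x j‖ / (2 * N) * ((4 * Real.pi * N) ^ (-(d : ℝ) / 2) *
            Real.exp (-(ρ / (4 * N ^ 2) * ‖x‖ ^ 2)))
          ≤ (β ^ (-(1 : ℝ) / 2) * Real.exp (β * ‖x‖ ^ 2 / 2)) / (2 * N) *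
            ((4 * Real.pi * N) ^ (-(d : ℝ) / 2) * Real.exp (-(β * ‖x‖ ^ 2))) := by
            refine mul_le_mul_of_nonneg_right ?_ (by positivity)
            exact div_le_div_of_nonneg_right (hx.trans h2) (by positivity)
        _ = (2 * N)⁻¹ * β ^ (-(1 : ℝ) / 2) * (4 * Real.pi * N) ^ (-(d : ℝ) / 2) *
            (Real.exp (β * ‖x‖ ^ 2 / 2) * Real.exp (-(β * ‖x‖ ^ 2))) := by ring
        _ = _ := by rw [h7]
    have h9 := Real.rpow_le_rpow (norm_nonneg _) h1 hq0.le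
    refine h9.trans (le_of_eq ?_)
    rw [Real.mul_rpow (by positivity) (Real.exp_pos _).le, Real.mul_rpow (by positivity)
      (by positivity), Real.mul_rpow (by positivity) (by positivity), ← Real.rpow_mul hβ0.le,
      ← Real.rpow_mul (by positivity), ← Real.exp_mul, Real.inv_rpow (by positivity),
      ← Real.rpow_neg (by positivity)]
    congr 1
    · congr 1
      · congr 2
        ring
      · congr 1
        ring
    · congr 1
      ring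
  have hb : 0 < q * β / 2 := by positivity
  have hI := GaussianFourier.integral_rexp_neg_mul_sq_norm (V := Sp d) hb
  rw [finrank_euclideanSpace_fin] at hI
  have hint : Integrable (fun x : Sp d => Real.exp (-(q * β / 2) * ‖x‖ ^ 2)) := by
    by_contra hcon
    rw [integral_undef hcon] at hI
    have : 0 < (Real.pi / (q * β / 2)) ^ ((d : ℝ) / 2) := by positivity
    linarith
  have h10 : ∫ x : Sp d, ‖pd j (gS z hz) x‖ ^ q ≤ ∫ x : Sp d,
      ((2 * N) ^ (-q) * β ^ (-q / 2) * (4 * Real.pi * N) ^ (-(d : ℝ) * q / 2)) *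
        Real.exp (-(q * β / 2) * ‖x‖ ^ 2) := by
    refine integral_mono_of_nonneg (Eventually.of_forall fun x => ?_) (hint.const_mul _)
      (Eventually.of_forall hpt)
    exact Real.rpow_nonneg (norm_nonneg _) _
  rw [integral_const_mul, hI] at h10
  refine h10.trans (le_of_eq ?_)
  have e1 : Real.pi / (q * β / 2) = 2 * Real.pi / q * β⁻¹ := by
    field_simp
  have e2 : β ^ (-q / 2) * β ^ (-((d : ℝ) / 2)) = β ^ (-(q + d) / 2) := by
    rw [← Real.rpow_add hβ0]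
    congr 1
    ring
  have e3 : β ^ (-(q + d) / 2) = ρ ^ (-(q + d) / 2) * (4 : ℝ) ^ ((q + d) / 2) * N ^ (q + d) := by
    rw [hβ, Real.div_rpow hz.le (by positivity), Real.mul_rpow (by norm_num) (by positivity),
      div_eq_mul_inv, mul_inv, ← Real.rpow_neg (by norm_num), ← Real.rpow_neg (by positivity),
      ← Real.rpow_natCast N 2, ← Real.rpow_mul hn.le, mul_assoc]
    congr 2
    · congr 1
      ring
    · congr 1
      push_cast
      ring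
  have e4 : N ^ (-q) * N ^ (-(d : ℝ) * q / 2) * N ^ (q + d) = N ^ ((d : ℝ) - d * q / 2) := by
    rw [← Real.rpow_add hn, ← Real.rpow_add hn]
    congr 1
    ring
  rw [e1, Real.mul_rpow (x := 2 * Real.pi / q) (by positivity) (by positivity), Real.inv_rpow hβ0.le,
    ← Real.rpow_neg hβ0.le, Real.mul_rpow (x := (2 : ℝ)) (by norm_num) hn.le,
    Real.mul_rpow (x := 4 * Real.pi) (by positivity) hn.le]
  calc 2 ^ (-q) * N ^ (-q) * β ^ (-q / 2) * ((4 * Real.pi) ^ (-(d : ℝ) * q / 2) *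
        N ^ (-(d : ℝ) * q / 2)) * ((2 * Real.pi / q) ^ ((d : ℝ) / 2) * β ^ (-((d : ℝ) / 2)))
      = 2 ^ (-q) * (4 * Real.pi) ^ (-(d : ℝ) * q / 2) * (2 * Real.pi / q) ^ ((d : ℝ) / 2) *
        (N ^ (-q) * N ^ (-(d : ℝ) * q / 2)) * (β ^ (-q / 2) * β ^ (-((d : ℝ) / 2))) := by ring
    _ = 2 ^ (-q) * (4 * Real.pi) ^ (-(d : ℝ) * q / 2) * (2 * Real.pi / q) ^ ((d : ℝ) / 2) *
        (N ^ (-q) * N ^ (-(d : ℝ) * q / 2) * N ^ (q + d)) *
        (ρ ^ (-(q + d) / 2) * (4 : ℝ) ^ ((q + d) / 2)) := by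
        rw [e2, e3]
        ring
    _ = _ := by
        rw [e4]
        ring

end MP3483
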