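import Pool.Agent.Lib_MP_3483a5_an.Base0

/-!
# MP_3483a5_an, piece GS

The complex Gaussian `G z`, `Re z > 0`, is a Schwartz function.
Proof.  With `b = 1/(4z)`, `Re b > 0`, it is enough to treat `x ↦ cexp (-b ‖x‖²)` (multiply by a
constant with `c • g`).  It is `cexp ∘ q`, `q x = -b ‖x‖²` (ofReal of `‖x‖^2`), smooth.  By
`norm_iteratedFDeriv_comp_le` (outer function `cexp`, all of whose iterated derivatives at the point
`q x` have norm `≤ ‖cexp (q x)‖`; inner function `q`, a polynomial of degree 2, whose iterated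
derivatives of order `i ≥ 1` have norm `≤ (C (1+‖x‖))^i`) one gets
`‖iteratedFDeriv ℝ n g x‖ ≤ n! (C(1+‖x‖))^n exp(-Re b ‖x‖²)`, and `(1+‖x‖)^(n+k) exp(-a‖x‖²)` is
bounded for `a > 0`.  (Any other proof is fine, e.g. product of coordinates, or
`SchwartzMap.smulLeftCLM`.)
-/

open MeasureTheory Filter Topology Complex SchwartzMap
open scoped FourierTransform LineDeriv Laplacian ENNReal NNReal ComplexConjugate

namespace MP3483
variable {d : ℕ}

/-- derivatives of the one-dimensional exponential -/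
theorem GS_deriv (b : ℂ) (i : ℕ) :
    iteratedDeriv i (fun s : ℝ => cexp (b * (s : ℂ))) = fun s : ℝ => b ^ i * cexp (b * (s : ℂ)) := by
  induction i with
  | zero => simp
  | succ i ih =>
    rw [iteratedDeriv_succ, ih]
    funext s
    have h1 : HasDerivAt (fun s : ℝ => b * (s : ℂ)) b s := by
      simpa using (Complex.ofRealCLM.hasDerivAt (x := s)).const_mul b
    have h : HasDerivAt (fun s : ℝ => cexp (b * (s : ℂ))) (cexp (b * s) * b) s := h1.cexp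
    rw [(h.const_mul (b ^ i)).deriv]
    ring

/-- Gaussians beat polynomials -/
theorem GS_poly (N : ℕ) {a : ℝ} (ha : 0 < a) :
    ∃ C : ℝ, ∀ r : ℝ, 0 ≤ r → (1 + r) ^ N * Real.exp (-a * r ^ 2) ≤ C := by
  refine ⟨2 ^ N * (Real.exp a * (N.factorial / a ^ N)), fun r hr => ?_⟩
  have h1 : (1 + r) ^ N ≤ (2 * (1 + r ^ 2)) ^ N :=
    pow_le_pow_left₀ (by positivity) (by nlinarith [sq_nonneg (4 * r - 1)]) N
  have h2 := Real.pow_div_factorial_le_exp (a * (1 + r ^ 2)) (by positivity) N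
  have hN : (0 : ℝ) < N.factorial := by exact_mod_cast N.factorial_pos
  rw [div_le_iff₀ hN, mul_pow] at h2
  have haN : 0 < a ^ N := pow_pos ha N
  have h3 : (1 + r ^ 2) ^ N ≤ Real.exp (a * (1 + r ^ 2)) * (N.factorial / a ^ N) := by
    rw [mul_div_assoc', le_div_iff₀ haN]
    linarith
  calc (1 + r) ^ N * Real.exp (-a * r ^ 2)
      ≤ (2 * (1 + r ^ 2)) ^ N * Real.exp (-a * r ^ 2) :=
        mul_le_mul_of_nonneg_right h1 (Real.exp_pos _).le
    _ = 2 ^ N * ((1 + r ^ 2) ^ N * Real.exp (-a * r ^ 2)) := by rw [mul_pow]; ring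
    _ ≤ 2 ^ N * ((Real.exp (a * (1 + r ^ 2)) * (N.factorial / a ^ N)) *
          Real.exp (-a * r ^ 2)) := by gcongr
    _ = 2 ^ N * (Real.exp a * (N.factorial / a ^ N)) := by
        have : Real.exp (a * (1 + r ^ 2)) * Real.exp (-a * r ^ 2) = Real.exp a := by
          rw [← Real.exp_add]
          congr 1
          ring
        rw [← this]
        ring

/-- the Gaussian without the constant -/
theorem GS_base (b : ℂ) (hb : b.re < 0) :
    ∃ g : 𝓢(Sp d, ℂ), ∀ x, g x = cexp (b * ((‖x‖ ^ 2 : ℝ) : ℂ)) := by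
  have hq : ContDiff ℝ ((⊤ : ℕ∞) : WithTop ℕ∞) (fun x : Sp d => ‖x‖ ^ 2) := contDiff_norm_sq ℝ
  have he : ContDiff ℝ ((⊤ : ℕ∞) : WithTop ℕ∞) (fun s : ℝ => cexp (b * (s : ℂ))) :=
    (contDiff_const.mul Complex.ofRealCLM.contDiff).cexp
  refine ⟨⟨fun x => cexp (b * ((‖x‖ ^ 2 : ℝ) : ℂ)), he.comp hq, ?_⟩, fun x => rfl⟩
  intro k n
  obtain ⟨l, C, hC0, hC⟩ := Function.HasTemperateGrowth.norm_iteratedFDeriv_le_uniform
    (Function.hasTemperateGrowth_norm_sq (H := Sp d)) n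
  obtain ⟨K, hK⟩ := GS_poly (k + l * n) (a := -b.re) (by linarith)
  refine ⟨n.factorial * (1 + ‖b‖) ^ n * (1 + C) ^ n * K, fun x => ?_⟩
  have hx0 := norm_nonneg x
  have h1 : ∀ i, i ≤ n → ‖iteratedFDeriv ℝ i (fun s : ℝ => cexp (b * (s : ℂ))) (‖x‖ ^ 2)‖ ≤
      (1 + ‖b‖) ^ n * Real.exp (b.re * ‖x‖ ^ 2) := by
    intro i hi
    rw [norm_iteratedFDeriv_eq_norm_iteratedDeriv, GS_deriv]
    simp only [norm_mul, norm_pow, Complex.norm_exp]
    have h2 : (b * ((‖x‖ ^ 2 : ℝ) : ℂ)).re = b.re * ‖x‖ ^ 2 := by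
      rw [Complex.re_mul_ofReal]
    rw [h2]
    refine mul_le_mul_of_nonneg_right ?_ (Real.exp_pos _).le
    calc ‖b‖ ^ i ≤ (1 + ‖b‖) ^ i := by gcongr; linarith
      _ ≤ (1 + ‖b‖) ^ n := pow_le_pow_right₀ (by linarith [norm_nonneg b]) hi
  have h3 : ∀ i, 1 ≤ i → i ≤ n → ‖iteratedFDeriv ℝ i (fun x : Sp d => ‖x‖ ^ 2) x‖ ≤
      ((1 + C) * (1 + ‖x‖) ^ l) ^ i := by
    intro i hi hin
    have h4 := hC i hin x
    have h5 : (1 : ℝ) ≤ (1 + C) * (1 + ‖x‖) ^ l := by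
      have h6 : (1 : ℝ) ≤ (1 + ‖x‖) ^ l := one_le_pow₀ (by linarith)
      nlinarith
    calc _ ≤ C * (1 + ‖x‖) ^ l := h4
      _ ≤ (1 + C) * (1 + ‖x‖) ^ l := by gcongr; linarith
      _ ≤ ((1 + C) * (1 + ‖x‖) ^ l) ^ i := le_self_pow₀ h5 (by omega)
  have h7 := norm_iteratedFDeriv_comp_le he hq (n := n) (by exact_mod_cast le_top) x h1 h3
  have h8 := hK ‖x‖ hx0
  calc ‖x‖ ^ k * ‖iteratedFDeriv ℝ n (fun x : Sp d => cexp (b * ((‖x‖ ^ 2 : ℝ) : ℂ))) x‖
      ≤ (1 + ‖x‖) ^ k * (n.factorial * ((1 + ‖b‖) ^ n * Real.exp (b.re * ‖x‖ ^ 2)) *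
          ((1 + C) * (1 + ‖x‖) ^ l) ^ n) := by
        refine mul_le_mul (pow_le_pow_left₀ hx0 (by linarith) k) h7 (norm_nonneg _)
          (by positivity)
    _ = n.factorial * (1 + ‖b‖) ^ n * (1 + C) ^ n *
          ((1 + ‖x‖) ^ (k + l * n) * Real.exp (- -b.re * ‖x‖ ^ 2)) := by
        rw [neg_neg, mul_pow, ← pow_mul, pow_add]
        ring
    _ ≤ _ := by gcongr

theorem gauss_schwartz (z : ℂ) (hz : 0 < z.re) : ∃ g : 𝓢(Sp d, ℂ), ∀ x, g x = G z x := by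
  have hb : (-(4 * z)⁻¹).re < 0 := by
    rw [Complex.neg_re, Complex.inv_re]
    have h1 : (4 * z).re = 4 * z.re := by simp
    have h2 : 0 < Complex.normSq (4 * z) := by
      rw [Complex.normSq_pos]
      intro h
      rw [h] at h1
      simp at h1
      linarith
    rw [h1]
    have : 0 < 4 * z.re / Complex.normSq (4 * z) := by positivity
    linarith
  obtain ⟨g, hg⟩ := GS_base (d := d) (-(4 * z)⁻¹) hb
  refine ⟨((4 * (Real.pi : ℂ) * z) ^ (-(d : ℂ) / 2)) • g, fun x => ?_⟩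
  rw [_root_.smul_apply, hg, G, smul_eq_mul]
  congr 2
  push_cast
  ring

end MP3483
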