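import Pool.Agent.Lib_MP_3483a5_an.Base
import Pool.Agent.Lib_MP_3483a5_an.GF

/-!
# MP_3483a5_an, piece HE

`‖φ - e^{εΔ}φ‖₂² ≤ ∫ min(1,(4π²ε‖ξ‖²)²)|𝓕φ|²`.
Proof.  `cv (gS ε) φ` is the Schwartz function `P = 𝓕⁻¹(𝓕(gS ε) · 𝓕φ)` (convolution theorem, see
`sconv`, `agree_sconv_apply`, `agree_fourier_sconv` in `Pool.Agent.Lib_MP_6db0a9_an.Defs/Agree`, or
`SchwartzMap.convolution...` in Mathlib).  So `𝓕(φ - P) = (1 - e^{-4π²ε‖ξ‖²}) 𝓕φ` (`fourier_gS`), use Plancherel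
(`SchwartzMap.integral_norm_sq_fourier`) and `0 ≤ 1 - e^{-y} ≤ min(1,y)`.
-/

open MeasureTheory Filter Topology Complex SchwartzMap
open scoped FourierTransform LineDeriv Laplacian ENNReal NNReal ComplexConjugate

namespace MP3483
variable {d : ℕ}

theorem heat_diff (φ : 𝓢(Sp d, ℂ)) (ε : ℝ) (hε : 0 < ε) :
    ∫ x, ‖φ x - cv (gS (ε : ℂ) (by simpa using hε)) φ x‖ ^ 2 ≤
      ∫ ξ : Sp d, min 1 ((4 * Real.pi ^ 2 * ε * ‖ξ‖ ^ 2) ^ 2) * ‖(𝓕 φ : 𝓢(Sp d, ℂ)) ξ‖ ^ 2 := by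
  have hz : 0 < ((ε : ℝ) : ℂ).re := by simpa using hε
  obtain ⟨g, hg⟩ : ∃ g : 𝓢(Sp d, ℂ), g = gS (ε : ℂ) hz := ⟨_, rfl⟩
  obtain ⟨P, hP⟩ : ∃ P : 𝓢(Sp d, ℂ), P = SchwartzMap.convolution (ContinuousLinearMap.mul ℂ ℂ) φ g :=
    ⟨_, rfl⟩
  have hPx : ∀ x, P x = cv (gS (ε : ℂ) hz) φ x := by
    intro x
    rw [hP, SchwartzMap.convolution_apply, cv, ← hg]
    rfl
  have hPF : ∀ ξ, (𝓕 P : 𝓢(Sp d, ℂ)) ξ =
      (𝓕 φ : 𝓢(Sp d, ℂ)) ξ * cexp (-(4 * (Real.pi : ℂ) ^ 2 * ε * (‖ξ‖ : ℂ) ^ 2)) := by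
    intro ξ
    rw [hP, SchwartzMap.fourier_convolution, SchwartzMap.pairing_apply_apply, hg,
      ← fourier_gS (ε : ℂ) hz ξ]
    rfl
  have h1 : ∫ x, ‖φ x - cv (gS (ε : ℂ) hz) φ x‖ ^ 2 = ∫ ξ : Sp d, ‖(𝓕 (φ - P) : 𝓢(Sp d, ℂ)) ξ‖ ^ 2 := by
    rw [SchwartzMap.integral_norm_sq_fourier]
    refine integral_congr_ae (Eventually.of_forall fun x => ?_)
    simp only
    rw [← hPx, _root_.sub_apply]
  have h2 : ∀ ξ : Sp d, ‖(𝓕 (φ - P) : 𝓢(Sp d, ℂ)) ξ‖ ^ 2 ≤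
      min 1 ((4 * Real.pi ^ 2 * ε * ‖ξ‖ ^ 2) ^ 2) * ‖(𝓕 φ : 𝓢(Sp d, ℂ)) ξ‖ ^ 2 := by
    intro ξ
    have e1 : (𝓕 (φ - P) : 𝓢(Sp d, ℂ)) = 𝓕 φ - 𝓕 P :=
      map_sub (FourierTransform.fourierCLM ℂ 𝓢(Sp d, ℂ)) φ P
    obtain ⟨y, hy⟩ : ∃ y : ℝ, y = 4 * Real.pi ^ 2 * ε * ‖ξ‖ ^ 2 := ⟨_, rfl⟩
    have hy0 : 0 ≤ y := by rw [hy]; positivity
    have e2 : (𝓕 (φ - P) : 𝓢(Sp d, ℂ)) ξ = ((1 - Real.exp (-y) : ℝ) : ℂ) * (𝓕 φ : 𝓢(Sp d, ℂ)) ξ := by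
      rw [e1, _root_.sub_apply, hPF, hy]
      push_cast
      ring
    have e3 : Real.exp (-y) ≤ 1 := Real.exp_le_one_iff.2 (by linarith)
    have e4 : 0 < Real.exp (-y) := Real.exp_pos _
    have e5 : 1 - y ≤ Real.exp (-y) := by
      have := Real.add_one_le_exp (-y)
      linarith
    rw [e2, norm_mul, Complex.norm_real, Real.norm_of_nonneg (by linarith), mul_pow, ← hy]
    refine mul_le_mul_of_nonneg_right (le_min ?_ ?_) (by positivity)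
    · exact pow_le_one₀ (by linarith) (by linarith)
    · exact pow_le_pow_left₀ (by linarith) (by linarith) 2
  have h3 : Integrable (fun ξ : Sp d => ‖(𝓕 φ : 𝓢(Sp d, ℂ)) ξ‖ ^ 2) :=
    (memLp_two_iff_integrable_sq_norm ((𝓕 φ : 𝓢(Sp d, ℂ)).memLp 2).1).1
      ((𝓕 φ : 𝓢(Sp d, ℂ)).memLp 2)
  have h4 : Integrable (fun ξ : Sp d => min 1 ((4 * Real.pi ^ 2 * ε * ‖ξ‖ ^ 2) ^ 2) *
      ‖(𝓕 φ : 𝓢(Sp d, ℂ)) ξ‖ ^ 2) := by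
    refine h3.mono' ?_ (Eventually.of_forall fun ξ => ?_)
    · have hc : Continuous (fun ξ : Sp d => min 1 ((4 * Real.pi ^ 2 * ε * ‖ξ‖ ^ 2) ^ 2) *
          ‖(𝓕 φ : 𝓢(Sp d, ℂ)) ξ‖ ^ 2) := by
        refine (continuous_const.min (by fun_prop)).mul ?_
        exact ((𝓕 φ : 𝓢(Sp d, ℂ)).continuous.norm.pow 2)
      exact hc.aestronglyMeasurable
    · rw [Real.norm_of_nonneg (by positivity)]
      exact mul_le_of_le_one_left (by positivity) (min_le_left _ _)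
  rw [h1]
  exact integral_mono_of_nonneg (Eventually.of_forall fun ξ => by positivity) h4
    (Eventually.of_forall h2)

end MP3483
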