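import Pool.Agent.Lib_MP_3483a5_an.NWB

/-!
# MP_3483a5_an, piece HO

`|∫ nl(f) ∂_jφ| ≤ C ‖φ‖_q`, `q = 2d/(d-1)`, with `C` depending only on `d, C₀, M`.
Proof.  By `nl_weak_bdd` the integral is `-∫ D nl(f)[g] φ`, bounded by `(1+4/d) ∫|f|^{4/d}|g||φ|`
(`nl_fderiv_le`).  Hölder with exponents `2d, 2, q` (`1/(2d) + 1/2 + (d-1)/(2d) = 1`):
`‖|f|^{4/d}‖_{2d} = (∫|f|^8)^{1/(2d)} ≤ (C₀^6 M²)^{1/(2d)}` and `‖g‖₂ ≤ M` (`C₀ ≥ 0` may be assumed, otherwise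
`f = 0` a.e.... replace `C₀` by `max C₀ 0`).
-/

open MeasureTheory Filter Topology Complex SchwartzMap
open scoped FourierTransform LineDeriv Laplacian ENNReal NNReal ComplexConjugate

namespace MP3483
variable {d : ℕ}

/-- the square integral from the `L²` seminorm -/
private theorem ho_sq {g : Sp d → ℂ} {M : ℝ} (hM : eLpNorm g 2 volume ≤ ENNReal.ofReal M) :
    ∫⁻ x, ‖g x‖ₑ ^ (2 : ℝ) ≤ ENNReal.ofReal M ^ (2 : ℝ) := by
  have h1 : eLpNorm g 2 volume = (∫⁻ x, ‖g x‖ₑ ^ (2 : ℝ)) ^ ((1 : ℝ) / 2) := by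
    rw [eLpNorm_eq_lintegral_rpow_enorm_toReal (by norm_num) (by norm_num)]
    norm_num
  rw [h1] at hM
  have h2 := ENNReal.rpow_le_rpow hM (by norm_num : (0 : ℝ) ≤ 2)
  rwa [← ENNReal.rpow_mul, show (1 : ℝ) / 2 * 2 = 1 by norm_num, ENNReal.rpow_one] at h2

/-- the integral of the eighth power -/
private theorem ho_eight {f : Sp d → ℂ} {C : ℝ} (hb : ∀ᵐ x, ‖f x‖ ≤ C) :
    ∫⁻ x, ‖f x‖ₑ ^ (8 : ℝ) ≤ ENNReal.ofReal C ^ (6 : ℝ) * ∫⁻ x, ‖f x‖ₑ ^ (2 : ℝ) := by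
  rw [← lintegral_const_mul' _ _ (ENNReal.rpow_ne_top_of_nonneg (by norm_num)
    ENNReal.ofReal_ne_top)]
  refine lintegral_mono_ae (hb.mono fun x hx => ?_)
  have h1 : ‖f x‖ₑ ≤ ENNReal.ofReal C := by
    rw [← ofReal_norm]
    exact ENNReal.ofReal_le_ofReal hx
  rw [show (8 : ℝ) = 6 + 2 by norm_num, ENNReal.rpow_add_of_nonneg _ _ (by norm_num) (by norm_num)]
  gcongr

/-- Hölder's inequality with three exponents -/
private theorem ho_hold (hd : 2 ≤ d) {f g φ : Sp d → ℂ} (hf : AEStronglyMeasurable f volume)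
    (hg : AEStronglyMeasurable g volume) (hφ : AEStronglyMeasurable φ volume) :
    ∫⁻ x, ‖f x‖ₑ ^ ((4 : ℝ) / d) * ‖g x‖ₑ * ‖φ x‖ₑ ≤
      (∫⁻ x, ‖f x‖ₑ ^ (8 : ℝ)) ^ (1 / (2 * (d : ℝ))) * (∫⁻ x, ‖g x‖ₑ ^ (2 : ℝ)) ^ ((1 : ℝ) / 2) *
      (∫⁻ x, ‖φ x‖ₑ ^ (2 * (d : ℝ) / (d - 1))) ^ (((d : ℝ) - 1) / (2 * d)) := by
  have hd' : (2 : ℝ) ≤ d := by exact_mod_cast hd
  have hd0 : (d : ℝ) ≠ 0 := by linarith
  have hd1 : (d : ℝ) - 1 ≠ 0 := by linarith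
  have h := ENNReal.lintegral_prod_norm_pow_le (μ := (volume : Measure (Sp d))) Finset.univ
    (f := ![fun x => ‖f x‖ₑ ^ (8 : ℝ), fun x => ‖g x‖ₑ ^ (2 : ℝ),
      fun x => ‖φ x‖ₑ ^ (2 * (d : ℝ) / (d - 1))])
    (by
      intro i _
      fin_cases i
      · exact hf.enorm.pow_const _
      · exact hg.enorm.pow_const _
      · exact hφ.enorm.pow_const _)
    (p := ![1 / (2 * (d : ℝ)), (1 : ℝ) / 2, ((d : ℝ) - 1) / (2 * d)])
    (by
      simp only [Fin.sum_univ_three, Matrix.cons_val_zero, Matrix.cons_val_one, Matrix.cons_val]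
      field_simp
      ring)
    (by
      intro i _
      fin_cases i
      · show (0 : ℝ) ≤ 1 / (2 * (d : ℝ))
        positivity
      · show (0 : ℝ) ≤ (1 : ℝ) / 2
        positivity
      · show (0 : ℝ) ≤ ((d : ℝ) - 1) / (2 * d)
        exact div_nonneg (by linarith) (by linarith))
  simp only [Fin.prod_univ_three, Matrix.cons_val_zero, Matrix.cons_val_one, Matrix.cons_val] at h
  refine le_trans (le_of_eq ?_) h
  refine lintegral_congr fun x => ?_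
  rw [← ENNReal.rpow_mul, ← ENNReal.rpow_mul, ← ENNReal.rpow_mul,
    show (8 : ℝ) * (1 / (2 * (d : ℝ))) = 4 / d by field_simp; norm_num,
    show (2 : ℝ) * (1 / 2) = 1 by norm_num,
    show 2 * (d : ℝ) / (d - 1) * (((d : ℝ) - 1) / (2 * d)) = 1 by field_simp,
    ENNReal.rpow_one, ENNReal.rpow_one]

theorem hold (hd : 2 ≤ d) (C₀ M : ℝ) : ∃ C : ℝ, 0 ≤ C ∧ ∀ (j : Fin d) (f g : Sp d → ℂ),
    MemLp f 2 volume → MemLp g 2 volume → WeakPartial j f g → (∀ᵐ x, ‖f x‖ ≤ C₀) →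
    eLpNorm f 2 volume ≤ ENNReal.ofReal M → eLpNorm g 2 volume ≤ ENNReal.ofReal M →
    ∀ φ : 𝓢(Sp d, ℂ), ‖∫ x, nl d (f x) * pd j φ x‖ ≤
      C * (∫ x, ‖φ x‖ ^ (2 * (d : ℝ) / (d - 1))) ^ (((d : ℝ) - 1) / (2 * d)) := by
  have hd' : (2 : ℝ) ≤ d := by exact_mod_cast hd
  have hd0 : (0 : ℝ) < d := by linarith
  have hd1 : (0 : ℝ) < (d : ℝ) - 1 := by linarith
  set C1 := max C₀ 0 with hC1
  set M1 := max M 0 with hM1
  have hC10 : 0 ≤ C1 := le_max_right _ _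
  have hM10 : 0 ≤ M1 := le_max_right _ _
  refine ⟨(1 + 4 / d) * ((C1 ^ (6 : ℝ) * M1 ^ (2 : ℝ)) ^ (1 / (2 * (d : ℝ))) * M1),
    by positivity, ?_⟩
  intro j f g hf hg hw hb hfM hgM φ
  have hb1 : ∀ᵐ x, ‖f x‖ ≤ C1 := hb.mono fun x hx => hx.trans (le_max_left _ _)
  have hfM1 : eLpNorm f 2 volume ≤ ENNReal.ofReal M1 :=
    hfM.trans (ENNReal.ofReal_le_ofReal (le_max_left _ _))
  have hgM1 : eLpNorm g 2 volume ≤ ENNReal.ofReal M1 :=
    hgM.trans (ENNReal.ofReal_le_ofReal (le_max_left _ _))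
  have hweak := nl_weak_bdd (by omega : 1 ≤ d) hf hg hw hb φ
  have h1 : ‖∫ x, nl d (f x) * pd j φ x‖ = ‖∫ x, fderiv ℝ (nl d) (f x) (g x) * φ x‖ := by
    rw [hweak, norm_neg]
  -- the power of the test function
  set q : ℝ := 2 * (d : ℝ) / (d - 1) with hq
  have hq0 : 0 < q := by positivity
  have hφq : ENNReal.ofReal (∫ x, ‖φ x‖ ^ q) = ∫⁻ x, ‖φ x‖ₑ ^ q := by
    have hm : MemLp φ (ENNReal.ofReal q) (volume : Measure (Sp d)) := φ.memLp _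
    have hint := hm.integrable_norm_rpow (by simpa using hq0) ENNReal.ofReal_ne_top
    rw [ENNReal.toReal_ofReal hq0.le] at hint
    rw [ofReal_integral_eq_lintegral_ofReal hint
      (Eventually.of_forall fun x => Real.rpow_nonneg (norm_nonneg _) _)]
    refine lintegral_congr fun x => ?_
    rw [← ofReal_norm, ENNReal.ofReal_rpow_of_nonneg (norm_nonneg _) hq0.le]
  have hI0 : 0 ≤ ∫ x, ‖φ x‖ ^ q :=
    integral_nonneg fun x => Real.rpow_nonneg (norm_nonneg _) _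
  have h2 : ‖∫ x, fderiv ℝ (nl d) (f x) (g x) * φ x‖ₑ ≤
      ENNReal.ofReal (1 + 4 / d) * ∫⁻ x, ‖f x‖ₑ ^ ((4 : ℝ) / d) * ‖g x‖ₑ * ‖φ x‖ₑ := by
    refine (enorm_integral_le_lintegral_enorm _).trans ?_
    rw [← lintegral_const_mul' _ _ ENNReal.ofReal_ne_top]
    refine lintegral_mono fun x => ?_
    rw [enorm_mul, ← mul_assoc, ← mul_assoc]
    gcongr
    rw [← ofReal_norm, ← ofReal_norm, ← ofReal_norm, ENNReal.ofReal_rpow_of_nonneg (norm_nonneg _)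
      (by positivity), ← ENNReal.ofReal_mul (by positivity), ← ENNReal.ofReal_mul (by positivity)]
    refine ENNReal.ofReal_le_ofReal ?_
    exact (ContinuousLinearMap.le_opNorm _ _).trans
      (mul_le_mul_of_nonneg_right (nl_fderiv_le (by omega : 1 ≤ d) _) (norm_nonneg _))
  have h3 := ho_hold hd hf.1 hg.1 (φ.continuous.aestronglyMeasurable (μ := volume))
  have h4 : ∫⁻ x, ‖f x‖ₑ ^ (8 : ℝ) ≤ ENNReal.ofReal (C1 ^ (6 : ℝ) * M1 ^ (2 : ℝ)) := by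
    refine (ho_eight hb1).trans ?_
    rw [ENNReal.ofReal_mul (by positivity), ← ENNReal.ofReal_rpow_of_nonneg hC10 (by norm_num),
      ← ENNReal.ofReal_rpow_of_nonneg hM10 (by norm_num)]
    gcongr
    exact ho_sq hfM1
  have h5 : (∫⁻ x, ‖g x‖ₑ ^ (2 : ℝ)) ^ ((1 : ℝ) / 2) ≤ ENNReal.ofReal M1 := by
    have := ENNReal.rpow_le_rpow (ho_sq hgM1) (by norm_num : (0 : ℝ) ≤ 1 / 2)
    rwa [← ENNReal.rpow_mul, show (2 : ℝ) * (1 / 2) = 1 by norm_num, ENNReal.rpow_one] at this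
  rw [h1]
  have hfin : ENNReal.ofReal ‖∫ x, fderiv ℝ (nl d) (f x) (g x) * φ x‖ ≤
      ENNReal.ofReal ((1 + 4 / d) * ((C1 ^ (6 : ℝ) * M1 ^ (2 : ℝ)) ^ (1 / (2 * (d : ℝ))) * M1) *
        (∫ x, ‖φ x‖ ^ q) ^ (((d : ℝ) - 1) / (2 * d))) := by
    rw [ofReal_norm]
    refine h2.trans ?_
    rw [ENNReal.ofReal_mul (by positivity), ENNReal.ofReal_mul (by positivity),
      ENNReal.ofReal_mul (by positivity), ← ENNReal.ofReal_rpow_of_nonneg (by positivity)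
      (by positivity), ← ENNReal.ofReal_rpow_of_nonneg hI0 (by positivity), hφq, mul_assoc]
    gcongr
    refine h3.trans ?_
    gcongr
  exact (ENNReal.ofReal_le_ofReal_iff (by positivity)).1 hfin

end MP3483
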