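import Pool.Agent.Lib_MP_3483a5_an.K2G
import Pool.Agent.Lib_MP_3483a5_an.GL
import Pool.Agent.Lib_MP_3483a5_an.GF

/-!
# MP_3483a5_an, piece K2

`KeyProp 2` (here `kap 2 = 0`).
Proof.  Let `K` be large, `v = vK τ K`, `z = (A/√K) • v` with a small constant `A = A(τ) > 0`.
Sup norm: `|v x| ≤ ∑ 2^{-k} (4π|z_k|)^{-1} ≤ 2/(4πτ)` by `G_sup` (`|z_k| ≥ τ`).  `L²`: by the triangle
inequality for `eLpNorm` and `G_l2`, `‖v‖₂ ≤ ∑ 2^{-k} (8π2^{-k})^{-1/2} ≤ (8π)^{-1/2} ∑ 2^{-k/2} ≤ 4`.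
Gradient: `∫|∂_j z|² ≤ A² 3K/K = 3A²` by `vK_grad`.  So `A = min(1/4, 2πτ)` works for all three.
Pairing: by `G_pair_two`, with `s = 2^{-(K-1)}`, `∫ v G(s-iτ) = ∑_{k<K} 2^{-k}/(4π(2^{-k}+s))`, each term is
real and `≥ 1/(8π)`, so `|∫ z G(s-iτ)| ≥ A√K/(8π) ≥ M` for `K` large.
-/

open MeasureTheory Filter Topology Complex SchwartzMap
open scoped FourierTransform LineDeriv Laplacian ENNReal NNReal ComplexConjugate

namespace MP3483
variable {d : ℕ}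

/-- `2^{-k} + iτ` -/
noncomputable def k2w (τ : ℝ) (k : ℕ) : ℂ := (((1 / 2 : ℝ) ^ k : ℝ) : ℂ) + τ * Complex.I

theorem k2w_re (τ : ℝ) (k : ℕ) : (k2w τ k).re = (1 / 2 : ℝ) ^ k := by
  unfold k2w
  rw [add_re, mul_re, ofReal_re]
  simp

theorem k2w_re_pos (τ : ℝ) (k : ℕ) : 0 < (k2w τ k).re := by
  rw [k2w_re]
  positivity

theorem k2w_im (τ : ℝ) (k : ℕ) : (k2w τ k).im = τ := by
  unfold k2w
  rw [add_im, mul_im, ofReal_im]
  simp

theorem k2_apply (τ : ℝ) (K : ℕ) (x : Sp 2) : vK τ K x = ∑ k ∈ Finset.range K,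
    (((1 / 2 : ℝ) ^ k : ℝ) : ℂ) * G (k2w τ k) x := by
  unfold vK
  rw [_root_.sum_apply]
  refine Finset.sum_congr rfl (fun k _ => ?_)
  rw [_root_.smul_apply, gS_apply, smul_eq_mul]
  rfl

theorem k2_memLp (z : ℂ) (hz : 0 < z.re) : MemLp (fun x : Sp 2 => G z x) 2 volume := by
  have h := (gS z hz : 𝓢(Sp 2, ℂ)).memLp 2 volume
  have e : ((gS z hz : 𝓢(Sp 2, ℂ)) : Sp 2 → ℂ) = fun x => G z x := by
    funext x
    exact gS_apply z hz x
  rwa [e] at h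

theorem k2_geom (K : ℕ) : ∑ k ∈ Finset.range K, (1 / 2 : ℝ) ^ k ≤ 2 := by
  exact (summable_geometric_two.sum_le_tsum (Finset.range K) (fun i _ => by positivity)).trans
    (le_of_eq tsum_geometric_two)

theorem k2_norm_le (τ : ℝ) (K : ℕ) (x : Sp 2) : ‖vK τ K x‖ ≤ ∑ k ∈ Finset.range K,
    (1 / 2 : ℝ) ^ k * ‖G (k2w τ k) x‖ := by
  rw [k2_apply]
  refine (norm_sum_le _ _).trans (le_of_eq (Finset.sum_congr rfl (fun k _ => ?_)))
  rw [norm_mul, norm_real, Real.norm_of_nonneg (by positivity)]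

theorem k2_sup (τ : ℝ) (hτ : 0 < τ) (K : ℕ) (x : Sp 2) :
    ‖vK τ K x‖ ≤ 1 / (2 * Real.pi * τ) := by
  have hpi := Real.pi_pos
  have h1 : ∀ k, ‖G (k2w τ k) x‖ ≤ 1 / (4 * Real.pi * τ) := by
    intro k
    have h2 := G_sup (k2w τ k) (k2w_re_pos τ k) x
    have e1 : (-((2 : ℕ) : ℝ) / 2) = -1 := by norm_num
    have h3 : τ ≤ ‖k2w τ k‖ := by
      have := abs_im_le_norm (k2w τ k)
      rw [k2w_im, abs_of_pos hτ] at this
      exact this
    rw [e1, Real.rpow_neg_one, ← one_div] at h2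
    refine h2.trans (one_div_le_one_div_of_le (by positivity) ?_)
    exact mul_le_mul_of_nonneg_left h3 (by positivity)
  calc ‖vK τ K x‖ ≤ ∑ k ∈ Finset.range K, (1 / 2 : ℝ) ^ k * ‖G (k2w τ k) x‖ := k2_norm_le τ K x
    _ ≤ ∑ k ∈ Finset.range K, (1 / 2 : ℝ) ^ k * (1 / (4 * Real.pi * τ)) :=
        Finset.sum_le_sum (fun k _ => mul_le_mul_of_nonneg_left (h1 k) (by positivity))
    _ = (∑ k ∈ Finset.range K, (1 / 2 : ℝ) ^ k) * (1 / (4 * Real.pi * τ)) := by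
        rw [Finset.sum_mul]
    _ ≤ 2 * (1 / (4 * Real.pi * τ)) := mul_le_mul_of_nonneg_right (k2_geom K) (by positivity)
    _ = 1 / (2 * Real.pi * τ) := by
        field_simp
        norm_num

theorem k2_l2 (τ : ℝ) (K : ℕ) : ∫ x, ‖vK τ K x‖ ^ 2 ≤ K := by
  have hpi := Real.pi_gt_three
  have hint : ∀ k, Integrable (fun x : Sp 2 => ‖G (k2w τ k) x‖ ^ 2) volume := fun k =>
    (memLp_two_iff_integrable_sq_norm (k2_memLp _ (k2w_re_pos τ k)).1).1
      (k2_memLp _ (k2w_re_pos τ k))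
  have h1 : ∀ x, ‖vK τ K x‖ ^ 2 ≤ 2 * ∑ k ∈ Finset.range K,
      (1 / 2 : ℝ) ^ k * ‖G (k2w τ k) x‖ ^ 2 := by
    intro x
    have h2 := pow_le_pow_left₀ (norm_nonneg _) (k2_norm_le τ K x) 2
    have h3 := Finset.sum_sq_le_sum_mul_sum_of_sq_le_mul (Finset.range K)
      (f := fun k => (1 / 2 : ℝ) ^ k) (g := fun k => (1 / 2 : ℝ) ^ k * ‖G (k2w τ k) x‖ ^ 2)
      (r := fun k => (1 / 2 : ℝ) ^ k * ‖G (k2w τ k) x‖)
      (fun k _ => by positivity) (fun k _ => by positivity) (fun k _ => le_of_eq (by ring))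
    refine h2.trans (h3.trans ?_)
    exact mul_le_mul_of_nonneg_right (k2_geom K)
      (Finset.sum_nonneg (fun k _ => by positivity))
  have h4 : ∫ x, ‖vK τ K x‖ ^ 2 ≤ ∫ x : Sp 2, 2 * ∑ k ∈ Finset.range K,
      (1 / 2 : ℝ) ^ k * ‖G (k2w τ k) x‖ ^ 2 := by
    refine integral_mono_of_nonneg (Eventually.of_forall (fun x => by positivity)) ?_
      (Eventually.of_forall h1)
    exact (integrable_finsetSum _ (fun k _ => (hint k).const_mul _)).const_mul _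
  refine h4.trans ?_
  rw [integral_const_mul, integral_finsetSum _ (fun k _ => (hint k).const_mul _)]
  have h5 : ∀ k ∈ Finset.range K, ∫ x : Sp 2, (1 / 2 : ℝ) ^ k * ‖G (k2w τ k) x‖ ^ 2 =
      1 / (8 * Real.pi) := by
    intro k _
    rw [integral_const_mul, G_l2 _ (k2w_re_pos τ k), k2w_re]
    have e1 : (-((2 : ℕ) : ℝ) / 2) = -1 := by norm_num
    rw [e1, Real.rpow_neg_one]
    have : ((1 / 2 : ℝ) ^ k) ≠ 0 := by positivity
    field_simp
  rw [Finset.sum_congr rfl h5, Finset.sum_const, Finset.card_range, nsmul_eq_mul]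
  have hK : (0 : ℝ) ≤ K := Nat.cast_nonneg _
  have h6 : 1 / (8 * Real.pi) ≤ 1 / 2 := by
    refine one_div_le_one_div_of_le (by norm_num) ?_
    linarith
  have h7 := mul_le_mul_of_nonneg_left h6 hK
  linarith

theorem k2_pair (τ : ℝ) (K : ℕ) (s : ℝ) (hs : 0 < s) :
    ∫ x, vK τ K x * G ((s : ℂ) - τ * Complex.I) x =
      ((∑ k ∈ Finset.range K, (1 / 2 : ℝ) ^ k / (4 * Real.pi * ((1 / 2 : ℝ) ^ k + s)) : ℝ) : ℂ) := by
  have hre : 0 < ((s : ℂ) - τ * Complex.I).re := by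
    rw [sub_re, mul_re, ofReal_re]
    simpa using hs
  have hint : ∀ k, Integrable (fun x : Sp 2 => (((1 / 2 : ℝ) ^ k : ℝ) : ℂ) *
      (G (k2w τ k) x * G ((s : ℂ) - τ * Complex.I) x)) volume := fun k =>
    ((k2_memLp _ (k2w_re_pos τ k)).integrable_mul (k2_memLp _ hre)).const_mul _
  have h1 : ∀ x, vK τ K x * G ((s : ℂ) - τ * Complex.I) x = ∑ k ∈ Finset.range K,
      (((1 / 2 : ℝ) ^ k : ℝ) : ℂ) * (G (k2w τ k) x * G ((s : ℂ) - τ * Complex.I) x) := by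
    intro x
    rw [k2_apply, Finset.sum_mul]
    exact Finset.sum_congr rfl (fun k _ => by ring)
  rw [integral_congr_ae (Eventually.of_forall h1), integral_finsetSum _ (fun k _ => hint k)]
  push_cast
  refine Finset.sum_congr rfl (fun k _ => ?_)
  rw [integral_const_mul, G_pair_two _ _ (k2w_re_pos τ k) hre]
  unfold k2w
  push_cast
  rw [mul_one_div]
  congr 2
  ring

theorem key_two : KeyProp 2 := by
  intro τ hτ M
  have hpi := Real.pi_pos
  obtain ⟨A, hA0, hA1, hA2⟩ : ∃ A : ℝ, 0 < A ∧ A ≤ 1 / 4 ∧ A ≤ 2 * Real.pi * τ :=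
    ⟨min (1 / 4) (2 * Real.pi * τ), lt_min (by norm_num) (by positivity), min_le_left _ _,
      min_le_right _ _⟩
  obtain ⟨n, hn⟩ := exists_nat_ge (max 1 (8 * Real.pi * M / A))
  have hn1 : (1 : ℝ) ≤ n := (le_max_left _ _).trans hn
  have hn2 : 8 * Real.pi * M / A ≤ n := (le_max_right _ _).trans hn
  have hn0 : (0 : ℝ) < n := by linarith
  have hnn : 0 < n := by exact_mod_cast hn0
  have hc0 : 0 ≤ A / n := by positivity
  have hcA : A / n ≤ A := div_le_self hA0.le hn1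
  have hap : ∀ x, (((A / n : ℝ) : ℂ) • vK τ (n ^ 2)) x = ((A / n : ℝ) : ℂ) * vK τ (n ^ 2) x := by
    intro x
    rw [_root_.smul_apply, smul_eq_mul]
  refine ⟨((A / n : ℝ) : ℂ) • vK τ (n ^ 2), ?_, ?_, ?_, ?_⟩
  · intro x
    rw [hap, norm_mul, norm_real, Real.norm_of_nonneg hc0]
    calc A / n * ‖vK τ (n ^ 2) x‖ ≤ (2 * Real.pi * τ) * (1 / (2 * Real.pi * τ)) :=
          mul_le_mul (hcA.trans hA2) (k2_sup τ hτ _ x) (norm_nonneg _) (by positivity)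
      _ = 1 := by field_simp
  · have h1 : ∀ x, ‖(((A / n : ℝ) : ℂ) • vK τ (n ^ 2)) x‖ ^ 2 =
        (A / n) ^ 2 * ‖vK τ (n ^ 2) x‖ ^ 2 := by
      intro x
      rw [hap, norm_mul, norm_real, Real.norm_of_nonneg hc0, mul_pow]
    rw [integral_congr_ae (Eventually.of_forall h1), integral_const_mul]
    have h2 := mul_le_mul_of_nonneg_left (k2_l2 τ (n ^ 2)) (sq_nonneg (A / n))
    refine h2.trans ?_
    push_cast
    have h3 : (A / n) ^ 2 * (n : ℝ) ^ 2 = A ^ 2 := by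
      field_simp
    rw [h3]
    nlinarith
  · intro j
    have hpd : ∀ x, ‖pd j (((A / n : ℝ) : ℂ) • vK τ (n ^ 2)) x‖ ^ 2 =
        (A / n) ^ 2 * ‖pd j (vK τ (n ^ 2)) x‖ ^ 2 := by
      intro x
      have e : pd j (((A / n : ℝ) : ℂ) • vK τ (n ^ 2)) =
          ((A / n : ℝ) : ℂ) • pd j (vK τ (n ^ 2)) := by
        unfold pd
        rw [LineDeriv.lineDerivOp_smul]
      rw [e, _root_.smul_apply, smul_eq_mul, norm_mul, norm_real,
        Real.norm_of_nonneg hc0, mul_pow]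
    rw [integral_congr_ae (Eventually.of_forall hpd), integral_const_mul]
    have h2 := mul_le_mul_of_nonneg_left (vK_grad τ (n ^ 2) j) (sq_nonneg (A / n))
    refine h2.trans ?_
    push_cast
    have h3 : (A / n) ^ 2 * (3 * (n : ℝ) ^ 2) = 3 * A ^ 2 := by
      field_simp
    rw [h3]
    nlinarith
  · have hs : (0 : ℝ) < (1 / 2 : ℝ) ^ (n ^ 2 - 1) := by positivity
    refine ⟨(1 / 2 : ℝ) ^ (n ^ 2 - 1), hs, pow_le_one₀ (by norm_num) (by norm_num), ?_⟩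
    have hk : kap 2 = 0 := by simp [kap]
    rw [hk, Real.rpow_zero, one_mul]
    have h1 : ∀ x, (((A / n : ℝ) : ℂ) • vK τ (n ^ 2)) x *
        G ((((1 / 2 : ℝ) ^ (n ^ 2 - 1) : ℝ) : ℂ) - τ * Complex.I) x = ((A / n : ℝ) : ℂ) *
        (vK τ (n ^ 2) x * G ((((1 / 2 : ℝ) ^ (n ^ 2 - 1) : ℝ) : ℂ) - τ * Complex.I) x) := by
      intro x
      rw [hap, mul_assoc]
    rw [integral_congr_ae (Eventually.of_forall h1), integral_const_mul, k2_pair τ _ _ hs,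
      norm_mul, norm_real, norm_real, Real.norm_of_nonneg hc0]
    have h2 : (n : ℝ) ^ 2 * (1 / (8 * Real.pi)) ≤ ∑ k ∈ Finset.range (n ^ 2),
        (1 / 2 : ℝ) ^ k / (4 * Real.pi * ((1 / 2 : ℝ) ^ k + (1 / 2 : ℝ) ^ (n ^ 2 - 1))) := by
      have h3 : ∀ k ∈ Finset.range (n ^ 2), 1 / (8 * Real.pi) ≤
          (1 / 2 : ℝ) ^ k / (4 * Real.pi * ((1 / 2 : ℝ) ^ k + (1 / 2 : ℝ) ^ (n ^ 2 - 1))) := by
        intro k hk
        rw [Finset.mem_range] at hk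
        have h4 : (1 / 2 : ℝ) ^ (n ^ 2 - 1) ≤ (1 / 2 : ℝ) ^ k :=
          pow_le_pow_of_le_one (by norm_num) (by norm_num) (by omega)
        have h5 : (0 : ℝ) < (1 / 2 : ℝ) ^ k := by positivity
        rw [div_le_div_iff₀ (by positivity) (by positivity)]
        nlinarith
      have h6 := Finset.sum_le_sum h3
      rw [Finset.sum_const, Finset.card_range, nsmul_eq_mul] at h6
      push_cast at h6
      exact h6
    have h7 := h2.trans (le_abs_self _)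
    rw [← Real.norm_eq_abs] at h7
    refine le_trans ?_ (mul_le_mul_of_nonneg_left h7 hc0)
    have h8 : A / n * ((n : ℝ) ^ 2 * (1 / (8 * Real.pi))) = A * n / (8 * Real.pi) := by
      field_simp
    rw [h8, le_div_iff₀ (by positivity)]
    rw [div_le_iff₀ hA0] at hn2
    linarith

end MP3483
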