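import Pool.Agent.Lib_MP_3483a5_an.Base0

/-!
# MP_3483a5_an, piece K2S

For `k ≤ l`: `2^{-k-l}/(2^{-k}+2^{-l})² ≤ 2^{-k-l}/2^{-2k} = 2^{-(l-k)}`, symmetric in `k, l`; for fixed `k`
the sum over `l` is at most `1 + 2 ∑_{m≥1} 2^{-m} = 3`.
-/

open MeasureTheory Filter Topology Complex SchwartzMap
open scoped FourierTransform LineDeriv Laplacian ENNReal NNReal ComplexConjugate

namespace MP3483
variable {d : ℕ}

theorem K2S_term {k l : ℕ} (h : k ≤ l) :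
    ((1 / 2 : ℝ) ^ k * (1 / 2 : ℝ) ^ l) / ((1 / 2 : ℝ) ^ k + (1 / 2 : ℝ) ^ l) ^ 2 ≤
      (1 / 2 : ℝ) ^ (l - k) := by
  obtain ⟨j, rfl⟩ := Nat.exists_eq_add_of_le h
  rw [Nat.add_sub_cancel_left, pow_add]
  have ha : (0 : ℝ) < (1 / 2 : ℝ) ^ k := by positivity
  have hq : (0 : ℝ) < (1 / 2 : ℝ) ^ j := by positivity
  generalize (1 / 2 : ℝ) ^ k = a at ha ⊢
  generalize (1 / 2 : ℝ) ^ j = q at hq ⊢
  rw [div_le_iff₀ (by positivity)]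
  have h1 : a * (a * q) = q * a ^ 2 := by ring
  have h2 : q * (a + a * q) ^ 2 = q * a ^ 2 * (1 + q) ^ 2 := by ring
  rw [h1, h2]
  have h3 : (1 : ℝ) ≤ (1 + q) ^ 2 := by nlinarith
  have h4 : 0 < q * a ^ 2 := by positivity
  nlinarith

theorem K2S_row (K k : ℕ) (hk : k < K) : ∑ l ∈ Finset.range K,
    ((1 / 2 : ℝ) ^ k * (1 / 2 : ℝ) ^ l) / ((1 / 2 : ℝ) ^ k + (1 / 2 : ℝ) ^ l) ^ 2 ≤ 3 := by
  rw [← Finset.sum_range_add_sum_Ico _ (show k + 1 ≤ K by omega)]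
  have h1 : ∑ l ∈ Finset.range (k + 1),
      ((1 / 2 : ℝ) ^ k * (1 / 2 : ℝ) ^ l) / ((1 / 2 : ℝ) ^ k + (1 / 2 : ℝ) ^ l) ^ 2 ≤ 2 := by
    have h2 : ∀ l ∈ Finset.range (k + 1),
        ((1 / 2 : ℝ) ^ k * (1 / 2 : ℝ) ^ l) / ((1 / 2 : ℝ) ^ k + (1 / 2 : ℝ) ^ l) ^ 2 ≤
        (1 / 2 : ℝ) ^ (k + 1 - 1 - l) := by
      intro l hl
      have hl' := Finset.mem_range.1 hl
      rw [mul_comm, add_comm ((1 / 2 : ℝ) ^ k), Nat.add_sub_cancel]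
      exact K2S_term (by omega)
    refine (Finset.sum_le_sum h2).trans ?_
    rw [Finset.sum_range_reflect (fun j => (1 / 2 : ℝ) ^ j) (k + 1)]
    exact sum_geometric_two_le (k + 1)
  have h2 : ∑ l ∈ Finset.Ico (k + 1) K,
      ((1 / 2 : ℝ) ^ k * (1 / 2 : ℝ) ^ l) / ((1 / 2 : ℝ) ^ k + (1 / 2 : ℝ) ^ l) ^ 2 ≤ 1 := by
    rw [Finset.sum_Ico_eq_sum_range]
    have h3 : ∀ j ∈ Finset.range (K - (k + 1)),
        ((1 / 2 : ℝ) ^ k * (1 / 2 : ℝ) ^ (k + 1 + j)) /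
          ((1 / 2 : ℝ) ^ k + (1 / 2 : ℝ) ^ (k + 1 + j)) ^ 2 ≤ 1 / 2 * (1 / 2 : ℝ) ^ j := by
      intro j _
      have h4 := K2S_term (k := k) (l := k + 1 + j) (by omega)
      have h5 : k + 1 + j - k = j + 1 := by omega
      rw [h5, pow_succ' (1 / 2 : ℝ) j] at h4
      exact h4
    refine (Finset.sum_le_sum h3).trans ?_
    rw [← Finset.mul_sum]
    have := sum_geometric_two_le (K - (k + 1))
    linarith
  linarith

theorem double_sum (K : ℕ) : ∑ k ∈ Finset.range K, ∑ l ∈ Finset.range K,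
    ((1 / 2 : ℝ) ^ k * (1 / 2 : ℝ) ^ l) / ((1 / 2 : ℝ) ^ k + (1 / 2 : ℝ) ^ l) ^ 2 ≤
      3 * (K : ℝ) := by
  refine (Finset.sum_le_sum (g := fun _ => (3 : ℝ)) fun k hk =>
    K2S_row K k (Finset.mem_range.1 hk)).trans ?_
  rw [Finset.sum_const, Finset.card_range, nsmul_eq_mul]
  linarith

end MP3483
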