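import Pool.Agent.Lib_MP_3483a5_an.GD
import Pool.Agent.Lib_MP_3483a5_an.GF
import Pool.Agent.Lib_MP_3483a5_an.K2S

/-!
# MP_3483a5_an, piece K2G

Gradient bound for the superposition of heat kernels in dimension 2 (logarithmic gain).
Proof.  Plancherel for Schwartz functions (`SchwartzMap.integral_norm_sq_fourier`) and
`SchwartzMap.fourier_lineDerivOp_eq`: `∫|∂_j v|² = ∫ 4π² ξ_j² |𝓕v|² ≤ ∫ 4π²‖ξ‖²|𝓕v(ξ)|²`, and by
`fourier_gS` `|𝓕v(ξ)| = |e^{-4π²iτ‖ξ‖²} ∑_k 2^{-k} e^{-4π²2^{-k}‖ξ‖²}| = ∑_k 2^{-k} e^{-4π²2^{-k}‖ξ‖²}`.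
Expand the square: `∑_{k,l} 2^{-k-l} 4π² ∫ ‖ξ‖² e^{-c‖ξ‖²}`, `c = 4π²(2^{-k}+2^{-l})`; as
`‖ξ‖² e^{-c‖ξ‖²} ≤ (2/c) e^{-c‖ξ‖²/2}` (from `y e^{-y} ≤ 1`), the integral on `ℝ²` is at most `(2/c)(2π/c)`.
So the total is at most `(1/π) ∑_{k,l} 2^{-k-l}/(2^{-k}+2^{-l})² ≤ 3K/π ≤ 3K` by `double_sum`.
-/

open MeasureTheory Filter Topology Complex SchwartzMap
open scoped FourierTransform LineDeriv Laplacian ENNReal NNReal ComplexConjugate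

namespace MP3483
variable {d : ℕ}

/-- `∑_{k<K} 2^{-k} G(2^{-k} + iτ)` on `ℝ²` -/
noncomputable def vK (τ : ℝ) (K : ℕ) : 𝓢(Sp 2, ℂ) := ∑ k ∈ Finset.range K,
  (((1 / 2 : ℝ) ^ k : ℝ) : ℂ) • gS ((((1 / 2 : ℝ) ^ k : ℝ) : ℂ) + τ * Complex.I) (by
    rw [add_re, mul_re, ofReal_re]; simp)

theorem k2g_fourier_pd (j : Fin d) (f : 𝓢(Sp d, ℂ)) (ξ : Sp d) :
    ‖(𝓕 (pd j f) : 𝓢(Sp d, ℂ)) ξ‖ ≤ 2 * Real.pi * ‖ξ‖ * ‖(𝓕 f : 𝓢(Sp d, ℂ)) ξ‖ := by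
  unfold pd
  have hg : (fun x : Sp d => inner ℝ x (ev j)).HasTemperateGrowth := by fun_prop
  rw [SchwartzMap.fourier_lineDerivOp_eq]
  have h1 : ((2 * (Real.pi : ℂ) * Complex.I) • smulLeftCLM ℂ (fun x : Sp d => inner ℝ x (ev j))
      (𝓕 f)) ξ = (2 * (Real.pi : ℂ) * Complex.I) * (((inner ℝ ξ (ev j) : ℝ) : ℂ) *
        (𝓕 f : 𝓢(Sp d, ℂ)) ξ) := by
    rw [smul_apply, smulLeftCLM_apply_apply hg]
    simp
  rw [h1, norm_mul, norm_mul, norm_mul, norm_mul, Complex.norm_I, Complex.norm_real,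
    Complex.norm_real, Real.norm_of_nonneg Real.pi_pos.le]
  have h2 : ‖(inner ℝ ξ (ev j) : ℝ)‖ ≤ ‖ξ‖ := by
    refine (norm_inner_le_norm ξ (ev j)).trans ?_
    simp [ev]
  have h3 : ‖(2 : ℂ)‖ = 2 := by norm_num
  rw [h3, mul_one, ← mul_assoc]
  refine mul_le_mul_of_nonneg_right ?_ (norm_nonneg _)
  exact mul_le_mul_of_nonneg_left h2 (by positivity)

theorem k2g_int (c : ℝ) (hc : 0 < c) :
    Integrable (fun ξ : Sp 2 => Real.exp (-c * ‖ξ‖ ^ 2)) := by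
  have h1 := (GaussianFourier.integrable_cexp_neg_mul_sq_norm_add (V := Sp 2) (b := (c : ℂ))
    (by simpa using hc) 0 0).re
  refine h1.congr (Eventually.of_forall fun ξ => ?_)
  simp only [zero_mul, add_zero]
  have h2 : (-(c : ℂ) * (‖ξ‖ : ℂ) ^ 2) = ((-c * ‖ξ‖ ^ 2 : ℝ) : ℂ) := by push_cast; ring
  have h3 : cexp (-(c : ℂ) * (‖ξ‖ : ℂ) ^ 2) = ((Real.exp (-c * ‖ξ‖ ^ 2) : ℝ) : ℂ) := by
    rw [h2, Complex.ofReal_exp]
  rw [h3]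
  exact Complex.ofReal_re _

theorem k2g_ptw (c : ℝ) (hc : 0 < c) (y : ℝ) (hy : 0 ≤ y) :
    y * Real.exp (-c * y) ≤ 2 / c * Real.exp (-(c / 2) * y) := by
  have h1 : c / 2 * y * Real.exp (-(c / 2 * y)) ≤ 1 := by
    have h2 := Real.add_one_le_exp (c / 2 * y)
    have h3 : Real.exp (c / 2 * y) * Real.exp (-(c / 2 * y)) = 1 := by
      rw [← Real.exp_add]; simp
    have h4 := (Real.exp_pos (-(c / 2 * y))).le
    nlinarith
  have h5 : Real.exp (-c * y) = Real.exp (-(c / 2 * y)) * Real.exp (-(c / 2) * y) := by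
    rw [← Real.exp_add]; congr 1; ring
  have h6 := (Real.exp_pos (-(c / 2) * y)).le
  have h7 : y * Real.exp (-c * y) = 2 / c * (c / 2 * y * Real.exp (-(c / 2 * y))) *
      Real.exp (-(c / 2) * y) := by
    rw [h5]; field_simp
  rw [h7]
  refine mul_le_mul_of_nonneg_right ?_ h6
  calc 2 / c * (c / 2 * y * Real.exp (-(c / 2 * y))) ≤ 2 / c * 1 :=
        mul_le_mul_of_nonneg_left h1 (by positivity)
    _ = 2 / c := mul_one _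

theorem k2g_int2 (c : ℝ) (hc : 0 < c) :
    Integrable (fun ξ : Sp 2 => ‖ξ‖ ^ 2 * Real.exp (-c * ‖ξ‖ ^ 2)) := by
  refine ((k2g_int (c / 2) (by positivity)).const_mul (2 / c)).mono' ?_ ?_
  · exact (by fun_prop : Continuous fun ξ : Sp 2 =>
      ‖ξ‖ ^ 2 * Real.exp (-c * ‖ξ‖ ^ 2)).aestronglyMeasurable
  · refine Eventually.of_forall fun ξ => ?_
    rw [Real.norm_of_nonneg (by positivity)]
    exact k2g_ptw c hc (‖ξ‖ ^ 2) (by positivity)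

theorem k2g_val (c : ℝ) (hc : 0 < c) :
    ∫ ξ : Sp 2, ‖ξ‖ ^ 2 * Real.exp (-c * ‖ξ‖ ^ 2) ≤ 4 * Real.pi / c ^ 2 := by
  have h1 : ∫ ξ : Sp 2, ‖ξ‖ ^ 2 * Real.exp (-c * ‖ξ‖ ^ 2) ≤
      ∫ ξ : Sp 2, 2 / c * Real.exp (-(c / 2) * ‖ξ‖ ^ 2) :=
    integral_mono (k2g_int2 c hc) ((k2g_int (c / 2) (by positivity)).const_mul (2 / c))
      fun ξ => k2g_ptw c hc (‖ξ‖ ^ 2) (by positivity)
  refine h1.trans (le_of_eq ?_)
  rw [integral_const_mul, GaussianFourier.integral_rexp_neg_mul_sq_norm (by positivity),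
    finrank_euclideanSpace_fin]
  have h2 : (((2 : ℕ) : ℝ) / 2) = 1 := by norm_num
  rw [h2, Real.rpow_one]
  field_simp
  ring

theorem k2g_fourier_vK_norm (τ : ℝ) (K : ℕ) (ξ : Sp 2) :
    ‖(𝓕 (vK τ K) : 𝓢(Sp 2, ℂ)) ξ‖ ≤ ∑ k ∈ Finset.range K, (1 / 2 : ℝ) ^ k *
      Real.exp (-(4 * Real.pi ^ 2 * (1 / 2 : ℝ) ^ k) * ‖ξ‖ ^ 2) := by
  have h0 : (𝓕 (vK τ K) : 𝓢(Sp 2, ℂ)) = FourierTransform.fourierCLM ℂ 𝓢(Sp 2, ℂ) (vK τ K) := rfl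
  have h1 : (𝓕 (vK τ K) : 𝓢(Sp 2, ℂ)) ξ = ∑ k ∈ Finset.range K,
      (((1 / 2 : ℝ) ^ k : ℝ) : ℂ) * cexp (-(4 * (Real.pi : ℂ) ^ 2 *
        ((((1 / 2 : ℝ) ^ k : ℝ) : ℂ) + τ * Complex.I) * (‖ξ‖ : ℂ) ^ 2)) := by
    rw [h0]
    unfold vK
    rw [map_sum, sum_apply]
    refine Finset.sum_congr rfl fun k _ => ?_
    rw [map_smul, smul_apply, smul_eq_mul]
    congr 1
    exact fourier_gS _ _ ξ
  rw [h1]
  refine (norm_sum_le _ _).trans (Finset.sum_le_sum fun k _ => ?_)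
  rw [norm_mul, Complex.norm_real, Real.norm_of_nonneg (by positivity), Complex.norm_exp]
  refine le_of_eq ?_
  congr 2
  have h2 : (-(4 * (Real.pi : ℂ) ^ 2 * ((((1 / 2 : ℝ) ^ k : ℝ) : ℂ) + τ * Complex.I) *
      (‖ξ‖ : ℂ) ^ 2)) = ((-(4 * Real.pi ^ 2 * (1 / 2 : ℝ) ^ k) * ‖ξ‖ ^ 2 : ℝ) : ℂ) +
        ((-(4 * Real.pi ^ 2 * τ * ‖ξ‖ ^ 2) : ℝ) : ℂ) * Complex.I := by
    push_cast
    ring
  rw [h2, Complex.add_re, Complex.ofReal_re, Complex.re_ofReal_mul, Complex.I_re, mul_zero,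
    add_zero]

theorem vK_grad (τ : ℝ) (K : ℕ) (j : Fin 2) : ∫ x, ‖pd j (vK τ K) x‖ ^ 2 ≤ 3 * K := by
  have hpl := SchwartzMap.integral_norm_sq_fourier (pd j (vK τ K))
  rw [← hpl]
  set w : ℕ → ℝ := fun k => (1 / 2 : ℝ) ^ k with hw
  have hwpos : ∀ k, 0 < w k := fun k => by simp only [hw]; positivity
  set c : ℕ → ℕ → ℝ := fun k l => 4 * Real.pi ^ 2 * (w k + w l) with hc
  have hcpos : ∀ k l, 0 < c k l := fun k l => by
    have h1 := hwpos k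
    have h2 := hwpos l
    have := Real.pi_pos
    simp only [hc]
    positivity
  have hint : Integrable (fun ξ : Sp 2 => ∑ k ∈ Finset.range K, ∑ l ∈ Finset.range K,
      (4 * Real.pi ^ 2 * (w k * w l)) * (‖ξ‖ ^ 2 * Real.exp (-(c k l) * ‖ξ‖ ^ 2))) :=
    integrable_finsetSum _ fun k _ => integrable_finsetSum _ fun l _ =>
      (k2g_int2 _ (hcpos k l)).const_mul _
  have hle : ∫ ξ, ‖(𝓕 (pd j (vK τ K)) : 𝓢(Sp 2, ℂ)) ξ‖ ^ 2 ≤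
      ∫ ξ : Sp 2, ∑ k ∈ Finset.range K, ∑ l ∈ Finset.range K,
      (4 * Real.pi ^ 2 * (w k * w l)) * (‖ξ‖ ^ 2 * Real.exp (-(c k l) * ‖ξ‖ ^ 2)) := by
    refine integral_mono_of_nonneg (Eventually.of_forall fun ξ => by positivity) hint
      (Eventually.of_forall fun ξ => ?_)
    have h1 : ‖(𝓕 (pd j (vK τ K)) : 𝓢(Sp 2, ℂ)) ξ‖ ≤ 2 * Real.pi * ‖ξ‖ *
        ∑ k ∈ Finset.range K, w k * Real.exp (-(4 * Real.pi ^ 2 * w k) * ‖ξ‖ ^ 2) :=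
      (k2g_fourier_pd j (vK τ K) ξ).trans
        (mul_le_mul_of_nonneg_left (k2g_fourier_vK_norm τ K ξ)
          (by have := Real.pi_pos; positivity))
    have h2 := pow_le_pow_left₀ (norm_nonneg _) h1 2
    refine h2.trans (le_of_eq ?_)
    rw [mul_pow, sq (∑ k ∈ Finset.range K, _), Finset.sum_mul_sum, Finset.mul_sum]
    refine Finset.sum_congr rfl fun k _ => ?_
    rw [Finset.mul_sum]
    refine Finset.sum_congr rfl fun l _ => ?_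
    have h3 : Real.exp (-(c k l) * ‖ξ‖ ^ 2) = Real.exp (-(4 * Real.pi ^ 2 * w k) * ‖ξ‖ ^ 2) *
        Real.exp (-(4 * Real.pi ^ 2 * w l) * ‖ξ‖ ^ 2) := by
      rw [← Real.exp_add]
      congr 1
      simp only [hc]
      ring
    rw [h3]
    ring
  refine hle.trans ?_
  rw [integral_finsetSum _ fun k _ => integrable_finsetSum _ fun l _ =>
      (k2g_int2 _ (hcpos k l)).const_mul _]
  have hterm : ∀ k ∈ Finset.range K, ∫ ξ : Sp 2, ∑ l ∈ Finset.range K,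
      (4 * Real.pi ^ 2 * (w k * w l)) * (‖ξ‖ ^ 2 * Real.exp (-(c k l) * ‖ξ‖ ^ 2)) ≤
      ∑ l ∈ Finset.range K, (w k * w l) / (w k + w l) ^ 2 := by
    intro k _
    rw [integral_finsetSum _ fun l _ => (k2g_int2 _ (hcpos k l)).const_mul _]
    refine Finset.sum_le_sum fun l _ => ?_
    rw [integral_const_mul]
    have h1 := k2g_val _ (hcpos k l)
    have hk := hwpos k
    have hl := hwpos l
    have hpi := Real.pi_pos
    calc 4 * Real.pi ^ 2 * (w k * w l) * ∫ ξ : Sp 2, ‖ξ‖ ^ 2 * Real.exp (-(c k l) * ‖ξ‖ ^ 2)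
        ≤ 4 * Real.pi ^ 2 * (w k * w l) * (4 * Real.pi / (c k l) ^ 2) :=
          mul_le_mul_of_nonneg_left h1 (by positivity)
      _ = (1 / Real.pi) * ((w k * w l) / (w k + w l) ^ 2) := by
          simp only [hc]
          field_simp
      _ ≤ 1 * ((w k * w l) / (w k + w l) ^ 2) := by
          refine mul_le_mul_of_nonneg_right ?_ (by positivity)
          rw [div_le_one hpi]
          linarith [Real.pi_gt_three]
      _ = (w k * w l) / (w k + w l) ^ 2 := one_mul _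
  exact (Finset.sum_le_sum hterm).trans (double_sum K)

end MP3483
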