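import Pool.Agent.Lib_MP_3483a5_an.AsmA
import Pool.Agent.Lib_MP_3483a5_an.AsmB

/-!
# MP_3483a5_an: main theorem
-/

open MeasureTheory Filter Topology Complex SchwartzMap
open scoped FourierTransform LineDeriv Laplacian ENNReal NNReal ComplexConjugate

namespace MP3483
variable {d : ℕ}

/-- **Main theorem**: in every dimension `d ≥ 2` both questions have a negative answer. -/
theorem main (d : ℕ) (hd : 2 ≤ d) : ∃ u₀ : Sp d → ℂ, (∃ Du₀, IsH1 u₀ Du₀) ∧ Continuous u₀ ∧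
    (∃ B : ℝ, ∀ x, ‖u₀ x‖ ≤ B) ∧ ¬ Scatters u₀ ∧
    ∀ γp γm ts t0 : ℝ, 0 < γp → 0 < γm → 0 < ts → ts < t0 →
      ¬ Manageable (gam γp γm ts t0) u₀ ∧
      ∀ T : ℝ, 0 < T → ∀ (u : ℝ → Sp d → ℂ) (Du : ℝ → Fin d → Sp d → ℂ),
        H1Path (Set.Ico 0 T) u Du → Solves (gam γp γm ts t0) (Set.Ico 0 T) u →
        u 0 =ᵐ[volume] u₀ → ∀ C : ℝ, ∃ t ∈ Set.Ico 0 T, ENNReal.ofReal C <
          eLpNorm (u t) ⊤ volume := by
  obtain ⟨u₀, Du₀, h1, h2, h3, h4, h5⟩ := exists_bad hd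
  have key : ∀ γp γm ts t0 : ℝ, 0 < γp → 0 < γm → 0 < ts → ts < t0 →
      ∀ T : ℝ, 0 < T → ∀ (u : ℝ → Sp d → ℂ) (Du : ℝ → Fin d → Sp d → ℂ),
        H1Path (Set.Ico 0 T) u Du → Solves (gam γp γm ts t0) (Set.Ico 0 T) u →
        u 0 =ᵐ[volume] u₀ → ∀ C : ℝ, ∃ t ∈ Set.Ico 0 T, ENNReal.ofReal C <
          eLpNorm (u t) ⊤ volume := by
    intro γp γm ts t0 hγp hγm hts ht0 T hT u Du hu hsol hu0 C
    by_contra hcon
    push Not at hcon
    set S := min ts (T / 2) with hSdef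
    have hS0 : 0 < S := lt_min hts (by linarith)
    have hST : S < T := (min_le_right _ _).trans_lt (by linarith)
    have hsub : Set.Icc 0 S ⊆ Set.Ico 0 T := fun t ht => ⟨ht.1, ht.2.trans_lt hST⟩
    refine no_bounded hd h5 hγm hS0 (hu.mono hsub)
      (hsol.restrict hsub (fun t ht s hs hst => ?_) (fun t ht => ht.1)) hu0 (C₀ := max C 0) ?_
    · exact gam_first hts ht0 hs (hst.trans (ht.2.trans (min_le_left _ _)))
    · intro t ht
      have h6 := hcon t (hsub ht)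
      rw [eLpNorm_exponent_top] at h6
      filter_upwards [ae_le_eLpNormEssSup (f := u t) (μ := volume)] with x hx
      have h7 : ‖u t x‖ₑ ≤ ENNReal.ofReal (max C 0) :=
        hx.trans (h6.trans (ENNReal.ofReal_le_ofReal (le_max_left _ _)))
      rwa [← ofReal_norm, ENNReal.ofReal_le_ofReal_iff (le_max_right _ _)] at h7
  refine ⟨u₀, ⟨Du₀, h1⟩, h2, h3, not_scatters (by omega) h1 h4, ?_⟩
  intro γp γm ts t0 hγp hγm hts ht0
  refine ⟨?_, key γp γm ts t0 hγp hγm hts ht0⟩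
  rintro ⟨u, Du, hu, hsol, hu0, c, C, hc, hb⟩
  obtain ⟨t, ht, hlt⟩ := key γp γm ts t0 hγp hγm hts ht0 1 one_pos u Du
    (hu.mono fun t ht => ht.1) (hsol.restrict (fun t ht => ht.1) (fun _ _ _ _ _ => rfl)
      (fun t ht => ht.1)) hu0 C
  exact absurd (hb t ht.1).2 (not_le.2 hlt)

end MP3483
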