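import Pool.Agent.Lib_MP_3483a5_an.WC
import Pool.Agent.Lib_MP_3483a5_an.AI
import Pool.Agent.Lib_MP_3483a5_an.NLD
import Pool.Agent.Lib_MP_3483a5_an.GL

/-!
# MP_3483a5_an, piece NWB

Chain rule `∂_j (nl f) = D nl(f)[∂_j f]` for bounded `f ∈ H¹`.
Proof.  `f_n = cv (hk n) f`, `g_n = cv (hk n) g`; `f_n → f`, `g_n → g` in `L²` (`approx_id`), `|f_n| ≤ C₀`
(`hk n ≥ 0`, `∫ hk n = 1`, `G_l1` in `GL`); pass to a subsequence with `f_n → f` a.e.  `weak_comp_cv` with `N = nl d`:
`∫ D nl(f_n)[g_n] ψ = -∫ nl(f_n) ∂_jψ`.  Limits: `D nl(f_n)` is bounded by a constant and converges a.e. to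
`D nl(f)`, so `D nl(f_n)[g_n - g] ψ → 0` in `L¹` and `D nl(f_n)[g]ψ → D nl(f)[g]ψ` by dominated convergence;
`nl(f_n)∂_jψ → nl(f)∂_jψ` by dominated convergence (bounded times integrable).
-/

open MeasureTheory Filter Topology Complex SchwartzMap
open scoped FourierTransform LineDeriv Laplacian ENNReal NNReal ComplexConjugate

namespace MP3483
variable {d : ℕ}

/-- bound for the mollified function -/
private theorem nwb_bdd {f : Sp d → ℂ} {C : ℝ} (hb : ∀ᵐ x, ‖f x‖ ≤ C) (n : ℕ)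
    (x : Sp d) : ‖cv (hk n) f x‖ ≤ C := by
  have hs : (0 : ℝ) < 1 / ((n : ℝ) + 1) := by positivity
  have h1 : ∫ y : Sp d, ‖(hk n : 𝓢(Sp d, ℂ)) y‖ = 1 := by
    rw [← G_l1 (d := d) (1 / ((n : ℝ) + 1)) hs]
    refine integral_congr_ae (Eventually.of_forall fun y => ?_)
    show ‖(hk n : 𝓢(Sp d, ℂ)) y‖ = _
    rw [hk_apply]
  have hint : Integrable (fun y : Sp d => C * ‖(hk n : 𝓢(Sp d, ℂ)) (x - y)‖) := by
    have h2 : Integrable (fun y : Sp d => ‖(hk n : 𝓢(Sp d, ℂ)) y‖) :=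
      (SchwartzMap.integrable (hk n : 𝓢(Sp d, ℂ))).norm
    exact (h2.comp_sub_left x).const_mul C
  have h3 : ‖cv (hk n) f x‖ ≤ ∫ y : Sp d, C * ‖(hk n : 𝓢(Sp d, ℂ)) (x - y)‖ := by
    refine norm_integral_le_of_norm_le hint ?_
    filter_upwards [hb] with y hy
    rw [norm_mul]
    exact mul_le_mul_of_nonneg_right hy (norm_nonneg _)
  rw [integral_const_mul, integral_sub_left_eq_self (fun y => ‖(hk n : 𝓢(Sp d, ℂ)) y‖) volume x,
    h1, mul_one] at h3
  exact h3

private theorem nwb_nl_norm (z : ℂ) : ‖nl d z‖ = ‖z‖ ^ ((4 : ℝ) / d) * ‖z‖ := by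
  rw [nl, norm_mul, Complex.norm_real, Real.norm_of_nonneg (Real.rpow_nonneg (norm_nonneg _) _)]

theorem nl_weak_bdd (hd : 1 ≤ d) {j : Fin d} {f g : Sp d → ℂ} {C₀ : ℝ} (hf : MemLp f 2 volume)
    (hg : MemLp g 2 volume) (h : WeakPartial j f g) (hb : ∀ᵐ x, ‖f x‖ ≤ C₀) :
    WeakPartial j (fun x => nl d (f x)) (fun x => fderiv ℝ (nl d) (f x) (g x)) := by
  intro ψ
  obtain ⟨C, hC0, hC⟩ : ∃ C : ℝ, 0 ≤ C ∧ ∀ᵐ x, ‖f x‖ ≤ C :=
    ⟨max C₀ 0, le_max_right _ _, hb.mono fun x hx => hx.trans (le_max_left _ _)⟩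
  have hfb := nwb_bdd hC
  have hcont : ∀ n, Continuous (cv (hk n) f) := fun n => (cv_bdd (by norm_num) hf (hk n)).1
  have hcontg : ∀ n, Continuous (cv (hk n) g) := fun n => (cv_bdd (by norm_num) hg (hk n)).1
  have hnl := nl_contDiff (d := d) hd
  have hDc : Continuous (fderiv ℝ (nl d)) := hnl.continuous_fderiv (by norm_num)
  obtain ⟨κ, hκ⟩ : ∃ κ : ℝ, κ = (1 + 4 / d) * C ^ ((4 : ℝ) / d) := ⟨_, rfl⟩
  have hκ0 : 0 ≤ κ := by rw [hκ]; positivity
  have hDb : ∀ z : ℂ, ‖z‖ ≤ C → ‖fderiv ℝ (nl d) z‖ ≤ κ := by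
    intro z hz
    refine (nl_fderiv_le hd z).trans ?_
    rw [hκ]
    exact mul_le_mul_of_nonneg_left (Real.rpow_le_rpow (norm_nonneg _) hz (by positivity))
      (by positivity)
  -- the subsequence
  have hconv := approx_id (d := d) (p := 2) (by norm_num) (by norm_num) hf
  have hconvg := approx_id (d := d) (p := 2) (by norm_num) (by norm_num) hg
  obtain ⟨ns, hns, hae⟩ := (tendstoInMeasure_of_tendsto_eLpNorm (p := 2) (by norm_num)
    (fun n => (hcont n).aestronglyMeasurable) hf.1 hconv).exists_seq_tendsto_ae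
  -- the identity
  have hid : ∀ n, ∫ x, fderiv ℝ (nl d) (cv (hk n) f x) (cv (hk n) g x) * ψ x =
      -∫ x, nl d (cv (hk n) f x) * pd j ψ x := fun n =>
    weak_comp_cv (by norm_num) hf hg h hnl (hk n) ψ
  have hψ2 : MemLp ψ 2 (volume : Measure (Sp d)) := ψ.memLp 2
  have hDm : ∀ n, AEStronglyMeasurable (fun x => fderiv ℝ (nl d) (cv (hk n) f x))
      (volume : Measure (Sp d)) := fun n => (hDc.comp (hcont n)).aestronglyMeasurable
  have hDm' : AEStronglyMeasurable (fun x => fderiv ℝ (nl d) (f x))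
      (volume : Measure (Sp d)) := hDc.comp_aestronglyMeasurable hf.1
  have happ : ∀ (D : Sp d → (ℂ →L[ℝ] ℂ)) (u : Sp d → ℂ),
      AEStronglyMeasurable D (volume : Measure (Sp d)) →
      AEStronglyMeasurable u (volume : Measure (Sp d)) →
      AEStronglyMeasurable (fun x => D x (u x)) (volume : Measure (Sp d)) := fun D u hD hu =>
    (ContinuousLinearMap.id ℝ (ℂ →L[ℝ] ℂ)).aestronglyMeasurable_comp₂ hD hu
  have hgψ : Integrable (fun x => ‖g x‖ * ‖ψ x‖) (volume : Measure (Sp d)) :=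
    MemLp.integrable_mul (p := 2) (q := 2) hg.norm hψ2.norm
  have hdiffm : ∀ n, AEStronglyMeasurable (fun x => cv (hk n) g x - g x)
      (volume : Measure (Sp d)) := fun n => (hcontg n).aestronglyMeasurable.sub hg.1
  have hdiff2 : ∀ n, MemLp (fun x => cv (hk n) g x - g x) 2 (volume : Measure (Sp d)) := fun n =>
    (young (by norm_num) hg (hk n)).1.sub hg
  -- A
  have hAint : ∀ n, Integrable (fun x => fderiv ℝ (nl d) (cv (hk n) f x) (cv (hk n) g x - g x) * ψ x)
      (volume : Measure (Sp d)) := by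
    intro n
    have h1 : Integrable (fun x => κ * (‖cv (hk n) g x - g x‖ * ‖ψ x‖))
        (volume : Measure (Sp d)) :=
      (MemLp.integrable_mul (p := 2) (q := 2) (hdiff2 n).norm hψ2.norm).const_mul κ
    refine h1.mono' ((happ _ _ (hDm n) (hdiffm n)).mul hψ2.1) (Eventually.of_forall fun x => ?_)
    rw [norm_mul, ← mul_assoc]
    refine mul_le_mul_of_nonneg_right ?_ (norm_nonneg _)
    exact (ContinuousLinearMap.le_opNorm _ _).trans
      (mul_le_mul_of_nonneg_right (hDb _ (hfb n x)) (norm_nonneg _))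
  have hA : Tendsto (fun n => ∫ x, fderiv ℝ (nl d) (cv (hk n) f x) (cv (hk n) g x - g x) * ψ x)
      atTop (𝓝 0) := by
    have h0 : (∫ _x : Sp d, (0 : ℂ)) = 0 := integral_zero _ _
    rw [← h0]
    refine tendsto_integral_of_L1' _ aestronglyMeasurable_const (Eventually.of_forall hAint) ?_
    have hle : ∀ n, eLpNorm ((fun x => fderiv ℝ (nl d) (cv (hk n) f x) (cv (hk n) g x - g x) * ψ x) -
        fun _ => (0 : ℂ)) 1 volume ≤
        ENNReal.ofReal κ * (eLpNorm (fun x => cv (hk n) g x - g x) 2 volume * eLpNorm ψ 2 volume) := by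
      intro n
      have h1 : eLpNorm ((fun x => fderiv ℝ (nl d) (cv (hk n) f x) (cv (hk n) g x - g x) * ψ x) -
        fun _ => (0 : ℂ)) 1 volume ≤ ENNReal.ofReal κ *
          eLpNorm ((fun x => cv (hk n) g x - g x) • (ψ : Sp d → ℂ)) 1 volume := by
        refine eLpNorm_le_mul_eLpNorm_of_ae_le_mul (Eventually.of_forall fun x => ?_) 1
        show ‖fderiv ℝ (nl d) (cv (hk n) f x) (cv (hk n) g x - g x) * ψ x - 0‖ ≤
          κ * ‖(cv (hk n) g x - g x) * ψ x‖
        rw [sub_zero, norm_mul, norm_mul, ← mul_assoc]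
        refine mul_le_mul_of_nonneg_right ?_ (norm_nonneg _)
        exact (ContinuousLinearMap.le_opNorm _ _).trans
          (mul_le_mul_of_nonneg_right (hDb _ (hfb n x)) (norm_nonneg _))
      refine h1.trans ?_
      gcongr
      exact eLpNorm_smul_le_mul_eLpNorm hψ2.1 (hdiffm n)
    have hlim : Tendsto (fun n => ENNReal.ofReal κ *
        (eLpNorm (fun x => cv (hk n) g x - g x) 2 volume * eLpNorm ψ 2 volume)) atTop (𝓝 0) := by
      have h1 : Tendsto (fun n => eLpNorm (fun x => cv (hk n) g x - g x) 2 volume *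
          eLpNorm ψ 2 volume) atTop (𝓝 (0 * eLpNorm ψ 2 volume)) :=
        ENNReal.Tendsto.mul_const hconvg (Or.inr hψ2.2.ne)
      have h2 := ENNReal.Tendsto.const_mul (a := ENNReal.ofReal κ) h1 (Or.inr ENNReal.ofReal_ne_top)
      simpa using h2
    exact tendsto_of_tendsto_of_tendsto_of_le_of_le tendsto_const_nhds hlim (fun _ => zero_le) hle
  -- B
  have hBint : ∀ n, Integrable (fun x => fderiv ℝ (nl d) (cv (hk n) f x) (g x) * ψ x)
      (volume : Measure (Sp d)) := by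
    intro n
    refine (hgψ.const_mul κ).mono' ((happ _ _ (hDm n) hg.1).mul hψ2.1)
      (Eventually.of_forall fun x => ?_)
    rw [norm_mul, ← mul_assoc]
    refine mul_le_mul_of_nonneg_right ?_ (norm_nonneg _)
    exact (ContinuousLinearMap.le_opNorm _ _).trans
      (mul_le_mul_of_nonneg_right (hDb _ (hfb n x)) (norm_nonneg _))
  have hB : Tendsto (fun k => ∫ x, fderiv ℝ (nl d) (cv (hk (ns k)) f x) (g x) * ψ x) atTop
      (𝓝 (∫ x, fderiv ℝ (nl d) (f x) (g x) * ψ x)) := by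
    refine tendsto_integral_of_dominated_convergence (fun x => κ * (‖g x‖ * ‖ψ x‖))
      (fun k => (happ _ _ (hDm (ns k)) hg.1).mul hψ2.1) (hgψ.const_mul κ)
      (fun k => Eventually.of_forall fun x => ?_) ?_
    · rw [norm_mul, ← mul_assoc]
      refine mul_le_mul_of_nonneg_right ?_ (norm_nonneg _)
      exact (ContinuousLinearMap.le_opNorm _ _).trans
        (mul_le_mul_of_nonneg_right (hDb _ (hfb (ns k) x)) (norm_nonneg _))
    · filter_upwards [hae] with x hx
      have h1 : Tendsto (fun k => fderiv ℝ (nl d) (cv (hk (ns k)) f x)) atTop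
          (𝓝 (fderiv ℝ (nl d) (f x))) := (hDc.tendsto _).comp hx
      exact (((ContinuousLinearMap.apply ℝ ℂ (g x)).continuous.tendsto _).comp h1).mul_const _
  -- C
  have hpdi : Integrable (pd j ψ) (volume : Measure (Sp d)) := SchwartzMap.integrable (pd j ψ)
  have hCl : Tendsto (fun k => ∫ x, nl d (cv (hk (ns k)) f x) * pd j ψ x) atTop
      (𝓝 (∫ x, nl d (f x) * pd j ψ x)) := by
    refine tendsto_integral_of_dominated_convergence
      (fun x => C ^ ((4 : ℝ) / d) * C * ‖pd j ψ x‖)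
      (fun k => ((hnl.continuous.comp (hcont (ns k))).aestronglyMeasurable).mul hpdi.1)
      (hpdi.norm.const_mul _) (fun k => Eventually.of_forall fun x => ?_) ?_
    · rw [norm_mul, nwb_nl_norm]
      refine mul_le_mul_of_nonneg_right ?_ (norm_nonneg _)
      exact mul_le_mul (Real.rpow_le_rpow (norm_nonneg _) (hfb (ns k) x) (by positivity))
        (hfb (ns k) x) (norm_nonneg _) (by positivity)
    · filter_upwards [hae] with x hx
      exact ((hnl.continuous.tendsto _).comp hx).mul_const _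
  -- conclusion
  have hsum : ∀ k, (∫ x, fderiv ℝ (nl d) (cv (hk (ns k)) f x) (cv (hk (ns k)) g x - g x) * ψ x) +
      (∫ x, fderiv ℝ (nl d) (cv (hk (ns k)) f x) (g x) * ψ x) =
      -∫ x, nl d (cv (hk (ns k)) f x) * pd j ψ x := by
    intro k
    rw [← integral_add (hAint _) (hBint _), ← hid (ns k)]
    refine integral_congr_ae (Eventually.of_forall fun x => ?_)
    beta_reduce
    rw [map_sub]
    ring
  have hL := (hA.comp hns.tendsto_atTop).add hB
  have hR := hCl.neg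
  have hL' : Tendsto (fun k => -∫ x, nl d (cv (hk (ns k)) f x) * pd j ψ x) atTop
      (𝓝 (0 + ∫ x, fderiv ℝ (nl d) (f x) (g x) * ψ x)) :=
    hL.congr fun k => hsum k
  rw [zero_add] at hL'
  exact tendsto_nhds_unique hL' hR

end MP3483
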