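import Pool.Agent.Lib_MP_3483a5_an.Base
import Pool.Agent.Lib_MP_3483a5_an.CR
import Pool.Agent.Lib_MP_3483a5_an.CVA

/-!
# MP_3483a5_an, piece OD

The equation for `cv φ (u t) x`: apply `Solves` to the Schwartz function `ψ y = φ(x-y)` (see `CVA`),
`lap ψ y = (lap φ)(x-y)`; the coefficient is `γ = -1`.  Continuity: `cont_rho` with the Schwartz
functions `y ↦ (lap φ)(x-y)` and `y ↦ φ(x-y)`.
-/

open MeasureTheory Filter Topology Complex SchwartzMap
open scoped FourierTransform LineDeriv Laplacian ENNReal NNReal ComplexConjugate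

namespace MP3483
variable {d : ℕ}

/-- `(odS x φ) y = φ (x - y)`. -/
noncomputable def odS (x : Sp d) : 𝓢(Sp d, ℂ) →L[ℂ] 𝓢(Sp d, ℂ) :=
  (compSubConstCLM ℂ x).comp
    (compCLMOfContinuousLinearEquiv ℂ (ContinuousLinearEquiv.neg ℝ (M := Sp d)))

theorem odS_apply (x y : Sp d) (φ : 𝓢(Sp d, ℂ)) : odS x φ y = φ (x - y) := by
  change φ (-(y - x)) = φ (x - y)
  rw [neg_sub]

theorem odS_pd (x : Sp d) (m : Sp d) (φ : 𝓢(Sp d, ℂ)) :
    (∂_{m} (odS x φ) : 𝓢(Sp d, ℂ)) = -odS x (∂_{m} φ) := by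
  ext y
  rw [SchwartzMap.lineDerivOp_apply_eq_fderiv, SchwartzMap.neg_apply, odS_apply,
    SchwartzMap.lineDerivOp_apply_eq_fderiv]
  have h1 : HasFDerivAt (fun z : Sp d => φ (x - z))
      ((fderiv ℝ φ (x - y)).comp (-(ContinuousLinearMap.id ℝ (Sp d)))) y := by
    have h2 : HasFDerivAt (fun z : Sp d => x - z) (-(ContinuousLinearMap.id ℝ (Sp d))) y :=
      (hasFDerivAt_id y).const_sub x
    have h3 : HasFDerivAt φ (fderiv ℝ φ (x - y)) (x - y) := φ.differentiableAt.hasFDerivAt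
    exact h3.comp y h2
  have h4 : (odS x φ : Sp d → ℂ) = fun z => φ (x - z) := by
    funext z; exact odS_apply x z φ
  rw [h4, h1.fderiv]
  simp

theorem odS_lap (x : Sp d) (φ : 𝓢(Sp d, ℂ)) : lap (odS x φ) = odS x (lap φ) := by
  unfold lap
  rw [SchwartzMap.laplacian_eq_sum (EuclideanSpace.basisFun (Fin d) ℝ),
    SchwartzMap.laplacian_eq_sum (EuclideanSpace.basisFun (Fin d) ℝ), map_sum]
  refine Finset.sum_congr rfl fun i _ => ?_
  rw [odS_pd]
  have h : ∀ (m : Sp d) (ψ : 𝓢(Sp d, ℂ)), (∂_{m} (-ψ) : 𝓢(Sp d, ℂ)) = -∂_{m} ψ := by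
    intro m ψ
    exact map_neg (LineDeriv.lineDerivOpCLM ℂ 𝓢(Sp d, ℂ) m) ψ
  rw [h, odS_pd, neg_neg]

theorem ode (hd : 1 ≤ d) {u : ℝ → Sp d → ℂ} {Du : ℝ → Fin d → Sp d → ℂ}
    (hu : H1Path (Set.Ici 0) u Du) (hsol : Solves (fun _ => -1) (Set.Ici 0) u)
    (φ : 𝓢(Sp d, ℂ)) (x : Sp d) :
    (∀ t, 0 ≤ t → cv φ (u t) x = cv φ (u 0) x + ∫ s in (0 : ℝ)..t,
      (-Complex.I * cv (lap φ) (u s) x - Complex.I * cv φ (fun y => nl d (u s y)) x)) ∧
    ContinuousOn (fun s => -Complex.I * cv (lap φ) (u s) x -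
      Complex.I * cv φ (fun y => nl d (u s y)) x) (Set.Ici 0) := by
  have e : ∀ (ψ : 𝓢(Sp d, ℂ)) (f : Sp d → ℂ), cv ψ f x = ∫ y, f y * odS x ψ y := by
    intro ψ f
    unfold cv
    simp_rw [odS_apply]
  obtain ⟨-, h1, h2⟩ := cont_rho hd hu
  constructor
  · intro t ht
    have h3 := hsol (odS x φ) t ht
    rw [e, e, h3]
    congr 1
    refine intervalIntegral.integral_congr fun s _ => ?_
    simp only
    rw [odS_lap, e, e]
    push_cast
    ring
  · have h3 : (fun s => -Complex.I * cv (lap φ) (u s) x -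
        Complex.I * cv φ (fun y => nl d (u s y)) x) = fun s =>
        -Complex.I * (∫ y, u s y * odS x (lap φ) y) -
        Complex.I * ∫ y, nl d (u s y) * odS x φ y := by
      funext s
      rw [e, e]
    rw [h3]
    exact (continuousOn_const.mul (h1 _)).sub (continuousOn_const.mul (h2 _))

end MP3483
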