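import Pool.Agent.Lib_MP_3483a5_an.Base0

/-!
# MP_3483a5_an, piece RD

Radial vector fields `z ↦ F(|z|²) z` on `ℂ` are `C¹` (as real maps).
Proof.  Away from `0` the chain rule gives the formula for the derivative
`h ↦ F(|z|²) h + 2F'(|z|²) Re(z̄h) z` (`z ↦ ‖z‖²` is smooth, e.g. `Complex.sq_norm`, `normSq`), its norm is at
most `F + 2|z|²|F'| ≤ (1+c) F(|z|²)`.  At `0`: `|F(|z|²) z|/|z| = F(|z|²) → F 0 = 0`, so the derivative is `0`.
The derivative is continuous away from `0` and tends to `0` at `0` by the bound.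
(`contDiff_one_iff_fderiv`.)  Note `c F y ≥ 0` for `y > 0`.
-/

open MeasureTheory Filter Topology Complex SchwartzMap
open scoped FourierTransform LineDeriv Laplacian ENNReal NNReal ComplexConjugate

namespace MP3483
variable {d : ℕ}

/-- the derivative of a radial field -/
noncomputable def RD_D (F F' : ℝ → ℝ) (z : ℂ) : ℂ →L[ℝ] ℂ :=
  F (‖z‖ ^ 2) • ContinuousLinearMap.id ℝ ℂ +
    (2 * F' (‖z‖ ^ 2)) • (innerSL ℝ z).smulRight z

theorem RD_D_apply (F F' : ℝ → ℝ) (z h : ℂ) : RD_D F F' z h =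
    ((F (‖z‖ ^ 2) : ℝ) : ℂ) * h + ((2 * F' (‖z‖ ^ 2) * (conj z * h).re : ℝ) : ℂ) * z := by
  have h1 : RD_D F F' z h = F (‖z‖ ^ 2) • h + (2 * F' (‖z‖ ^ 2)) • ((inner ℝ z h : ℝ) • z) := rfl
  rw [h1, Complex.inner, Complex.real_smul, Complex.real_smul, Complex.real_smul]
  have h2 : (h * conj z).re = (conj z * h).re := by rw [mul_comm]
  rw [h2]
  push_cast
  ring

theorem RD_zero {F F' : ℝ → ℝ} (hF0 : F 0 = 0) : RD_D F F' 0 = 0 := by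
  apply ContinuousLinearMap.ext
  intro h
  rw [RD_D_apply]
  simp [hF0]

theorem RD_cont {F : ℝ → ℝ} (hF : ContinuousOn F (Set.Ici 0)) :
    Continuous (fun z : ℂ => F (‖z‖ ^ 2)) :=
  hF.comp_continuous (continuous_norm.pow 2) (fun z => by
    simp only [Set.mem_Ici]
    positivity)

theorem RD_deriv {F F' : ℝ → ℝ} (hF : ContinuousOn F (Set.Ici 0)) (hF0 : F 0 = 0)
    (hpos : ∀ y, 0 ≤ y → 0 ≤ F y) (hd : ∀ y, 0 < y → HasDerivAt F (F' y) y) (z : ℂ) :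
    HasFDerivAt (fun z : ℂ => ((F (‖z‖ ^ 2) : ℝ) : ℂ) * z) (RD_D F F' z) z := by
  rcases eq_or_ne z 0 with rfl | hz
  · rw [RD_zero hF0, hasFDerivAt_iff_isLittleO_nhds_zero]
    rw [Asymptotics.isLittleO_iff]
    intro ε hε
    have h1 : Tendsto (fun z : ℂ => F (‖z‖ ^ 2)) (𝓝 0) (𝓝 0) := by
      have := (RD_cont hF).tendsto 0
      simpa [hF0] using this
    filter_upwards [h1.eventually (gt_mem_nhds hε)] with h hh
    simp only [zero_add, mul_zero, sub_zero, zero_apply]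
    rw [norm_mul, Complex.norm_real, Real.norm_of_nonneg (hpos _ (by positivity))]
    exact mul_le_mul_of_nonneg_right hh.le (norm_nonneg _)
  · have hz' : 0 < ‖z‖ ^ 2 := by positivity
    have h1 : HasFDerivAt (fun z : ℂ => ‖z‖ ^ 2) (2 • (innerSL ℝ z)) z :=
      (hasStrictFDerivAt_norm_sq z).hasFDerivAt
    have h2 := (hd _ hz').comp_hasFDerivAt z h1
    have h3 := h2.smul (hasFDerivAt_id z)
    have h4 : (fun z : ℂ => ((F (‖z‖ ^ 2) : ℝ) : ℂ) * z) =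
        fun z : ℂ => (F ∘ fun z : ℂ => ‖z‖ ^ 2) z • id z := by
      funext w
      simp [Complex.real_smul]
    rw [h4]
    refine h3.congr_fderiv ?_
    apply ContinuousLinearMap.ext
    intro h
    show F (‖z‖ ^ 2) • h + (F' (‖z‖ ^ 2) • ((2 : ℕ) • (inner ℝ z h : ℝ))) • z =
      F (‖z‖ ^ 2) • h + (2 * F' (‖z‖ ^ 2)) • ((inner ℝ z h : ℝ) • z)
    rw [smul_smul]
    congr 2
    simp only [nsmul_eq_mul, smul_eq_mul]
    push_cast
    ring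

theorem RD_norm {F F' : ℝ → ℝ} (hF0 : F 0 = 0)
    (hpos : ∀ y, 0 ≤ y → 0 ≤ F y) {c : ℝ} (hb : ∀ y, 0 < y → 2 * y * |F' y| ≤ c * F y) (z : ℂ) :
    ‖RD_D F F' z‖ ≤ (1 + c) * F (‖z‖ ^ 2) := by
  rcases eq_or_ne z 0 with rfl | hz
  · rw [RD_zero hF0]
    simp [hF0]
  · have hz' : 0 < ‖z‖ ^ 2 := by positivity
    have h1 := hpos _ hz'.le
    have h2 := hb _ hz'
    have h3 : 0 ≤ 2 * ‖z‖ ^ 2 * |F' (‖z‖ ^ 2)| := by positivity
    refine ContinuousLinearMap.opNorm_le_bound _ (by linarith) fun h => ?_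
    have h5 : RD_D F F' z h =
      F (‖z‖ ^ 2) • h + (2 * F' (‖z‖ ^ 2)) • ((inner ℝ z h : ℝ) • z) := rfl
    rw [h5]
    refine (norm_add_le _ _).trans ?_
    rw [norm_smul, norm_smul, norm_smul, Real.norm_of_nonneg h1, norm_mul]
    have h6 := norm_inner_le_norm (𝕜 := ℝ) z h
    have h7 : ‖(2 : ℝ)‖ * ‖F' (‖z‖ ^ 2)‖ * (‖(inner ℝ z h : ℝ)‖ * ‖z‖) ≤
        (2 * ‖z‖ ^ 2 * |F' (‖z‖ ^ 2)|) * ‖h‖ := by
      rw [Real.norm_of_nonneg (by norm_num : (0 : ℝ) ≤ 2), Real.norm_eq_abs (F' _)]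
      have h8 : ‖(inner ℝ z h : ℝ)‖ * ‖z‖ ≤ ‖z‖ * ‖h‖ * ‖z‖ :=
        mul_le_mul_of_nonneg_right h6 (norm_nonneg _)
      calc 2 * |F' (‖z‖ ^ 2)| * (‖(inner ℝ z h : ℝ)‖ * ‖z‖)
          ≤ 2 * |F' (‖z‖ ^ 2)| * (‖z‖ * ‖h‖ * ‖z‖) := by gcongr
        _ = _ := by ring
    have h9 : (2 * ‖z‖ ^ 2 * |F' (‖z‖ ^ 2)|) * ‖h‖ ≤ c * F (‖z‖ ^ 2) * ‖h‖ :=
      mul_le_mul_of_nonneg_right h2 (norm_nonneg _)
    linarith

theorem radial {F F' : ℝ → ℝ} (hF : ContinuousOn F (Set.Ici 0)) (hF0 : F 0 = 0)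
    (hpos : ∀ y, 0 ≤ y → 0 ≤ F y) (hd : ∀ y, 0 < y → HasDerivAt F (F' y) y)
    (hc : ContinuousOn F' (Set.Ioi 0)) {c : ℝ} (hb : ∀ y, 0 < y → 2 * y * |F' y| ≤ c * F y) :
    ContDiff ℝ 1 (fun z : ℂ => ((F (‖z‖ ^ 2) : ℝ) : ℂ) * z) ∧
    (∀ z : ℂ, ‖fderiv ℝ (fun z : ℂ => ((F (‖z‖ ^ 2) : ℝ) : ℂ) * z) z‖ ≤
      (1 + c) * F (‖z‖ ^ 2)) ∧
    fderiv ℝ (fun z : ℂ => ((F (‖z‖ ^ 2) : ℝ) : ℂ) * z) 0 = 0 ∧
    ∀ z : ℂ, z ≠ 0 → ∀ h : ℂ, fderiv ℝ (fun z : ℂ => ((F (‖z‖ ^ 2) : ℝ) : ℂ) * z) z h =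
      ((F (‖z‖ ^ 2) : ℝ) : ℂ) * h + ((2 * F' (‖z‖ ^ 2) * (conj z * h).re : ℝ) : ℂ) * z := by
  have hD := RD_deriv hF hF0 hpos hd
  have hfd : fderiv ℝ (fun z : ℂ => ((F (‖z‖ ^ 2) : ℝ) : ℂ) * z) = RD_D F F' :=
    funext fun z => (hD z).fderiv
  refine ⟨?_, ?_, ?_, ?_⟩
  · rw [contDiff_one_iff_fderiv]
    refine ⟨fun z => (hD z).differentiableAt, ?_⟩
    rw [hfd, continuous_iff_continuousAt]
    intro z
    rcases eq_or_ne z 0 with rfl | hz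
    · unfold ContinuousAt
      rw [RD_zero hF0]
      refine squeeze_zero_norm (fun z => RD_norm hF0 hpos hb z) ?_
      have h1 := ((RD_cont hF).tendsto 0).const_mul (1 + c)
      simpa [hF0] using h1
    · have h1 : ContinuousAt (fun z : ℂ => F (‖z‖ ^ 2) • ContinuousLinearMap.id ℝ ℂ) z :=
        (RD_cont hF).continuousAt.smul continuousAt_const
      have hz' : 0 < ‖z‖ ^ 2 := by positivity
      have h2 : ContinuousAt (fun z : ℂ => F' (‖z‖ ^ 2)) z :=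
        ContinuousAt.comp (g := F') (hc.continuousAt (Ioi_mem_nhds hz'))
          (continuous_norm.pow 2).continuousAt
      have h3 : ContinuousAt (fun z : ℂ => (innerSL ℝ z).smulRight z) z := by
        have h4 : Continuous (fun z : ℂ => (innerSL ℝ z).smulRight z) := by fun_prop
        exact h4.continuousAt
      exact h1.add ((continuousAt_const.mul h2).smul h3)
  · intro z
    rw [hfd]
    exact RD_norm hF0 hpos hb z
  · rw [hfd, RD_zero hF0]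
  · intro z _ h
    rw [hfd, RD_D_apply]

end MP3483
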