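import Pool.Agent.Lib_MP_3483a5_an.HO
import Pool.Agent.Lib_MP_3483a5_an.GQ
import Pool.Agent.Lib_MP_3483a5_an.GL

/-!
# MP_3483a5_an, piece SB

Bound for `∫ nl(f) G(s - iτ)`.
Proof.  `h(r) = ∫ nl(f) G(r - iτ)`, `r ∈ [s,1]`.  `|h(1)| ≤ ‖nl f‖₂ ‖G(1-iτ)‖₂ ≤ C₀^{4/d} M (8π)^{-d/4}` (`G_l2`).
`G(1-iτ,x) - G(s-iτ,x) = ∫_s^1 lap(gS(r-iτ)) x dr` (`G_hasDerivAt`, fundamental theorem), so by Fubini
(everything is dominated by Gaussians times `nl f ∈ L²`) `h(1) - h(s) = ∫_s^1 (∫ nl(f) lap(gS(r-iτ))) dr`, where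
`lap = ∑_j pd j (pd j ·)`, and by `hold` with `φ = pd j (gS(r-iτ))` and `gS_partial_norm` with `q = 2d/(d-1)`
`|∫ nl(f) lap(..)| ≤ d C (|z|^{-d/(d-1)} r^{-d(d+1)/(2(d-1))})^{(d-1)/(2d)} = dC|z|^{-1/2} r^{-(d+1)/4} ≤ dC τ^{-1/2} r^{-(d+1)/4}`.
`∫_s^1 r^{-(d+1)/4} dr ≤ C' s^{-kap d}`: for `d = 2` it is `∫_0^1 r^{-3/4} = 4`; for `d ≥ 3`,
`(d+1)/4 ≤ kap d + 1` and `kap d ≥ 1/8`, so it is at most `∫_s^1 r^{-kap-1} ≤ s^{-kap}/kap`.
(Here: differentiation under the integral sign and the mean value inequality instead of Fubini.)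
-/

open MeasureTheory Filter Topology Complex SchwartzMap
open scoped FourierTransform LineDeriv Laplacian ENNReal NNReal ComplexConjugate

namespace MP3483
variable {d : ℕ}

theorem SB_norm_G (z : ℂ) (hz : 0 < z.re) (x : Sp d) :
    ‖G z x‖ = (4 * Real.pi * ‖z‖) ^ (-(d : ℝ) / 2) *
      Real.exp (-(z.re / (4 * ‖z‖ ^ 2)) * ‖x‖ ^ 2) := by
  unfold G
  rw [norm_mul]
  congr 1
  · have h1 : (-(d : ℂ) / 2) = ((-(d : ℝ) / 2 : ℝ) : ℂ) := by push_cast; ring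
    rw [h1, norm_cpow_real]
    congr 1
    rw [norm_mul, norm_mul]
    have h2 : ‖(4 : ℂ)‖ = 4 := by norm_num
    have h3 : ‖(Real.pi : ℂ)‖ = Real.pi := by
      rw [Complex.norm_real, Real.norm_of_nonneg Real.pi_pos.le]
    rw [h2, h3]
  · rw [Complex.norm_exp]
    congr 1
    have h1 : -((‖x‖ : ℂ) ^ 2 / (4 * z)) = ((‖x‖ ^ 2 : ℝ) : ℂ) * (-(4 * z)⁻¹) := by
      push_cast
      ring
    rw [h1, re_ofReal_mul, neg_re, inv_re, normSq_eq_norm_sq, norm_mul]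
    have h2 : ‖(4 : ℂ)‖ = 4 := by norm_num
    have h3 : (4 * z).re = 4 * z.re := by simp
    rw [h2, h3]
    have h4 : 0 < ‖z‖ := norm_pos_iff.2 (gd_ne hz)
    field_simp

/-- the explicit Laplacian of the heat kernel -/
noncomputable def SB_L (z : ℂ) (x : Sp d) : ℂ :=
  ((‖x‖ : ℂ) ^ 2 / (4 * z ^ 2) - (d : ℂ) / (2 * z)) * G z x

theorem SB_G_cont (z : ℂ) : Continuous (G z : Sp d → ℂ) := by
  unfold G
  fun_prop

theorem SB_L_cont (z : ℂ) : Continuous (SB_L z : Sp d → ℂ) := by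
  unfold SB_L
  have := SB_G_cont (d := d) z
  fun_prop

theorem SB_L_sum (z : ℂ) (hz : 0 < z.re) (x : Sp d) :
    SB_L z x = ∑ j : Fin d, pd j (pd j (gS z hz)) x := by
  have hx : (‖x‖ : ℂ) ^ 2 = ∑ j : Fin d, (x j : ℂ) ^ 2 := by
    rw [← ofReal_pow, EuclideanSpace.real_norm_sq_eq]
    push_cast
    rfl
  rw [Finset.sum_congr rfl (fun j _ => gd_partial2 z hz j x), ← Finset.sum_mul,
    Finset.sum_add_distrib]
  unfold SB_L
  rw [hx, Finset.sum_div, Finset.sum_const, Finset.card_univ, Fintype.card_fin, nsmul_eq_mul]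
  ring

theorem SB_gauss_int {b : ℝ} (hb : 0 < b) :
    Integrable (fun x : Sp d => Real.exp (-b * ‖x‖ ^ 2)) := by
  by_contra h
  have h1 := integral_undef h
  rw [GaussianFourier.integral_rexp_neg_mul_sq_norm hb] at h1
  have h2 : 0 < (Real.pi / b) ^ ((Module.finrank ℝ (Sp d) : ℝ) / 2) :=
    Real.rpow_pos_of_pos (div_pos Real.pi_pos hb) _
  exact h2.ne' h1

theorem SB_poly {b : ℝ} (hb : 0 < b) {y c1 c2 : ℝ} (hc1 : 0 ≤ c1) (hc2 : 0 ≤ c2)
    (hy : 0 ≤ y) : (c1 * y + c2) * Real.exp (-b * y) ≤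
      (c1 * (2 / b) + c2) * Real.exp (-(b / 2) * y) := by
  have h1 : b / 2 * y ≤ Real.exp (b / 2 * y) := by
    have := Real.add_one_le_exp (b / 2 * y)
    linarith
  have h2 : y ≤ 2 / b * Real.exp (b / 2 * y) := by
    rw [div_mul_eq_mul_div, le_div_iff₀ hb]
    linarith
  have h3 : 1 ≤ Real.exp (b / 2 * y) := Real.one_le_exp (by positivity)
  have h4 : c1 * y + c2 ≤ (c1 * (2 / b) + c2) * Real.exp (b / 2 * y) := by
    have h5 := mul_le_mul_of_nonneg_left h2 hc1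
    have h6 := mul_le_mul_of_nonneg_left h3 hc2
    nlinarith
  calc (c1 * y + c2) * Real.exp (-b * y)
      ≤ ((c1 * (2 / b) + c2) * Real.exp (b / 2 * y)) * Real.exp (-b * y) :=
        mul_le_mul_of_nonneg_right h4 (Real.exp_pos _).le
    _ = (c1 * (2 / b) + c2) * Real.exp (-(b / 2) * y) := by
        rw [mul_assoc, ← Real.exp_add]
        congr 2
        ring

theorem SB_dom {r0 τ : ℝ} (h0 : 0 < r0) : ∃ bd : Sp d → ℝ, Integrable bd ∧
    ∀ r ∈ Set.Ioo (r0 / 2) (2 * r0), ∀ x, ‖SB_L ((r : ℂ) - τ * Complex.I) x‖ ≤ bd x := by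
  set R : ℝ := 2 * r0 + |τ| with hR
  have hRpos : 0 < R := by positivity
  set b : ℝ := (r0 / 2) / (4 * R ^ 2) with hb
  have hbpos : 0 < b := by positivity
  set c1 : ℝ := 1 / (4 * (r0 / 2) ^ 2) with hc1
  set c2 : ℝ := d / (2 * (r0 / 2)) with hc2
  set c3 : ℝ := (4 * Real.pi * (r0 / 2)) ^ (-(d : ℝ) / 2) with hc3
  have hc1p : 0 ≤ c1 := by positivity
  have hc2p : 0 ≤ c2 := by positivity
  have hc3p : 0 ≤ c3 := by positivity
  refine ⟨fun x => (c3 * (c1 * (2 / b) + c2)) * Real.exp (-(b / 2) * ‖x‖ ^ 2),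
    (SB_gauss_int (by positivity)).const_mul _, ?_⟩
  intro r hr x
  set z : ℂ := (r : ℂ) - τ * Complex.I with hz
  have hzre : z.re = r := by simp [hz]
  have hr0 : 0 < r := by linarith [hr.1]
  have hzre0 : 0 < z.re := by rw [hzre]; exact hr0
  have hzlow : r0 / 2 ≤ ‖z‖ := by
    have := Complex.abs_re_le_norm z
    rw [hzre, abs_of_pos hr0] at this
    linarith [hr.1]
  have hzup : ‖z‖ ≤ R := by
    have h1 : ‖z‖ ≤ ‖(r : ℂ)‖ + ‖(τ : ℂ) * Complex.I‖ := norm_sub_le _ _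
    rw [norm_mul, Complex.norm_I, mul_one, Complex.norm_real, Complex.norm_real,
      Real.norm_of_nonneg hr0.le, Real.norm_eq_abs] at h1
    linarith [hr.2]
  have hzpos : 0 < ‖z‖ := by linarith [half_pos h0]
  have hhalf : 0 < r0 / 2 := half_pos h0
  have hb1 : b ≤ z.re / (4 * ‖z‖ ^ 2) := by
    rw [hb, hzre]
    have h2 : ‖z‖ ^ 2 ≤ R ^ 2 := pow_le_pow_left₀ hzpos.le hzup 2
    have h3 : 0 < ‖z‖ ^ 2 := by positivity
    exact div_le_div₀ hr0.le hr.1.le (by positivity) (by linarith)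
  have hnG : ‖G z x‖ ≤ c3 * Real.exp (-b * ‖x‖ ^ 2) := by
    rw [SB_norm_G z hzre0 x]
    have h1 : (4 * Real.pi * ‖z‖) ^ (-(d : ℝ) / 2) ≤ c3 := by
      rw [hc3]
      refine Real.rpow_le_rpow_of_nonpos (by positivity) ?_ ?_
      · exact mul_le_mul_of_nonneg_left hzlow (by positivity)
      · have : (0 : ℝ) ≤ d := Nat.cast_nonneg _
        linarith
    have h2 : Real.exp (-(z.re / (4 * ‖z‖ ^ 2)) * ‖x‖ ^ 2) ≤ Real.exp (-b * ‖x‖ ^ 2) := by
      refine Real.exp_le_exp.2 ?_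
      have : (0 : ℝ) ≤ ‖x‖ ^ 2 := by positivity
      nlinarith
    exact mul_le_mul h1 h2 (Real.exp_pos _).le hc3p
  have hfac : ‖(‖x‖ : ℂ) ^ 2 / (4 * z ^ 2) - (d : ℂ) / (2 * z)‖ ≤ c1 * ‖x‖ ^ 2 + c2 := by
    refine le_trans (norm_sub_le _ _) ?_
    have h1 : ‖(‖x‖ : ℂ) ^ 2 / (4 * z ^ 2)‖ = ‖x‖ ^ 2 / (4 * ‖z‖ ^ 2) := by
      rw [norm_div, norm_pow, norm_mul, norm_pow, Complex.norm_real, norm_norm]
      norm_num
    have h2 : ‖(d : ℂ) / (2 * z)‖ = d / (2 * ‖z‖) := by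
      rw [norm_div, norm_mul, Complex.norm_natCast]
      norm_num
    rw [h1, h2]
    have h3 : ‖x‖ ^ 2 / (4 * ‖z‖ ^ 2) ≤ c1 * ‖x‖ ^ 2 := by
      have e1 : c1 * ‖x‖ ^ 2 = ‖x‖ ^ 2 / (4 * (r0 / 2) ^ 2) := by
        rw [hc1]
        ring
      rw [e1]
      have h4 : (r0 / 2) ^ 2 ≤ ‖z‖ ^ 2 := pow_le_pow_left₀ hhalf.le hzlow 2
      exact div_le_div_of_nonneg_left (by positivity) (by positivity) (by linarith)
    have h5 : (d : ℝ) / (2 * ‖z‖) ≤ c2 := by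
      rw [hc2]
      exact div_le_div_of_nonneg_left (Nat.cast_nonneg _) (by positivity) (by linarith)
    linarith
  calc ‖SB_L z x‖ = ‖(‖x‖ : ℂ) ^ 2 / (4 * z ^ 2) - (d : ℂ) / (2 * z)‖ * ‖G z x‖ := by
        unfold SB_L
        rw [norm_mul]
    _ ≤ (c1 * ‖x‖ ^ 2 + c2) * (c3 * Real.exp (-b * ‖x‖ ^ 2)) :=
        mul_le_mul hfac hnG (norm_nonneg _) (by positivity)
    _ = c3 * ((c1 * ‖x‖ ^ 2 + c2) * Real.exp (-b * ‖x‖ ^ 2)) := by ring
    _ ≤ c3 * ((c1 * (2 / b) + c2) * Real.exp (-(b / 2) * ‖x‖ ^ 2)) :=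
        mul_le_mul_of_nonneg_left (SB_poly hbpos hc1p hc2p (by positivity)) hc3p
    _ = _ := by ring

theorem SB_re (r τ : ℝ) : ((r : ℂ) - τ * Complex.I).re = r := by simp

theorem SB_deriv {F : Sp d → ℂ} {BF τ : ℝ} (hFm : AEStronglyMeasurable F volume)
    (hFb : ∀ᵐ x, ‖F x‖ ≤ BF) {r : ℝ} (hr : 0 < r) :
    HasDerivAt (fun r : ℝ => ∫ x, F x * G ((r : ℂ) - τ * Complex.I) x)
      (∫ x, F x * SB_L ((r : ℂ) - τ * Complex.I) x) r := by
  obtain ⟨bd, hbd, hbd2⟩ := SB_dom (d := d) (r0 := r) (τ := τ) hr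
  have hs : Set.Ioo (r / 2) (2 * r) ∈ 𝓝 r := Ioo_mem_nhds (by linarith) (by linarith)
  refine (hasDerivAt_integral_of_dominated_loc_of_deriv_le (μ := volume)
    (F := fun (r : ℝ) (x : Sp d) => F x * G ((r : ℂ) - τ * Complex.I) x)
    (F' := fun (r : ℝ) (x : Sp d) => F x * SB_L ((r : ℂ) - τ * Complex.I) x)
    (bound := fun x => BF * bd x) hs ?_ ?_ ?_ ?_ ?_ ?_).2
  · exact Filter.Eventually.of_forall fun r =>
      hFm.mul (SB_G_cont _).aestronglyMeasurable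
  · have h1 : Integrable (G ((r : ℂ) - τ * Complex.I) : Sp d → ℂ) := by
      have h2 := (gS (d := d) ((r : ℂ) - τ * Complex.I) (by rw [SB_re]; exact hr)).integrable
        (μ := volume)
      rwa [gd_coe] at h2
    exact h1.bdd_mul hFm hFb
  · exact hFm.mul (SB_L_cont _).aestronglyMeasurable
  · filter_upwards [hFb] with x hx
    intro r' hr'
    rw [norm_mul]
    exact mul_le_mul hx (hbd2 r' hr' x) (norm_nonneg _) (le_trans (norm_nonneg _) hx)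
  · exact hbd.const_mul _
  · filter_upwards with x
    intro r' hr'
    have hr0 : 0 < r' := by linarith [hr'.1]
    have hre : 0 < ((r' : ℂ) - τ * Complex.I).re := by rw [SB_re]; exact hr0
    have h1 := G_hasDerivAt (d := d) ((r' : ℂ) - τ * Complex.I) hre x
    rw [gS_laplacian] at h1
    have h2 : HasDerivAt (fun w : ℂ => w - τ * Complex.I) 1 (r' : ℂ) :=
      (hasDerivAt_id _).sub_const _
    have h3 : HasDerivAt (fun w : ℂ => G (w - τ * Complex.I) x)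
        (SB_L ((r' : ℂ) - τ * Complex.I) x * 1) (r' : ℂ) :=
      HasDerivAt.comp (h₂ := fun w : ℂ => G w x) (h := fun w : ℂ => w - τ * Complex.I)
        (r' : ℂ) h1 h2
    rw [mul_one] at h3
    exact (h3.comp_ofReal).const_mul (F x)

theorem SB_mvt {h h' : ℝ → ℂ} {K s p : ℝ} (hp : p ≠ 0) (hs : 0 < s) (hs1 : s ≤ 1)
    (hh : ∀ r ∈ Set.Icc s 1, HasDerivAt h (h' r) r)
    (hb : ∀ r ∈ Set.Icc s 1, ‖h' r‖ ≤ K * r ^ (p - 1)) :
    ‖h s‖ ≤ ‖h 1‖ + K * ((1 - s ^ p) / p) := by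
  have hmem : ∀ y ∈ Set.Icc (-1 : ℝ) (-s), -y ∈ Set.Icc s 1 := by
    intro y hy
    exact ⟨by linarith [hy.2], by linarith [hy.1]⟩
  have hder : ∀ y ∈ Set.Icc (-1 : ℝ) (-s),
      HasDerivAt (fun y : ℝ => h (-y)) (-(h' (-y))) y := by
    intro y hy
    have h1 := HasDerivAt.scomp y (hh (-y) (hmem y hy)) (hasDerivAt_neg y)
    have h2 : HasDerivAt (fun y : ℝ => h (-y)) ((-1 : ℝ) • h' (-y)) y := h1
    exact h2.congr_deriv (by simp)
  have hBder : ∀ y ∈ Set.Icc (-1 : ℝ) (-s),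
      HasDerivAt (fun y : ℝ => ‖h 1‖ + K * ((1 - (-y) ^ p) / p)) (K * (-y) ^ (p - 1)) y := by
    intro y hy
    have h0 : 0 < -y := lt_of_lt_of_le hs (hmem y hy).1
    have h1 : HasDerivAt (fun y : ℝ => (-y) ^ p) (p * (-y) ^ (p - 1) * (-1)) y := by
      have h2 := (Real.hasDerivAt_rpow_const (x := -y) (p := p) (Or.inl h0.ne'))
      exact HasDerivAt.comp y h2 (hasDerivAt_neg y)
    have h3 := (((h1.const_sub 1).div_const p).const_mul K).const_add ‖h 1‖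
    refine h3.congr_deriv ?_
    field_simp
  have hkey := image_norm_le_of_norm_deriv_right_le_deriv_boundary'
    (f := fun y : ℝ => h (-y)) (f' := fun y => -(h' (-y)))
    (B := fun y : ℝ => ‖h 1‖ + K * ((1 - (-y) ^ p) / p)) (B' := fun y => K * (-y) ^ (p - 1))
    (a := -1) (b := -s)
    (fun y hy => (hder y hy).continuousAt.continuousWithinAt)
    (fun y hy => (hder y ⟨hy.1, hy.2.le⟩).hasDerivWithinAt)
    (by simp)
    (fun y hy => (hBder y hy).continuousAt.continuousWithinAt)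
    (fun y hy => (hBder y ⟨hy.1, hy.2.le⟩).hasDerivWithinAt)
    (fun y hy => by
      rw [norm_neg]
      exact hb (-y) (hmem y ⟨hy.1, hy.2.le⟩))
  have h4 := hkey (x := -s) ⟨by linarith, le_rfl⟩
  simpa using h4

theorem SB_int (hd : 2 ≤ d) {h h' : ℝ → ℂ} {K s : ℝ} (hK : 0 ≤ K) (hs : 0 < s) (hs1 : s ≤ 1)
    (hh : ∀ r ∈ Set.Icc s 1, HasDerivAt h (h' r) r)
    (hb : ∀ r ∈ Set.Icc s 1, ‖h' r‖ ≤ K * r ^ (-((d : ℝ) + 1) / 4)) :
    ‖h s‖ ≤ ‖h 1‖ + 8 * K * s ^ (-kap d) := by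
  by_cases h2 : d = 2
  · have hk : kap d = 0 := by unfold kap; rw [if_pos h2]
    have hb' : ∀ r ∈ Set.Icc s 1, ‖h' r‖ ≤ K * r ^ ((1 / 4 : ℝ) - 1) := by
      intro r hr
      have := hb r hr
      have e : -((d : ℝ) + 1) / 4 = (1 / 4 : ℝ) - 1 := by
        rw [h2]; norm_num
      rwa [e] at this
    have h3 := SB_mvt (by norm_num) hs hs1 hh hb'
    have h4 : 0 ≤ s ^ (1 / 4 : ℝ) := (Real.rpow_pos_of_pos hs _).le
    rw [hk, neg_zero, Real.rpow_zero]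
    refine le_trans h3 ?_
    have h5 : K * ((1 - s ^ (1 / 4 : ℝ)) / (1 / 4)) ≤ 8 * K := by
      have : (1 - s ^ (1 / 4 : ℝ)) / (1 / 4) ≤ 4 := by
        rw [div_le_iff₀ (by norm_num)]
        linarith
      nlinarith
    linarith
  · have hd3 : (3 : ℝ) ≤ d := by
      have : 3 ≤ d := by omega
      exact_mod_cast this
    have hk : kap d = (2 * (d : ℝ) - 5) / 8 := by unfold kap; rw [if_neg h2]
    have hk1 : 1 / 8 ≤ kap d := by rw [hk]; linarith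
    have hb' : ∀ r ∈ Set.Icc s 1, ‖h' r‖ ≤ K * r ^ (-kap d - 1) := by
      intro r hr
      refine le_trans (hb r hr) (mul_le_mul_of_nonneg_left ?_ hK)
      refine Real.rpow_le_rpow_of_exponent_ge (lt_of_lt_of_le hs hr.1) hr.2 ?_
      rw [hk]
      linarith
    have h3 := SB_mvt (p := -kap d) (by linarith) hs hs1 hh hb'
    refine le_trans h3 ?_
    have h4 : (1 - s ^ (-kap d)) / (-kap d) ≤ 8 * s ^ (-kap d) := by
      have e : (1 - s ^ (-kap d)) / (-kap d) = (s ^ (-kap d) - 1) / kap d := by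
        rw [div_neg, ← neg_div, neg_sub]
      rw [e, div_le_iff₀ (by linarith)]
      have h5 : 0 ≤ s ^ (-kap d) := (Real.rpow_pos_of_pos hs _).le
      nlinarith
    have h6 := mul_le_mul_of_nonneg_left h4 hK
    linarith

theorem SB_nl_meas : Measurable (nl d) := by
  unfold nl
  exact (Complex.measurable_ofReal.comp (measurable_norm.pow_const _)).mul measurable_id

theorem SB_nl_norm {B : ℝ} {z : ℂ} (hz : ‖z‖ ≤ B) :
    ‖nl d z‖ ≤ B ^ ((4 : ℝ) / d) * ‖z‖ := by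
  unfold nl
  rw [norm_mul, Complex.norm_real, Real.norm_of_nonneg (Real.rpow_nonneg (norm_nonneg _) _)]
  exact mul_le_mul_of_nonneg_right (Real.rpow_le_rpow (norm_nonneg _) hz (by positivity))
    (norm_nonneg _)

theorem slice_bound (hd : 2 ≤ d) (C₀ M : ℝ) : ∃ C : ℝ, 0 ≤ C ∧ ∀ (f : Sp d → ℂ)
    (Df : Fin d → Sp d → ℂ), IsH1 f Df → (∀ᵐ x, ‖f x‖ ≤ C₀) →
    eLpNorm f 2 volume ≤ ENNReal.ofReal M → (∀ j, eLpNorm (Df j) 2 volume ≤ ENNReal.ofReal M) →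
    ∀ τ : ℝ, 0 < τ → ∀ s : ℝ, 0 < s → s ≤ 1 →
      ‖∫ x, nl d (f x) * G ((s : ℂ) - τ * Complex.I) x‖ ≤
        C * (1 + τ ^ (-(1 / 2) : ℝ) * s ^ (-kap d)) := by
  have hd1 : (1 : ℝ) < d := by exact_mod_cast (by omega : 1 < d)
  have hd0 : (0 : ℝ) < d := by linarith
  obtain ⟨Ch, hCh, hhold⟩ := hold hd C₀ M
  obtain ⟨Cq, hCq, hgq⟩ := gS_partial_norm (d := d) (2 * (d : ℝ) / (d - 1)) (by
    rw [le_div_iff₀ (by linarith)]
    linarith)
  set e : ℝ := ((d : ℝ) - 1) / (2 * d) with he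
  set B : ℝ := max C₀ 0 with hB
  have hB0 : 0 ≤ B := le_max_right _ _
  set A : ℝ := (B ^ ((4 : ℝ) / d) * B ^ ((4 : ℝ) / d) * (max M 0) ^ 2 +
    (8 * Real.pi) ^ (-(d : ℝ) / 2)) / 2 with hA
  have hA0 : 0 ≤ A := by positivity
  set K : ℝ := d * (Ch * Cq ^ e) with hK
  have hK0 : 0 ≤ K := by positivity
  refine ⟨A + 8 * K, by positivity, ?_⟩
  intro f Df hf hfb hfM hDM τ hτ s hs hs1
  have hfb' : ∀ᵐ x, ‖f x‖ ≤ B := by
    filter_upwards [hfb] with x hx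
    exact le_trans hx (le_max_left _ _)
  have hFm : AEStronglyMeasurable (fun x => nl d (f x)) volume :=
    (SB_nl_meas.comp_aemeasurable hf.memLp.1.aemeasurable).aestronglyMeasurable
  have hFb : ∀ᵐ x, ‖nl d (f x)‖ ≤ B ^ ((4 : ℝ) / d) * B := by
    filter_upwards [hfb'] with x hx
    exact le_trans (SB_nl_norm hx) (mul_le_mul_of_nonneg_left hx (by positivity))
  -- the derivative
  have hder : ∀ r ∈ Set.Icc s 1, HasDerivAt (fun r : ℝ => ∫ x, nl d (f x) *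
      G ((r : ℂ) - τ * Complex.I) x) (∫ x, nl d (f x) * SB_L ((r : ℂ) - τ * Complex.I) x) r :=
    fun r hr => SB_deriv hFm hFb (lt_of_lt_of_le hs hr.1)
  have hbd : ∀ r ∈ Set.Icc s 1, ‖∫ x, nl d (f x) * SB_L ((r : ℂ) - τ * Complex.I) x‖ ≤
      (K * τ ^ (-(1 / 2) : ℝ)) * r ^ (-((d : ℝ) + 1) / 4) := by
    intro r hr
    have hr0 : 0 < r := lt_of_lt_of_le hs hr.1
    set z : ℂ := (r : ℂ) - τ * Complex.I with hz
    have hzre : z.re = r := SB_re r τ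
    have hzre0 : 0 < z.re := by rw [hzre]; exact hr0
    have hzim : τ ≤ ‖z‖ := by
      have h1 := Complex.abs_im_le_norm z
      have h2 : z.im = -τ := by simp [hz]
      rw [h2, abs_neg, abs_of_pos hτ] at h1
      exact h1
    have hzpos : 0 < ‖z‖ := lt_of_lt_of_le hτ hzim
    have hsum : ∫ x, nl d (f x) * SB_L z x =
        ∑ j : Fin d, ∫ x, nl d (f x) * pd j (pd j (gS z hzre0)) x := by
      rw [← integral_finsetSum]
      · refine integral_congr_ae (Filter.Eventually.of_forall fun x => ?_)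
        simp only
        rw [SB_L_sum z hzre0 x, Finset.mul_sum]
      · intro j _
        exact ((pd j (pd j (gS (d := d) z hzre0))).integrable (μ := volume)).bdd_mul hFm hFb
    have hterm : ∀ j : Fin d, ‖∫ x, nl d (f x) * pd j (pd j (gS z hzre0)) x‖ ≤
        Ch * Cq ^ e * (τ ^ (-(1 / 2) : ℝ) * r ^ (-((d : ℝ) + 1) / 4)) := by
      intro j
      have h1 := hhold j f (Df j) hf.memLp (hf.memLpD j) (hf.weak j) hfb hfM (hDM j)
        (pd j (gS z hzre0))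
      have h2 := hgq z hzre0 j
      have h3 : 0 ≤ ∫ x : Sp d, ‖pd j (gS z hzre0) x‖ ^ (2 * (d : ℝ) / (d - 1)) :=
        integral_nonneg fun x => Real.rpow_nonneg (norm_nonneg _) _
      have he0 : 0 ≤ e := by
        rw [he]
        exact div_nonneg (by linarith) (by linarith)
      have h4 := Real.rpow_le_rpow h3 h2 he0
      have h5 : (Cq * ‖z‖ ^ ((d : ℝ) - d * (2 * (d : ℝ) / (d - 1)) / 2) *
          z.re ^ (-((2 * (d : ℝ) / (d - 1)) + d) / 2)) ^ e =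
          Cq ^ e * (‖z‖ ^ (-(1 / 2) : ℝ) * r ^ (-((d : ℝ) + 1) / 4)) := by
        rw [Real.mul_rpow (by positivity) (by positivity), Real.mul_rpow hCq (by positivity),
          ← Real.rpow_mul hzpos.le, ← Real.rpow_mul hzre0.le, mul_assoc, hzre]
        have hd1' : (d : ℝ) - 1 ≠ 0 := by linarith
        have e1 : ((d : ℝ) - d * (2 * (d : ℝ) / (d - 1)) / 2) * e = -(1 / 2) := by
          rw [he]
          field_simp
          ring
        have e2 : (-((2 * (d : ℝ) / (d - 1)) + d) / 2) * e = -((d : ℝ) + 1) / 4 := by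
          rw [he]
          field_simp
          ring
        rw [e1, e2]
      rw [h5] at h4
      have h6 : ‖z‖ ^ (-(1 / 2) : ℝ) ≤ τ ^ (-(1 / 2) : ℝ) :=
        Real.rpow_le_rpow_of_nonpos hτ hzim (by norm_num)
      have h7 : 0 ≤ r ^ (-((d : ℝ) + 1) / 4) := (Real.rpow_pos_of_pos hr0 _).le
      have h8 : 0 ≤ Cq ^ e := Real.rpow_nonneg hCq _
      calc _ ≤ Ch * (∫ x : Sp d, ‖pd j (gS z hzre0) x‖ ^ (2 * (d : ℝ) / (d - 1))) ^ e := h1
        _ ≤ Ch * (Cq ^ e * (‖z‖ ^ (-(1 / 2) : ℝ) * r ^ (-((d : ℝ) + 1) / 4))) :=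
            mul_le_mul_of_nonneg_left h4 hCh
        _ ≤ Ch * (Cq ^ e * (τ ^ (-(1 / 2) : ℝ) * r ^ (-((d : ℝ) + 1) / 4))) := by
            refine mul_le_mul_of_nonneg_left (mul_le_mul_of_nonneg_left ?_ h8) hCh
            exact mul_le_mul_of_nonneg_right h6 h7
        _ = _ := by ring
    rw [hsum]
    refine le_trans (norm_sum_le _ _) (le_trans (Finset.sum_le_sum fun j _ => hterm j) ?_)
    rw [Finset.sum_const, Finset.card_univ, Fintype.card_fin, nsmul_eq_mul]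
    refine le_of_eq ?_
    rw [hK]
    ring
  have hτ0 : 0 ≤ τ ^ (-(1 / 2) : ℝ) := (Real.rpow_pos_of_pos hτ _).le
  have hmain := SB_int hd (mul_nonneg hK0 hτ0) hs hs1 hder hbd
  -- the value at one
  have hone : ‖∫ x, nl d (f x) * G (((1 : ℝ) : ℂ) - τ * Complex.I) x‖ ≤ A := by
    set z : ℂ := ((1 : ℝ) : ℂ) - τ * Complex.I with hz
    have hzre : z.re = 1 := SB_re 1 τ
    have hzre0 : 0 < z.re := by rw [hzre]; norm_num
    have hG2 : ∫ x : Sp d, ‖G z x‖ ^ 2 = (8 * Real.pi) ^ (-(d : ℝ) / 2) := by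
      rw [G_l2 z hzre0, hzre, mul_one]
    have hG2i : Integrable (fun x : Sp d => ‖G z x‖ ^ 2) := by
      by_contra hni
      have h1 := integral_undef hni
      rw [hG2] at h1
      have h2 : 0 < (8 * Real.pi) ^ (-(d : ℝ) / 2) :=
        Real.rpow_pos_of_pos (by positivity) _
      exact h2.ne' h1
    have hf2i : Integrable (fun x => ‖f x‖ ^ 2) :=
      (memLp_two_iff_integrable_sq_norm hf.memLp.1).1 hf.memLp
    have hf2 : ∫ x, ‖f x‖ ^ 2 ≤ (max M 0) ^ 2 := by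
      rw [int_sq_eq hf.memLp]
      refine pow_le_pow_left₀ ENNReal.toReal_nonneg ?_ 2
      refine ENNReal.toReal_le_of_le_ofReal (le_max_right _ _) (le_trans hfM ?_)
      exact ENNReal.ofReal_le_ofReal (le_max_left _ _)
    have hbint : Integrable (fun x : Sp d => (B ^ ((4 : ℝ) / d) * B ^ ((4 : ℝ) / d) * ‖f x‖ ^ 2 +
        ‖G z x‖ ^ 2) / 2) := ((hf2i.const_mul _).add hG2i).div_const 2
    have h1 := norm_integral_le_of_norm_le (f := fun x => nl d (f x) * G z x) hbint (by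
      filter_upwards [hfb'] with x hx
      rw [norm_mul]
      have h2 := SB_nl_norm (d := d) hx
      have h3 := norm_nonneg (nl d (f x))
      have h4 := norm_nonneg (G z x)
      have h5 : ‖nl d (f x)‖ ^ 2 ≤ (B ^ ((4 : ℝ) / d) * ‖f x‖) ^ 2 :=
        pow_le_pow_left₀ h3 h2 2
      nlinarith [sq_nonneg (‖nl d (f x)‖ - ‖G z x‖)])
    refine le_trans h1 ?_
    rw [integral_div, integral_add (hf2i.const_mul _) hG2i, integral_const_mul, hG2, hA]
    have h6 : 0 ≤ B ^ ((4 : ℝ) / d) * B ^ ((4 : ℝ) / d) := by positivity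
    have h7 := mul_le_mul_of_nonneg_left hf2 h6
    linarith
  have hsk : 0 ≤ s ^ (-kap d) := (Real.rpow_pos_of_pos hs _).le
  calc ‖∫ x, nl d (f x) * G ((s : ℂ) - τ * Complex.I) x‖
      ≤ A + 8 * (K * τ ^ (-(1 / 2) : ℝ)) * s ^ (-kap d) := by linarith
    _ ≤ (A + 8 * K) * (1 + τ ^ (-(1 / 2) : ℝ) * s ^ (-kap d)) := by
        have h8 : 0 ≤ τ ^ (-(1 / 2) : ℝ) * s ^ (-kap d) := mul_nonneg hτ0 hsk
        nlinarith [mul_nonneg hA0 h8]

end MP3483
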