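import Pool.Agent.Lib_MP_3483a5_an.Base

/-!
# MP_3483a5_an, piece SMB

A series of Schwartz functions `z k` with `|z k| ≤ 1`, `∫|z k|² ≤ 1` and `∑|a k| ≤ 1`.
Proof.  The series converges uniformly (`continuous_tsum`, Weierstrass), bound `B = sup|w| + 1`.
`L²`: `∑ |a k| |z k x|` has finite `L²` norm, e.g. by `(∑|a k||z k x|)² ≤ (∑|a k|) ∑ |a k||z k x|²`
(Cauchy-Schwarz/Jensen) and monotone convergence, or by Fatou for partial sums.
`rho`: with `p = rho d ≥ 2`, `∫ (∑|a k||z k|)^p ≤ ∫ (∑|a k||z k|)² ≤ 1` as the sum is `≤ 1` pointwise, so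
`eLpNorm (∑' a k z k) (rhoE d) ≤ 1`; triangle inequality.
Pairing: `∑ |a k| ∫|z k||g| ≤ ∑|a k| ∫|g| < ∞`, so `integral_tsum` / `integral_hasSum...` applies.
-/

open MeasureTheory Filter Topology Complex SchwartzMap
open scoped FourierTransform LineDeriv Laplacian ENNReal NNReal ComplexConjugate

namespace MP3483
variable {d : ℕ}

theorem smb_tsum_sq (a b : ℕ → ℝ) (ha : ∀ k, 0 ≤ a k) (hs : Summable a) (h1 : ∑' k, a k ≤ 1)
    (hb0 : ∀ k, 0 ≤ b k) (hb1 : ∀ k, b k ≤ 1) :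
    (∑' k, a k * b k) ^ 2 ≤ ∑' k, a k * b k ^ 2 := by
  have s1 : Summable fun k => a k * b k :=
    hs.of_nonneg_of_le (fun k => mul_nonneg (ha k) (hb0 k))
      fun k => mul_le_of_le_one_right (ha k) (hb1 k)
  have s2 : Summable fun k => a k * b k ^ 2 :=
    hs.of_nonneg_of_le (fun k => mul_nonneg (ha k) (sq_nonneg _))
      fun k => mul_le_of_le_one_right (ha k) (pow_le_one₀ (hb0 k) (hb1 k))
  set t := ∑' k, a k * b k with ht
  have h0 : 0 ≤ ∑' k, a k * (b k - t) ^ 2 :=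
    tsum_nonneg fun k => mul_nonneg (ha k) (sq_nonneg _)
  have h2 : ∑' k, a k * (b k - t) ^ 2 = ∑' k, a k * b k ^ 2 - 2 * t * t + t ^ 2 * ∑' k, a k := by
    have e : ∀ k, a k * (b k - t) ^ 2 = a k * b k ^ 2 - 2 * t * (a k * b k) + t ^ 2 * a k :=
      fun k => by ring
    simp only [e]
    rw [Summable.tsum_add (s2.sub (s1.mul_left _)) (hs.mul_left _),
      Summable.tsum_sub s2 (s1.mul_left _), tsum_mul_left, tsum_mul_left, ← ht]
  rw [h2] at h0
  have h3 : t ^ 2 * ∑' k, a k ≤ t ^ 2 * 1 := mul_le_mul_of_nonneg_left h1 (sq_nonneg t)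
  nlinarith

theorem smb_lint (z : ℕ → 𝓢(Sp d, ℂ)) (hz1 : ∀ k x, ‖z k x‖ ≤ 1)
    (hz2 : ∀ k, ∫ x, ‖z k x‖ ^ 2 ≤ 1)
    (a : ℕ → ℂ) (ha : Summable (fun k => ‖a k‖)) (ha1 : ∑' k, ‖a k‖ ≤ 1) :
    ∫⁻ x, ‖∑' k, a k * z k x‖ₑ ^ (2 : ℝ) ≤ 1 := by
  have hsum : ∀ x, Summable fun k => ‖a k * z k x‖ := fun x =>
    ha.of_nonneg_of_le (fun k => norm_nonneg _) fun k => by
      rw [norm_mul]
      exact mul_le_of_le_one_right (norm_nonneg _) (hz1 k x)
  have hsum2 : ∀ x, Summable fun k => ‖a k‖ * ‖z k x‖ ^ 2 := fun x =>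
    ha.of_nonneg_of_le (fun k => by positivity) fun k =>
      mul_le_of_le_one_right (norm_nonneg _) (pow_le_one₀ (norm_nonneg _) (hz1 k x))
  have h1 : ∀ x, ‖∑' k, a k * z k x‖ₑ ^ (2 : ℝ) ≤
      ∑' k, ENNReal.ofReal (‖a k‖ * ‖z k x‖ ^ 2) := by
    intro x
    have e1 : ‖∑' k, a k * z k x‖ ≤ ∑' k, ‖a k‖ * ‖z k x‖ := by
      refine (norm_tsum_le_tsum_norm (hsum x)).trans (le_of_eq ?_)
      simp only [norm_mul]
    have e2 : ‖∑' k, a k * z k x‖ ^ 2 ≤ ∑' k, ‖a k‖ * ‖z k x‖ ^ 2 :=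
      (pow_le_pow_left₀ (norm_nonneg _) e1 2).trans
        (smb_tsum_sq (fun k => ‖a k‖) (fun k => ‖z k x‖) (fun k => norm_nonneg _) ha ha1
          (fun k => norm_nonneg _) (fun k => hz1 k x))
    rw [← ENNReal.ofReal_tsum_of_nonneg (fun k => by positivity) (hsum2 x)]
    calc ‖∑' k, a k * z k x‖ₑ ^ (2 : ℝ) = ENNReal.ofReal (‖∑' k, a k * z k x‖ ^ 2) := by
          rw [← ofReal_norm, ENNReal.ofReal_pow (norm_nonneg _)]
          exact_mod_cast ENNReal.rpow_natCast _ 2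
      _ ≤ _ := ENNReal.ofReal_le_ofReal e2
  refine (lintegral_mono h1).trans ?_
  have hmeas : ∀ k, AEMeasurable (fun x : Sp d => ENNReal.ofReal (‖a k‖ * ‖z k x‖ ^ 2)) volume :=
    fun k => (((z k).continuous.norm.pow 2).const_smul ‖a k‖).measurable.ennreal_ofReal.aemeasurable
  rw [lintegral_tsum hmeas]
  have h2 : ∀ k, ∫⁻ x, ENNReal.ofReal (‖a k‖ * ‖z k x‖ ^ 2) ≤ ENNReal.ofReal ‖a k‖ := by
    intro k
    have hint : Integrable (fun x => ‖z k x‖ ^ 2) volume :=
      (memLp_two_iff_integrable_sq_norm (z k).continuous.aestronglyMeasurable).1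
        ((z k).memLp 2 volume)
    rw [← ofReal_integral_eq_lintegral_ofReal (hint.const_mul _)
      (Eventually.of_forall fun x => by positivity), integral_const_mul]
    exact ENNReal.ofReal_le_ofReal (mul_le_of_le_one_right (norm_nonneg _) (hz2 k))
  refine (ENNReal.tsum_le_tsum h2).trans ?_
  rw [← ENNReal.ofReal_tsum_of_nonneg (fun k => norm_nonneg _) ha]
  exact ENNReal.ofReal_le_one.2 ha1

theorem smb_norm_le (z : ℕ → 𝓢(Sp d, ℂ)) (hz1 : ∀ k x, ‖z k x‖ ≤ 1)
    (a : ℕ → ℂ) (ha : Summable (fun k => ‖a k‖)) (ha1 : ∑' k, ‖a k‖ ≤ 1) (x : Sp d) :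
    ‖∑' k, a k * z k x‖ ≤ 1 := by
  have hle : ∀ k, ‖a k * z k x‖ ≤ ‖a k‖ := fun k => by
    rw [norm_mul]
    exact mul_le_of_le_one_right (norm_nonneg _) (hz1 k x)
  have hsum : Summable fun k => ‖a k * z k x‖ := ha.of_nonneg_of_le (fun k => norm_nonneg _) hle
  exact (norm_tsum_le_tsum_norm hsum).trans ((hsum.tsum_le_tsum hle ha).trans ha1)

theorem smb_eLpNorm (z : ℕ → 𝓢(Sp d, ℂ)) (hz1 : ∀ k x, ‖z k x‖ ≤ 1)
    (hz2 : ∀ k, ∫ x, ‖z k x‖ ^ 2 ≤ 1)
    (a : ℕ → ℂ) (ha : Summable (fun k => ‖a k‖)) (ha1 : ∑' k, ‖a k‖ ≤ 1) {p : ℝ} (hp : 2 ≤ p) :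
    eLpNorm (fun x => ∑' k, a k * z k x) (ENNReal.ofReal p) volume ≤ 1 := by
  have hp0 : 0 < p := by linarith
  rw [eLpNorm_eq_lintegral_rpow_enorm_toReal (by simpa using hp0) ENNReal.ofReal_ne_top,
    ENNReal.toReal_ofReal hp0.le]
  have h1 : ∫⁻ x, ‖∑' k, a k * z k x‖ₑ ^ p ≤ 1 := by
    refine (lintegral_mono fun x => ?_).trans (smb_lint z hz1 hz2 a ha ha1)
    refine ENNReal.rpow_le_rpow_of_exponent_ge ?_ hp
    rw [← ofReal_norm]
    exact ENNReal.ofReal_le_one.2 (smb_norm_le z hz1 a ha ha1 x)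
  exact ENNReal.rpow_le_one h1 (by positivity)

theorem sums_b (w : 𝓢(Sp d, ℂ)) (z : ℕ → 𝓢(Sp d, ℂ)) (hz1 : ∀ k x, ‖z k x‖ ≤ 1)
    (hz2 : ∀ k, ∫ x, ‖z k x‖ ^ 2 ≤ 1)
    (a : ℕ → ℂ) (ha : Summable (fun k => ‖a k‖)) (ha1 : ∑' k, ‖a k‖ ≤ 1) :
    MemLp (fun x => w x + ∑' k, a k * z k x) 2 volume ∧
      Continuous (fun x => w x + ∑' k, a k * z k x) ∧
      (∃ B : ℝ, ∀ x, ‖w x + ∑' k, a k * z k x‖ ≤ B) ∧
      (eLpNorm w (rhoE d) volume ≤
        eLpNorm (fun x => w x + ∑' k, a k * z k x) (rhoE d) volume + 1) ∧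
      ∀ g : 𝓢(Sp d, ℂ), ∫ x, (w x + ∑' k, a k * z k x) * g x =
        (∫ x, w x * g x) + ∑' k, a k * ∫ x, z k x * g x := by
  have hle : ∀ k x, ‖a k * z k x‖ ≤ ‖a k‖ := fun k x => by
    rw [norm_mul]
    exact mul_le_of_le_one_right (norm_nonneg _) (hz1 k x)
  have hcS : Continuous (fun x => ∑' k, a k * z k x) :=
    continuous_tsum (fun k => continuous_const.mul (z k).continuous) ha hle
  have hS1 := smb_norm_le z hz1 a ha ha1
  have hmS : AEStronglyMeasurable (fun x => ∑' k, a k * z k x) volume := hcS.aestronglyMeasurable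
  have hS2 : MemLp (fun x => ∑' k, a k * z k x) 2 volume := by
    refine ⟨hmS, ?_⟩
    have h := smb_eLpNorm z hz1 hz2 a ha ha1 (p := 2) le_rfl
    rw [show ENNReal.ofReal 2 = 2 by norm_num] at h
    exact h.trans_lt ENNReal.one_lt_top
  refine ⟨(w.memLp 2 volume).add hS2, w.continuous.add hcS, ?_, ?_, ?_⟩
  · refine ⟨(SchwartzMap.seminorm ℝ 0 0) w + 1, fun x => (norm_add_le _ _).trans ?_⟩
    exact add_le_add (SchwartzMap.norm_le_seminorm ℝ w x) (hS1 x)
  · have hp1 : 1 ≤ rhoE d := by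
      unfold rhoE
      rw [ENNReal.one_le_ofReal]
      linarith [rho_ge_two d]
    have h1 : (w : Sp d → ℂ) = (fun x => w x + ∑' k, a k * z k x) -
        (fun x => ∑' k, a k * z k x) := by
      funext x
      simp
    calc eLpNorm w (rhoE d) volume
        = eLpNorm ((fun x => w x + ∑' k, a k * z k x) -
          (fun x => ∑' k, a k * z k x)) (rhoE d) volume := by rw [← h1]
      _ ≤ eLpNorm (fun x => w x + ∑' k, a k * z k x) (rhoE d) volume +
          eLpNorm (fun x => ∑' k, a k * z k x) (rhoE d) volume :=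
        eLpNorm_sub_le (w.continuous.add hcS).aestronglyMeasurable hmS hp1
      _ ≤ _ := by
        gcongr
        exact smb_eLpNorm z hz1 hz2 a ha ha1 (rho_ge_two d)
  · intro g
    have hg : Integrable (fun x => g x) volume := g.integrable
    have hwg : Integrable (fun x => w x * g x) volume := by
      refine Integrable.mono' (hg.norm.const_mul ((SchwartzMap.seminorm ℝ 0 0) w))
        (w.continuous.mul g.continuous).aestronglyMeasurable (Eventually.of_forall fun x => ?_)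
      rw [norm_mul]
      exact mul_le_mul_of_nonneg_right (SchwartzMap.norm_le_seminorm ℝ w x) (norm_nonneg _)
    have hSg : Integrable (fun x => (∑' k, a k * z k x) * g x) volume := by
      refine Integrable.mono' hg.norm (hcS.mul g.continuous).aestronglyMeasurable
        (Eventually.of_forall fun x => ?_)
      rw [norm_mul]
      exact mul_le_of_le_one_left (norm_nonneg _) (hS1 x)
    have hkg : ∀ k, Integrable (fun x => a k * z k x * g x) volume := by
      intro k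
      refine Integrable.mono' (hg.norm.const_mul ‖a k‖)
        ((continuous_const.mul (z k).continuous).mul g.continuous).aestronglyMeasurable
        (Eventually.of_forall fun x => ?_)
      rw [norm_mul]
      exact mul_le_mul_of_nonneg_right (hle k x) (norm_nonneg _)
    have hsn : Summable fun k => ∫ x, ‖a k * z k x * g x‖ := by
      refine (ha.mul_right (∫ x, ‖g x‖)).of_nonneg_of_le
        (fun k => integral_nonneg fun x => norm_nonneg _) fun k => ?_
      rw [← integral_const_mul]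
      refine integral_mono (hkg k).norm (hg.norm.const_mul _) fun x => ?_
      change ‖a k * z k x * g x‖ ≤ ‖a k‖ * ‖g x‖
      rw [norm_mul]
      exact mul_le_mul_of_nonneg_right (hle k x) (norm_nonneg _)
    have h1 := integral_tsum_of_summable_integral_norm hkg hsn
    have h2 : ∀ x, (w x + ∑' k, a k * z k x) * g x =
        w x * g x + (∑' k, a k * z k x) * g x := fun x => by ring
    simp only [h2]
    rw [integral_add hwg hSg]
    congr 1
    have h3 : ∀ x, (∑' k, a k * z k x) * g x = ∑' k, a k * z k x * g x := fun x =>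
      tsum_mul_right.symm
    simp only [h3]
    rw [← h1]
    refine tsum_congr fun k => ?_
    rw [← integral_const_mul]
    refine integral_congr_ae (Eventually.of_forall fun x => ?_)
    change a k * z k x * g x = a k * (z k x * g x)
    ring

end MP3483
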