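import Pool.Agent.Lib_MP_3483a5_an.CVA

/-!
# MP_3483a5_an, piece WC

Chain rule for `N ∘ (f * φ)`, `N` of class `C¹`.
Proof.  `F := cv φ f` is bounded and continuous with line derivative `cv (pd j φ) f = cv φ g` (`CVA`), also
bounded, so `N ∘ F` has line derivative `fderiv ℝ N (F x) (cv φ g x)` at every point in the direction
`ev j` (`HasFDerivAt.comp_hasDerivAt`); both are bounded (continuous functions on a compact ball).
Integration by parts against the Schwartz function `ψ`: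
`integral_bilinear_hasLineDerivAt_right_eq_neg_left_of_integrable` (all products integrable).
-/

open MeasureTheory Filter Topology Complex SchwartzMap
open scoped FourierTransform LineDeriv Laplacian ENNReal NNReal ComplexConjugate

namespace MP3483
variable {d : ℕ}

theorem WC_integrable {h : Sp d → ℂ} (hc : Continuous h) (hb : ∃ C : ℝ, ∀ x, ‖h x‖ ≤ C)
    (ψ : 𝓢(Sp d, ℂ)) : Integrable (fun x => h x * ψ x) volume := by
  obtain ⟨C, hC⟩ := hb
  have h1 : Integrable (fun x => ψ x) volume := ψ.integrable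
  refine (h1.norm.const_mul C).mono' (hc.mul ψ.continuous).aestronglyMeasurable ?_
  refine Eventually.of_forall fun x => ?_
  rw [norm_mul]
  exact mul_le_mul_of_nonneg_right (hC x) (norm_nonneg _)

/-- a continuous function of a bounded function is bounded -/
theorem WC_bdd {X : Type*} {E : Type*} [NormedAddCommGroup E] {H : ℂ → E} (hH : Continuous H)
    {F : X → ℂ} (hb : ∃ C : ℝ, ∀ x, ‖F x‖ ≤ C) : ∃ C : ℝ, ∀ x, ‖H (F x)‖ ≤ C := by
  obtain ⟨C, hC⟩ := hb
  obtain ⟨K, hK⟩ := (isCompact_closedBall (0 : ℂ) C).exists_bound_of_continuousOn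
    hH.continuousOn
  exact ⟨K, fun x => hK _ (by simpa using hC x)⟩

theorem weak_comp_cv {p : ℝ≥0∞} (hp : 1 ≤ p) {j : Fin d} {f g : Sp d → ℂ}
    (hf : MemLp f p volume) (hg : MemLp g p volume) (h : WeakPartial j f g) {N : ℂ → ℂ}
    (hN : ContDiff ℝ 1 N) (φ : 𝓢(Sp d, ℂ)) :
    WeakPartial j (fun x => N (cv φ f x)) (fun x => fderiv ℝ N (cv φ f x) (cv φ g x)) := by
  intro ψ
  obtain ⟨hFc, hFb⟩ := cv_bdd hp hf φ
  obtain ⟨hGc, hGb⟩ := cv_bdd hp hg φ
  have hFd : ∀ x, HasLineDerivAt ℝ (cv φ f) (cv φ g x) x (ev j) := by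
    intro x
    have h1 := cv_hasLineDerivAt hp hf φ j x
    rwa [cv_partial_eq hp hp hf hg h φ x] at h1
  have hfN : Continuous (fderiv ℝ N) := hN.continuous_fderiv one_ne_zero
  have hu : ∀ x, HasLineDerivAt ℝ (fun x => N (cv φ f x))
      (fderiv ℝ N (cv φ f x) (cv φ g x)) x (ev j) := by
    intro x
    have h1 : HasDerivAt (fun t : ℝ => cv φ f (x + t • ev j)) (cv φ g x) 0 := hFd x
    have h2 : HasFDerivAt N (fderiv ℝ N (cv φ f x)) (cv φ f (x + (0 : ℝ) • ev j)) := by
      rw [zero_smul, add_zero]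
      exact (hN.differentiable one_ne_zero _).hasFDerivAt
    exact HasFDerivAt.comp_hasDerivAt (l := N) (0 : ℝ) h2 h1
  have hψ : ∀ x, HasLineDerivAt ℝ (fun x => ψ x) (pd j ψ x) x (ev j) := by
    intro x
    have h1 := (SchwartzMap.hasFDerivAt ψ x).hasLineDerivAt (ev j)
    have h2 : pd j ψ x = fderiv ℝ ψ x (ev j) := by
      unfold pd
      rw [SchwartzMap.lineDerivOp_apply_eq_fderiv]
    rw [h2]
    exact h1
  have huc : Continuous (fun x => N (cv φ f x)) := hN.continuous.comp hFc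
  have hub := WC_bdd hN.continuous hFb
  have huc' : Continuous (fun x => fderiv ℝ N (cv φ f x) (cv φ g x)) :=
    (hfN.comp hFc).clm_apply hGc
  have hub' : ∃ C : ℝ, ∀ x, ‖fderiv ℝ N (cv φ f x) (cv φ g x)‖ ≤ C := by
    obtain ⟨C1, hC1⟩ := WC_bdd hfN hFb
    obtain ⟨C2, hC2⟩ := hGb
    refine ⟨C1 * C2, fun x => ?_⟩
    refine ((fderiv ℝ N (cv φ f x)).le_opNorm _).trans ?_
    exact mul_le_mul (hC1 x) (hC2 x) (norm_nonneg _) ((norm_nonneg _).trans (hC1 x))
  have key := integral_bilinear_hasLineDerivAt_right_eq_neg_left_of_integrable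
    (μ := (volume : Measure (Sp d))) (B := ContinuousLinearMap.mul ℝ ℂ)
    (f := fun x => N (cv φ f x)) (f' := fun x => fderiv ℝ N (cv φ f x) (cv φ g x))
    (g := fun x => ψ x) (g' := fun x => pd j ψ x) (v := ev j)
    (WC_integrable huc' hub' ψ) (WC_integrable huc hub (pd j ψ)) (WC_integrable huc hub ψ)
    (fun x _ => hu x) (fun x _ => hψ x)
  have key2 : ∫ x, N (cv φ f x) * pd j ψ x =
      -∫ x, fderiv ℝ N (cv φ f x) (cv φ g x) * ψ x := key
  rw [key2, neg_neg]

end MP3483
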